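import Pool.Agent.H56.ST.RobStm
import Pool.Agent.H56.NWR.Frac
import Pool.Agent.H56.NWR.Dual
import Pool.Agent.H56.NWR.Perfect
import Pool.Agent.H56.NWR.LP

/-!
# Robust stability of the fractional Nash-Williams theorem: the dual data
-/

open Finset

namespace ST

open Pool.Agent.H6.Abund.FarkasAux

theorem lpdR : H56NWR.LPD := fun A b c hp hd => H56NWR.lp_duality A b c hp hd

/-- Farkas' lemma for triangles, with a load -/
theorem exists_weightsF {V : Type} [Fintype V] [DecidableEq V] (g f : V → V → ℝ)
    (g01 : ∀ x y, g x y = 0 ∨ g x y = 1)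
    (gs : ∀ x y, g x y = g y x) (fs : ∀ x y, f x y = f y x)
    (tot : ∀ z : V → V → ℝ, (∀ x y, z x y = z y x) →
      (∀ x y c, g x y = 1 → g y c = 1 → g x c = 1 → 0 ≤ z x y + z y c + z x c) →
      0 ≤ ∑ x, ∑ y, (g x y * f x y) * z x y) :
    ∃ w : V × V × V → ℝ, (∀ t, 0 ≤ w t) ∧ (∀ t, w t ≠ 0 → H56NWR.tg g t = 1) ∧
      ∀ e : V × V, ∑ t, w t * H56NWR.tv t e = g e.1 e.2 * f e.1 e.2 := by
  classical
  rcases farkas_fintype (K := ℝ) (fun t : V × V × V => (H56NWR.tg g t) •
      (H56NWR.tv t : V × V → ℝ))
    (fun e : V × V => g e.1 e.2 * f e.1 e.2) with ⟨α, hα, hsum⟩ | ⟨F, hf, hfχ⟩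
  · have htg : ∀ t, H56NWR.tg g t = 0 ∨ H56NWR.tg g t = 1 := by
      intro t
      unfold H56NWR.tg
      rcases g01 t.1 t.2.1 with h1 | h1 <;> rcases g01 t.2.1 t.2.2 with h2 | h2 <;>
        rcases g01 t.1 t.2.2 with h3 | h3 <;> simp [h1, h2, h3]
    refine ⟨fun t => α t * H56NWR.tg g t, ?_, ?_, ?_⟩
    · intro t
      rcases htg t with h | h
      · simp [h]
      · simpa [h] using hα t
    · intro t ht
      rcases htg t with h | h
      · exact absurd (by simp [h]) ht
      · exact h
    · intro e
      have h := congrFun hsum e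
      simp only [Finset.sum_apply, Pi.smul_apply, smul_eq_mul] at h
      rw [← h]
      refine Finset.sum_congr rfl fun t _ => ?_
      ring
  · exfalso
    have hdec : ∀ G : V × V → ℝ, F G = ∑ e, G e * F (Pi.single e 1) := by
      intro G
      have h1 : G = ∑ e, G e • (Pi.single e (1 : ℝ) : V × V → ℝ) := by
        funext e'
        simp only [Finset.sum_apply, Pi.smul_apply, smul_eq_mul, Pi.single_apply, mul_ite, mul_one,
          mul_zero, Finset.sum_ite_eq, Finset.mem_univ, if_true]
      conv_lhs => rw [h1]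
      rw [map_sum]
      refine Finset.sum_congr rfl fun e _ => ?_
      rw [map_smul, smul_eq_mul]
    let z : V → V → ℝ := fun x y => F (Pi.single (x, y) 1) + F (Pi.single (y, x) 1)
    have hz := tot z (fun x y => add_comm _ _) ?_
    · have h1 : ∑ x, ∑ y, (g x y * f x y) * z x y = 2 * F (fun e : V × V => g e.1 e.2 * f e.1 e.2) := by
        rw [hdec, Fintype.sum_prod_type]
        simp only [z, mul_add, Finset.sum_add_distrib]
        have h2 : ∑ x, ∑ y, (g x y * f x y) * F (Pi.single (y, x) 1) =
            ∑ x, ∑ y, (g x y * f x y) * F (Pi.single (x, y) 1) := by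
          rw [Finset.sum_comm]
          refine Finset.sum_congr rfl fun x _ => Finset.sum_congr rfl fun y _ => ?_
          rw [gs y x, fs y x]
        rw [h2]; ring
      linarith
    · intro a b c hab hbc hac
      have h1 := hf (a, b, c)
      rw [map_smul, hdec] at h1
      have h2 : H56NWR.tg g (a, b, c) = 1 := by simp [H56NWR.tg, hab, hbc, hac]
      rw [h2, one_smul] at h1
      have h3 : ∑ e, H56NWR.tv (a, b, c) e * F (Pi.single e 1) = z a b + z b c + z a c := by
        simp only [H56NWR.tv, add_mul, ite_mul, one_mul, zero_mul, Finset.sum_add_distrib,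
          Finset.sum_ite_eq', Finset.mem_univ, if_true]
        simp only [z]
        ring
      rw [h3] at h1
      exact h1

/-- from ordered triples to a symmetric function -/
theorem hasDec_of {V : Type} [Fintype V] [DecidableEq V] (g f : V → V → ℝ)
    (gs : ∀ x y, g x y = g y x)
    (w : V × V × V → ℝ) (w0 : ∀ t, 0 ≤ w t) (wt : ∀ t, w t ≠ 0 → H56NWR.tg g t = 1)
    (g01 : ∀ x y, g x y = 0 ∨ g x y = 1)
    (w1 : ∀ e : V × V, ∑ t, w t * H56NWR.tv t e = g e.1 e.2 * f e.1 e.2) : HasDec g f := by
  have tg1 : ∀ a b c, H56NWR.tg g (a, b, c) = 1 → g a b = 1 ∧ g b c = 1 ∧ g a c = 1 := by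
    intro a b c h
    unfold H56NWR.tg at h
    simp only at h
    rcases g01 a b with h1 | h1
    · simp [h1] at h
    rcases g01 b c with h2 | h2
    · simp [h2] at h
    rcases g01 a c with h3 | h3
    · simp [h3] at h
    exact ⟨h1, h2, h3⟩
  refine ⟨fun x y c => w (x, y, c) + w (y, x, c) + w (c, x, y) + w (c, y, x) + w (x, c, y) +
    w (y, c, x), ?_, ?_, ?_, ?_, ?_⟩
  · intro x y c
    have := w0 (x, y, c)
    have := w0 (y, x, c)
    have := w0 (c, x, y)
    have := w0 (c, y, x)
    have := w0 (x, c, y)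
    have := w0 (y, c, x)
    positivity
  · intro x y c; simp only; ring
  · intro x y c; simp only; ring
  · intro x y c h
    simp only at h
    by_contra hcon
    apply h
    have k : ∀ a b d, ({a, b, d} : Finset V) = {x, y, c} → w (a, b, d) = 0 ∨ True := by
      intro a b d _; right; trivial
    have e1 : w (x, y, c) = 0 := by
      by_contra h0
      exact hcon (tg1 _ _ _ (wt _ h0))
    have e2 : w (y, x, c) = 0 := by
      by_contra h0
      obtain ⟨a1, a2, a3⟩ := tg1 _ _ _ (wt _ h0)
      exact hcon ⟨by rw [gs]; exact a1, a3, a2⟩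
    have e3 : w (c, x, y) = 0 := by
      by_contra h0
      obtain ⟨a1, a2, a3⟩ := tg1 _ _ _ (wt _ h0)
      exact hcon ⟨a2, by rw [gs]; exact a3, by rw [gs]; exact a1⟩
    have e4 : w (c, y, x) = 0 := by
      by_contra h0
      obtain ⟨a1, a2, a3⟩ := tg1 _ _ _ (wt _ h0)
      exact hcon ⟨by rw [gs]; exact a2, by rw [gs]; exact a1, by rw [gs]; exact a3⟩
    have e5 : w (x, c, y) = 0 := by
      by_contra h0
      obtain ⟨a1, a2, a3⟩ := tg1 _ _ _ (wt _ h0)
      exact hcon ⟨a3, by rw [gs]; exact a2, a1⟩
    have e6 : w (y, c, x) = 0 := by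
      by_contra h0
      obtain ⟨a1, a2, a3⟩ := tg1 _ _ _ (wt _ h0)
      exact hcon ⟨by rw [gs]; exact a3, a1, by rw [gs]; exact a2⟩
    rw [e1, e2, e3, e4, e5, e6]; norm_num
  · intro x y
    have h := w1 (x, y)
    simp only at h
    rw [← h]
    rw [Fintype.sum_prod_type]
    simp only [Fintype.sum_prod_type]
    simp only [H56NWR.tv, mul_add, mul_ite, mul_one, mul_zero, Finset.sum_add_distrib,
      Prod.mk.injEq]
    have s1 : ∑ a, ∑ b, ∑ c, (if x = a ∧ y = b then w (a, b, c) else 0) = ∑ c, w (x, y, c) := by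
      rw [Finset.sum_eq_single x, Finset.sum_eq_single y]
      · simp
      · intro b _ hb; simp [Ne.symm hb]
      · simp
      · intro a _ ha; simp [Ne.symm ha]
      · simp
    have s2 : ∑ a, ∑ b, ∑ c, (if x = b ∧ y = a then w (a, b, c) else 0) = ∑ c, w (y, x, c) := by
      rw [Finset.sum_eq_single y, Finset.sum_eq_single x]
      · simp
      · intro b _ hb; simp [Ne.symm hb]
      · simp
      · intro a _ ha; simp [Ne.symm ha]
      · simp
    have s3 : ∑ a, ∑ b, ∑ c, (if x = b ∧ y = c then w (a, b, c) else 0) = ∑ c, w (c, x, y) := by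
      refine Finset.sum_congr rfl fun a _ => ?_
      rw [Finset.sum_eq_single x, Finset.sum_eq_single y]
      · simp
      · intro b _ hb; simp [Ne.symm hb]
      · simp
      · intro b _ hb; simp [Ne.symm hb]
      · simp
    have s4 : ∑ a, ∑ b, ∑ c, (if x = c ∧ y = b then w (a, b, c) else 0) = ∑ c, w (c, y, x) := by
      refine Finset.sum_congr rfl fun a _ => ?_
      rw [Finset.sum_eq_single y, Finset.sum_eq_single x]
      · simp
      · intro b _ hb; simp [Ne.symm hb]
      · simp
      · intro b _ hb; simp [Ne.symm hb]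
      · simp
    have s5 : ∑ a, ∑ b, ∑ c, (if x = a ∧ y = c then w (a, b, c) else 0) = ∑ c, w (x, c, y) := by
      rw [Finset.sum_eq_single x]
      · refine Finset.sum_congr rfl fun b _ => ?_
        rw [Finset.sum_eq_single y]
        · simp
        · intro c _ hc; simp [Ne.symm hc]
        · simp
      · intro a _ ha; simp [Ne.symm ha]
      · simp
    have s6 : ∑ a, ∑ b, ∑ c, (if x = c ∧ y = a then w (a, b, c) else 0) = ∑ c, w (y, c, x) := by
      rw [Finset.sum_eq_single y]
      · refine Finset.sum_congr rfl fun b _ => ?_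
        rw [Finset.sum_eq_single x]
        · simp
        · intro c _ hc; simp [Ne.symm hc]
        · simp
      · intro a _ ha; simp [Ne.symm ha]
      · simp
    rw [s1, s2, s3, s4, s5, s6]

theorem st_dualR : StDualR := by
  classical
  intro V _ g f η hn h0 h1 g01 gs fs hf hdeg hno
  obtain ⟨z, zs, tri, htot⟩ : ∃ z : V → V → ℝ, (∀ x y, z x y = z y x) ∧
      (∀ x y c, g x y = 1 → g y c = 1 → g x c = 1 →
        0 ≤ z x y + z y c + z x c) ∧ ∑ x, ∑ y, (g x y * f x y) * z x y < 0 := by
    by_contra hc
    apply hno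
    obtain ⟨w, w0, wt, w1⟩ := exists_weightsF g f g01 gs fs
      (by
        intro z zs tri
        by_contra hneg
        exact hc ⟨z, zs, tri, not_le.mp hneg⟩)
    exact hasDec_of g f gs w w0 wt g01 w1
  have hex := H56NWR.exists_perfect' g g01 gs (by
    intro x
    have h2 := hdeg x
    rw [Finset.sum_sub_distrib] at h2
    simp only [Finset.sum_const, Finset.card_univ, nsmul_eq_mul, mul_one] at h2
    nlinarith)
  obtain ⟨p, r, D⟩ := H56NWR.exists_data lpdR g z ((1 / 4 + η) * (Fintype.card V : ℝ)) g01 gs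
    hdeg zs tri hex
  have hs : 0 < ∑ x, |r x| := by
    rcases (Finset.sum_nonneg fun x (_ : x ∈ (Finset.univ : Finset V)) =>
      abs_nonneg (r x)).lt_or_eq with h | h
    · exact h
    · exfalso
      have hr : ∀ x, r x = 0 := by
        intro x
        have := (Finset.sum_eq_zero_iff_of_nonneg fun x _ => abs_nonneg (r x)).mp h.symm x
          (Finset.mem_univ x)
        exact abs_eq_zero.mp this
      have : 0 ≤ ∑ x, ∑ y, (g x y * f x y) * z x y := by
        refine Finset.sum_nonneg fun x _ => Finset.sum_nonneg fun y _ => ?_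
        rcases g01 x y with h | h
        · rw [h, zero_mul, zero_mul]
        · have h4 := D.hr x y h
          rw [hr x, hr y] at h4
          have h5 := (abs_le.1 (hf x y)).1
          rw [h, one_mul]
          exact mul_nonneg (by linarith) (by linarith)
      linarith
  -- the total
  have htot2 : ∑ x, ∑ y, g x y * z x y ≤ η * ((Fintype.card V : ℝ) * ∑ x, |r x|) := by
    have k : ∀ x y, g x y * z x y ≤ (1 / (1 - η / 8)) * ((g x y * f x y) * z x y) +
        (η / 2) * (|r x| + |r y|) := by
      intro x y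
      have r1 := le_abs_self (r x)
      have r2 := le_abs_self (r y)
      have a1 := abs_nonneg (r x)
      have a2 := abs_nonneg (r y)
      obtain ⟨f1, f2⟩ := abs_le.1 (hf x y)
      have hp : 0 < 1 - η / 8 := by linarith
      rcases g01 x y with h | h
      · rw [h, zero_mul, zero_mul, zero_mul, mul_zero, zero_add]
        exact mul_nonneg (by linarith) (by linarith)
      · have h4 := D.hr x y h
        rw [h, one_mul, one_mul]
        have e1 : (1 / (1 - η / 8)) * (f x y * z x y) = z x y * (f x y / (1 - η / 8)) := by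
          field_simp
        rw [e1]
        have q1 : 1 ≤ f x y / (1 - η / 8) := by rw [le_div_iff₀ hp]; linarith
        have q2 : f x y / (1 - η / 8) ≤ 1 + η / 2 := by
          rw [div_le_iff₀ hp]; nlinarith
        rcases le_total 0 (z x y) with hz | hz
        · have := mul_le_mul_of_nonneg_left q1 hz
          nlinarith
        · nlinarith
    have k2 : ∑ x, ∑ y, g x y * z x y ≤ ∑ x, ∑ y, ((1 / (1 - η / 8)) * ((g x y * f x y) * z x y) +
        (η / 2) * (|r x| + |r y|)) :=
      Finset.sum_le_sum fun x _ => Finset.sum_le_sum fun y _ => k x y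
    have k3 : ∑ x, ∑ y, ((1 / (1 - η / 8)) * ((g x y * f x y) * z x y) +
        (η / 2) * (|r x| + |r y|)) = (1 / (1 - η / 8)) * ∑ x, ∑ y, (g x y * f x y) * z x y +
        η * ((Fintype.card V : ℝ) * ∑ x, |r x|) := by
      simp only [Finset.sum_add_distrib, ← Finset.mul_sum, mul_add, Finset.sum_const,
        Finset.card_univ, nsmul_eq_mul]
      ring
    rw [k3] at k2
    have hp : 0 < 1 - η / 8 := by linarith
    have : (1 / (1 - η / 8)) * ∑ x, ∑ y, (g x y * f x y) * z x y ≤ 0 :=
      mul_nonpos_of_nonneg_of_nonpos (by positivity) htot.le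
    linarith
  obtain ⟨c, hc⟩ : ∃ c : ℝ, c = (Fintype.card V : ℝ) / ∑ x, |r x| := ⟨_, rfl⟩
  have hc0 : 0 < c := by rw [hc]; exact div_pos hn hs
  have hcs : c * ∑ x, |r x| = (Fintype.card V : ℝ) := by
    rw [hc]; exact div_mul_cancel₀ _ hs.ne'
  have hpz : ∀ x y, p x y ≠ 0 → c * z x y + c * r x + c * r y = 0 := by
    intro x y hp
    have h4 := D.pz x y hp
    rw [h4]; ring
  refine ⟨fun x y => c * z x y, fun x => c * r x, p, ?_, ?_, D.ps, ?_, ?_⟩
  · refine ⟨h0, hn, g01, gs, ?_, ?_, ?_, hdeg, ?_, ?_⟩
    · intro x y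
      show c * z x y = c * z y x
      rw [zs]
    · intro x y w h2 h3 h4
      have h5 := tri x y w h2 h3 h4
      have := mul_nonneg hc0.le h5
      show 0 ≤ c * z x y + c * z y w + c * z x w
      linarith
    · intro x y h2
      have h5 := D.hr x y h2
      have := mul_nonneg hc0.le (by linarith : 0 ≤ z x y + r x + r y)
      show 0 ≤ c * z x y + c * r x + c * r y
      linarith
    · have e : ∑ x, ∑ y, g x y * (c * z x y) = c * ∑ x, ∑ y, g x y * z x y := by
        rw [Finset.mul_sum]
        refine Finset.sum_congr rfl fun x _ => ?_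
        rw [Finset.mul_sum]
        refine Finset.sum_congr rfl fun y _ => ?_
        ring
      show ∑ x, ∑ y, g x y * (c * z x y) ≤ _
      rw [e]
      have := mul_le_mul_of_nonneg_left htot2 hc0.le
      refine this.trans (le_of_eq ?_)
      have : c * (η * ((Fintype.card V : ℝ) * ∑ x, |r x|)) =
        η * ((Fintype.card V : ℝ) * (c * ∑ x, |r x|)) := by ring
      rw [this, hcs]; ring
    · show ∑ x, |c * r x| = _
      rw [← hcs, Finset.mul_sum]
      refine Finset.sum_congr rfl fun x _ => ?_
      rw [abs_mul, abs_of_pos hc0]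
  · refine ⟨D.p0, fun x => (D.p1 x).le, fun y => ?_, ?_, ?_⟩
    · rw [← D.p1 y]
      exact (Finset.sum_congr rfl fun x _ => D.ps x y).le
    · rw [Finset.sum_congr rfl fun x _ => D.p1 x]
      simp
    · rw [zero_mul]
      refine Finset.sum_nonpos fun x _ => Finset.sum_nonpos fun y _ => ?_
      by_cases hp : p x y = 0
      · rw [hp, zero_mul]
      · have h5 := D.pg x y hp
        have : cc g (fun x y => c * z x y) (fun x => c * r x) x y = 0 := by
          unfold cc
          rw [if_pos h5, hpz x y hp]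
          norm_num
        rw [this, mul_zero]
  · refine ⟨fun P => div_nonneg (D.p0 _ _) hn.le, fun x y => ?_, fun P hP => ?_, fun x => ?_,
      fun _ => zero_le_one, fun _ => le_rfl⟩
    · show p x y / _ = p y x / _
      rw [D.ps]
    · apply D.pg
      intro h
      apply hP
      rw [h, zero_div]
    · show ∑ y, p x y / _ = _
      rw [← Finset.sum_div, D.p1]
  · intro P hP
    apply hpz
    intro h
    apply hP
    rw [h, zero_div]

end ST
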