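import Pool.Agent.H56.ST.Main
import Pool.Agent.H56.ST.DualR

/-!
# Robust stability of the fractional Nash-Williams theorem
-/

open Finset

namespace ST

theorem st_rob : StRob := by
  classical
  intro ρ0 hρ0
  obtain ⟨ρ, hρ⟩ : ∃ ρ : ℝ, ρ = min ρ0 (1 / 8) := ⟨_, rfl⟩
  have ρ0' : 0 < ρ := by rw [hρ]; exact lt_min hρ0 (by norm_num)
  have ρ1 : ρ ≤ ρ0 := by rw [hρ]; exact min_le_left _ _
  have ρ2 : ρ ≤ 1 / 8 := by rw [hρ]; exact min_le_right _ _
  obtain ⟨lam, hlam⟩ : ∃ lam : ℝ, lam = min (ρ / 100) (1 / 100) := ⟨_, rfl⟩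
  have lam0 : 0 < lam := by rw [hlam]; exact lt_min (by linarith) (by norm_num)
  have lam1 : lam ≤ ρ / 100 := by rw [hlam]; exact min_le_left _ _
  have lam2 : lam ≤ 1 / 100 := by rw [hlam]; exact min_le_right _ _
  obtain ⟨ξ, ξ0, HT⟩ := st_tri st_block (st_beta st_block) lam lam0 lam2
  obtain ⟨θ, hθ⟩ : ∃ θ : ℝ, θ = min (min (1 / 100) (ξ / 100000)) (min (lam / 10000000) (ρ / 100)) :=
    ⟨_, rfl⟩
  have θ0 : 0 < θ := by
    rw [hθ]
    exact lt_min (lt_min (by norm_num) (by linarith)) (lt_min (by linarith) (by linarith))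
  have θ1 : θ ≤ 1 / 100 := by rw [hθ]; exact le_trans (min_le_left _ _) (min_le_left _ _)
  have θ2 : θ ≤ ξ / 100000 := by rw [hθ]; exact le_trans (min_le_left _ _) (min_le_right _ _)
  have θ3 : θ ≤ lam / 10000000 := by rw [hθ]; exact le_trans (min_le_right _ _) (min_le_left _ _)
  have θ4 : θ ≤ ρ / 100 := by rw [hθ]; exact le_trans (min_le_right _ _) (min_le_right _ _)
  obtain ⟨ε1, ε10, HK⟩ := st_clus θ θ0 θ1
  obtain ⟨δ1, δ10, HC⟩ := st_corenm' ξ ξ0
  obtain ⟨ε, hε⟩ : ∃ ε : ℝ, ε = min (min (min ε1 ξ) (min (lam / 100) δ1)) (ρ ^ 2) := ⟨_, rfl⟩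
  have ε0 : 0 < ε := by
    rw [hε]
    exact lt_min (lt_min (lt_min ε10 ξ0) (lt_min (by linarith) δ10)) (by positivity)
  have εe : ε ≤ ρ ^ 2 := by rw [hε]; exact min_le_right _ _
  have εz : ε ≤ min (min ε1 ξ) (min (lam / 100) δ1) := by rw [hε]; exact min_le_left _ _
  have εa : ε ≤ ε1 := εz.trans (le_trans (min_le_left _ _) (min_le_left _ _))
  have εb : ε ≤ ξ := εz.trans (le_trans (min_le_left _ _) (min_le_right _ _))
  have εc : ε ≤ lam / 100 := εz.trans (le_trans (min_le_right _ _) (min_le_left _ _))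
  have εd : ε ≤ δ1 := εz.trans (le_trans (min_le_right _ _) (min_le_right _ _))
  obtain ⟨δ2, δ20, HS⟩ := st_star' ε ε0
  obtain ⟨η, hη⟩ : ∃ η : ℝ, η = min (min δ2 (9 / 8000)) ε := ⟨_, rfl⟩
  have η0 : 0 < η := by
    rw [hη]
    exact lt_min (lt_min δ20 (by norm_num)) ε0
  have η1 : η ≤ δ2 := by rw [hη]; exact le_trans (min_le_left _ _) (min_le_left _ _)
  have η2 : η ≤ 9 / 8000 := by rw [hη]; exact le_trans (min_le_left _ _) (min_le_right _ _)
  have η3 : η ≤ ε := by rw [hη]; exact min_le_right _ _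
  refine ⟨η / 8, by linarith, ?_⟩
  intro V _ g f hV g01 gs fs hf hdeg0
  have hdeg : ∀ x, ∑ y, (1 - g x y) ≤ (1 / 4 + η) * (Fintype.card V : ℝ) := by
    intro x
    refine (hdeg0 x).trans (mul_le_mul_of_nonneg_right ?_ hV.le)
    linarith
  by_cases hno : HasDec g f
  · exact Or.inl hno
  right
  obtain ⟨z, r, p, D, Np, ps, Wp, ep⟩ := st_dualR V g f η hV η0.le (by linarith) g01 gs fs hf
    hdeg hno
  have U : UIP r η := st_ui st_avg st_wt _ _ _ _ _ _ D Wp ep (by linarith)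
  obtain ⟨M, NMM, Ms, M4, Men, Mdeg⟩ := HS _ _ _ _ _ _ D U η1 Np ps
  have n0 : (0 : ℝ) < (Fintype.card V : ℝ) := D.card0
  have NMδ : NM g z r M δ1 := NMM.mono n0.le εd
  have NMξ : NM g z r M ξ := NMM.mono n0.le εb
  have CM := HC _ _ _ _ _ _ D U (η3.trans εd) NMδ
  obtain ⟨m, C, K⟩ := HK _ _ η M n0 η0.le (η3.trans εa) D.g01 D.gs D.deg NMM.nn NMM.row
    (NMM.mono n0.le εa).mass
    (le_trans Men (mul_le_mul_of_nonneg_right εa (by positivity)))
    (le_trans Mdeg (mul_le_mul_of_nonneg_right εa n0.le))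
  have hloop : ∀ i, wij M C i i < lam := by
    intro i
    have h := st_loop st_block _ _ _ _ _ _ _ _ _ _ _ D NMM Ms θ1 K i
    linarith
  have htri : ∀ i j k, i ≠ j → j ≠ k → i ≠ k →
      ¬ (lam ≤ wij M C i j ∧ lam ≤ wij M C j k ∧ lam ≤ wij M C i k) :=
    HT _ _ _ _ _ _ _ _ _ _ D U (η3.trans εb) NMξ Ms M4 CM θ0.le (by linarith) (by linarith) K
  obtain ⟨A, hA1, hA2⟩ := st_part _ _ M θ (100000 * θ) lam m C n0 D.g01 D.gs NMM.nn NMM.row Ms M4
    θ0.le θ1 lam0 K hloop htri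
  refine ⟨A, ?_, ?_, ?_⟩
  · refine le_trans hA1 (mul_le_mul_of_nonneg_right ?_ n0.le)
    linarith
  · have e1 : crs g A = ∑ x ∈ A, (∑ y, (1 - g x y) - ∑ y ∈ A, (1 - g x y)) := by
      unfold crs
      refine Finset.sum_congr rfl fun x _ => ?_
      rw [← Finset.sum_add_sum_compl A (fun y => 1 - g x y)]; ring
    rw [e1]
    refine le_trans hA2 (mul_le_mul_of_nonneg_right ?_ (by positivity))
    linarith
  · -- the degrees
    have hk : 0 < (1 / 4 + η) * (Fintype.card V : ℝ) := by positivity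
    have hpos : ∀ x, 0 ≤ 1 - (∑ y, (1 - g x y)) / ((1 / 4 + η) * (Fintype.card V : ℝ)) := by
      intro x
      have := (div_le_one hk).2 (hdeg x)
      linarith
    have h1 : ((univ.filter (fun x => ∑ y, (1 - g x y) <
        (1 / 4 - ρ0) * (Fintype.card V : ℝ))).card : ℝ) * ρ ≤
        ∑ x, (1 - (∑ y, (1 - g x y)) / ((1 / 4 + η) * (Fintype.card V : ℝ))) := by
      rw [← nsmul_eq_mul, ← Finset.sum_const]
      refine le_trans ?_ (Finset.sum_le_sum_of_subset_of_nonneg (Finset.subset_univ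
        (univ.filter (fun x => ∑ y, (1 - g x y) < (1 / 4 - ρ0) * (Fintype.card V : ℝ))))
        fun x _ _ => hpos x)
      refine Finset.sum_le_sum fun x hx => ?_
      have hx1 := (Finset.mem_filter.1 hx).2
      have hx2 : ∑ y, (1 - g x y) ≤ (1 / 4 - ρ) * (Fintype.card V : ℝ) := by
        refine hx1.le.trans (mul_le_mul_of_nonneg_right ?_ n0.le)
        linarith
      have hx3 : (∑ y, (1 - g x y)) / ((1 / 4 + η) * (Fintype.card V : ℝ)) ≤ 1 - ρ := by
        rw [div_le_iff₀ hk]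
        refine hx2.trans ?_
        have : (1 / 4 - ρ) ≤ (1 - ρ) * (1 / 4 + η) := by nlinarith
        calc (1 / 4 - ρ) * (Fintype.card V : ℝ) ≤ ((1 - ρ) * (1 / 4 + η)) * (Fintype.card V : ℝ) :=
              mul_le_mul_of_nonneg_right this n0.le
          _ = (1 - ρ) * ((1 / 4 + η) * (Fintype.card V : ℝ)) := by ring
      linarith
    have h2 : ((univ.filter (fun x => ∑ y, (1 - g x y) <
        (1 / 4 - ρ0) * (Fintype.card V : ℝ))).card : ℝ) * ρ ≤ (ρ * (Fintype.card V : ℝ)) * ρ := by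
      refine h1.trans (Mdeg.trans ?_)
      have := mul_le_mul_of_nonneg_right εe n0.le
      linarith [this, (by ring : ρ ^ 2 * (Fintype.card V : ℝ) = (ρ * (Fintype.card V : ℝ)) * ρ)]
    have h3 := le_of_mul_le_mul_right h2 ρ0'
    refine h3.trans (mul_le_mul_of_nonneg_right ρ1 n0.le)

end ST
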