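import Pool.Agent.H56.ST.Stm

/-!
Stability of the fractional Nash-Williams theorem: averages of the slack (row ST-1)
-/

open Finset

namespace ST

section

variable {V : Type} [Fintype V]

theorem avg_m1 {g : V → V → ℝ} {w : V × V → ℝ} {u : V → ℝ} (hw : Wt g w u) (f : V → ℝ) :
    ∑ P, w P * f P.1 = (∑ x, u x * f x) / (Fintype.card V : ℝ) := by
  rw [Fintype.sum_prod_type, Finset.sum_div]
  refine Finset.sum_congr rfl fun x _ => ?_
  simp only
  rw [← Finset.sum_mul, hw.mar]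
  ring

theorem avg_m2 {g : V → V → ℝ} {w : V × V → ℝ} {u : V → ℝ} (hw : Wt g w u) (f : V → ℝ) :
    ∑ P, w P * f P.2 = (∑ x, u x * f x) / (Fintype.card V : ℝ) := by
  rw [Fintype.sum_prod_type_right, Finset.sum_div]
  refine Finset.sum_congr rfl fun x _ => ?_
  simp only
  rw [← Finset.sum_mul]
  have : ∑ y, w (y, x) = ∑ y, w (x, y) := Finset.sum_congr rfl fun y _ => hw.sym y x
  rw [this, hw.mar]
  ring

theorem avg_dbl {w : V × V → ℝ} {u : V → ℝ} (a b : V × V → V)
    (ha : ∀ f : V → ℝ, ∑ P, w P * f (a P) = (∑ x, u x * f x) / (Fintype.card V : ℝ))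
    (hb : ∀ f : V → ℝ, ∑ P, w P * f (b P) = (∑ x, u x * f x) / (Fintype.card V : ℝ))
    (F : V → V → ℝ) :
    ∑ P, ∑ Q, w P * w Q * F (a P) (b Q) =
      (∑ x, ∑ y, u x * u y * F x y) / (Fintype.card V : ℝ) ^ 2 := by
  calc ∑ P, ∑ Q, w P * w Q * F (a P) (b Q)
      = ∑ P, w P * ((∑ y, u y * F (a P) y) / (Fintype.card V : ℝ)) := by
        refine Finset.sum_congr rfl fun P _ => ?_
        rw [← hb (fun y => F (a P) y), Finset.mul_sum]
        refine Finset.sum_congr rfl fun Q _ => ?_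
        ring
    _ = (∑ x, u x * ((∑ y, u y * F x y) / (Fintype.card V : ℝ))) / (Fintype.card V : ℝ) :=
        ha (fun x => (∑ y, u y * F x y) / (Fintype.card V : ℝ))
    _ = (∑ x, ∑ y, u x * u y * F x y) / (Fintype.card V : ℝ) ^ 2 := by
        rw [Finset.sum_div, Finset.sum_div]
        refine Finset.sum_congr rfl fun x _ => ?_
        have : ∑ y, u x * u y * F x y = u x * ∑ y, u y * F x y := by
          rw [Finset.mul_sum]
          refine Finset.sum_congr rfl fun y _ => ?_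
          ring
        rw [this, pow_two, mul_div_assoc', div_div]

theorem avg_mass {g : V → V → ℝ} {w : V × V → ℝ} {u : V → ℝ} (hw : Wt g w u) :
    ∑ P, w P = (∑ x, u x) / (Fintype.card V : ℝ) := by
  have := avg_m1 hw (fun _ => 1)
  simpa using this

theorem avg_al {g z : V → V → ℝ} {r : V → ℝ} {η : ℝ} {w : V × V → ℝ} {u : V → ℝ}
    (hD : Dat g z r η) (hw : Wt g w u) : ∑ P, w P * alp r P ≤ 2 := by
  have h1 : ∀ P : V × V, w P * alp r P ≤ w P * |r P.1| + w P * |r P.2| := by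
    intro P
    rw [← mul_add]
    refine mul_le_mul_of_nonneg_left ?_ (hw.nn P)
    unfold alp al
    have a1 := le_abs_self (r P.1)
    have a2 := le_abs_self (r P.2)
    have a3 := neg_le_abs (r P.1)
    have a4 := neg_le_abs (r P.2)
    have a5 := abs_nonneg (r P.1)
    have a6 := abs_nonneg (r P.2)
    refine max_le (by linarith) (max_le (by linarith) (by linarith))
  have h2 : ∑ x, u x * |r x| ≤ (Fintype.card V : ℝ) := by
    rw [← hD.nrm]
    refine Finset.sum_le_sum fun x _ => ?_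
    have := hw.u1 x
    have := abs_nonneg (r x)
    nlinarith
  calc ∑ P, w P * alp r P ≤ ∑ P, (w P * |r P.1| + w P * |r P.2|) :=
        Finset.sum_le_sum fun P _ => h1 P
    _ = (∑ x, u x * |r x|) / (Fintype.card V : ℝ) + (∑ x, u x * |r x|) / (Fintype.card V : ℝ) := by
        rw [Finset.sum_add_distrib, avg_m1 hw (fun x => |r x|), avg_m2 hw (fun x => |r x|)]
    _ ≤ 1 + 1 := by
        have := hD.card0
        have h3 : (∑ x, u x * |r x|) / (Fintype.card V : ℝ) ≤ 1 := by
          rw [div_le_one this]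
          exact h2
        linarith
    _ = 2 := by norm_num

omit [Fintype V] in
theorem mm_symm {g : V → V → ℝ} (hg : ∀ x y, g x y = g y x) (P Q : V × V) :
    mm g P Q = mm g Q P := by
  unfold mm
  rw [hg P.1 Q.1, hg P.1 Q.2, hg P.2 Q.1, hg P.2 Q.2]
  ring

theorem avg_id {g z : V → V → ℝ} {r : V → ℝ} {η : ℝ} {w : V × V → ℝ} {u : V → ℝ}
    (hD : Dat g z r η) (hw : Wt g w u) :
    ∑ P, ∑ Q, w P * w Q * sl g z r P Q =
      4 * ((∑ x, ∑ y, u x * u y * (g x y * z x y)) / (Fintype.card V : ℝ) ^ 2)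
      - 2 * ∑ P, w P * alp r P * (∑ Q, w Q - ∑ Q, w Q * mm g P Q)
      + 4 * (∑ Q, w Q) * ∑ P, w P * ee z r P := by
  have e11 := avg_dbl (w := w) (u := u) Prod.fst Prod.fst (avg_m1 hw) (avg_m1 hw)
    (fun x y => g x y * z x y)
  have e12 := avg_dbl (w := w) (u := u) Prod.fst Prod.snd (avg_m1 hw) (avg_m2 hw)
    (fun x y => g x y * z x y)
  have e21 := avg_dbl (w := w) (u := u) Prod.snd Prod.fst (avg_m2 hw) (avg_m1 hw)
    (fun x y => g x y * z x y)
  have e22 := avg_dbl (w := w) (u := u) Prod.snd Prod.snd (avg_m2 hw) (avg_m2 hw)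
    (fun x y => g x y * z x y)
  have ea : ∑ P, ∑ Q, w P * w Q * (alp r P * (1 - mm g P Q)) =
      ∑ P, w P * alp r P * (∑ Q, w Q - ∑ Q, w Q * mm g P Q) := by
    refine Finset.sum_congr rfl fun P _ => ?_
    rw [← Finset.sum_sub_distrib, Finset.mul_sum]
    refine Finset.sum_congr rfl fun Q _ => ?_
    ring
  have eb : ∑ P, ∑ Q, w P * w Q * (alp r Q * (1 - mm g P Q)) =
      ∑ P, w P * alp r P * (∑ Q, w Q - ∑ Q, w Q * mm g P Q) := by
    rw [Finset.sum_comm, ← ea]
    refine Finset.sum_congr rfl fun P _ => Finset.sum_congr rfl fun Q _ => ?_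
    rw [mm_symm hD.gs P Q]
    ring
  have ec : ∑ P, ∑ Q, w P * w Q * ee z r P = (∑ Q, w Q) * ∑ P, w P * ee z r P := by
    rw [Finset.mul_sum]
    refine Finset.sum_congr rfl fun P _ => ?_
    rw [Finset.sum_mul]
    refine Finset.sum_congr rfl fun Q _ => ?_
    ring
  have ed : ∑ P, ∑ Q, w P * w Q * ee z r Q = (∑ Q, w Q) * ∑ P, w P * ee z r P := by
    rw [Finset.sum_comm, ← ec]
    refine Finset.sum_congr rfl fun P _ => Finset.sum_congr rfl fun Q _ => ?_
    ring
  have es : ∀ P Q : V × V, w P * w Q * sl g z r P Q =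
      w P * w Q * (g P.1 Q.1 * z P.1 Q.1) + w P * w Q * (g P.1 Q.2 * z P.1 Q.2) +
      w P * w Q * (g P.2 Q.1 * z P.2 Q.1) + w P * w Q * (g P.2 Q.2 * z P.2 Q.2) -
      w P * w Q * (alp r P * (1 - mm g P Q)) - w P * w Q * (alp r Q * (1 - mm g P Q)) +
      2 * (w P * w Q * ee z r P) + 2 * (w P * w Q * ee z r Q) := by
    intro P Q
    unfold sl
    ring
  calc ∑ P, ∑ Q, w P * w Q * sl g z r P Q
      = (∑ P, ∑ Q, w P * w Q * (g P.1 Q.1 * z P.1 Q.1)) +
        (∑ P, ∑ Q, w P * w Q * (g P.1 Q.2 * z P.1 Q.2)) +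
        (∑ P, ∑ Q, w P * w Q * (g P.2 Q.1 * z P.2 Q.1)) +
        (∑ P, ∑ Q, w P * w Q * (g P.2 Q.2 * z P.2 Q.2)) -
        (∑ P, ∑ Q, w P * w Q * (alp r P * (1 - mm g P Q))) -
        (∑ P, ∑ Q, w P * w Q * (alp r Q * (1 - mm g P Q))) +
        2 * (∑ P, ∑ Q, w P * w Q * ee z r P) + 2 * (∑ P, ∑ Q, w P * w Q * ee z r Q) := by
        simp only [es, Finset.sum_add_distrib, Finset.sum_sub_distrib, ← Finset.mul_sum]
    _ = _ := by
        rw [e11, e12, e21, e22, ea, eb, ec, ed]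
        ring

theorem avg_gz {g z : V → V → ℝ} {r : V → ℝ} {η : ℝ} {w : V × V → ℝ} {u : V → ℝ}
    (hD : Dat g z r η) (hw : Wt g w u) :
    ∑ x, ∑ y, u x * u y * (g x y * z x y) ≤
      2 * (Fintype.card V : ℝ) * (∑ x, (1 - u x) * |r x| + ∑ x, (1 - u x)) +
        η * (Fintype.card V : ℝ) ^ 2 := by
  have h1 : ∀ x y, u x * u y * (g x y * z x y) ≤ g x y * z x y +
      ((1 - u x) * |r x| + |r x| * (1 - u y) + (1 - u x) * |r y| + (1 - u y) * |r y|) := by
    intro x y
    have a1 := hw.u0 x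
    have a2 := hw.u0 y
    have b1 := hw.u1 x
    have b2 := hw.u1 y
    have c1 := abs_nonneg (r x)
    have c2 := abs_nonneg (r y)
    have hu : 0 ≤ 1 - u x * u y := by nlinarith
    have hu2 : 1 - u x * u y ≤ (1 - u x) + (1 - u y) := by nlinarith
    have key : -(|r x| + |r y|) ≤ g x y * z x y := by
      rcases hD.g01 x y with h | h
      · rw [h]
        linarith
      · have := hD.pot x y h
        rw [h]
        have := le_abs_self (r x)
        have := le_abs_self (r y)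
        linarith
    have h2 : (1 - u x * u y) * (-(|r x| + |r y|)) ≤ (1 - u x * u y) * (g x y * z x y) :=
      mul_le_mul_of_nonneg_left key hu
    have h3 : (1 - u x * u y) * (|r x| + |r y|) ≤ ((1 - u x) + (1 - u y)) * (|r x| + |r y|) :=
      mul_le_mul_of_nonneg_right hu2 (by linarith)
    nlinarith
  have h2 : ∑ x, ∑ y, u x * u y * (g x y * z x y) ≤ ∑ x, ∑ y, (g x y * z x y +
      ((1 - u x) * |r x| + |r x| * (1 - u y) + (1 - u x) * |r y| + (1 - u y) * |r y|)) :=
    Finset.sum_le_sum fun x _ => Finset.sum_le_sum fun y _ => h1 x y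
  have h3 : ∑ x, ∑ y, (g x y * z x y +
      ((1 - u x) * |r x| + |r x| * (1 - u y) + (1 - u x) * |r y| + (1 - u y) * |r y|)) =
      ∑ x, ∑ y, g x y * z x y + 2 * (Fintype.card V : ℝ) * (∑ x, (1 - u x) * |r x|) +
        2 * ((∑ x, |r x|) * ∑ x, (1 - u x)) := by
    have k1 : ∑ x, ∑ _y : V, (1 - u x) * |r x| =
        (Fintype.card V : ℝ) * ∑ x, (1 - u x) * |r x| := by
      rw [Finset.mul_sum]
      refine Finset.sum_congr rfl fun x _ => ?_
      rw [Finset.sum_const, Finset.card_univ, nsmul_eq_mul]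
    have k2 : ∑ x, ∑ y, |r x| * (1 - u y) = (∑ x, |r x|) * ∑ y, (1 - u y) := by
      rw [Finset.sum_mul]
      refine Finset.sum_congr rfl fun x _ => ?_
      rw [Finset.mul_sum]
    have k3 : ∑ x, ∑ y, (1 - u x) * |r y| = (∑ x, |r x|) * ∑ y, (1 - u y) := by
      rw [Finset.sum_comm, ← k2]
      refine Finset.sum_congr rfl fun x _ => Finset.sum_congr rfl fun y _ => ?_
      ring
    have k4 : ∑ _x : V, ∑ y, (1 - u y) * |r y| =
        (Fintype.card V : ℝ) * ∑ x, (1 - u x) * |r x| := by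
      rw [Finset.sum_comm, k1]
    simp only [Finset.sum_add_distrib]
    rw [k1, k2, k3, k4]
    ring
  rw [h3, hD.nrm] at h2
  have := hD.tot
  linarith

theorem st_avg : StAvg := by
  intro V _ g z r η w u hD hw
  have hN := hD.card0
  rw [avg_id hD hw]
  have hmass := avg_mass hw
  have h1 : ∑ x, (1 - u x) = (Fintype.card V : ℝ) - ∑ x, u x := by
    rw [Finset.sum_sub_distrib]
    simp
  have hW : ∑ Q, w Q = 1 - (∑ x, (1 - u x)) / (Fintype.card V : ℝ) := by
    rw [hmass, h1]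
    field_simp
    ring
  set d := (∑ x, (1 - u x)) / (Fintype.card V : ℝ) with hd
  have hd0 : 0 ≤ d := by
    rw [hd]
    refine div_nonneg (Finset.sum_nonneg fun x _ => ?_) hN.le
    linarith [hw.u1 x]
  have hal := avg_al hD hw
  have hal0 : 0 ≤ ∑ P, w P * alp r P := by
    refine Finset.sum_nonneg fun P _ => mul_nonneg (hw.nn P) ?_
    unfold alp al
    rcases le_total 0 (r P.1) with h | h
    · rcases le_total 0 (r P.2) with h' | h'
      · exact le_max_of_le_left (by linarith)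
      · exact le_max_of_le_right (le_max_of_le_right (by linarith))
    · exact le_max_of_le_right (le_max_of_le_left (by linarith))
  have hee : 0 ≤ ∑ P, w P * ee z r P := by
    refine Finset.sum_nonneg fun P _ => ?_
    by_cases h : w P = 0
    · rw [h, zero_mul]
    · exact mul_nonneg (hw.nn P) (hD.pot _ _ (hw.supp P h))
  have hgz := avg_gz hD hw
  have hgz2 : (∑ x, ∑ y, u x * u y * (g x y * z x y)) / (Fintype.card V : ℝ) ^ 2 ≤
      2 * ((∑ x, (1 - u x) * |r x|) / (Fintype.card V : ℝ) + d) + η := by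
    rw [div_le_iff₀ (by positivity), hd]
    refine hgz.trans (le_of_eq ?_)
    field_simp
  have hDD : ∑ P, w P * alp r P * DD g η w P =
      (4 * η + d) * ∑ P, w P * alp r P +
        ∑ P, w P * alp r P * (∑ Q, w Q - ∑ Q, w Q * mm g P Q) := by
    rw [Finset.mul_sum, ← Finset.sum_add_distrib]
    refine Finset.sum_congr rfl fun P _ => ?_
    unfold DD
    rw [hW]
    ring
  rw [hDD]
  have h3 : (4 * η + d) * ∑ P, w P * alp r P ≤ (4 * η + d) * 2 :=
    mul_le_mul_of_nonneg_left hal (by linarith [hD.eta0])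
  have h4 : 4 * (∑ Q, w Q) * ∑ P, w P * ee z r P ≤ 4 * ∑ P, w P * ee z r P := by
    have : ∑ Q, w Q ≤ 1 := by rw [hW]; linarith
    nlinarith
  linarith

end

end ST
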