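import Pool.Agent.H56.ST.Defs

/-!
# Stability of the fractional Nash-Williams theorem: local inequalities
-/

open Finset

namespace ST

variable {V : Type} [Fintype V] {g z : V → V → ℝ} {r : V → ℝ} {η : ℝ}

theorem add_le_al (p q : ℝ) : p + q ≤ al p q := le_max_left _ _
theorem neg_le_al1 (p q : ℝ) : -p ≤ al p q := le_trans (le_max_left _ _) (le_max_right _ _)
theorem neg_le_al2 (p q : ℝ) : -q ≤ al p q := le_trans (le_max_right _ _) (le_max_right _ _)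
theorem al_cases (p q : ℝ) : al p q = p + q ∨ al p q = -p ∨ al p q = -q := by
  unfold al
  rcases max_choice (p + q) (max (-p) (-q)) with h | h
  · left; exact h
  · rcases max_choice (-p) (-q) with h' | h'
    · right; left; rw [h, h']
    · right; right; rw [h, h']
theorem al_nonneg (p q : ℝ) : 0 ≤ al p q := by
  have h1 := add_le_al p q
  have h2 := neg_le_al1 p q
  have h3 := neg_le_al2 p q
  linarith
theorem al_comm (p q : ℝ) : al p q = al q p := by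
  unfold al
  rw [add_comm, max_comm (-p)]
theorem le_two_al1 (p q : ℝ) : p ≤ 2 * al p q := by
  have h1 := add_le_al p q
  have h3 := neg_le_al2 p q
  linarith
theorem le_two_al2 (p q : ℝ) : q ≤ 2 * al p q := by
  have h1 := add_le_al p q
  have h3 := neg_le_al1 p q
  linarith
theorem al_le (p q : ℝ) : al p q ≤ |p| + |q| := by
  have h1 := abs_nonneg p
  have h2 := abs_nonneg q
  have h3 := le_abs_self p
  have h4 := le_abs_self q
  have h5 := neg_le_abs p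
  have h6 := neg_le_abs q
  rcases al_cases p q with h | h | h <;> rw [h] <;> linarith
theorem abs_le1 (p q : ℝ) : |p| ≤ 2 * al p q := by
  have h1 := le_two_al1 p q
  have h2 := neg_le_al1 p q
  have h3 := al_nonneg p q
  exact abs_le.2 ⟨by linarith, h1⟩
theorem abs_le2 (p q : ℝ) : |q| ≤ 2 * al p q := by
  rw [al_comm]; exact abs_le1 q p
theorem al_le_max (p q : ℝ) : al p q ≤ 2 * max |p| |q| := by
  have h1 := al_le p q
  have h2 := le_max_left |p| |q|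
  have h3 := le_max_right |p| |q|
  linarith

theorem mm_eq_ms (P Q : V × V) : mm g P Q = ms g P.1 Q + ms g P.2 Q := by
  unfold mm ms; ring

theorem Dat.mm_cases (D : Dat g z r η) (P Q : V × V) :
    mm g P Q = 0 ∨ mm g P Q = 1 ∨ mm g P Q = 2 ∨ mm g P Q = 3 ∨ mm g P Q = 4 := by
  unfold mm
  rcases D.g01 P.1 Q.1 with h1 | h1 <;> rcases D.g01 P.1 Q.2 with h2 | h2 <;>
    rcases D.g01 P.2 Q.1 with h3 | h3 <;> rcases D.g01 P.2 Q.2 with h4 | h4 <;>
    rw [h1, h2, h3, h4] <;> norm_num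

theorem Dat.g_le (D : Dat g z r η) (x y : V) : g x y ≤ 1 := by
  rcases D.g01 x y with h | h <;> rw [h] <;> norm_num
theorem Dat.g_nonneg (D : Dat g z r η) (x y : V) : 0 ≤ g x y := by
  rcases D.g01 x y with h | h <;> rw [h] <;> norm_num

theorem Dat.mm_nonneg (D : Dat g z r η) (P Q : V × V) : 0 ≤ mm g P Q := by
  unfold mm
  have h1 := D.g_le P.1 Q.1
  have h2 := D.g_le P.1 Q.2
  have h3 := D.g_le P.2 Q.1
  have h4 := D.g_le P.2 Q.2
  linarith
theorem Dat.mm_le (D : Dat g z r η) (P Q : V × V) : mm g P Q ≤ 4 := by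
  unfold mm
  have h1 := D.g_nonneg P.1 Q.1
  have h2 := D.g_nonneg P.1 Q.2
  have h3 := D.g_nonneg P.2 Q.1
  have h4 := D.g_nonneg P.2 Q.2
  linarith
theorem Dat.mm_comm (D : Dat g z r η) (P Q : V × V) : mm g P Q = mm g Q P := by
  unfold mm
  rw [D.gs Q.1 P.1, D.gs Q.1 P.2, D.gs Q.2 P.1, D.gs Q.2 P.2]; ring
theorem Dat.sl_comm (D : Dat g z r η) (P Q : V × V) : sl g z r P Q = sl g z r Q P := by
  unfold sl
  rw [D.mm_comm Q P, D.gs Q.1 P.1, D.gs Q.1 P.2, D.gs Q.2 P.1, D.gs Q.2 P.2,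
    D.zs Q.1 P.1, D.zs Q.1 P.2, D.zs Q.2 P.1, D.zs Q.2 P.2]; ring
theorem alp_swap (P : V × V) : alp r P.swap = alp r P := by
  unfold alp; exact al_comm _ _
theorem Dat.sl_swap1 (D : Dat g z r η) (P Q : V × V) : sl g z r P.swap Q = sl g z r P Q := by
  unfold sl
  rw [alp_swap]
  unfold mm ee
  simp only [Prod.fst_swap, Prod.snd_swap]
  rw [D.zs P.2 P.1]; ring
theorem Dat.sl_swap2 (D : Dat g z r η) (P Q : V × V) : sl g z r P Q.swap = sl g z r P Q := by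
  rw [D.sl_comm, D.sl_swap1, D.sl_comm]
theorem Dat.cc_comm (D : Dat g z r η) (x y : V) : cc g z r x y = cc g z r y x := by
  unfold cc
  rw [D.gs x y, D.zs x y, add_right_comm]
theorem Dat.cc_nonneg (D : Dat g z r η) (x y : V) : 0 ≤ cc g z r x y := by
  unfold cc
  split_ifs with h
  · exact le_min (D.pot x y h) zero_le_one
  · exact zero_le_one
theorem cc_le_one (x y : V) : cc g z r x y ≤ 1 := by
  unfold cc
  split_ifs with h
  · exact min_le_right _ _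
  · exact le_rfl
theorem Dat.one_sub_le_cc (D : Dat g z r η) (x y : V) : 1 - g x y ≤ cc g z r x y := by
  rcases D.g01 x y with h | h
  · unfold cc
    rw [if_neg (by rw [h]; norm_num), h]; norm_num
  · rw [h]; simpa using D.cc_nonneg x y
/-- pairs of cost `< 1` are adjacent and their cost is the excess -/
theorem Dat.of_cc_lt (D : Dat g z r η) {x y : V} (h : cc g z r x y < 1) :
    g x y = 1 ∧ cc g z r x y = z x y + r x + r y := by
  unfold cc at *
  split_ifs at h ⊢ with h1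
  · refine ⟨h1, ?_⟩
    rcases min_choice (z x y + r x + r y) 1 with h2 | h2
    · exact h2
    · rw [h2] at h; exact absurd h (lt_irrefl _)
  · exact absurd h (lt_irrefl _)

/-- the local data of two adjacent pairs -/
structure L4 (p1 p2 q1 q2 zP zQ z11 z12 z21 z22 g11 g12 g21 g22 : ℝ) : Prop where
  h11 : g11 = 0 ∨ g11 = 1
  h12 : g12 = 0 ∨ g12 = 1
  h21 : g21 = 0 ∨ g21 = 1
  h22 : g22 = 0 ∨ g22 = 1
  eP : 0 ≤ zP + p1 + p2
  eQ : 0 ≤ zQ + q1 + q2
  e11 : g11 = 1 → 0 ≤ z11 + p1 + q1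
  e12 : g12 = 1 → 0 ≤ z12 + p1 + q2
  e21 : g21 = 1 → 0 ≤ z21 + p2 + q1
  e22 : g22 = 1 → 0 ≤ z22 + p2 + q2
  a1 : g11 = 1 → g21 = 1 → 0 ≤ zP + z21 + z11
  a2 : g12 = 1 → g22 = 1 → 0 ≤ zP + z22 + z12
  b1 : g11 = 1 → g12 = 1 → 0 ≤ z11 + zQ + z12
  b2 : g21 = 1 → g22 = 1 → 0 ≤ z21 + zQ + z22

/-- the slack in terms of numbers -/
noncomputable def SL (p1 p2 q1 q2 zP zQ z11 z12 z21 z22 g11 g12 g21 g22 : ℝ) : ℝ :=
  g11 * z11 + g12 * z12 + g21 * z21 + g22 * z22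
    - (al p1 p2 + al q1 q2) * (1 - ((1 - g11) + (1 - g12) + (1 - g21) + (1 - g22)))
    + 2 * (zP + p1 + p2) + 2 * (zQ + q1 + q2)

theorem Dat.l4 (D : Dat g z r η) {P Q : V × V} (hP : g P.1 P.2 = 1) (hQ : g Q.1 Q.2 = 1) :
    L4 (r P.1) (r P.2) (r Q.1) (r Q.2) (z P.1 P.2) (z Q.1 Q.2)
      (z P.1 Q.1) (z P.1 Q.2) (z P.2 Q.1) (z P.2 Q.2)
      (g P.1 Q.1) (g P.1 Q.2) (g P.2 Q.1) (g P.2 Q.2) where
  h11 := D.g01 _ _
  h12 := D.g01 _ _
  h21 := D.g01 _ _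
  h22 := D.g01 _ _
  eP := D.pot _ _ hP
  eQ := D.pot _ _ hQ
  e11 := D.pot _ _
  e12 := D.pot _ _
  e21 := D.pot _ _
  e22 := D.pot _ _
  a1 := fun h1 h2 => D.tri _ _ _ hP h2 h1
  a2 := fun h1 h2 => D.tri _ _ _ hP h2 h1
  b1 := fun h1 h2 => D.tri _ _ _ h1 hQ h2
  b2 := fun h1 h2 => D.tri _ _ _ h1 hQ h2

theorem sl_eq (P Q : V × V) : sl g z r P Q =
    SL (r P.1) (r P.2) (r Q.1) (r Q.2) (z P.1 P.2) (z Q.1 Q.2)
      (z P.1 Q.1) (z P.1 Q.2) (z P.2 Q.1) (z P.2 Q.2)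
      (g P.1 Q.1) (g P.1 Q.2) (g P.2 Q.1) (g P.2 Q.2) := rfl

section num
variable {p1 p2 q1 q2 zP zQ z11 z12 z21 z22 g11 g12 g21 g22 : ℝ}

theorem L4.nonneg (L : L4 p1 p2 q1 q2 zP zQ z11 z12 z21 z22 g11 g12 g21 g22) :
    0 ≤ SL p1 p2 q1 q2 zP zQ z11 z12 z21 z22 g11 g12 g21 g22 := by
  obtain ⟨h11, h12, h21, h22, eP, eQ, e11, e12, e21, e22, a1, a2, b1, b2⟩ := L
  unfold SL
  have P1 := add_le_al p1 p2
  have P2 := neg_le_al1 p1 p2
  have P3 := neg_le_al2 p1 p2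
  have Q1 := add_le_al q1 q2
  have Q2 := neg_le_al1 q1 q2
  have Q3 := neg_le_al2 q1 q2
  have P4 := al_cases p1 p2
  have Q4 := al_cases q1 q2
  generalize al p1 p2 = A at *
  generalize al q1 q2 = B at *
  rcases h11 with rfl | rfl <;> rcases h12 with rfl | rfl <;> rcases h21 with rfl | rfl <;>
    rcases h22 with rfl | rfl <;>
    simp only [zero_ne_one, forall_true_left, zero_mul,
      one_mul, sub_zero, sub_self, add_zero, zero_add, IsEmpty.forall_iff] at *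
  all_goals first
    | linarith
    | (rcases P4 with rfl | rfl | rfl <;> rcases Q4 with rfl | rfl | rfl <;> linarith)

theorem L4.l0 (L : L4 p1 p2 q1 q2 zP zQ z11 z12 z21 z22 g11 g12 g21 g22)
    (hm : (1 - g11) + (1 - g12) + (1 - g21) + (1 - g22) < 1) :
    |al p1 p2 - al q1 q2| ≤ SL p1 p2 q1 q2 zP zQ z11 z12 z21 z22 g11 g12 g21 g22 := by
  obtain ⟨h11, h12, h21, h22, eP, eQ, e11, e12, e21, e22, a1, a2, b1, b2⟩ := L
  unfold SL
  have P4 := al_cases p1 p2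
  have Q4 := al_cases q1 q2
  generalize al p1 p2 = A at *
  generalize al q1 q2 = B at *
  rcases h11 with rfl | rfl <;> rcases h12 with rfl | rfl <;> rcases h21 with rfl | rfl <;>
    rcases h22 with rfl | rfl <;> try (exfalso; linarith)
  simp only [forall_true_left, one_mul, sub_self, add_zero, sub_zero, mul_one] at *
  rw [abs_le]
  rcases P4 with rfl | rfl | rfl <;> rcases Q4 with rfl | rfl | rfl <;> constructor <;> linarith

theorem L4.l1 (L : L4 p1 p2 q1 q2 zP zQ z11 z12 z21 z22 0 1 1 1) :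
    |p1 - q1| ≤ SL p1 p2 q1 q2 zP zQ z11 z12 z21 z22 0 1 1 1 ∧
    (z12 + p1 + q2) + (z21 + p2 + q1)
      ≤ 2 * SL p1 p2 q1 q2 zP zQ z11 z12 z21 z22 0 1 1 1 := by
  obtain ⟨h11, h12, h21, h22, eP, eQ, e11, e12, e21, e22, a1, a2, b1, b2⟩ := L
  unfold SL
  generalize al p1 p2 = A at *
  generalize al q1 q2 = B at *
  simp only [zero_ne_one, forall_true_left, zero_mul,
      one_mul, sub_zero, sub_self, add_zero, zero_add, IsEmpty.forall_iff] at *
  rw [abs_le]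
  refine ⟨⟨by linarith, by linarith⟩, by linarith⟩

/-- diagonal pattern -/
theorem L4.l2 (L : L4 p1 p2 q1 q2 zP zQ z11 z12 z21 z22 0 1 1 0) :
    (z12 + p1 + q2) + (z21 + p2 + q1) + (al p1 p2 - p1 - p2) + (al q1 q2 - q1 - q2)
      ≤ SL p1 p2 q1 q2 zP zQ z11 z12 z21 z22 0 1 1 0 := by
  obtain ⟨h11, h12, h21, h22, eP, eQ, e11, e12, e21, e22, a1, a2, b1, b2⟩ := L
  unfold SL
  linarith

theorem L4.beta (L : L4 p1 p2 q1 q2 zP zQ z11 z12 z21 z22 0 g12 g21 0) :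
    al p1 p2 - p1 - p2 ≤ SL p1 p2 q1 q2 zP zQ z11 z12 z21 z22 0 g12 g21 0 := by
  obtain ⟨h11, h12, h21, h22, eP, eQ, e11, e12, e21, e22, a1, a2, b1, b2⟩ := L
  unfold SL
  have P1 := add_le_al p1 p2
  have P2 := neg_le_al1 p1 p2
  have P3 := neg_le_al2 p1 p2
  have Q1 := add_le_al q1 q2
  have Q2 := neg_le_al1 q1 q2
  have Q3 := neg_le_al2 q1 q2
  generalize al p1 p2 = A at *
  generalize al q1 q2 = B at *
  rcases h12 with rfl | rfl <;> rcases h21 with rfl | rfl <;>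
    simp only [zero_ne_one, forall_true_left, zero_mul,
      one_mul, sub_zero, sub_self, add_zero, zero_add, IsEmpty.forall_iff] at * <;> linarith

/-- row pattern -/
theorem L4.l2r (L : L4 p1 p2 q1 q2 zP zQ z11 z12 z21 z22 0 0 1 1) :
    |al p1 p2 - al q1 q2| ≤ SL p1 p2 q1 q2 zP zQ z11 z12 z21 z22 0 0 1 1 ∧
    al q1 q2 + (q1 + q2) / 2 ≤ SL p1 p2 q1 q2 zP zQ z11 z12 z21 z22 0 0 1 1 ∧
    z22 ≤ SL p1 p2 q1 q2 zP zQ z11 z12 z21 z22 0 0 1 1 - al p1 p2 - al q1 q2 + p2 + q1 := by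
  obtain ⟨h11, h12, h21, h22, eP, eQ, e11, e12, e21, e22, a1, a2, b1, b2⟩ := L
  unfold SL
  have P1 := add_le_al p1 p2
  have P2 := neg_le_al1 p1 p2
  have P3 := neg_le_al2 p1 p2
  have Q1 := add_le_al q1 q2
  have Q2 := neg_le_al1 q1 q2
  have Q3 := neg_le_al2 q1 q2
  generalize al p1 p2 = A at *
  generalize al q1 q2 = B at *
  simp only [zero_ne_one, forall_true_left, zero_mul,
      one_mul, sub_zero, sub_self, add_zero, zero_add, IsEmpty.forall_iff] at *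
  rw [abs_le]
  refine ⟨⟨by linarith, by linarith⟩, by linarith, by linarith⟩

/-- three missing -/
theorem L4.l3 (L : L4 p1 p2 q1 q2 zP zQ z11 z12 z21 z22 0 0 0 1) :
    (2 * al p1 p2 - p2) + (2 * al q1 q2 - q2) + (z22 + p2 + q2)
      ≤ SL p1 p2 q1 q2 zP zQ z11 z12 z21 z22 0 0 0 1 := by
  obtain ⟨h11, h12, h21, h22, eP, eQ, e11, e12, e21, e22, a1, a2, b1, b2⟩ := L
  unfold SL
  linarith

theorem L4.l4 (L : L4 p1 p2 q1 q2 zP zQ z11 z12 z21 z22 0 0 0 0) :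
    3 * (al p1 p2 + al q1 q2) ≤ SL p1 p2 q1 q2 zP zQ z11 z12 z21 z22 0 0 0 0 := by
  obtain ⟨h11, h12, h21, h22, eP, eQ, e11, e12, e21, e22, a1, a2, b1, b2⟩ := L
  unfold SL
  linarith

theorem L4.t3 {t : ℝ} (ht : 0 < t)
    (L : L4 p1 p2 q1 q2 zP zQ z11 z12 z21 z22 g11 g12 g21 g22)
    (hP : 3 * t ≤ al p1 p2) (hP' : al p1 p2 + (p1 + p2) / 2 ≤ t)
    (hQ : 3 * t ≤ al q1 q2) (hQ' : al q1 q2 + (q1 + q2) / 2 ≤ t) :
    t < SL p1 p2 q1 q2 zP zQ z11 z12 z21 z22 g11 g12 g21 g22 := by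
  obtain ⟨h11, h12, h21, h22, eP, eQ, e11, e12, e21, e22, a1, a2, b1, b2⟩ := L
  unfold SL
  have P1 := add_le_al p1 p2
  have P2 := neg_le_al1 p1 p2
  have P3 := neg_le_al2 p1 p2
  have Q1 := add_le_al q1 q2
  have Q2 := neg_le_al1 q1 q2
  have Q3 := neg_le_al2 q1 q2
  generalize al p1 p2 = A at *
  generalize al q1 q2 = B at *
  rcases h11 with rfl | rfl <;> rcases h12 with rfl | rfl <;> rcases h21 with rfl | rfl <;>
    rcases h22 with rfl | rfl <;>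
    simp only [zero_ne_one, forall_true_left, zero_mul,
      one_mul, sub_zero, sub_self, add_zero, zero_add, IsEmpty.forall_iff] at * <;> linarith

/-- spikes -/
theorem L4.spike {t : ℝ} (L : L4 p1 p2 q1 q2 zP zQ z11 z12 z21 z22 g11 g12 1 1)
    (hs : 2 * al p1 p2 - p2 ≤ t) (hm : ¬ (g11 = 0 ∧ g12 = 0))
    (hsl : SL p1 p2 q1 q2 zP zQ z11 z12 z21 z22 g11 g12 1 1 ≤ t) :
    z21 ≤ q1 + 4 * t ∧ z22 ≤ q2 + 4 * t := by
  have hl0 := L.l0
  have hn := L.nonneg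
  obtain ⟨h11, h12, h21, h22, eP, eQ, e11, e12, e21, e22, a1, a2, b1, b2⟩ := L
  unfold SL at *
  have P1 := add_le_al p1 p2
  have P2 := neg_le_al1 p1 p2
  have P3 := neg_le_al2 p1 p2
  have Q1 := add_le_al q1 q2
  have Q2 := neg_le_al1 q1 q2
  have Q3 := neg_le_al2 q1 q2
  have P5 := al_nonneg p1 p2
  generalize al p1 p2 = A at *
  generalize al q1 q2 = B at *
  rcases h11 with rfl | rfl <;> rcases h12 with rfl | rfl
  · exact absurd ⟨rfl, rfl⟩ hm
  · simp only [zero_ne_one, forall_true_left, zero_mul,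
      one_mul, sub_zero, sub_self, add_zero, zero_add, IsEmpty.forall_iff] at *
    constructor <;> linarith
  · simp only [zero_ne_one, forall_true_left, zero_mul,
      one_mul, sub_zero, sub_self, add_zero, zero_add, IsEmpty.forall_iff] at *
    constructor <;> linarith
  · simp only [zero_ne_one, forall_true_left, zero_mul, zero_lt_one,
      one_mul, sub_zero, sub_self, add_zero, zero_add, IsEmpty.forall_iff] at *
    rw [abs_le] at hl0
    obtain ⟨h1, h2⟩ := hl0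
    constructor <;> linarith

theorem L4.l1b (L : L4 p1 p2 q1 q2 zP zQ z11 z12 z21 z22 1 0 1 1) :
    |p1 - q2| ≤ SL p1 p2 q1 q2 zP zQ z11 z12 z21 z22 1 0 1 1 := by
  obtain ⟨h11, h12, h21, h22, eP, eQ, e11, e12, e21, e22, a1, a2, b1, b2⟩ := L
  unfold SL
  generalize al p1 p2 = A at *
  generalize al q1 q2 = B at *
  simp only [zero_ne_one, forall_true_left, zero_mul,
      one_mul, sub_zero, sub_self, add_zero, zero_add, IsEmpty.forall_iff] at *
  rw [abs_le]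
  refine ⟨by linarith, by linarith⟩

/-- a pair with small `α` has a vertex with a very negative edge to a fixed vertex of `Q` -/
theorem L4.neg {t : ℝ} (ht : 0 < t) (ht2 : t ≤ 1 / 10000)
    (L : L4 p1 p2 q1 q2 zP zQ z11 z12 z21 z22 g11 g12 g21 g22)
    (hA : al p1 p2 ≤ 15 * t) (hB : 1 / 8 ≤ al q1 q2)
    (hsl : SL p1 p2 q1 q2 zP zQ z11 z12 z21 z22 g11 g12 g21 g22 ≤ al q1 q2 / 100) :
    (((al q1 q2 / 3 ≤ q1 ∨ al q1 q2 / 3 ≤ q2) ∧ q1 ≤ q2) ∨
        (q1 < al q1 q2 / 3 ∧ q2 < al q1 q2 / 3 ∧ q2 < q1) →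
      (g12 = 1 ∧ z12 ≤ - al q1 q2 / 3) ∨ (g22 = 1 ∧ z22 ≤ - al q1 q2 / 3)) ∧
    (((al q1 q2 / 3 ≤ q1 ∨ al q1 q2 / 3 ≤ q2) ∧ q2 < q1) ∨
        (q1 < al q1 q2 / 3 ∧ q2 < al q1 q2 / 3 ∧ q1 ≤ q2) →
      (g11 = 1 ∧ z11 ≤ - al q1 q2 / 3) ∨ (g21 = 1 ∧ z21 ≤ - al q1 q2 / 3)) := by
  obtain ⟨h11, h12, h21, h22, eP, eQ, e11, e12, e21, e22, a1, a2, b1, b2⟩ := L
  unfold SL at hsl
  have P1 := add_le_al p1 p2
  have P2 := neg_le_al1 p1 p2
  have P3 := neg_le_al2 p1 p2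
  have Q1 := add_le_al q1 q2
  have Q2 := neg_le_al1 q1 q2
  have Q3 := neg_le_al2 q1 q2
  have P4 := al_cases p1 p2
  have Q4 := al_cases q1 q2
  generalize al p1 p2 = A at *
  generalize al q1 q2 = B at *
  rcases h11 with rfl | rfl <;> rcases h12 with rfl | rfl <;> rcases h21 with rfl | rfl <;>
    rcases h22 with rfl | rfl <;>
    simp only [zero_ne_one, forall_true_left, zero_mul, false_and, true_and, false_or, or_false,
      one_mul, sub_zero, sub_self, add_zero, zero_add, IsEmpty.forall_iff] at *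
  all_goals first
    | (exfalso; linarith)
    | (rcases Q4 with rfl | rfl | rfl <;>
        first
        | (exfalso; linarith)
        | (constructor <;> rintro (⟨h1 | h1, h2⟩ | ⟨h1, h2, h3⟩) <;>
            first
            | (exfalso; linarith)
            | linarith
            | (left; linarith)
            | (right; linarith)))
    | (rcases P4 with rfl | rfl | rfl <;> rcases Q4 with rfl | rfl | rfl <;>
        first
        | (exfalso; linarith)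
        | (constructor <;> rintro (⟨h1 | h1, h2⟩ | ⟨h1, h2, h3⟩) <;>
            first
            | (exfalso; linarith)
            | linarith
            | (left; linarith)
            | (right; linarith)))

/-- classification of bad patterns -/
theorem L4.bad {t : ℝ} (ht : 0 < t) (L : L4 p1 p2 q1 q2 zP zQ z11 z12 z21 z22 g11 g12 g21 g22)
    (hsl : SL p1 p2 q1 q2 zP zQ z11 z12 z21 z22 g11 g12 g21 g22 ≤ t)
    (hb : 3 ≤ (1 - g11) + (1 - g12) + (1 - g21) + (1 - g22) ∨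
      ((1 - g11) + (1 - g12) + (1 - g21) + (1 - g22) = 2 ∧ g11 ≠ g22)) :
    (al p1 p2 ≤ 14 * t ∧ al q1 q2 ≤ 14 * t) ∨
    (3 * t ≤ al p1 p2 ∧ al p1 p2 + (p1 + p2) / 2 ≤ t) ∨
    (3 * t ≤ al q1 q2 ∧ al q1 q2 + (q1 + q2) / 2 ≤ t) ∨
    (14 * t ≤ al p1 p2 + al q1 q2 ∧
      ((g22 = 1 ∧ g11 = 0 ∧ g12 = 0 ∧ g21 = 0) ∨ (g12 = 1 ∧ g21 = 0 ∧ g22 = 0 ∧ g11 = 0) ∨
       (g21 = 1 ∧ g12 = 0 ∧ g11 = 0 ∧ g22 = 0) ∨ (g11 = 1 ∧ g22 = 0 ∧ g21 = 0 ∧ g12 = 0))) := by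
  obtain ⟨h11, h12, h21, h22, eP, eQ, e11, e12, e21, e22, a1, a2, b1, b2⟩ := L
  unfold SL at hsl
  have P1 := add_le_al p1 p2
  have P2 := neg_le_al1 p1 p2
  have P3 := neg_le_al2 p1 p2
  have Q1 := add_le_al q1 q2
  have Q2 := neg_le_al1 q1 q2
  have Q3 := neg_le_al2 q1 q2
  have P0 := al_nonneg p1 p2
  have Q0 := al_nonneg q1 q2
  generalize al p1 p2 = A at *
  generalize al q1 q2 = B at *
  by_cases c1 : A ≤ 14 * t ∧ B ≤ 14 * t
  · left; exact c1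
  by_cases c2 : 3 * t ≤ A ∧ A + (p1 + p2) / 2 ≤ t
  · right; left; exact c2
  by_cases c3 : 3 * t ≤ B ∧ B + (q1 + q2) / 2 ≤ t
  · right; right; left; exact c3
  right; right; right
  rcases h11 with rfl | rfl <;> rcases h12 with rfl | rfl <;> rcases h21 with rfl | rfl <;>
    rcases h22 with rfl | rfl <;>
    simp only [zero_ne_one, one_ne_zero, forall_true_left, zero_mul, false_and, true_and, and_true,
      and_false, false_or, or_false, or_true, true_or, ne_eq, not_true, not_false_iff, not_and, not_le,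
      one_mul, sub_zero, sub_self, add_zero, zero_add, IsEmpty.forall_iff, and_self] at *
  all_goals first
    | (exfalso; rcases hb with hb | hb <;> linarith)
    | (exfalso; rcases hb with hb | ⟨hb, -⟩ <;> linarith)
    | (exfalso; linarith)
    | skip
  all_goals
    first
    | (by_cases d1 : A ≤ 14 * t
       · have := c1 d1; linarith
       · linarith)
    | (exfalso
       by_cases d1 : A ≤ 14 * t
       · have := c1 d1
         by_cases d2 : 3 * t ≤ A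
         · have := c2 d2
           by_cases d3 : 3 * t ≤ B
           · have := c3 d3; linarith
           · linarith
         · by_cases d3 : 3 * t ≤ B
           · have := c3 d3; linarith
           · linarith
       · by_cases d2 : 3 * t ≤ A
         · have := c2 d2
           by_cases d3 : 3 * t ≤ B
           · have := c3 d3; linarith
           · linarith
         · by_cases d3 : 3 * t ≤ B
           · have := c3 d3; linarith
           · linarith)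

end num

/-- (*) -/
theorem Dat.sl_nonneg (D : Dat g z r η) {P Q : V × V} (hP : g P.1 P.2 = 1)
    (hQ : g Q.1 Q.2 = 1) : 0 ≤ sl g z r P Q := (D.l4 hP hQ).nonneg
/-- (L0) -/
theorem Dat.l0 (D : Dat g z r η) {P Q : V × V} (hP : g P.1 P.2 = 1)
    (hQ : g Q.1 Q.2 = 1) (h : mm g P Q < 1) : |alp r P - alp r Q| ≤ sl g z r P Q :=
  (D.l4 hP hQ).l0 h
/-- (L1) -/
theorem Dat.l1 (D : Dat g z r η) {P Q : V × V} (hP : g P.1 P.2 = 1)
    (hQ : g Q.1 Q.2 = 1) (h : mm g P Q = 1) (h11 : g P.1 Q.1 = 0) :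
    |r P.1 - r Q.1| ≤ sl g z r P Q := by
  have L := D.l4 hP hQ
  rw [sl_eq]
  unfold mm at h
  have h12 : g P.1 Q.2 = 1 := by
    rcases D.g01 P.1 Q.2 with h' | h'
    · rw [h11, h'] at h
      have := D.g_le P.2 Q.1; have := D.g_le P.2 Q.2; linarith
    · exact h'
  have h21 : g P.2 Q.1 = 1 := by
    rcases D.g01 P.2 Q.1 with h' | h'
    · rw [h11, h'] at h
      have := D.g_le P.1 Q.2; have := D.g_le P.2 Q.2; linarith
    · exact h'
  have h22 : g P.2 Q.2 = 1 := by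
    rcases D.g01 P.2 Q.2 with h' | h'
    · rw [h11, h'] at h
      have := D.g_le P.1 Q.2; have := D.g_le P.2 Q.1; linarith
    · exact h'
  rw [h11, h12, h21, h22] at L ⊢
  exact L.l1.1
/-- cost of the swapped pair -/
theorem Dat.swap_cost (D : Dat g z r η) {P Q : V × V} (hP : g P.1 P.2 = 1)
    (hQ : g Q.1 Q.2 = 1) (h11 : g P.1 Q.1 = 0) (hb : ¬ Bad g P Q) :
    cc g z r P.1 Q.2 ≤ 2 * sl g z r P Q := by
  have L := D.l4 hP hQ
  rw [sl_eq]
  unfold Bad mm at hb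
  rw [h11] at L hb ⊢
  rcases D.g01 P.1 Q.2 with h12 | h12
  · exfalso
    apply hb
    rw [h12]
    rcases D.g01 P.2 Q.1 with h21 | h21 <;> rcases D.g01 P.2 Q.2 with h22 | h22 <;>
      rw [h21, h22] <;> norm_num
  · have hc : cc g z r P.1 Q.2 ≤ z P.1 Q.2 + r P.1 + r Q.2 := by
      unfold cc; rw [if_pos h12]; exact min_le_left _ _
    rw [h12] at L hb ⊢
    rcases D.g01 P.2 Q.1 with h21 | h21
    · exfalso
      apply hb
      rw [h21]
      rcases D.g01 P.2 Q.2 with h22 | h22 <;> rw [h22] <;> norm_num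
    · rw [h21] at L hb ⊢
      have e21 := L.e21 rfl
      rcases D.g01 P.2 Q.2 with h22 | h22
      · rw [h22] at L ⊢
        have h1 := L.l2
        have h2 := L.nonneg
        have h3 := add_le_al (r P.1) (r P.2)
        have h4 := add_le_al (r Q.1) (r Q.2)
        linarith
      · rw [h22] at L ⊢
        have h1 := L.l1.2
        linarith
/-- (L2d) -/
theorem Dat.beta (D : Dat g z r η) {P Q : V × V} (hP : g P.1 P.2 = 1)
    (hQ : g Q.1 Q.2 = 1) (h11 : g P.1 Q.1 = 0) (h22 : g P.2 Q.2 = 0) :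
    alp r P - r P.1 - r P.2 ≤ sl g z r P Q := by
  have L := D.l4 hP hQ
  rw [sl_eq]
  rw [h11, h22] at L ⊢
  exact L.beta
/-- (3.0) -/
theorem Dat.t3t3 (D : Dat g z r η) {P Q : V × V} {t : ℝ} (ht : 0 < t) (hP : g P.1 P.2 = 1)
    (hQ : g Q.1 Q.2 = 1) (h1 : T3 t r P) (h2 : T3 t r Q) : t < sl g z r P Q :=
  (D.l4 hP hQ).t3 ht h1.1 h1.2 h2.1 h2.2

/-- classification of bad patterns -/
theorem Dat.bad_class (D : Dat g z r η) {P Q : V × V} {t : ℝ} (ht : 0 < t)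
    (hP : g P.1 P.2 = 1) (hQ : g Q.1 Q.2 = 1) (s1 : sl g z r P Q ≤ t) (hb : Bad g P Q) :
    (alp r P ≤ 14 * t ∧ alp r Q ≤ 14 * t) ∨ T3 t r P ∨ T3 t r Q ∨
    (14 * t ≤ alp r P + alp r Q ∧
      (M3 g P Q ∨ M3 g P.swap Q ∨ M3 g P Q.swap ∨ M3 g P.swap Q.swap)) := by
  rcases (D.l4 hP hQ).bad ht s1 hb with h | h | h | h
  · left; exact h
  · right; left; exact h
  · right; right; left; exact h
  · right; right; right; exact h

/-- (3a), auxiliary: a missed pair -/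
theorem Dat.m3aux (D : Dat g z r η) {P Q R : V × V} {t : ℝ} (ht : 0 < t) (hP : g P.1 P.2 = 1)
    (hQ : g Q.1 Q.2 = 1) (hR : g R.1 R.2 = 1) 
    (hq : 2 * alp r Q - r Q.2 ≤ t)
    (s2 : sl g z r P R ≤ t) (s3 : sl g z r Q R ≤ t)
    (h14 : 14 * t ≤ alp r P + alp r Q) (hT : ¬ T3 t r R)
    (a1 : g P.1 R.1 = 0) (a2 : g P.1 R.2 = 0) (a3 : g P.2 R.1 = 1) (a4 : g P.2 R.2 = 1)
    (b3 : g Q.2 R.1 = 1) (b4 : g Q.2 R.2 = 1) : False := by
  have LP := D.l4 hP hR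
  have LQ := D.l4 hQ hR
  rw [sl_eq] at s2 s3
  rw [a1, a2, a3, a4] at s2 LP
  rw [b3, b4] at s3 LQ
  obtain ⟨h1, h2, -⟩ := LP.l2r
  have h3 : ¬ (3 * t ≤ alp r R) := fun h => hT ⟨h, by unfold alp; linarith⟩
  have E1 := neg_le_al1 (r R.1) (r R.2)
  have E2 := neg_le_al2 (r R.1) (r R.2)
  have Q1 := add_le_al (r Q.1) (r Q.2)
  have h4 := (abs_le.1 h1).2
  have h5 := (abs_le.1 h1).1
  unfold alp at *
  rcases D.g01 Q.1 R.1 with b1 | b1 <;> rcases D.g01 Q.1 R.2 with b2 | b2 <;>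
    rw [b1, b2] at s3 LQ
  · have h6 := (abs_le.1 LQ.l2r.1).2
    linarith
  · have h6 := (abs_le.1 LQ.l1.1).1
    linarith
  · have h6 := (abs_le.1 LQ.l1b).1
    linarith
  · have h6 := (abs_le.1 (LQ.l0 (by norm_num))).2
    linarith

/-- (3a) -/
theorem Dat.m3a (D : Dat g z r η) {P Q R : V × V} {t : ℝ} (ht : 0 < t) (hP : g P.1 P.2 = 1)
    (hQ : g Q.1 Q.2 = 1) (hR : g R.1 R.2 = 1) (hm : M3 g P Q)
    (s1 : sl g z r P Q ≤ t) (s2 : sl g z r P R ≤ t) (s3 : sl g z r Q R ≤ t)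
    (h14 : 14 * t ≤ alp r P + alp r Q) (hT : ¬ T3 t r R) :
    1 ≤ ms g P.2 R + ms g Q.2 R := by
  by_contra hcon
  push Not at hcon
  unfold ms at hcon
  have a3 : g P.2 R.1 = 1 := by
    rcases D.g01 P.2 R.1 with h | h
    · have := D.g_le P.2 R.2; have := D.g_le Q.2 R.1; have := D.g_le Q.2 R.2; rw [h] at hcon
      linarith
    · exact h
  have a4 : g P.2 R.2 = 1 := by
    rcases D.g01 P.2 R.2 with h | h
    · have := D.g_le P.2 R.1; have := D.g_le Q.2 R.1; have := D.g_le Q.2 R.2; rw [h] at hcon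
      linarith
    · exact h
  have b3 : g Q.2 R.1 = 1 := by
    rcases D.g01 Q.2 R.1 with h | h
    · have := D.g_le P.2 R.2; have := D.g_le P.2 R.1; have := D.g_le Q.2 R.2; rw [h] at hcon
      linarith
    · exact h
  have b4 : g Q.2 R.2 = 1 := by
    rcases D.g01 Q.2 R.2 with h | h
    · have := D.g_le P.2 R.2; have := D.g_le P.2 R.1; have := D.g_le Q.2 R.1; rw [h] at hcon
      linarith
    · exact h
  obtain ⟨m22, m11, m12, m21⟩ := hm
  have LM := D.l4 hP hQ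
  have s1' := s1
  rw [sl_eq] at s1'
  rw [m11, m12, m21, m22] at s1' LM
  have l3 := LM.l3
  have pA := le_two_al2 (r P.1) (r P.2)
  have pB := le_two_al2 (r Q.1) (r Q.2)
  have e22 := LM.e22 rfl
  have hp : 2 * alp r P - r P.2 ≤ t := by unfold alp; linarith
  have hq : 2 * alp r Q - r Q.2 ≤ t := by unfold alp; linarith
  by_cases c1 : g P.1 R.1 = 0 ∧ g P.1 R.2 = 0
  · exact D.m3aux ht hP hQ hR hq s2 s3 h14 hT c1.1 c1.2 a3 a4 b3 b4
  by_cases c2 : g Q.1 R.1 = 0 ∧ g Q.1 R.2 = 0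
  · exact D.m3aux ht hQ hP hR hp s3 s2 (by linarith) hT c2.1 c2.2 b3 b4 a3 a4
  have LP := D.l4 hP hR
  have LQ := D.l4 hQ hR
  have s2' := s2
  have s3' := s3
  rw [sl_eq] at s2' s3'
  rw [a3, a4] at s2' LP
  rw [b3, b4] at s3' LQ
  obtain ⟨f1, f2⟩ := LP.spike hp c1 s2'
  obtain ⟨f3, f4⟩ := LQ.spike hq c2 s3'
  have tr1 := D.tri P.2 Q.2 R.1 m22 b3 a3
  have tr2 := D.tri P.2 Q.2 R.2 m22 b4 a4
  have E0 := add_le_al (r R.1) (r R.2)
  have E1 := neg_le_al1 (r R.1) (r R.2)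
  have E2 := neg_le_al2 (r R.1) (r R.2)
  have P1 := add_le_al (r P.1) (r P.2)
  have A0 := al_nonneg (r P.1) (r P.2)
  have B0 := al_nonneg (r Q.1) (r Q.2)
  unfold alp at *
  rcases D.g01 P.1 R.1 with d1 | d1 <;> rcases D.g01 P.1 R.2 with d2 | d2 <;>
    rw [d1, d2] at s2' LP
  · exact c1 ⟨d1, d2⟩
  · have h6 := (abs_le.1 LP.l1.1).1
    linarith
  · have h6 := (abs_le.1 LP.l1b).1
    linarith
  · have h6 := (abs_le.1 (LP.l0 (by norm_num))).1
    linarith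

/-- (3b) -/
theorem Dat.m3b (D : Dat g z r η) {P Q R : V × V} {t : ℝ} (ht : 0 < t) (hP : g P.1 P.2 = 1)
    (hQ : g Q.1 Q.2 = 1) (hR : g R.1 R.2 = 1) (hm : M3 g P Q) (hm' : M3 g P R)
    (s1 : sl g z r P Q ≤ t) (s2 : sl g z r P R ≤ t) (s3 : sl g z r Q R ≤ t)
    (h14 : 14 * t ≤ alp r P + alp r Q) :
    2 ≤ ms g P.2 R + ms g Q.2 R := by
  by_contra hcon
  push Not at hcon
  unfold ms at hcon
  obtain ⟨m22, m11, m12, m21⟩ := hm
  obtain ⟨n22, n11, n12, n21⟩ := hm'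
  rw [n22, n21] at hcon
  have b3 : g Q.2 R.1 = 1 := by
    rcases D.g01 Q.2 R.1 with h | h
    · have := D.g_le Q.2 R.2; rw [h] at hcon
      linarith
    · exact h
  have b4 : g Q.2 R.2 = 1 := by
    rcases D.g01 Q.2 R.2 with h | h
    · have := D.g_le Q.2 R.1; rw [h] at hcon
      linarith
    · exact h
  have LM := D.l4 hP hQ
  rw [sl_eq] at s1
  rw [m11, m12, m21, m22] at s1 LM
  have l3 := LM.l3
  have LN := D.l4 hP hR
  rw [sl_eq] at s2
  rw [n11, n12, n21, n22] at s2 LN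
  have l3' := LN.l3
  have pA := le_two_al2 (r P.1) (r P.2)
  have pB := le_two_al2 (r Q.1) (r Q.2)
  have pC := le_two_al2 (r R.1) (r R.2)
  have e22 := LM.e22 rfl
  have e22' := LN.e22 rfl
  have hq : 2 * al (r Q.1) (r Q.2) - r Q.2 ≤ t := by linarith
  have tr := D.tri P.2 Q.2 R.2 m22 b4 n22
  have LQ := D.l4 hQ hR
  rw [sl_eq] at s3
  rw [b3, b4] at s3 LQ
  have C0 := add_le_al (r R.1) (r R.2)
  have A0 := al_nonneg (r P.1) (r P.2)
  have B0 := al_nonneg (r Q.1) (r Q.2)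
  have C1 := al_nonneg (r R.1) (r R.2)
  unfold alp at *
  by_cases c2 : g Q.1 R.1 = 0 ∧ g Q.1 R.2 = 0
  · rw [c2.1, c2.2] at s3 LQ
    have h6 := LQ.l2r.2.2
    linarith
  · obtain ⟨f3, f4⟩ := LQ.spike hq c2 s3
    linarith

theorem four_a_aux (D : Dat g z r η) {P R : V × V} (hP : g P.1 P.2 = 1) (hR : g R.1 R.2 = 1)
    {c : V} {b : ℝ} (hb : 1 / 8 ≤ b) 
    (s3 : sl g z r P R ≤ tt) (h1 : alp r P ≤ 15 * tt) (h2 : alp r R ≤ 15 * tt)
    (hm : mm g P R < 1)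
    (n1 : (g P.1 c = 1 ∧ z P.1 c ≤ -b / 3) ∨ (g P.2 c = 1 ∧ z P.2 c ≤ -b / 3))
    (n2 : (g R.1 c = 1 ∧ z R.1 c ≤ -b / 3) ∨ (g R.2 c = 1 ∧ z R.2 c ≤ -b / 3)) : False := by
  have L := D.l4 hP hR
  rw [sl_eq] at s3
  unfold mm at hm
  have g11 : g P.1 R.1 = 1 := by
    rcases D.g01 P.1 R.1 with h | h
    · have := D.g_le P.1 R.2; have := D.g_le P.2 R.1; have := D.g_le P.2 R.2; rw [h] at hm
      linarith
    · exact h
  have g12 : g P.1 R.2 = 1 := by
    rcases D.g01 P.1 R.2 with h | h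
    · have := D.g_le P.1 R.1; have := D.g_le P.2 R.1; have := D.g_le P.2 R.2; rw [h] at hm
      linarith
    · exact h
  have g21 : g P.2 R.1 = 1 := by
    rcases D.g01 P.2 R.1 with h | h
    · have := D.g_le P.1 R.2; have := D.g_le P.1 R.1; have := D.g_le P.2 R.2; rw [h] at hm
      linarith
    · exact h
  have g22 : g P.2 R.2 = 1 := by
    rcases D.g01 P.2 R.2 with h | h
    · have := D.g_le P.1 R.2; have := D.g_le P.2 R.1; have := D.g_le P.1 R.1; rw [h] at hm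
      linarith
    · exact h
  rw [g11, g12, g21, g22] at s3 L
  unfold SL at s3
  unfold alp at h1 h2
  have P1 := le_two_al1 (r P.1) (r P.2)
  have P2 := le_two_al2 (r P.1) (r P.2)
  have P3 := neg_le_al1 (r P.1) (r P.2)
  have P4 := neg_le_al2 (r P.1) (r P.2)
  have R1 := le_two_al1 (r R.1) (r R.2)
  have R2 := le_two_al2 (r R.1) (r R.2)
  have R3 := neg_le_al1 (r R.1) (r R.2)
  have R4 := neg_le_al2 (r R.1) (r R.2)
  have e11 := L.e11 rfl
  have e12 := L.e12 rfl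
  have e21 := L.e21 rfl
  have e22 := L.e22 rfl
  have eP := L.eP
  have eQ := L.eQ
  unfold tt at *
  rcases n1 with ⟨u1, u2⟩ | ⟨u1, u2⟩ <;> rcases n2 with ⟨v1, v2⟩ | ⟨v1, v2⟩
  · have := D.tri P.1 R.1 c g11 v1 u1
    linarith
  · have := D.tri P.1 R.2 c g12 v1 u1
    linarith
  · have := D.tri P.2 R.1 c g21 v1 u1
    linarith
  · have := D.tri P.2 R.2 c g22 v1 u1
    linarith

/-- (4a) -/
theorem Dat.four_a (D : Dat g z r η) {P Q R : V × V} (hP : g P.1 P.2 = 1)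
    (hQ : g Q.1 Q.2 = 1) (hR : g R.1 R.2 = 1) (hb : 1 / 8 ≤ alp r Q)
    (s1 : sl g z r P Q ≤ alp r Q / 100) (s2 : sl g z r R Q ≤ alp r Q / 100)
    (s3 : sl g z r P R ≤ tt) (h1 : alp r P ≤ 15 * tt) (h2 : alp r R ≤ 15 * tt) :
    1 ≤ mm g P R := by
  by_contra hcon
  push Not at hcon
  have htt : (0 : ℝ) < tt := by unfold tt; norm_num
  have htt2 : tt ≤ 1 / 10000 := le_rfl
  have NP := (D.l4 hP hQ).neg htt htt2 h1 hb s1
  have NR := (D.l4 hR hQ).neg htt htt2 h2 hb s2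
  by_cases j : ((al (r Q.1) (r Q.2) / 3 ≤ r Q.1 ∨ al (r Q.1) (r Q.2) / 3 ≤ r Q.2) ∧
      r Q.1 ≤ r Q.2) ∨
        (r Q.1 < al (r Q.1) (r Q.2) / 3 ∧ r Q.2 < al (r Q.1) (r Q.2) / 3 ∧ r Q.2 < r Q.1)
  · exact four_a_aux D hP hR hb s3 h1 h2 hcon (NP.1 j) (NR.1 j)
  · have j' : ((al (r Q.1) (r Q.2) / 3 ≤ r Q.1 ∨ al (r Q.1) (r Q.2) / 3 ≤ r Q.2) ∧
      r Q.2 < r Q.1) ∨
        (r Q.1 < al (r Q.1) (r Q.2) / 3 ∧ r Q.2 < al (r Q.1) (r Q.2) / 3 ∧ r Q.1 ≤ r Q.2) := by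
      by_cases k : al (r Q.1) (r Q.2) / 3 ≤ r Q.1 ∨ al (r Q.1) (r Q.2) / 3 ≤ r Q.2
      · left
        refine ⟨k, ?_⟩
        by_contra h
        exact j (Or.inl ⟨k, not_lt.1 h⟩)
      · right
        push Not at k
        refine ⟨k.1, k.2, ?_⟩
        by_contra h
        exact j (Or.inr ⟨k.1, k.2, not_le.1 h⟩)
    exact four_a_aux D hP hR hb s3 h1 h2 hcon (NP.2 j') (NR.2 j')

end ST
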