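import Pool.Agent.H56.ST.Stm
import Pool.Agent.H56.ST.Loc

/-!
# Stability of the fractional Nash-Williams theorem: bad patterns are rare
-/

open Finset

namespace ST

noncomputable section

variable {V : Type} [Fintype V] {g z : V → V → ℝ} {r : V → ℝ} {η : ℝ} {w : V × V → ℝ}

theorem Core.mono' {κ κ' : ℝ} (C : Core g z r η w κ) (h : κ ≤ κ') : Core g z r η w κ' where
  eta := C.eta.trans h
  nn := C.nn
  sym := C.sym
  supp := C.supp
  le1 := C.le1
  ge1 := by linarith [C.ge1]
  ms := C.ms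
  B1 := C.B1.trans h
  B2 := C.B2.trans h
  al4 := C.al4

theorem Core.swapw {κ : ℝ} (C : Core g z r η w κ) (P : V × V) : w P.swap = w P := C.sym _ _

theorem Core.DD_nonneg {κ : ℝ} (C : Core g z r η w κ) (P : V × V) : 0 ≤ DD g η w P := by
  have h1 := C.ms P.1
  have h2 := C.ms P.2
  have h3 : ∑ Q, w Q * mm g P Q = ∑ R, w R * ST.ms g P.1 R + ∑ R, w R * ST.ms g P.2 R := by
    rw [← Finset.sum_add_distrib]
    refine Finset.sum_congr rfl fun Q _ => ?_
    rw [mm_eq_ms]
    ring
  unfold DD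
  rw [h3]
  linarith

theorem sum_swap (f : V × V → ℝ) : ∑ P : V × V, f P.swap = ∑ P : V × V, f P :=
  (Equiv.prodComm V V).sum_comp f

theorem tt_pos : 0 < tt := by unfold tt; norm_num

open Classical in
theorem bad_part1 {κ ε : ℝ} (D : Dat g z r η) (C : Core g z r η w κ) (hε : 0 ≤ ε)
    (hT : (∑ P, if T3 tt r P then w P else 0) ≤ ε)
    (hM : (∑ P, ∑ Q, if M3 g P Q ∧ sl g z r P Q ≤ tt ∧ 14 * tt ≤ alp r P + alp r Q
      then w P * w Q else 0) ≤ ε)
    (hO : (∑ P, ∑ Q, if alp r P ≤ 14 * tt ∧ 2 ≤ mm g P Q then w P * w Q else 0) ≤ ε) :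
    (∑ P, ∑ Q, if Bad g P Q then w P * w Q else 0) ≤ κ / tt + 7 * ε := by
  obtain ⟨F, hF⟩ : ∃ F : V × V → V × V → ℝ, F = fun P Q =>
    if M3 g P Q ∧ sl g z r P Q ≤ tt ∧ 14 * tt ≤ alp r P + alp r Q
      then w P * w Q else 0 := ⟨_, rfl⟩
  have hF0 : ∀ P Q, 0 ≤ F P Q := by
    intro P Q
    rw [hF]
    dsimp only
    split_ifs
    · exact mul_nonneg (C.nn P) (C.nn Q)
    · exact le_rfl
  have hFM : ∑ P, ∑ Q, F P Q ≤ ε := by rw [hF]; exact hM
  have key : ∀ P Q, (if Bad g P Q then w P * w Q else 0) ≤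
      (1 / tt) * (w P * w Q * sl g z r P Q) +
      (if alp r P ≤ 14 * tt ∧ 2 ≤ mm g P Q then w P * w Q else 0) +
      (if T3 tt r P then w P else 0) * w Q + w P * (if T3 tt r Q then w Q else 0) +
      F P Q + F P.swap Q + F P Q.swap + F P.swap Q.swap := by
    intro P Q
    have hwP := C.nn P
    have hwQ := C.nn Q
    have hww : 0 ≤ w P * w Q := mul_nonneg hwP hwQ
    have hn2 : 0 ≤ (if alp r P ≤ 14 * tt ∧ 2 ≤ mm g P Q then w P * w Q else 0) := by
      split_ifs
      · exact hww
      · exact le_rfl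
    have hn3 : 0 ≤ (if T3 tt r P then w P else 0) * w Q := by
      split_ifs
      · exact hww
      · rw [zero_mul]
    have hn4 : 0 ≤ w P * (if T3 tt r Q then w Q else 0) := by
      split_ifs
      · exact hww
      · rw [mul_zero]
    have hf1 := hF0 P Q
    have hf2 := hF0 P.swap Q
    have hf3 := hF0 P Q.swap
    have hf4 := hF0 P.swap Q.swap
    by_cases h0 : w P * w Q = 0
    · have h1 : (if Bad g P Q then w P * w Q else 0) = 0 := by rw [h0]; split_ifs <;> rfl
      rw [h0] at hn2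
      rw [h1, h0, zero_mul, mul_zero]
      linarith
    have hgP : g P.1 P.2 = 1 := C.supp P (left_ne_zero_of_mul h0)
    have hgQ : g Q.1 Q.2 = 1 := C.supp Q (right_ne_zero_of_mul h0)
    have hsl := D.sl_nonneg hgP hgQ
    have hn1 : 0 ≤ (1 / tt) * (w P * w Q * sl g z r P Q) :=
      mul_nonneg (by have := tt_pos; positivity) (mul_nonneg hww hsl)
    by_cases hb : Bad g P Q
    · rw [if_pos hb]
      rcases lt_or_ge tt (sl g z r P Q) with hs | hs
      · have h1 : w P * w Q ≤ (1 / tt) * (w P * w Q * sl g z r P Q) := by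
          rw [one_div, inv_mul_eq_div, le_div_iff₀ tt_pos]
          exact mul_le_mul_of_nonneg_left hs.le hww
        linarith
      · rcases D.bad_class tt_pos hgP hgQ hs hb with ⟨h1, _⟩ | h1 | h1 | ⟨h14, h1⟩
        · have h2 : 2 ≤ mm g P Q := by
            rcases hb with hb | ⟨hb, _⟩
            · linarith
            · exact hb.ge
          rw [if_pos ⟨h1, h2⟩]
          linarith
        · rw [if_pos h1]
          linarith
        · rw [if_pos h1]
          linarith
        · rcases h1 with h1 | h1 | h1 | h1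
          · have h2 : F P Q = w P * w Q := by
              rw [hF]; exact if_pos ⟨h1, hs, h14⟩
            linarith
          · have h2 : F P.swap Q = w P * w Q := by
              rw [hF]
              dsimp only
              rw [if_pos ⟨h1, by rw [D.sl_swap1]; exact hs, by rw [alp_swap]; exact h14⟩,
                C.swapw]
            linarith
          · have h2 : F P Q.swap = w P * w Q := by
              rw [hF]
              dsimp only
              rw [if_pos ⟨h1, by rw [D.sl_swap2]; exact hs, by rw [alp_swap]; exact h14⟩,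
                C.swapw]
            linarith
          · have h2 : F P.swap Q.swap = w P * w Q := by
              rw [hF]
              dsimp only
              rw [if_pos ⟨h1, by rw [D.sl_swap1, D.sl_swap2]; exact hs,
                by rw [alp_swap, alp_swap]; exact h14⟩, C.swapw, C.swapw]
            linarith
    · rw [if_neg hb]
      linarith
  refine (Finset.sum_le_sum fun P _ => Finset.sum_le_sum fun Q _ => key P Q).trans ?_
  simp only [Finset.sum_add_distrib]
  have e1 : ∑ P, ∑ Q, (1 / tt) * (w P * w Q * sl g z r P Q) ≤ κ / tt := by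
    have h1 : ∑ P, ∑ Q, (1 / tt) * (w P * w Q * sl g z r P Q) =
        (1 / tt) * ∑ P, ∑ Q, w P * w Q * sl g z r P Q := by
      rw [Finset.mul_sum]
      refine Finset.sum_congr rfl fun P _ => ?_
      rw [Finset.mul_sum]
    rw [h1, one_div, inv_mul_eq_div]
    exact div_le_div_of_nonneg_right C.B1 tt_pos.le
  have hT0 : 0 ≤ ∑ P, (if T3 tt r P then w P else 0) := by
    refine Finset.sum_nonneg fun P _ => ?_
    split_ifs
    · exact C.nn P
    · exact le_rfl
  have hw0 : 0 ≤ ∑ P, w P := Finset.sum_nonneg fun P _ => C.nn P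
  have e3 : ∑ P, ∑ Q, (if T3 tt r P then w P else 0) * w Q ≤ ε := by
    rw [← Finset.sum_mul_sum]
    calc (∑ P, if T3 tt r P then w P else 0) * ∑ Q, w Q ≤
        (∑ P, if T3 tt r P then w P else 0) * 1 := mul_le_mul_of_nonneg_left C.le1 hT0
      _ ≤ ε := by rw [mul_one]; exact hT
  have e4 : ∑ P, ∑ Q, w P * (if T3 tt r Q then w Q else 0) ≤ ε := by
    rw [← Finset.sum_mul_sum]
    calc (∑ P, w P) * (∑ P, if T3 tt r P then w P else 0) ≤
        1 * (∑ P, if T3 tt r P then w P else 0) := mul_le_mul_of_nonneg_right C.le1 hT0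
      _ ≤ ε := by rw [one_mul]; exact hT
  have e6 : ∑ P : V × V, ∑ Q : V × V, F P.swap Q = ∑ P, ∑ Q, F P Q := sum_swap (fun P => ∑ Q, F P Q)
  have e7 : ∑ P : V × V, ∑ Q : V × V, F P Q.swap = ∑ P, ∑ Q, F P Q :=
    Finset.sum_congr rfl fun P _ => sum_swap (fun Q => F P Q)
  have e8 : ∑ P : V × V, ∑ Q : V × V, F P.swap Q.swap = ∑ P, ∑ Q, F P Q := by
    rw [← e7]
    exact sum_swap (fun P => ∑ Q : V × V, F P Q.swap)
  rw [e6, e7, e8]
  linarith

open Classical in
theorem bad_part2 {κ ε : ℝ} (D : Dat g z r η) (C : Core g z r η w κ) (hκ : 0 ≤ κ)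
    (hO : (∑ P, ∑ Q, if alp r P ≤ 14 * tt ∧ mm g P Q < 1 then w P * w Q else 0) ≤ ε) :
    1 - (κ / (14 * tt) + 6 * κ + ε) ≤ ∑ P, ∑ Q, w P * w Q * mm g P Q := by
  have h14 : 0 < 14 * tt := by have := tt_pos; positivity
  have hid : ∑ P, ∑ Q, w P * w Q * mm g P Q =
      (1 + 4 * η) * ∑ P, w P - ∑ P, w P * DD g η w P := by
    rw [Finset.mul_sum, ← Finset.sum_sub_distrib]
    refine Finset.sum_congr rfl fun P _ => ?_
    unfold DD
    have h1 : ∑ Q, w P * w Q * mm g P Q = w P * ∑ Q, w Q * mm g P Q := by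
      rw [Finset.mul_sum]
      exact Finset.sum_congr rfl fun Q _ => by ring
    rw [h1]
    ring
  have key : ∀ P, w P * DD g η w P ≤ (1 / (14 * tt)) * (w P * alp r P * DD g η w P) +
      w P * (4 * η + κ) +
      ∑ Q, (if alp r P ≤ 14 * tt ∧ mm g P Q < 1 then w P * w Q else 0) := by
    intro P
    have hwP := C.nn P
    have hDD := C.DD_nonneg P
    have hal : 0 ≤ alp r P := al_nonneg _ _
    have hs : 0 ≤ ∑ Q, (if alp r P ≤ 14 * tt ∧ mm g P Q < 1 then w P * w Q else 0) := by
      refine Finset.sum_nonneg fun Q _ => ?_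
      split_ifs
      · exact mul_nonneg hwP (C.nn Q)
      · exact le_rfl
    have hηκ : 0 ≤ w P * (4 * η + κ) := mul_nonneg hwP (by linarith [D.eta0])
    rcases lt_or_ge (14 * tt) (alp r P) with h | h
    · have h1 : w P * DD g η w P ≤ (1 / (14 * tt)) * (w P * alp r P * DD g η w P) := by
        rw [one_div, inv_mul_eq_div, le_div_iff₀ h14]
        have h2 : w P * alp r P * DD g η w P = (w P * DD g η w P) * alp r P := by ring
        rw [h2]
        exact mul_le_mul_of_nonneg_left h.le (mul_nonneg hwP hDD)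
      linarith
    · have h1 : 0 ≤ (1 / (14 * tt)) * (w P * alp r P * DD g η w P) :=
        mul_nonneg (by positivity) (mul_nonneg (mul_nonneg hwP hal) hDD)
      have h2 : w P * DD g η w P ≤ w P * (4 * η + κ) +
          ∑ Q, (if alp r P ≤ 14 * tt ∧ mm g P Q < 1 then w P * w Q else 0) := by
        have h3 : ∑ Q, (if alp r P ≤ 14 * tt ∧ mm g P Q < 1 then w P * w Q else 0) =
            w P * ∑ Q, (if mm g P Q < 1 then w Q else 0) := by
          rw [Finset.mul_sum]
          refine Finset.sum_congr rfl fun Q _ => ?_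
          by_cases hm : mm g P Q < 1
          · rw [if_pos ⟨h, hm⟩, if_pos hm]
          · rw [if_neg (fun h' => hm h'.2), if_neg hm, mul_zero]
        rw [h3, ← mul_add]
        refine mul_le_mul_of_nonneg_left ?_ hwP
        unfold DD
        have h4 : ∑ Q, w Q ≤ ∑ Q, w Q * mm g P Q + ∑ Q, (if mm g P Q < 1 then w Q else 0) := by
          rw [← Finset.sum_add_distrib]
          refine Finset.sum_le_sum fun Q _ => ?_
          have hwQ := C.nn Q
          by_cases hm : mm g P Q < 1
          · rw [if_pos hm]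
            have := mul_nonneg hwQ (D.mm_nonneg P Q)
            linarith
          · rw [if_neg hm, add_zero]
            exact le_mul_of_one_le_right hwQ (not_lt.1 hm)
        linarith [C.ge1]
      linarith
  have hsum := Finset.sum_le_sum fun P (_ : P ∈ Finset.univ) => key P
  rw [Finset.sum_add_distrib, Finset.sum_add_distrib, ← Finset.mul_sum, ← Finset.sum_mul]
    at hsum
  have e1 : (1 / (14 * tt)) * ∑ P, w P * alp r P * DD g η w P ≤ κ / (14 * tt) := by
    rw [one_div, inv_mul_eq_div]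
    exact div_le_div_of_nonneg_right C.B2 h14.le
  have e2 : (∑ P, w P) * (4 * η + κ) ≤ 5 * κ := by
    have h1 : (∑ P, w P) * (4 * η + κ) ≤ 1 * (4 * η + κ) :=
      mul_le_mul_of_nonneg_right C.le1 (by linarith [D.eta0])
    linarith [C.eta]
  have e3 : 1 - κ ≤ (1 + 4 * η) * ∑ P, w P := by
    have h1 := C.ge1
    have h2 : 0 ≤ ∑ P, w P := Finset.sum_nonneg fun P _ => C.nn P
    have h3 : 0 ≤ 4 * η * ∑ P, w P := mul_nonneg (by linarith [D.eta0]) h2
    linarith
  rw [hid]
  linarith

/-- row B -/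
theorem st_bad (hT : StT3) (hM : StM3) (hO : StO) : StBad := by
  intro ε hε
  have hε1 : 0 < ε / 16 := by positivity
  obtain ⟨κT, hκT, hT⟩ := hT (ε / 16) hε1
  obtain ⟨κM, hκM, hM⟩ := hM (ε / 16) hε1
  obtain ⟨κO, hκO, hO⟩ := hO (ε / 16) hε1
  refine ⟨min (min κT κM) (min κO (ε / 40000)), by positivity, ?_⟩
  intro V _ g z r η w D C
  obtain ⟨κ, hκ⟩ : ∃ κ : ℝ, κ = min (min κT κM) (min κO (ε / 40000)) := ⟨_, rfl⟩
  rw [← hκ] at C
  have h1 : κ ≤ κT := hκ ▸ (min_le_left _ _).trans (min_le_left _ _)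
  have h2 : κ ≤ κM := hκ ▸ (min_le_left _ _).trans (min_le_right _ _)
  have h3 : κ ≤ κO := hκ ▸ (min_le_right _ _).trans (min_le_left _ _)
  have h4 : κ ≤ ε / 40000 := hκ ▸ (min_le_right _ _).trans (min_le_right _ _)
  have h0 : 0 < κ := hκ ▸ (by positivity)
  have hO' := hO V g z r η w D (C.mono' h3)
  have p1 := bad_part1 D C hε1.le (hT V g z r η w D (C.mono' h1))
    (hM V g z r η w D (C.mono' h2)) hO'.1
  have p2 := bad_part2 D C h0.le hO'.2
  have e1 : κ / tt = 10000 * κ := by unfold tt; field_simp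
  have e2 : κ / (14 * tt) ≤ 1000 * κ := by
    rw [div_le_iff₀ (by have := tt_pos; positivity)]
    unfold tt
    linarith
  rw [e1] at p1
  exact ⟨by linarith, by linarith⟩

end

end ST
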