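import Pool.Agent.H56.ST.Stm
import Pool.Agent.H56.ST.Loc

/-!
# Stability of the fractional Nash-Williams theorem: `β` is small on heavy blocks
-/

open Finset

namespace ST

open Classical in
private lemma beta_W {V : Type} [Fintype V] (hL : StBlock) {g z : V → V → ℝ} {r : V → ℝ} {η : ℝ}
    {M : V → V → ℝ} {ε θ Θ lam : ℝ} {m : ℕ} {C : Fin m → Finset V} (D : Dat g z r η)
    (N : NM g z r M ε) (hs : ∀ x y, M x y = M y x) (hθ : θ ≤ 1 / 1000)
    (K : Clus g M θ Θ m C) (hlam : 0 < lam) (hΘ : 4 * Θ + ε ≤ lam / 200) (i j : Fin m)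
    (hij : lam ≤ wij M C i j) (x y : V) (hx : x ∈ C i) (hy : y ∈ C j) :
    lam / 20 ≤ ∑ Q ∈ C i ×ˢ C j, wOf g z r M Q * ((1 - g x Q.1) * (1 - g y Q.2)) := by
  have hn : 0 < (Fintype.card V : ℝ) := D.card0
  set n : ℝ := (Fintype.card V : ℝ) with hndef
  have hg : ∀ u v, 0 ≤ 1 - g u v ∧ 1 - g u v ≤ 1 := by
    intro u v
    rcases D.g01 u v with h | h <;> rw [h] <;> constructor <;> norm_num
  have hf0 : ∀ u v, 0 ≤ (1 - g x u) * (1 - g y v) := fun u v =>
    mul_nonneg (hg x u).1 (hg y v).1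
  have hf1 : ∀ u v, (1 - g x u) * (1 - g y v) ≤ 1 := fun u v =>
    mul_le_one₀ (hg x u).2 (hg y v).1 (hg y v).2
  have hc : (247 / 1000 : ℝ) ≤ 1 / 4 - 3 * θ := by linarith
  have hci : 0 < ((C i).card : ℝ) := lt_of_lt_of_le (mul_pos (by linarith) hn) (K.big i)
  have hcj : 0 < ((C j).card : ℝ) := lt_of_lt_of_le (mul_pos (by linarith) hn) (K.big j)
  have hci' : ((C i).card : ℝ) ≤ n := by
    rw [hndef]
    exact_mod_cast Finset.card_le_univ (C i)
  have hcj' : ((C j).card : ℝ) ≤ n := by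
    rw [hndef]
    exact_mod_cast Finset.card_le_univ (C j)
  have hblk := hL V M (C i) (C j) Θ (fun u v => (1 - g x u) * (1 - g y v)) hn
    (Finset.card_pos.1 (by exact_mod_cast hci)) (Finset.card_pos.1 (by exact_mod_cast hcj)) hs
    (K.near i) (K.near j) hf0 hf1
  have ha := K.nb i x hx
  have hb := K.nb j y hy
  have hab : ∑ u ∈ C i, ∑ v ∈ C j, (1 - g x u) * (1 - g y v) =
      (∑ u ∈ C i, (1 - g x u)) * ∑ v ∈ C j, (1 - g y v) := by
    rw [Finset.sum_mul_sum]
  rw [hab] at hblk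
  set a := ∑ u ∈ C i, (1 - g x u) with hadef
  set b := ∑ v ∈ C j, (1 - g y v) with hbdef
  set T := ∑ u ∈ C i, ∑ v ∈ C j, M u v with hTdef
  have hT : lam * n ≤ T := by
    have h1 : lam ≤ T / n := hij
    rwa [le_div_iff₀ hn] at h1
  have ha' : 247 / 1000 * n ≤ a := le_trans (mul_le_mul_of_nonneg_right hc hn.le) ha
  have hb' : 247 / 1000 * n ≤ b := le_trans (mul_le_mul_of_nonneg_right hc hn.le) hb
  have hmain : lam * n * (61 / 1000) ≤ T / ((C i).card * (C j).card) * (a * b) := by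
    have h1 : 0 < ((C i).card : ℝ) * (C j).card := mul_pos hci hcj
    rw [div_mul_eq_mul_div, le_div_iff₀ h1]
    have h2 : ((C i).card : ℝ) * (C j).card ≤ n * n := mul_le_mul hci' hcj' hcj.le hn.le
    have h3 : (247 / 1000 * n) * (247 / 1000 * n) ≤ a * b :=
      mul_le_mul ha' hb' (by positivity) (le_trans (by positivity) ha')
    have h4 : 0 ≤ lam * n := by positivity
    have h5 : lam * n * ((247 / 1000 * n) * (247 / 1000 * n)) ≤ T * (a * b) :=
      mul_le_mul hT h3 (by positivity) (h4.trans hT)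
    have h6 : lam * n * (61 / 1000) * (((C i).card : ℝ) * (C j).card) ≤
        lam * n * (61 / 1000) * (n * n) := mul_le_mul_of_nonneg_left h2 (by positivity)
    have h7 : lam * n * (61 / 1000) * (n * n) ≤
        lam * n * ((247 / 1000 * n) * (247 / 1000 * n)) := by
      have h8 : 0 ≤ lam * n * (n * n) := by positivity
      nlinarith
    linarith
  -- the difference between the two weights
  have hterm : ∀ Q ∈ C i ×ˢ C j, M Q.1 Q.2 * ((1 - g x Q.1) * (1 - g y Q.2)) -
      M Q.1 Q.2 * cc g z r Q.1 Q.2 ≤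
      n * (wOf g z r M Q * ((1 - g x Q.1) * (1 - g y Q.2))) := by
    intro Q _
    have hM := N.nn Q.1 Q.2
    unfold wOf
    split_ifs with h
    · rw [hs Q.2 Q.1]
      have e1 : n * ((M Q.1 Q.2 + M Q.1 Q.2) / (2 * (Fintype.card V : ℝ)) *
          ((1 - g x Q.1) * (1 - g y Q.2))) = M Q.1 Q.2 * ((1 - g x Q.1) * (1 - g y Q.2)) := by
        rw [← hndef]
        field_simp
        ring
      rw [e1]
      have h1 := mul_nonneg hM (D.cc_nonneg Q.1 Q.2)
      linarith
    · rw [zero_mul, mul_zero, ← mul_sub]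
      exact mul_nonpos_of_nonneg_of_nonpos hM (by linarith [hf1 Q.1 Q.2])
  have hsum : (∑ u ∈ C i, ∑ v ∈ C j, M u v * ((1 - g x u) * (1 - g y v))) - ε * n ≤
      n * ∑ Q ∈ C i ×ˢ C j, wOf g z r M Q * ((1 - g x Q.1) * (1 - g y Q.2)) := by
    rw [Finset.mul_sum]
    refine le_trans ?_ (Finset.sum_le_sum hterm)
    rw [Finset.sum_sub_distrib, Finset.sum_product
      (f := fun Q : V × V => M Q.1 Q.2 * ((1 - g x Q.1) * (1 - g y Q.2)))]
    have h1 : ∑ Q ∈ C i ×ˢ C j, M Q.1 Q.2 * cc g z r Q.1 Q.2 ≤ ε * n := by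
      refine le_trans ?_ N.cost
      rw [← Fintype.sum_prod_type' (f := fun u v => M u v * cc g z r u v)]
      exact Finset.sum_le_univ_sum_of_nonneg fun Q => mul_nonneg (N.nn _ _) (D.cc_nonneg _ _)
    linarith
  have h2 := (abs_le.1 hblk).1
  have h3 : lam * n * (61 / 1000) - 4 * Θ * n - ε * n ≤
      n * ∑ Q ∈ C i ×ˢ C j, wOf g z r M Q * ((1 - g x Q.1) * (1 - g y Q.2)) := by
    linarith
  have h4 : n * (lam / 20) ≤
      n * ∑ Q ∈ C i ×ˢ C j, wOf g z r M Q * ((1 - g x Q.1) * (1 - g y Q.2)) := by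
    refine le_trans ?_ h3
    have h5 : (4 * Θ + ε) * n ≤ lam / 200 * n := mul_le_mul_of_nonneg_right hΘ hn.le
    nlinarith
  exact le_of_mul_le_mul_left h4 hn

open Classical in
theorem st_beta (hL : StBlock) : StBeta := by
  intro V _ g z r η M ε κ θ Θ lam m C D N hs hθ K hlam hΘ hκ i j hij
  have hn : 0 < (Fintype.card V : ℝ) := D.card0
  have hw0 : ∀ P : V × V, 0 ≤ wOf g z r M P := by
    intro P
    unfold wOf
    split_ifs
    · exact div_nonneg (add_nonneg (N.nn _ _) (N.nn _ _)) (by positivity)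
    · exact le_rfl
  have hsupp : ∀ P : V × V, wOf g z r M P ≠ 0 → g P.1 P.2 = 1 := by
    intro P h
    unfold wOf at h
    split_ifs at h with h1
    · exact (D.of_cc_lt h1).1
    · exact absurd rfl h
  have hnn : ∀ P Q : V × V, 0 ≤ wOf g z r M P * wOf g z r M Q * sl g z r P Q := by
    intro P Q
    by_cases hP : wOf g z r M P = 0
    · rw [hP, zero_mul, zero_mul]
    by_cases hQ : wOf g z r M Q = 0
    · rw [hQ, mul_zero, zero_mul]
    exact mul_nonneg (mul_nonneg (hw0 P) (hw0 Q)) (D.sl_nonneg (hsupp P hP) (hsupp Q hQ))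
  have hbe : ∀ P : V × V, 0 ≤ alp r P - r P.1 - r P.2 := by
    intro P
    have := add_le_al (r P.1) (r P.2)
    unfold alp
    linarith
  have key : ∀ P ∈ C i ×ˢ C j, wOf g z r M P * (alp r P - r P.1 - r P.2) * (lam / 20) ≤
      ∑ Q, wOf g z r M P * wOf g z r M Q * sl g z r P Q := by
    intro P hP
    rw [Finset.mem_product] at hP
    by_cases hP0 : wOf g z r M P = 0
    · rw [hP0, zero_mul, zero_mul]
      exact Finset.sum_nonneg fun Q _ => by rw [zero_mul, zero_mul]
    have hW := beta_W hL D N hs hθ K hlam hΘ i j hij P.1 P.2 hP.1 hP.2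
    have h1 : ∑ Q ∈ C i ×ˢ C j, wOf g z r M P * (alp r P - r P.1 - r P.2) *
        (wOf g z r M Q * ((1 - g P.1 Q.1) * (1 - g P.2 Q.2))) ≤
        ∑ Q ∈ C i ×ˢ C j, wOf g z r M P * wOf g z r M Q * sl g z r P Q := by
      refine Finset.sum_le_sum fun Q _ => ?_
      by_cases hQ0 : wOf g z r M Q = 0
      · rw [hQ0, zero_mul, mul_zero, mul_zero, zero_mul]
      have hgP := hsupp P hP0
      have hgQ := hsupp Q hQ0
      rcases D.g01 P.1 Q.1 with h11 | h11
      · rcases D.g01 P.2 Q.2 with h22 | h22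
        · have hb := D.beta hgP hgQ h11 h22
          rw [h11, h22]
          have h2 : 0 ≤ wOf g z r M P * wOf g z r M Q := mul_nonneg (hw0 P) (hw0 Q)
          have h3 := mul_le_mul_of_nonneg_left hb h2
          calc wOf g z r M P * (alp r P - r P.1 - r P.2) *
                (wOf g z r M Q * ((1 - 0) * (1 - 0)))
              = wOf g z r M P * wOf g z r M Q * (alp r P - r P.1 - r P.2) := by ring
            _ ≤ _ := h3
        · rw [h22, sub_self, mul_zero, mul_zero, mul_zero]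
          exact hnn P Q
      · rw [h11, sub_self, zero_mul, mul_zero, mul_zero]
        exact hnn P Q
    rw [← Finset.mul_sum] at h1
    have h2 : wOf g z r M P * (alp r P - r P.1 - r P.2) * (lam / 20) ≤
        wOf g z r M P * (alp r P - r P.1 - r P.2) *
        ∑ Q ∈ C i ×ˢ C j, wOf g z r M Q * ((1 - g P.1 Q.1) * (1 - g P.2 Q.2)) :=
      mul_le_mul_of_nonneg_left hW (mul_nonneg (hw0 P) (hbe P))
    refine (h2.trans h1).trans ?_
    exact Finset.sum_le_univ_sum_of_nonneg fun Q => hnn P Q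
  have hfin : (∑ P ∈ C i ×ˢ C j, wOf g z r M P * (alp r P - r P.1 - r P.2)) * (lam / 20) ≤ κ := by
    rw [Finset.sum_mul]
    refine ((Finset.sum_le_sum key).trans ?_).trans hκ
    exact Finset.sum_le_univ_sum_of_nonneg fun P => Finset.sum_nonneg fun Q _ => hnn P Q
  rw [Finset.sum_product
    (f := fun P : V × V => wOf g z r M P * (alp r P - r P.1 - r P.2))] at hfin
  rw [le_div_iff₀ hlam]
  linarith

end ST
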