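import Pool.Agent.H56.ST.Stm

/-!
# Stability of the fractional Nash-Williams theorem: rows constant on blocks (row L)
-/

set_option autoImplicit false

open Finset

namespace ST

theorem st_block : StBlock := by
  intro V _ M A B Θ f hn hA hB hs h1 h2 f0 f1
  have ha : 0 < (A.card : ℝ) := by exact_mod_cast hA.card_pos
  have hb : 0 < (B.card : ℝ) := by exact_mod_cast hB.card_pos
  have haV : (A.card : ℝ) ≤ (Fintype.card V : ℝ) := by exact_mod_cast A.card_le_univ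
  have hbV : (B.card : ℝ) ≤ (Fintype.card V : ℝ) := by exact_mod_cast B.card_le_univ
  have hΘ : 0 ≤ Θ := by
    obtain ⟨x, hx⟩ := hA
    have h3 := h1 x hx x hx
    simp only [sub_self, abs_zero, Finset.sum_const_zero] at h3
    linarith
  have hab : 0 < (A.card : ℝ) * (B.card : ℝ) := mul_pos ha hb
  set N : ℝ := (∑ x ∈ A, ∑ y ∈ B, M x y) / ((A.card : ℝ) * (B.card : ℝ)) with hN
  have e1 : (∑ x ∈ A, ∑ y ∈ B, M x y * f x y) - N * ∑ x ∈ A, ∑ y ∈ B, f x y =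
      ∑ x ∈ A, ∑ y ∈ B, (M x y - N) * f x y := by
    rw [Finset.mul_sum, ← Finset.sum_sub_distrib]
    refine Finset.sum_congr rfl fun x _ => ?_
    rw [Finset.mul_sum, ← Finset.sum_sub_distrib]
    refine Finset.sum_congr rfl fun y _ => ?_
    ring
  have e2 : |∑ x ∈ A, ∑ y ∈ B, (M x y - N) * f x y| ≤ ∑ x ∈ A, ∑ y ∈ B, |M x y - N| := by
    refine (Finset.abs_sum_le_sum_abs _ _).trans (Finset.sum_le_sum fun x _ => ?_)
    refine (Finset.abs_sum_le_sum_abs _ _).trans (Finset.sum_le_sum fun y _ => ?_)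
    rw [abs_mul, abs_of_nonneg (f0 x y)]
    exact mul_le_of_le_one_right (abs_nonneg _) (f1 x y)
  have e3 : ∀ x y, ((A.card : ℝ) * (B.card : ℝ)) * |M x y - N| ≤
      (∑ x' ∈ A, (B.card : ℝ) * |M x y - M x' y|) + ∑ x' ∈ A, ∑ y' ∈ B, |M x' y - M x' y'| := by
    intro x y
    have e4 : ((A.card : ℝ) * (B.card : ℝ)) * (M x y - N) =
        ∑ x' ∈ A, ∑ y' ∈ B, (M x y - M x' y') := by
      simp only [Finset.sum_sub_distrib, Finset.sum_const, nsmul_eq_mul]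
      rw [mul_sub, hN, mul_div_cancel₀ _ hab.ne']
      ring
    have e5 : ((A.card : ℝ) * (B.card : ℝ)) * |M x y - N| =
        |((A.card : ℝ) * (B.card : ℝ)) * (M x y - N)| := by
      rw [abs_mul, abs_of_pos hab]
    rw [e5, e4, ← Finset.sum_add_distrib]
    refine (Finset.abs_sum_le_sum_abs _ _).trans (Finset.sum_le_sum fun x' _ => ?_)
    refine (Finset.abs_sum_le_sum_abs _ _).trans ?_
    have e6 : (B.card : ℝ) * |M x y - M x' y| = ∑ y' ∈ B, |M x y - M x' y| := by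
      rw [Finset.sum_const, nsmul_eq_mul]
    rw [e6, ← Finset.sum_add_distrib]
    exact Finset.sum_le_sum fun y' _ => abs_sub_le _ _ _
  have s1 : ∑ x ∈ A, ∑ y ∈ B, ∑ x' ∈ A, (B.card : ℝ) * |M x y - M x' y| ≤
      (A.card : ℝ) * ((A.card : ℝ) * ((B.card : ℝ) * (2 * Θ))) := by
    refine (Finset.sum_le_card_nsmul A _ ((A.card : ℝ) * ((B.card : ℝ) * (2 * Θ)))
      fun x hx => ?_).trans (le_of_eq (nsmul_eq_mul _ _))
    rw [Finset.sum_comm]
    refine (Finset.sum_le_card_nsmul A _ ((B.card : ℝ) * (2 * Θ))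
      fun x' hx' => ?_).trans (le_of_eq (nsmul_eq_mul _ _))
    rw [← Finset.mul_sum]
    refine mul_le_mul_of_nonneg_left ?_ hb.le
    refine le_trans ?_ (h1 x hx x' hx')
    exact Finset.sum_le_univ_sum_of_nonneg fun y => abs_nonneg _
  have s2 : ∑ x ∈ A, ∑ y ∈ B, ∑ x' ∈ A, ∑ y' ∈ B, |M x' y - M x' y'| ≤
      (A.card : ℝ) * ((B.card : ℝ) * ((B.card : ℝ) * (2 * Θ))) := by
    rw [Finset.sum_const, nsmul_eq_mul]
    refine mul_le_mul_of_nonneg_left ?_ ha.le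
    refine (Finset.sum_le_card_nsmul B _ ((B.card : ℝ) * (2 * Θ))
      fun y hy => ?_).trans (le_of_eq (nsmul_eq_mul _ _))
    rw [Finset.sum_comm]
    refine (Finset.sum_le_card_nsmul B _ (2 * Θ)
      fun y' hy' => ?_).trans (le_of_eq (nsmul_eq_mul _ _))
    refine le_trans ?_ (h2 y hy y' hy')
    have s3 : ∑ x' ∈ A, |M x' y - M x' y'| = ∑ x' ∈ A, |M y x' - M y' x'| :=
      Finset.sum_congr rfl fun x' _ => by rw [hs x' y, hs x' y']
    rw [s3]
    exact Finset.sum_le_univ_sum_of_nonneg fun y => abs_nonneg _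
  have s4 : ((A.card : ℝ) * (B.card : ℝ)) * ∑ x ∈ A, ∑ y ∈ B, |M x y - N| ≤
      ((A.card : ℝ) * (B.card : ℝ)) * (2 * Θ * ((A.card : ℝ) + (B.card : ℝ))) := by
    have s5 : ((A.card : ℝ) * (B.card : ℝ)) * ∑ x ∈ A, ∑ y ∈ B, |M x y - N| =
        ∑ x ∈ A, ∑ y ∈ B, ((A.card : ℝ) * (B.card : ℝ)) * |M x y - N| := by
      rw [Finset.mul_sum]
      exact Finset.sum_congr rfl fun x _ => Finset.mul_sum _ _ _
    have s6 : ∑ x ∈ A, ∑ y ∈ B, ((A.card : ℝ) * (B.card : ℝ)) * |M x y - N| ≤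
        ∑ x ∈ A, ∑ y ∈ B, ∑ x' ∈ A, (B.card : ℝ) * |M x y - M x' y| +
        ∑ x ∈ A, ∑ y ∈ B, ∑ x' ∈ A, ∑ y' ∈ B, |M x' y - M x' y'| := by
      rw [← Finset.sum_add_distrib]
      refine Finset.sum_le_sum fun x _ => ?_
      rw [← Finset.sum_add_distrib]
      exact Finset.sum_le_sum fun y _ => e3 x y
    rw [s5]
    refine s6.trans ((add_le_add s1 s2).trans (le_of_eq ?_))
    ring
  have s7 : ∑ x ∈ A, ∑ y ∈ B, |M x y - N| ≤ 2 * Θ * ((A.card : ℝ) + (B.card : ℝ)) :=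
    le_of_mul_le_mul_left s4 hab
  rw [e1]
  refine e2.trans (s7.trans ?_)
  nlinarith

end ST
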