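import Pool.Agent.H56.ST.Stm

/-!
# Stability of the fractional Nash-Williams theorem, row K: clusters of rows
-/

open Finset

namespace ST

open Classical in
/-- distance of two rows -/
noncomputable def clD {V : Type} [Fintype V] (M : V → V → ℝ) (x y : V) : ℝ :=
  ∑ c, |M x c - M y c|

theorem clD_nonneg {V : Type} [Fintype V] (M : V → V → ℝ) (x y : V) : 0 ≤ clD M x y :=
  sum_nonneg fun _ _ => abs_nonneg _

theorem clD_self {V : Type} [Fintype V] (M : V → V → ℝ) (x : V) : clD M x x = 0 := by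
  unfold clD
  simp

theorem clD_symm {V : Type} [Fintype V] (M : V → V → ℝ) (x y : V) : clD M x y = clD M y x := by
  unfold clD
  exact sum_congr rfl fun c _ => abs_sub_comm _ _

theorem clD_tri {V : Type} [Fintype V] (M : V → V → ℝ) (x y z : V) :
    clD M x z ≤ clD M x y + clD M y z := by
  unfold clD
  rw [← sum_add_distrib]
  exact sum_le_sum fun c _ => abs_sub_le _ _ _

open Classical in
/-- balls of rows -/
noncomputable def clB {V : Type} [Fintype V] (M : V → V → ℝ) (X : Finset V) (θ : ℝ) (x : V) :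
    Finset V := X.filter fun c => clD M x c ≤ θ

theorem mem_clB {V : Type} [Fintype V] {M : V → V → ℝ} {X : Finset V} {θ : ℝ} {x c : V} :
    c ∈ clB M X θ x ↔ c ∈ X ∧ clD M x c ≤ θ := by
  unfold clB
  rw [mem_filter]

/-- separated sets have at most four points -/
theorem cl_sep {V : Type} [Fintype V] (M : V → V → ℝ) (θ : ℝ) (hn : 0 < (Fintype.card V : ℝ))
    (h1 : θ ≤ 1 / 100) (X S : Finset V) (hS : S ⊆ X) (Θ : ℝ) (hΘ : 2 * θ ≤ Θ)
    (hsep : ∀ x ∈ S, ∀ y ∈ S, x ≠ y → Θ < clD M x y)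
    (hb : ∀ x ∈ X, (1 / 4 - 3 / 2 * θ) * (Fintype.card V : ℝ) ≤ ((clB M X θ x).card : ℝ)) :
    S.card ≤ 4 := by
  classical
  have hdis : ∀ x ∈ S, ∀ y ∈ S, x ≠ y → Disjoint (clB M X θ x) (clB M X θ y) := by
    intro x hx y hy hxy
    rw [disjoint_left]
    intro c hc1 hc2
    have e1 := (mem_clB.1 hc1).2
    have e2 := (mem_clB.1 hc2).2
    have e3 := hsep x hx y hy hxy
    have e4 := clD_tri M x c y
    rw [clD_symm M c y] at e4
    linarith
  have hcard : (∑ x ∈ S, ((clB M X θ x).card : ℝ)) ≤ (Fintype.card V : ℝ) := by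
    rw [← Nat.cast_sum, ← card_biUnion hdis]
    exact_mod_cast card_le_univ _
  have hlow : (S.card : ℝ) * ((1 / 4 - 3 / 2 * θ) * (Fintype.card V : ℝ)) ≤
      ∑ x ∈ S, ((clB M X θ x).card : ℝ) := by
    rw [← nsmul_eq_mul, ← sum_const]
    exact sum_le_sum fun x hx => hb x (hS hx)
  by_contra h5
  push Not at h5
  have h6 : (5 : ℝ) ≤ S.card := by exact_mod_cast h5
  have h7 : (1 / 4 - 3 / 2 * (1 / 100)) * (Fintype.card V : ℝ) ≤
      (1 / 4 - 3 / 2 * θ) * (Fintype.card V : ℝ) :=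
    mul_le_mul_of_nonneg_right (by linarith) hn.le
  have h8 : 0 < (1 / 4 - 3 / 2 * θ) * (Fintype.card V : ℝ) := by
    have h9 : 0 < (1 / 4 - 3 / 2 * (1 / 100)) * (Fintype.card V : ℝ) := by
      refine mul_pos (by norm_num) hn
    linarith
  have h10 : 5 * ((1 / 4 - 3 / 2 * θ) * (Fintype.card V : ℝ)) ≤
      (S.card : ℝ) * ((1 / 4 - 3 / 2 * θ) * (Fintype.card V : ℝ)) :=
    mul_le_mul_of_nonneg_right h6 h8.le
  linarith

/-- a scale at which a separated set of centres is a net for a ten times smaller radius -/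
theorem cl_scale {V : Type} [Fintype V] (M : V → V → ℝ) (θ : ℝ)
    (hn : 0 < (Fintype.card V : ℝ)) (h0 : 0 < θ) (h1 : θ ≤ 1 / 100) (X : Finset V)
    (hX : X.Nonempty)
    (hb : ∀ x ∈ X, (1 / 4 - 3 / 2 * θ) * (Fintype.card V : ℝ) ≤ ((clB M X θ x).card : ℝ)) :
    ∃ Θ : ℝ, 10 * θ ≤ Θ ∧ Θ ≤ 10000 * θ ∧ ∃ S : Finset V, S ⊆ X ∧ S.card ≤ 4 ∧
      (∀ x ∈ S, ∀ y ∈ S, x ≠ y → 10 * Θ < clD M x y) ∧
      ∀ x ∈ X, ∃ s ∈ S, clD M x s ≤ Θ := by
  classical
  by_contra hcon
  have hpos : ∀ i : ℕ, (1 : ℝ) ≤ 10 ^ i := fun i => one_le_pow₀ (by norm_num)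
  have key : ∀ j : ℕ, j ≤ 4 → ∃ S : Finset V, S ⊆ X ∧ S.card = j + 1 ∧
      ∀ x ∈ S, ∀ y ∈ S, x ≠ y → 10 ^ (4 - j) * (10 * θ) < clD M x y := by
    intro j
    induction j with
    | zero =>
      intro _
      obtain ⟨x0, hx0⟩ := hX
      refine ⟨{x0}, singleton_subset_iff.2 hx0, card_singleton _, ?_⟩
      intro x hx y hy hxy
      rw [mem_singleton] at hx hy
      exact absurd (hx.trans hy.symm) hxy
    | succ j ih =>
      intro hj
      obtain ⟨S, hSX, hSc, hSs⟩ := ih (by omega)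
      set Θ : ℝ := 10 ^ (4 - (j + 1)) * (10 * θ) with hΘ
      have e1 : (10 : ℝ) ^ (4 - j) = 10 * 10 ^ (4 - (j + 1)) := by
        rw [← pow_succ']
        congr 1
        omega
      have hΘ1 : 10 * θ ≤ Θ := by
        rw [hΘ]
        exact le_mul_of_one_le_left (by linarith) (hpos _)
      have hΘ2 : Θ ≤ 10000 * θ := by
        have e2 : (10 : ℝ) ^ (4 - (j + 1)) ≤ 10 ^ 3 :=
          pow_le_pow_right₀ (by norm_num) (by omega)
        have e3 : Θ ≤ 10 ^ 3 * (10 * θ) := mul_le_mul_of_nonneg_right e2 (by linarith)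
        linarith
      have hSs' : ∀ x ∈ S, ∀ y ∈ S, x ≠ y → 10 * Θ < clD M x y := by
        intro x hx y hy hxy
        have e2 := hSs x hx y hy hxy
        rw [e1] at e2
        rw [hΘ]
        linarith
      have hc4 := cl_sep M θ hn h1 X S hSX (10 * Θ) (by linarith) hSs' hb
      have hne : ∃ x ∈ X, ∀ s ∈ S, Θ < clD M x s := by
        by_contra hh
        push Not at hh
        exact hcon ⟨Θ, hΘ1, hΘ2, S, hSX, hc4, hSs', hh⟩
      obtain ⟨x, hx, hxs⟩ := hne
      have hxS : x ∉ S := by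
        intro h
        have e2 := hxs x h
        rw [clD_self] at e2
        linarith
      refine ⟨insert x S, insert_subset hx hSX, ?_, ?_⟩
      · rw [card_insert_of_notMem hxS, hSc]
      · intro a ha b hb' hab
        rcases mem_insert.1 ha with ha2 | ha2
        · rcases mem_insert.1 hb' with hb2 | hb2
          · exact absurd (ha2.trans hb2.symm) hab
          · rw [ha2]
            exact hxs b hb2
        · rcases mem_insert.1 hb' with hb2 | hb2
          · rw [clD_symm, hb2]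
            exact hxs a ha2
          · have e2 := hSs' a ha2 b hb2 hab
            linarith
  obtain ⟨S, hSX, hSc, hSs⟩ := key 4 le_rfl
  have h5 := cl_sep M θ hn h1 X S hSX (10 ^ (4 - 4) * (10 * θ)) (by norm_num; linarith) hSs hb
  omega

theorem cl_core {V : Type} [Fintype V] (g M : V → V → ℝ) (θ η : ℝ)
    (hn : 0 < (Fintype.card V : ℝ)) (h0 : 0 < θ) (h1 : θ ≤ 1 / 100) (hη : η ≤ θ / 4)
    (hg : ∀ x y, g x y = 0 ∨ g x y = 1)
    (hd : ∀ x, ∑ y, (1 - g x y) ≤ (1 / 4 + η) * (Fintype.card V : ℝ)) (X : Finset V)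
    (hX : (1 - θ) * (Fintype.card V : ℝ) ≤ (X.card : ℝ))
    (hr : ∀ x ∈ X, 1 - θ ≤ ∑ y, M x y)
    (hb : ∀ x ∈ X, (1 / 4 - 3 / 2 * θ) * (Fintype.card V : ℝ) ≤
      ∑ c ∈ clB M X θ x, (1 - g x c)) :
    ∃ (m : ℕ) (C : Fin m → Finset V), Clus g M θ (100000 * θ) m C := by
  classical
  have hh0 : ∀ x y, 0 ≤ 1 - g x y := fun x y => by
    rcases hg x y with h | h <;> rw [h] <;> norm_num
  have hh1 : ∀ x y, 1 - g x y ≤ 1 := fun x y => by
    rcases hg x y with h | h <;> rw [h] <;> norm_num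
  have hb' : ∀ x ∈ X, (1 / 4 - 3 / 2 * θ) * (Fintype.card V : ℝ) ≤
      ((clB M X θ x).card : ℝ) := by
    intro x hx
    refine (hb x hx).trans ?_
    calc ∑ c ∈ clB M X θ x, (1 - g x c) ≤ ∑ _c ∈ clB M X θ x, (1 : ℝ) :=
          sum_le_sum fun c _ => hh1 x c
      _ = ((clB M X θ x).card : ℝ) := by rw [sum_const, nsmul_eq_mul, mul_one]
  have hXne : X.Nonempty := by
    rw [← card_pos]
    have h2 : 0 < (1 - θ) * (Fintype.card V : ℝ) := mul_pos (by linarith) hn
    have h3 : (0 : ℝ) < X.card := by linarith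
    exact_mod_cast h3
  obtain ⟨Θ, hΘ1, hΘ2, S, hSX, hS4, hSs, hSn⟩ := cl_scale M θ hn h0 h1 X hXne hb'
  set ct : Fin S.card → V := fun i => (S.equivFin.symm i : V) with hct
  have hctm : ∀ i, ct i ∈ S := fun i => (S.equivFin.symm i).2
  have hctinj : ∀ i j, i ≠ j → ct i ≠ ct j := by
    intro i j hij h
    exact hij (S.equivFin.symm.injective (Subtype.ext h))
  have hcts : ∀ s ∈ S, ∃ i, ct i = s := by
    intro s hs
    refine ⟨S.equivFin ⟨s, hs⟩, ?_⟩
    rw [hct]
    simp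
  have hsepc : ∀ i j, i ≠ j → 10 * Θ < clD M (ct i) (ct j) := fun i j hij =>
    hSs _ (hctm i) _ (hctm j) (hctinj i j hij)
  have hnbh : ∀ i, ∀ x ∈ clB M X Θ (ct i), clB M X θ x ⊆ clB M X Θ (ct i) := by
    intro i x hx c hc
    obtain ⟨hx1, hx2⟩ := mem_clB.1 hx
    obtain ⟨hc1, hc2⟩ := mem_clB.1 hc
    obtain ⟨s, hs, hcs⟩ := hSn c hc1
    obtain ⟨j, rfl⟩ := hcts s hs
    by_cases hij : i = j
    · rw [hij, mem_clB]
      exact ⟨hc1, by rw [clD_symm]; exact hcs⟩
    · exfalso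
      have e1 := hsepc i j hij
      have e2 := clD_tri M (ct i) x (ct j)
      have e3 := clD_tri M x c (ct j)
      linarith
  have hlow : ∀ i, ∀ x ∈ clB M X Θ (ct i), (1 / 4 - 3 / 2 * θ) * (Fintype.card V : ℝ) ≤
      ∑ c ∈ clB M X Θ (ct i), (1 - g x c) := by
    intro i x hx
    refine (hb x (mem_clB.1 hx).1).trans ?_
    exact sum_le_sum_of_subset_of_nonneg (hnbh i x hx) fun c _ _ => hh0 x c
  have hself : ∀ i, ct i ∈ clB M X Θ (ct i) := fun i => mem_clB.2 ⟨hSX (hctm i), by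
    rw [clD_self]
    linarith⟩
  refine ⟨S.card, fun i => clB M X Θ (ct i), hS4, ?_, ?_, ?_, ?_, ?_, ?_, ?_⟩
  · intro i j hij
    rw [disjoint_left]
    intro c hc1 hc2
    have e1 := (mem_clB.1 hc1).2
    have e2 := (mem_clB.1 hc2).2
    have e3 := hsepc i j hij
    have e4 := clD_tri M (ct i) c (ct j)
    rw [clD_symm M c (ct j)] at e4
    linarith
  · intro i
    have e1 : (1 / 4 - 3 / 2 * θ) * (Fintype.card V : ℝ) ≤
        ((clB M X Θ (ct i)).card : ℝ) := by
      refine (hb' (ct i) (hSX (hctm i))).trans ?_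
      exact_mod_cast card_le_card (hnbh i _ (hself i))
    refine le_trans ?_ e1
    exact mul_le_mul_of_nonneg_right (by linarith) hn.le
  · refine hX.trans ?_
    rw [← Nat.cast_sum]
    have e1 : X ⊆ univ.biUnion fun i => clB M X Θ (ct i) := by
      intro x hx
      obtain ⟨s, hs, hxs⟩ := hSn x hx
      obtain ⟨j, rfl⟩ := hcts s hs
      exact mem_biUnion.2 ⟨j, mem_univ j, mem_clB.2 ⟨hx, by rw [clD_symm]; exact hxs⟩⟩
    exact_mod_cast (card_le_card e1).trans card_biUnion_le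
  · intro i x hx
    refine le_trans ?_ (hlow i x hx)
    exact mul_le_mul_of_nonneg_right (by linarith) hn.le
  · intro i x hx
    have e1 := hlow i x hx
    have e2 := hd x
    have e3 : (1 / 4 + η) * (Fintype.card V : ℝ) - (1 / 4 - 3 / 2 * θ) * (Fintype.card V : ℝ) ≤
        2 * θ * (Fintype.card V : ℝ) := by
      rw [← sub_mul]
      exact mul_le_mul_of_nonneg_right (by linarith) hn.le
    linarith
  · intro i x hx
    exact hr x (mem_clB.1 hx).1
  · intro i x hx y hy
    have e1 := (mem_clB.1 hx).2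
    have e2 := (mem_clB.1 hy).2
    have e3 := clD_tri M x (ct i) y
    rw [clD_symm M x (ct i)] at e3
    have e4 : clD M x y ≤ 2 * (100000 * θ) := by linarith
    exact e4

open Classical in
/-- Markov's inequality -/
theorem cl_markov {V : Type} [Fintype V] (f : V → ℝ) (hf : ∀ x, 0 ≤ f x) (t : ℝ) :
    ((univ.filter fun x => t < f x).card : ℝ) * t ≤ ∑ x, f x := by
  calc ((univ.filter fun x => t < f x).card : ℝ) * t
      = ∑ _x ∈ univ.filter fun x => t < f x, t := by rw [sum_const, nsmul_eq_mul]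
    _ ≤ ∑ x ∈ univ.filter fun x => t < f x, f x :=
        sum_le_sum fun x hx => (mem_filter.1 hx).2.le
    _ ≤ ∑ x, f x := sum_le_sum_of_subset_of_nonneg (filter_subset _ _) fun x _ _ => hf x

theorem st_clus : StClus := by
  classical
  intro θ h0 h1
  refine ⟨θ ^ 3 / 8, by positivity, ?_⟩
  intro V _ g η M hn hη0 hη hg hgs hd hM hMr hmass hD hreg
  set n : ℝ := (Fintype.card V : ℝ) with hnd
  have hh0 : ∀ x y, 0 ≤ 1 - g x y := fun x y => by
    rcases hg x y with h | h <;> rw [h] <;> norm_num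
  have hh1 : ∀ x y, 1 - g x y ≤ 1 := fun x y => by
    rcases hg x y with h | h <;> rw [h] <;> norm_num
  have hk : 0 < (1 / 4 + η) * n := mul_pos (by linarith) hn
  -- the three exceptional sets
  set T1 : Finset V := univ.filter fun x => θ < 1 - (∑ y, (1 - g x y)) / ((1 / 4 + η) * n)
    with hT1
  set T2 : Finset V := univ.filter fun x => θ < 1 - ∑ y, M x y with hT2
  set T3 : Finset V := univ.filter fun x => θ * (θ / 2 * n) < ∑ c, (1 - g x c) * clD M x c
    with hT3
  have c1 : (T1.card : ℝ) * θ ≤ θ ^ 3 / 8 * n := by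
    refine (cl_markov _ (fun x => ?_) θ).trans hreg
    rw [sub_nonneg, div_le_one hk]
    exact hd x
  have c2 : (T2.card : ℝ) * θ ≤ θ ^ 3 / 8 * n := by
    refine (cl_markov _ (fun x => ?_) θ).trans ?_
    · rw [sub_nonneg]
      exact hMr x
    · rw [sum_sub_distrib, sum_const, card_univ, nsmul_eq_mul, mul_one]
      linarith
  have c3 : (T3.card : ℝ) * (θ * (θ / 2 * n)) ≤ θ ^ 3 / 8 * n ^ 2 := by
    refine (cl_markov _ (fun x => ?_) _).trans hD
    exact sum_nonneg fun c _ => mul_nonneg (hh0 x c) (clD_nonneg M x c)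
  have d1 : (T1.card : ℝ) ≤ θ / 8 * n := by
    have e1 : (T1.card : ℝ) * θ ≤ (θ ^ 2 / 8 * n) * θ := by
      refine c1.trans (le_of_eq ?_)
      ring
    have e2 := le_of_mul_le_mul_right e1 h0
    refine e2.trans (mul_le_mul_of_nonneg_right ?_ hn.le)
    nlinarith
  have d2 : (T2.card : ℝ) ≤ θ / 8 * n := by
    have e1 : (T2.card : ℝ) * θ ≤ (θ ^ 2 / 8 * n) * θ := by
      refine c2.trans (le_of_eq ?_)
      ring
    have e2 := le_of_mul_le_mul_right e1 h0
    refine e2.trans (mul_le_mul_of_nonneg_right ?_ hn.le)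
    nlinarith
  have d3 : (T3.card : ℝ) ≤ θ / 4 * n := by
    have e0 : 0 < θ * (θ / 2 * n) := by positivity
    have e1 : (T3.card : ℝ) * (θ * (θ / 2 * n)) ≤ (θ / 4 * n) * (θ * (θ / 2 * n)) := by
      refine c3.trans (le_of_eq ?_)
      ring
    exact le_of_mul_le_mul_right e1 e0
  set X : Finset V := univ \ (T1 ∪ T2 ∪ T3) with hX
  have hXc : ((univ \ X : Finset V).card : ℝ) ≤ θ / 2 * n := by
    have e1 : (univ \ X : Finset V) = T1 ∪ T2 ∪ T3 := by
      rw [hX, Finset.sdiff_sdiff_eq_self (subset_univ _)]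
    rw [e1]
    have e2 : ((T1 ∪ T2 ∪ T3).card : ℝ) ≤ T1.card + T2.card + T3.card := by
      have e3 := (card_union_le (T1 ∪ T2) T3)
      have e4 := card_union_le T1 T2
      exact_mod_cast (by omega : (T1 ∪ T2 ∪ T3).card ≤ T1.card + T2.card + T3.card)
    linarith
  have hXcard : (1 - θ) * n ≤ (X.card : ℝ) := by
    have e1 : (univ \ X : Finset V).card + X.card = Fintype.card V := by
      rw [card_sdiff_add_card_eq_card (subset_univ X), card_univ]
    have e2 : ((univ \ X : Finset V).card : ℝ) + X.card = n := by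
      rw [hnd]
      exact_mod_cast e1
    nlinarith
  have hmem : ∀ x ∈ X, x ∉ T1 ∧ x ∉ T2 ∧ x ∉ T3 := by
    intro x hx
    have e1 := (mem_sdiff.1 hx).2
    rw [mem_union, mem_union, not_or, not_or] at e1
    exact ⟨e1.1.1, e1.1.2, e1.2⟩
  refine cl_core g M θ η hn h0 h1 ?_ hg hd X hXcard ?_ ?_
  · have e1 : θ ^ 3 / 8 ≤ θ / 4 := by nlinarith [mul_pos h0 h0]
    linarith
  · intro x hx
    have e1 : ¬ θ < 1 - ∑ y, M x y := fun h => (hmem x hx).2.1 (mem_filter.2 ⟨mem_univ x, h⟩)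
    linarith
  · intro x hx
    obtain ⟨m1, _, m3⟩ := hmem x hx
    have e1 : ¬ θ < 1 - (∑ y, (1 - g x y)) / ((1 / 4 + η) * n) := fun h =>
      m1 (mem_filter.2 ⟨mem_univ x, h⟩)
    have e3 : ¬ θ * (θ / 2 * n) < ∑ c, (1 - g x c) * clD M x c := fun h =>
      m3 (mem_filter.2 ⟨mem_univ x, h⟩)
    push Not at e1 e3
    have f1 : (1 / 4 - θ / 4) * n ≤ ∑ y, (1 - g x y) := by
      have e4 : 1 - θ ≤ (∑ y, (1 - g x y)) / ((1 / 4 + η) * n) := by linarith
      rw [le_div_iff₀ hk] at e4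
      refine le_trans ?_ e4
      have e5 : 0 ≤ (1 - θ) * (η * n) := mul_nonneg (by linarith) (mul_nonneg hη0 hn.le)
      nlinarith
    -- the rows which are far
    have f2 : ∑ c ∈ univ.filter (fun c => θ < clD M x c), (1 - g x c) ≤ θ / 2 * n := by
      have e4 : θ * ∑ c ∈ univ.filter (fun c => θ < clD M x c), (1 - g x c) ≤
          ∑ c, (1 - g x c) * clD M x c := by
        rw [mul_sum]
        calc ∑ c ∈ univ.filter (fun c => θ < clD M x c), θ * (1 - g x c)
            ≤ ∑ c ∈ univ.filter (fun c => θ < clD M x c), (1 - g x c) * clD M x c := by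
              refine sum_le_sum fun c hc => ?_
              rw [mul_comm]
              exact mul_le_mul_of_nonneg_left (mem_filter.1 hc).2.le (hh0 x c)
          _ ≤ _ := sum_le_sum_of_subset_of_nonneg (filter_subset _ _) fun c _ _ =>
              mul_nonneg (hh0 x c) (clD_nonneg M x c)
      have e5 := e4.trans e3
      exact le_of_mul_le_mul_left e5 h0
    have f3 : ∑ c ∈ (univ \ X : Finset V), (1 - g x c) ≤ θ / 2 * n := by
      refine le_trans ?_ hXc
      calc ∑ c ∈ (univ \ X : Finset V), (1 - g x c) ≤ ∑ _c ∈ (univ \ X : Finset V), (1 : ℝ) :=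
            sum_le_sum fun c _ => hh1 x c
        _ = _ := by rw [sum_const, nsmul_eq_mul, mul_one]
    have f4 : ∑ y, (1 - g x y) ≤ ∑ c ∈ clB M X θ x, (1 - g x c) +
        (∑ c ∈ univ.filter (fun c => θ < clD M x c), (1 - g x c) +
          ∑ c ∈ (univ \ X : Finset V), (1 - g x c)) := by
      have e4 : ∀ A B : Finset V, ∑ c ∈ A ∪ B, (1 - g x c) ≤
          ∑ c ∈ A, (1 - g x c) + ∑ c ∈ B, (1 - g x c) := by
        intro A B
        rw [← sum_union_inter]
        exact le_add_of_nonneg_right (sum_nonneg fun c _ => hh0 x c)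
      have e6 : ∀ c, c ∈ clB M X θ x ∪
          (univ.filter (fun c => θ < clD M x c) ∪ (univ \ X)) := by
        intro c
        by_cases h2 : c ∈ X
        · rcases le_or_gt (clD M x c) θ with h3 | h3
          · exact mem_union_left _ (mem_clB.2 ⟨h2, h3⟩)
          · exact mem_union_right _ (mem_union_left _ (mem_filter.2 ⟨mem_univ c, h3⟩))
        · exact mem_union_right _ (mem_union_right _ (mem_sdiff.2 ⟨mem_univ c, h2⟩))
      have e5 : (univ : Finset V) = clB M X θ x ∪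
          (univ.filter (fun c => θ < clD M x c) ∪ (univ \ X)) :=
        (eq_univ_iff_forall.2 e6).symm
      calc ∑ y, (1 - g x y) = ∑ c ∈ clB M X θ x ∪
            (univ.filter (fun c => θ < clD M x c) ∪ (univ \ X)), (1 - g x c) := by
            rw [← e5]
        _ ≤ _ := (e4 _ _).trans (add_le_add le_rfl (e4 _ _))
    have f5 : (1 / 4 - 3 / 2 * θ) * n ≤ (1 / 4 - θ / 4) * n - (θ / 2 * n + θ / 2 * n) := by
      nlinarith
    linarith

end ST
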