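import Pool.Agent.H56.ST.Stm
import Pool.Agent.H56.ST.Loc

/-!
# Stability of the fractional Nash-Williams theorem: near-optimal matrices give core weights
-/

open Finset

namespace ST

open Classical in
theorem cn_sum {V : Type} [Fintype V] {g z : V → V → ℝ} {r : V → ℝ} {η : ℝ}
    (D : Dat g z r η) (M : V → V → ℝ) (c : V → V → ℝ) (hc : ∀ x y, c x y = c y x) :
    ∑ P : V × V, wOf g z r M P * c P.1 P.2 =
      (∑ x, ∑ y, if cc g z r x y < 1 then M x y * c x y else 0) / (Fintype.card V : ℝ) := by
  have hn : (Fintype.card V : ℝ) ≠ 0 := D.card0.ne'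
  have h1 : ∀ x y, wOf g z r M (x, y) * c x y =
      ((if cc g z r x y < 1 then M x y * c x y else 0) +
        (if cc g z r y x < 1 then M y x * c y x else 0)) / (2 * (Fintype.card V : ℝ)) := by
    intro x y
    unfold wOf
    simp only
    rw [D.cc_comm y x, hc y x]
    split_ifs with h
    · field_simp
    · simp
  rw [Fintype.sum_prod_type]
  simp only [h1]
  have h2 : ∑ x, ∑ y, (if cc g z r y x < 1 then M y x * c y x else 0) =
      ∑ x, ∑ y, (if cc g z r x y < 1 then M x y * c x y else 0) := Finset.sum_comm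
  simp only [← Finset.sum_div, Finset.sum_add_distrib]
  rw [h2]
  field_simp
  ring

theorem st_corenm (hA : StAvg) (hW : StWt) : StCoreNM := by
  classical
  intro ε hε
  have hmin : 0 < min ε 1 := lt_min hε one_pos
  refine ⟨min ε 1 / 5000000, by positivity, ?_⟩
  intro V _ g z r η M D hU hη hM
  have hδε : min ε 1 ≤ ε := min_le_left _ _
  have hδ1 : min ε 1 ≤ 1 := min_le_right _ _
  generalize hδ : min ε 1 / 5000000 = δ at hη hM
  have hδ0 : 0 < δ := by rw [← hδ]; positivity
  have hδ2 : 5000000 * δ ≤ ε := by rw [← hδ]; linarith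
  have hδ3 : 5000000 * δ ≤ 1 := by rw [← hδ]; linarith
  have hn : 0 < (Fintype.card V : ℝ) := D.card0
  set n : ℝ := (Fintype.card V : ℝ) with hndef
  set w : V × V → ℝ := wOf g z r M with hw
  set u : V → ℝ := fun x => n * ∑ y, w (x, y) with hu
  have hwnn : ∀ P, 0 ≤ w P := by
    intro P
    rw [hw]
    unfold wOf
    split_ifs
    · have h1 := hM.nn P.1 P.2
      have h2 := hM.nn P.2 P.1
      positivity
    · exact le_rfl
  have hwlt : ∀ P, w P ≠ 0 → cc g z r P.1 P.2 < 1 := by
    intro P hP
    by_contra h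
    apply hP
    rw [hw]
    unfold wOf
    rw [if_neg h]
  have hwsupp : ∀ P, w P ≠ 0 → g P.1 P.2 = 1 := fun P hP => (D.of_cc_lt (hwlt P hP)).1
  have hwsym : ∀ x y, w (x, y) = w (y, x) := by
    intro x y
    rw [hw]
    unfold wOf
    simp only
    rw [D.cc_comm y x, add_comm (M y x)]
  have hwle : ∀ x y, w (x, y) ≤ (M x y + M y x) / (2 * n) := by
    intro x y
    rw [hw]
    unfold wOf
    simp only
    split_ifs
    · exact le_rfl
    · have h1 := hM.nn x y
      have h2 := hM.nn y x
      positivity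
  have hu0 : ∀ x, 0 ≤ u x := fun x => mul_nonneg hn.le (Finset.sum_nonneg fun y _ => hwnn _)
  have hu1 : ∀ x, u x ≤ 1 := by
    intro x
    have h1 : ∑ y, w (x, y) ≤ ∑ y, (M x y + M y x) / (2 * n) :=
      Finset.sum_le_sum fun y _ => hwle x y
    rw [← Finset.sum_div, Finset.sum_add_distrib] at h1
    have h2 := hM.row x
    have h3 := hM.col x
    have h4 : (∑ y, M x y + ∑ y, M y x) / (2 * n) ≤ 2 / (2 * n) :=
      div_le_div_of_nonneg_right (by linarith) (by positivity)
    calc u x = n * ∑ y, w (x, y) := rfl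
      _ ≤ n * (2 / (2 * n)) := mul_le_mul_of_nonneg_left (h1.trans h4) hn.le
      _ = 1 := by field_simp
  have hWt : Wt g w u := by
    refine ⟨hwnn, hwsym, hwsupp, ?_, hu0, hu1⟩
    intro x
    show ∑ y, w (x, y) = (n * ∑ y, w (x, y)) / n
    field_simp
  obtain ⟨hs1, -, hs3, hs4, -, hs6⟩ := hW V g z r η w u D hWt
  have hav := hA V g z r η w u D hWt
  -- mass
  have hmassw : 1 - 2 * δ ≤ ∑ P, w P := by
    have h1 := cn_sum D M (fun _ _ => 1) (fun _ _ => rfl)
    simp only [mul_one] at h1
    rw [← hw] at h1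
    rw [h1, le_div_iff₀ hn]
    have h2 : ∑ x, ∑ y, M x y ≤ (∑ x, ∑ y, if cc g z r x y < 1 then M x y else 0) +
        ∑ x, ∑ y, M x y * cc g z r x y := by
      rw [← Finset.sum_add_distrib]
      refine Finset.sum_le_sum fun x _ => ?_
      rw [← Finset.sum_add_distrib]
      refine Finset.sum_le_sum fun y _ => ?_
      have h3 := hM.nn x y
      split_ifs with h
      · have := mul_nonneg h3 (D.cc_nonneg x y)
        linarith
      · push Not at h
        have := mul_le_mul_of_nonneg_left h h3
        linarith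
    have h4 := hM.mass
    have h5 := hM.cost
    have h6 : (∑ x, ∑ y, if cc g z r x y < 1 then M x y else 0) ≥
        (1 - δ) * n - δ * n := by linarith
    linarith
  have hu1s : (∑ x, (1 - u x)) / n ≤ 2 * δ := by
    have h1 : ∑ x, (1 - u x) = n - ∑ x, u x := by
      rw [Finset.sum_sub_distrib]
      simp [hndef]
    rw [h1, sub_div, ← hs1, div_self hn.ne']
    linarith
  -- excess
  have hex : ∑ P, w P * ee z r P ≤ δ := by
    have h1 := cn_sum D M (cc g z r) D.cc_comm
    rw [← hw] at h1
    have h2 : ∑ P, w P * ee z r P = ∑ P : V × V, w P * cc g z r P.1 P.2 := by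
      refine Finset.sum_congr rfl fun P _ => ?_
      by_cases h : w P = 0
      · rw [h, zero_mul, zero_mul]
      · rw [(D.of_cc_lt (hwlt P h)).2]
        rfl
    rw [h2, h1, div_le_iff₀ hn]
    refine le_trans ?_ hM.cost
    refine Finset.sum_le_sum fun x _ => Finset.sum_le_sum fun y _ => ?_
    split_ifs
    · exact le_rfl
    · exact mul_nonneg (hM.nn x y) (D.cc_nonneg x y)
  -- the potential
  have hr : (∑ x, (1 - u x) * |r x|) / n ≤ 480120 * δ := by
    rw [div_le_iff₀ hn]
    have h1 : ∑ x, (1 - u x) * |r x| ≤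
        60 * ∑ x, (1 - u x) + ∑ x, (if 60 < |r x| then |r x| else 0) := by
      rw [Finset.mul_sum, ← Finset.sum_add_distrib]
      refine Finset.sum_le_sum fun x _ => ?_
      have h2 := hu0 x
      have h3 := hu1 x
      have h4 := abs_nonneg (r x)
      split_ifs with h
      · nlinarith
      · push Not at h
        nlinarith
    have h2 := hU
    unfold UIP at h2
    rw [div_le_iff₀ hn] at hu1s
    have h3 : 480000 * η * n ≤ 480000 * δ * n := by
      have := mul_le_mul_of_nonneg_right hη hn.le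
      linarith
    linarith
  have halp : ∀ P, 0 ≤ alp r P := fun P => al_nonneg _ _
  have hB2nn : 0 ≤ ∑ P, w P * alp r P * DD g η w P :=
    Finset.sum_nonneg fun P _ => mul_nonneg (mul_nonneg (hwnn P) (halp P)) (hs4 P)
  have hB1nn : 0 ≤ ∑ P, ∑ Q, w P * w Q * sl g z r P Q := by
    refine Finset.sum_nonneg fun P _ => Finset.sum_nonneg fun Q _ => ?_
    by_cases hP : w P = 0
    · rw [hP, zero_mul, zero_mul]
    by_cases hQ : w Q = 0
    · rw [hQ, mul_zero, zero_mul]
    exact mul_nonneg (mul_nonneg (hwnn P) (hwnn Q)) (D.sl_nonneg (hwsupp P hP) (hwsupp Q hQ))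
  refine ⟨by linarith, hwnn, hwsym, hwsupp, ?_, by linarith, hs3, by linarith, by linarith, ?_⟩
  · rw [hs1, div_le_one hn]
    calc ∑ x, u x ≤ ∑ _x : V, (1 : ℝ) := Finset.sum_le_sum fun x _ => hu1 x
      _ = n := by simp [hndef]
  · have h1 : (∑ x, u x * |r x|) / n = 1 - (∑ x, (1 - u x) * |r x|) / n := by
      have h2 : ∑ x, (1 - u x) * |r x| = ∑ x, |r x| - ∑ x, u x * |r x| := by
        rw [← Finset.sum_sub_distrib]
        refine Finset.sum_congr rfl fun x _ => ?_
        ring
      rw [h2, D.nrm, sub_div, ← hndef, div_self hn.ne']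
      ring
    rw [h1] at hs6
    linarith

end ST
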