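import Mathlib

/-!
# Stability of the fractional Nash-Williams theorem: definitions

Project ST (MP_6a0350_co, note 5050).
-/

open Finset

namespace ST

noncomputable section

variable {V : Type} [Fintype V]

/-- `α` of a pair with potentials `p`, `q` -/
def al (p q : ℝ) : ℝ := max (p + q) (max (-p) (-q))

/-- The dual data: `g` is the 0/1 adjacency function of a graph with all degrees at least
`(3/4 - η) n`, `z` is nonnegative on triangles with total at most `η n ^ 2`, `r` is a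
potential. -/
structure Dat (g z : V → V → ℝ) (r : V → ℝ) (η : ℝ) : Prop where
  eta0 : 0 ≤ η
  card0 : 0 < (Fintype.card V : ℝ)
  g01 : ∀ x y, g x y = 0 ∨ g x y = 1
  gs : ∀ x y, g x y = g y x
  zs : ∀ x y, z x y = z y x
  tri : ∀ x y c, g x y = 1 → g y c = 1 → g x c = 1 → 0 ≤ z x y + z y c + z x c
  pot : ∀ x y, g x y = 1 → 0 ≤ z x y + r x + r y
  deg : ∀ x, ∑ y, (1 - g x y) ≤ (1 / 4 + η) * (Fintype.card V : ℝ)
  tot : ∑ x, ∑ y, g x y * z x y ≤ η * (Fintype.card V : ℝ) ^ 2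
  nrm : ∑ x, |r x| = (Fintype.card V : ℝ)

/-- excess of a pair -/
def ee (z : V → V → ℝ) (r : V → ℝ) (P : V × V) : ℝ := z P.1 P.2 + r P.1 + r P.2

/-- `α_P` -/
def alp (r : V → ℝ) (P : V × V) : ℝ := al (r P.1) (r P.2)

/-- number of non-adjacent cross pairs -/
def mm (g : V → V → ℝ) (P Q : V × V) : ℝ :=
  (1 - g P.1 Q.1) + (1 - g P.1 Q.2) + (1 - g P.2 Q.1) + (1 - g P.2 Q.2)

/-- the slack of the four point inequality -/
def sl (g z : V → V → ℝ) (r : V → ℝ) (P Q : V × V) : ℝ :=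
  g P.1 Q.1 * z P.1 Q.1 + g P.1 Q.2 * z P.1 Q.2 + g P.2 Q.1 * z P.2 Q.1 + g P.2 Q.2 * z P.2 Q.2
    - (alp r P + alp r Q) * (1 - mm g P Q) + 2 * ee z r P + 2 * ee z r Q

/-- the cost of a pair -/
def cc (g z : V → V → ℝ) (r : V → ℝ) (x y : V) : ℝ :=
  if g x y = 1 then min (z x y + r x + r y) 1 else 1

/-- near-optimal sub-doubly-stochastic matrices -/
structure NM (g z : V → V → ℝ) (r : V → ℝ) (M : V → V → ℝ) (δ : ℝ) : Prop where
  nn : ∀ x y, 0 ≤ M x y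
  row : ∀ x, ∑ y, M x y ≤ 1
  col : ∀ y, ∑ x, M x y ≤ 1
  mass : (1 - δ) * (Fintype.card V : ℝ) ≤ ∑ x, ∑ y, M x y
  cost : ∑ x, ∑ y, M x y * cc g z r x y ≤ δ * (Fintype.card V : ℝ)

/-- weights on ordered pairs: `w = M / n` for a symmetric `M` on the edges with row sums `u ≤ 1` -/
structure Wt (g : V → V → ℝ) (w : V × V → ℝ) (u : V → ℝ) : Prop where
  nn : ∀ P, 0 ≤ w P
  sym : ∀ x y, w (x, y) = w (y, x)
  supp : ∀ P, w P ≠ 0 → g P.1 P.2 = 1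
  mar : ∀ x, ∑ y, w (x, y) = u x / (Fintype.card V : ℝ)
  u0 : ∀ x, 0 ≤ u x
  u1 : ∀ x, u x ≤ 1

/-- degree defect of a pair -/
def DD (g : V → V → ℝ) (η : ℝ) (w : V × V → ℝ) (P : V × V) : ℝ :=
  1 + 4 * η - ∑ Q, w Q * mm g P Q

/-- uniform integrability of `r` -/
def UIP (r : V → ℝ) (η : ℝ) : Prop :=
  ∑ x, (if 60 < |r x| then |r x| else 0) ≤ 480000 * η * (Fintype.card V : ℝ)

/-- pairs of type `(-a,-a)` -/
def T3 (t : ℝ) (r : V → ℝ) (R : V × V) : Prop :=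
  3 * t ≤ alp r R ∧ alp r R + (r R.1 + r R.2) / 2 ≤ t

/-- only the pair of second vertices is adjacent -/
def M3 (g : V → V → ℝ) (P Q : V × V) : Prop :=
  g P.2 Q.2 = 1 ∧ g P.1 Q.1 = 0 ∧ g P.1 Q.2 = 0 ∧ g P.2 Q.1 = 0

/-- bad patterns: at least three missing pairs, or two missing pairs that are not disjoint -/
def Bad (g : V → V → ℝ) (P Q : V × V) : Prop :=
  3 ≤ mm g P Q ∨ (mm g P Q = 2 ∧ g P.1 Q.1 ≠ g P.2 Q.2)

/-- number of vertices of `R` not adjacent to `x` -/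
def ms (g : V → V → ℝ) (x : V) (R : V × V) : ℝ := (1 - g x R.1) + (1 - g x R.2)

/-- the normalised complement operator -/
def ht (g : V → V → ℝ) (η : ℝ) (M : V → V → ℝ) (x y : V) : ℝ :=
  (∑ c, (1 - g x c) * M c y) / ((1 / 4 + η) * (Fintype.card V : ℝ))

/-- the symmetric edge weights of a matrix: pairs of cost `< 1` only -/
def wOf (g z : V → V → ℝ) (r : V → ℝ) (M : V → V → ℝ) (P : V × V) : ℝ :=
  if cc g z r P.1 P.2 < 1 then (M P.1 P.2 + M P.2 P.1) / (2 * (Fintype.card V : ℝ)) else 0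

/-- the output of the averages, input of the counting arguments -/
structure Core (g z : V → V → ℝ) (r : V → ℝ) (η : ℝ) (w : V × V → ℝ) (κ : ℝ) : Prop where
  eta : η ≤ κ
  nn : ∀ P, 0 ≤ w P
  sym : ∀ x y, w (x, y) = w (y, x)
  supp : ∀ P, w P ≠ 0 → g P.1 P.2 = 1
  le1 : ∑ P, w P ≤ 1
  ge1 : 1 - κ ≤ ∑ P, w P
  ms : ∀ x, ∑ R, w R * ms g x R ≤ 1 / 2 + 2 * η
  B1 : ∑ P, ∑ Q, w P * w Q * sl g z r P Q ≤ κ
  B2 : ∑ P, w P * alp r P * DD g η w P ≤ κ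
  al4 : 1 / 4 ≤ ∑ P, w P * alp r P

/-- the fixed threshold -/
def tt : ℝ := 1 / 10000

/-- clusters of rows -/
structure Clus (g M : V → V → ℝ) (θ Θ : ℝ) (m : ℕ) (C : Fin m → Finset V) : Prop where
  m4 : m ≤ 4
  disj : ∀ i j, i ≠ j → Disjoint (C i) (C j)
  big : ∀ i, (1 / 4 - 3 * θ) * (Fintype.card V : ℝ) ≤ ((C i).card : ℝ)
  cover : (1 - θ) * (Fintype.card V : ℝ) ≤ ∑ i, ((C i).card : ℝ)
  nb : ∀ i, ∀ x ∈ C i, (1 / 4 - 3 * θ) * (Fintype.card V : ℝ) ≤ ∑ c ∈ C i, (1 - g x c)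
  out : ∀ i, ∀ x ∈ C i, ∑ c, (1 - g x c) - ∑ c ∈ C i, (1 - g x c)
    ≤ 2 * θ * (Fintype.card V : ℝ)
  row : ∀ i, ∀ x ∈ C i, 1 - θ ≤ ∑ y, M x y
  near : ∀ i, ∀ x ∈ C i, ∀ y ∈ C i, ∑ c, |M x c - M y c| ≤ 2 * Θ

/-- block weights -/
def wij (M : V → V → ℝ) {m : ℕ} (C : Fin m → Finset V) (i j : Fin m) : ℝ :=
  (∑ x ∈ C i, ∑ y ∈ C j, M x y) / (Fintype.card V : ℝ)

end

end ST
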