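import Pool.Agent.H56.ST.Stm
import Pool.Agent.H56.NW.Main
import Pool.Agent.H56.NW.Perfect

/-!
# Stability of the fractional Nash-Williams theorem: the dual data (row ST-17)
-/

open Finset

namespace ST

theorem st_dual : StDual := by
  classical
  intro n G inst η h0 h1 hdeg hno
  -- the number of vertices is positive
  have hn : 0 < n := by
    rcases Nat.eq_zero_or_pos n with h | h
    · subst h
      exact absurd ⟨fun _ => 0, fun _ => le_rfl, fun _ ht => absurd rfl ht,
        fun u => u.elim0⟩ hno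
    · exact h
  have hnR : (0 : ℝ) < n := by exact_mod_cast hn
  have hnQ : (0 : ℚ) < n := by exact_mod_cast hn
  -- the dual solution
  obtain ⟨z, zs, tri, htot⟩ : ∃ z : Fin n → Fin n → ℚ, (∀ x y, z x y = z y x) ∧
      (∀ x y c, H56NW.ga G x y = 1 → H56NW.ga G y c = 1 → H56NW.ga G x c = 1 →
        0 ≤ z x y + z y c + z x c) ∧ ∑ x, ∑ y, H56NW.ga G x y * z x y < 0 := by
    by_contra hc
    apply hno
    obtain ⟨w, w0, wt, w1⟩ := H56NW.exists_weights (H56NW.ga G) (H56NW.ga01 G) (H56NW.ga_symm G)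
      (by
        intro z zs tri
        by_contra hneg
        exact hc ⟨z, zs, tri, not_le.mp hneg⟩)
    obtain ⟨f, f0, f1, f2⟩ := H56NW.frac_decomp_of_weights G w w0 wt w1
    refine ⟨f, f0, f1, fun u v huv => ?_⟩
    rw [← f2 u v huv]
  -- a perfect fractional matching
  have hdeg' : ∀ x, (5 / 8 : ℝ) * n ≤ (G.degree x : ℝ) := by
    intro x
    have h2 := hdeg x
    have h3 : (3 / 4 - 1 / 8 : ℝ) * n ≤ (3 / 4 - η) * n := by
      apply mul_le_mul_of_nonneg_right _ hnR.le
      linarith
    linarith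
  have hex := H56NW.exists_perfect' (H56NW.ga G) (H56NW.ga01 G) (H56NW.ga_symm G) (by
    intro x
    rw [H56NW.ga_sum, Fintype.card_fin]
    have h2 := hdeg' x
    have h3 : (n : ℝ) ≤ 2 * (G.degree x : ℝ) := by linarith
    exact_mod_cast h3)
  obtain ⟨p, r, D⟩ := H56NW.exists_data H56NW.lpd (H56NW.ga G) z (n : ℚ) (H56NW.ga01 G)
    (H56NW.ga_symm G) (by
      intro x
      calc ∑ y, (1 - H56NW.ga G x y) ≤ ∑ _y : Fin n, (1 : ℚ) := by
            refine Finset.sum_le_sum fun y _ => ?_
            rcases H56NW.ga01 G x y with h | h <;> rw [h] <;> norm_num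
        _ = n := by simp) zs tri hex
  -- the potential does not vanish
  have hs : 0 < ∑ x, |r x| := by
    rcases (Finset.sum_nonneg fun x (_ : x ∈ (Finset.univ : Finset (Fin n))) =>
      abs_nonneg (r x)).lt_or_eq with h | h
    · exact h
    · exfalso
      have hr : ∀ x, r x = 0 := by
        intro x
        have := (Finset.sum_eq_zero_iff_of_nonneg fun x _ => abs_nonneg (r x)).mp h.symm x
          (Finset.mem_univ x)
        exact abs_eq_zero.mp this
      have : 0 ≤ ∑ x, ∑ y, H56NW.ga G x y * z x y := by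
        refine Finset.sum_nonneg fun x _ => Finset.sum_nonneg fun y _ => ?_
        rcases H56NW.ga01 G x y with h | h
        · rw [h, zero_mul]
        · have h4 := D.hr x y h
          rw [hr x, hr y] at h4
          rw [h, one_mul]
          linarith
      linarith
  set s : ℚ := ∑ x, |r x| with hsdef
  set c : ℚ := n / s with hc
  have hc0 : 0 < c := div_pos hnQ hs
  have hcR : (0 : ℝ) < (c : ℝ) := by exact_mod_cast hc0
  have hg : ∀ x y, (if G.Adj x y then (1 : ℝ) else 0) = ((H56NW.ga G x y : ℚ) : ℝ) := by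
    intro x y
    unfold H56NW.ga
    split_ifs <;> simp
  have hg1 : ∀ x y, (if G.Adj x y then (1 : ℝ) else 0) = 1 ↔ H56NW.ga G x y = 1 := by
    intro x y
    rw [hg]
    exact_mod_cast Iff.rfl
  have hpz : ∀ x y, p x y ≠ 0 →
      ((c * z x y : ℚ) : ℝ) + ((c * r x : ℚ) : ℝ) + ((c * r y : ℚ) : ℝ) = 0 := by
    intro x y hp
    have h4 := D.pz x y hp
    rw [h4]
    push_cast
    ring
  refine ⟨fun x y => ((c * z x y : ℚ) : ℝ), fun x => ((c * r x : ℚ) : ℝ),
    fun x y => ((p x y : ℚ) : ℝ), ?_, ?_, ?_, ?_, ?_⟩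
  · refine ⟨h0, by rw [Fintype.card_fin]; exact hnR, ?_, ?_, ?_, ?_, ?_, ?_, ?_, ?_⟩
    · intro x y
      by_cases h : G.Adj x y
      · right
        exact if_pos h
      · left
        exact if_neg h
    · intro x y
      show (if G.Adj x y then (1 : ℝ) else 0) = if G.Adj y x then 1 else 0
      rw [hg, hg, H56NW.ga_symm]
    · intro x y
      show ((c * z x y : ℚ) : ℝ) = ((c * z y x : ℚ) : ℝ)
      rw [zs]
    · intro x y w h2 h3 h4
      have h5 := tri x y w ((hg1 x y).mp h2) ((hg1 y w).mp h3) ((hg1 x w).mp h4)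
      have h6 : 0 ≤ c * z x y + c * z y w + c * z x w := by
        have := mul_nonneg hc0.le h5
        linarith
      show (0 : ℝ) ≤ ((c * z x y : ℚ) : ℝ) + ((c * z y w : ℚ) : ℝ) + ((c * z x w : ℚ) : ℝ)
      exact_mod_cast h6
    · intro x y h2
      have h5 := D.hr x y ((hg1 x y).mp h2)
      have h6 : 0 ≤ c * z x y + c * r x + c * r y := by
        have := mul_nonneg hc0.le (by linarith : 0 ≤ z x y + r x + r y)
        linarith
      show (0 : ℝ) ≤ ((c * z x y : ℚ) : ℝ) + ((c * r x : ℚ) : ℝ) + ((c * r y : ℚ) : ℝ)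
      exact_mod_cast h6
    · intro x
      show ∑ y, (1 - (if G.Adj x y then (1 : ℝ) else 0)) ≤ _
      rw [Finset.sum_sub_distrib]
      have h5 : ∑ y, (if G.Adj x y then (1 : ℝ) else 0) = (G.degree x : ℝ) := by
        have h6 : ∑ y, (if G.Adj x y then (1 : ℝ) else 0) =
            ((∑ y, H56NW.ga G x y : ℚ) : ℝ) := by
          push_cast
          exact Finset.sum_congr rfl fun y _ => hg x y
        rw [h6, H56NW.ga_sum]
        norm_num
      rw [h5]
      simp only [Finset.sum_const, Finset.card_univ, Fintype.card_fin, nsmul_eq_mul, mul_one]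
      have h7 := hdeg x
      nlinarith
    · show ∑ x, ∑ y, (if G.Adj x y then (1 : ℝ) else 0) * ((c * z x y : ℚ) : ℝ) ≤
      η * (Fintype.card (Fin n) : ℝ) ^ 2
      have h5 : ∑ x, ∑ y, (if G.Adj x y then (1 : ℝ) else 0) * ((c * z x y : ℚ) : ℝ) =
          ((c * ∑ x, ∑ y, H56NW.ga G x y * z x y : ℚ) : ℝ) := by
        push_cast
        rw [Finset.mul_sum]
        refine Finset.sum_congr rfl fun x _ => ?_
        rw [Finset.mul_sum]
        refine Finset.sum_congr rfl fun y _ => ?_
        rw [hg]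
        ring
      rw [h5]
      have h6 : c * ∑ x, ∑ y, H56NW.ga G x y * z x y ≤ 0 :=
        mul_nonpos_of_nonneg_of_nonpos hc0.le htot.le
      have h7 : ((c * ∑ x, ∑ y, H56NW.ga G x y * z x y : ℚ) : ℝ) ≤ 0 := by exact_mod_cast h6
      exact h7.trans (mul_nonneg h0 (by positivity))
    · show ∑ x, |((c * r x : ℚ) : ℝ)| = _
      have h5 : ∑ x, |((c * r x : ℚ) : ℝ)| = ((c * s : ℚ) : ℝ) := by
        rw [hsdef, Finset.mul_sum]
        push_cast
        refine Finset.sum_congr rfl fun x _ => ?_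
        rw [abs_mul, abs_of_pos hcR]
      rw [h5, hc, div_mul_cancel₀ _ hs.ne', Fintype.card_fin]
      norm_num
  · refine ⟨fun x y => ?_, fun x => ?_, fun y => ?_, ?_, ?_⟩
    · exact_mod_cast D.p0 x y
    · have h5 := D.p1 x
      have h6 : ((∑ y, p x y : ℚ) : ℝ) = 1 := by rw [h5]; norm_num
      push_cast at h6
      exact h6.le
    · have h5 := D.p1 y
      have h6 : ((∑ x, p y x : ℚ) : ℝ) = 1 := by rw [h5]; norm_num
      push_cast at h6
      refine le_of_eq ?_
      rw [← h6]
      exact Finset.sum_congr rfl fun x _ => by rw [D.ps]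
    · have h6 : ∀ x, ∑ y, ((p x y : ℚ) : ℝ) = 1 := by
        intro x
        have h5 := D.p1 x
        have h6 : ((∑ y, p x y : ℚ) : ℝ) = 1 := by rw [h5]; norm_num
        push_cast at h6
        exact h6
      simp only [h6]
      simp
    · rw [zero_mul]
      refine le_of_eq ?_
      refine Finset.sum_eq_zero fun x _ => Finset.sum_eq_zero fun y _ => ?_
      show ((p x y : ℚ) : ℝ) * cc _ _ _ x y = 0
      by_cases hp : p x y = 0
      · rw [hp]
        norm_num
      · have h5 : (if G.Adj x y then (1 : ℝ) else 0) = 1 := (hg1 x y).mpr (D.pg x y hp)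
        have h6 := hpz x y hp
        unfold cc
        rw [if_pos h5]
        have h7 : min (((c * z x y : ℚ) : ℝ) + ((c * r x : ℚ) : ℝ) + ((c * r y : ℚ) : ℝ)) 1 = 0 := by
          rw [h6]
          norm_num
        rw [h7, mul_zero]
  · intro x y
    show ((p x y : ℚ) : ℝ) = ((p y x : ℚ) : ℝ)
    rw [D.ps]
  · refine ⟨fun P => ?_, fun x y => ?_, fun P hP => ?_, fun x => ?_, fun _ => zero_le_one,
      fun _ => le_rfl⟩
    · have h5 : (0 : ℝ) ≤ ((p P.1 P.2 : ℚ) : ℝ) := by exact_mod_cast D.p0 P.1 P.2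
      positivity
    · show ((p x y : ℚ) : ℝ) / n = ((p y x : ℚ) : ℝ) / n
      rw [D.ps]
    · have h5 : p P.1 P.2 ≠ 0 := by
        intro h
        apply hP
        show ((p P.1 P.2 : ℚ) : ℝ) / n = 0
        rw [h]
        norm_num
      exact (hg1 _ _).mpr (D.pg _ _ h5)
    · show ∑ y, ((p x y : ℚ) : ℝ) / n = 1 / _
      rw [← Finset.sum_div, Fintype.card_fin]
      have h5 := D.p1 x
      have h6 : ((∑ y, p x y : ℚ) : ℝ) = 1 := by rw [h5]; norm_num
      push_cast at h6
      rw [h6]
  · intro P hP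
    have h5 : p P.1 P.2 ≠ 0 := by
      intro h
      apply hP
      show ((p P.1 P.2 : ℚ) : ℝ) / n = 0
      rw [h]
      norm_num
    exact hpz _ _ h5

end ST
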