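import Pool.Agent.H56.ST.Stm
import Pool.Agent.H56.ST.Loc

/-!
# Stability of the fractional Nash-Williams theorem: patterns with three missing pairs are rare

Row ST-6 of project ST (MP_6a0350_co, note 5050).
-/

open Finset

namespace ST

noncomputable section

variable {V : Type} [Fintype V] {g z : V → V → ℝ} {r : V → ℝ} {η κ : ℝ} {w : V × V → ℝ}

open Classical in
/-- the measure of the pairs of large slack with `P` -/
def emG (g z : V → V → ℝ) (r : V → ℝ) (w : V × V → ℝ) (P : V × V) : ℝ :=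
  ∑ R, if tt < sl g z r P R then w R else 0

open Classical in
/-- the measure of `T3` -/
def emT (r : V → ℝ) (w : V × V → ℝ) : ℝ := ∑ R, if T3 tt r R then w R else 0

open Classical in
/-- the measure of `M3(P)` -/
def emM (g : V → V → ℝ) (w : V × V → ℝ) (P : V × V) : ℝ := ∑ R, if M3 g P R then w R else 0

lemma em_ms_nonneg (D : Dat g z r η) (x : V) (R : V × V) : 0 ≤ ms g x R := by
  unfold ms
  rcases D.g01 x R.1 with h1 | h1 <;> rcases D.g01 x R.2 with h2 | h2 <;> rw [h1, h2] <;> norm_num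

lemma em_tt_pos : 0 < tt := by unfold tt; norm_num

lemma em_G_nonneg (C : Core g z r η w κ) (P : V × V) : 0 ≤ emG g z r w P := by
  refine Finset.sum_nonneg fun R _ => ?_
  split_ifs
  · exact C.nn R
  · exact le_rfl

lemma em_T_nonneg (C : Core g z r η w κ) : 0 ≤ emT r w := by
  refine Finset.sum_nonneg fun R _ => ?_
  split_ifs
  · exact C.nn R
  · exact le_rfl

lemma em_key (D : Dat g z r η) (C : Core g z r η w κ) {P Q : V × V} (hP : w P ≠ 0)
    (hQ : w Q ≠ 0) (hm : M3 g P Q) (s1 : sl g z r P Q ≤ tt)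
    (h14 : 14 * tt ≤ alp r P + alp r Q) :
    emM g w P ≤ 5 * κ + 2 * (emG g z r w P + emG g z r w Q + emT r w) := by
  classical
  have h1 : ∀ R, w R + (if M3 g P R then w R else 0) ≤
      w R * ms g P.2 R + w R * ms g Q.2 R + 2 * (if tt < sl g z r P R then w R else 0)
        + 2 * (if tt < sl g z r Q R then w R else 0) + 2 * (if T3 tt r R then w R else 0) := by
    intro R
    by_cases hR0 : w R = 0
    · simp [hR0]
    have hR : 0 ≤ w R := C.nn R
    have a1 := em_ms_nonneg D P.2 R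
    have a2 := em_ms_nonneg D Q.2 R
    have a3 := mul_nonneg hR a1
    have a4 := mul_nonneg hR a2
    have a5 : (if M3 g P R then w R else 0) ≤ w R := by split_ifs <;> linarith
    have b1 : 0 ≤ (if tt < sl g z r P R then w R else 0) := by split_ifs <;> linarith
    have b2 : 0 ≤ (if tt < sl g z r Q R then w R else 0) := by split_ifs <;> linarith
    have b3 : 0 ≤ (if T3 tt r R then w R else 0) := by split_ifs <;> linarith
    by_cases c1 : tt < sl g z r P R
    · rw [if_pos c1]
      linarith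
    by_cases c2 : tt < sl g z r Q R
    · rw [if_pos c2]
      linarith
    by_cases c3 : T3 tt r R
    · rw [if_pos c3]
      linarith
    push Not at c1 c2
    have gP := C.supp P hP
    have gQ := C.supp Q hQ
    have gR := C.supp R hR0
    have d1 := D.m3a em_tt_pos gP gQ gR hm s1 c1 c2 h14 c3
    by_cases c4 : M3 g P R
    · have d2 := D.m3b em_tt_pos gP gQ gR hm c4 s1 c1 c2 h14
      rw [if_pos c4]
      nlinarith
    · rw [if_neg c4]
      nlinarith
  have h2 := Finset.sum_le_sum fun R (_ : R ∈ (Finset.univ : Finset (V × V))) => h1 R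
  simp only [Finset.sum_add_distrib, ← Finset.mul_sum] at h2
  have e1 := C.ms P.2
  have e2 := C.ms Q.2
  have e3 := C.ge1
  have e4 := C.eta
  unfold emM emG emT
  linarith

lemma em_sumG (D : Dat g z r η) (C : Core g z r η w κ) :
    tt * ∑ P, w P * emG g z r w P ≤ κ := by
  classical
  refine le_trans ?_ C.B1
  rw [Finset.mul_sum]
  refine Finset.sum_le_sum fun P _ => ?_
  unfold emG
  rw [Finset.mul_sum, Finset.mul_sum]
  refine Finset.sum_le_sum fun Q _ => ?_
  by_cases hP0 : w P = 0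
  · simp [hP0]
  by_cases hQ0 : w Q = 0
  · simp [hQ0]
  have hP := C.nn P
  have hQ := C.nn Q
  have h0 := D.sl_nonneg (C.supp P hP0) (C.supp Q hQ0)
  have hPQ := mul_nonneg hP hQ
  split_ifs with h
  · have := mul_le_mul_of_nonneg_left h.le hPQ
    linarith
  · have := mul_nonneg hPQ h0
    linarith

lemma em_markov (D : Dat g z r η) (C : Core g z r η w κ) {σ : ℝ} (hσ : 0 < σ)
    (hκ : κ ≤ tt * σ ^ 2) :
    (∑ Q, open Classical in if σ < emG g z r w Q then w Q else 0) ≤ σ := by
  classical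
  have h1 := em_sumG D C
  have h2 : σ * (∑ Q, if σ < emG g z r w Q then w Q else 0) ≤ ∑ P, w P * emG g z r w P := by
    rw [Finset.mul_sum]
    refine Finset.sum_le_sum fun Q _ => ?_
    have hQ := C.nn Q
    have hG := em_G_nonneg C Q
    split_ifs with h
    · nlinarith
    · nlinarith
  have h3 : tt * ∑ P, w P * emG g z r w P ≤ tt * σ ^ 2 := h1.trans hκ
  have h4 : ∑ P, w P * emG g z r w P ≤ σ ^ 2 := le_of_mul_le_mul_left h3 em_tt_pos
  have h5 : σ * (∑ Q, if σ < emG g z r w Q then w Q else 0) ≤ σ * σ := by nlinarith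
  exact le_of_mul_le_mul_left h5 hσ

lemma em_main (D : Dat g z r η) (C : Core g z r η w κ) {σ : ℝ} (hσ : 0 < σ)
    (hκ : κ ≤ tt * σ ^ 2) (hκ0 : 0 ≤ κ) :
    (∑ P, ∑ Q, open Classical in if M3 g P Q ∧ sl g z r P Q ≤ tt ∧ 14 * tt ≤ alp r P + alp r Q
      then w P * w Q else 0) ≤ 5 * κ + 2 * σ ^ 2 + 3 * σ + 2 * emT r w := by
  classical
  have h1 : ∀ P, (∑ Q, if M3 g P Q ∧ sl g z r P Q ≤ tt ∧ 14 * tt ≤ alp r P + alp r Q
      then w P * w Q else 0) ≤ w P * (5 * κ + 2 * emG g z r w P + 3 * σ + 2 * emT r w) := by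
    intro P
    by_cases hP0 : w P = 0
    · simp [hP0]
    have hP := C.nn P
    have h2 : (∑ Q, if M3 g P Q ∧ sl g z r P Q ≤ tt ∧ 14 * tt ≤ alp r P + alp r Q
      then w P * w Q else 0) = w P * ∑ Q, if M3 g P Q ∧ sl g z r P Q ≤ tt ∧
        14 * tt ≤ alp r P + alp r Q then w Q else 0 := by
      rw [Finset.mul_sum]
      refine Finset.sum_congr rfl fun Q _ => ?_
      split_ifs <;> simp
    rw [h2]
    refine mul_le_mul_of_nonneg_left ?_ hP
    have hG := em_G_nonneg C P
    have hT := em_T_nonneg C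
    by_cases hex : ∃ Q, w Q ≠ 0 ∧ M3 g P Q ∧ sl g z r P Q ≤ tt ∧ 14 * tt ≤ alp r P + alp r Q ∧
        emG g z r w Q ≤ σ
    · obtain ⟨Q, hQ0, hm, s1, h14, hGQ⟩ := hex
      have h3 := em_key D C hP0 hQ0 hm s1 h14
      have h4 : (∑ Q, if M3 g P Q ∧ sl g z r P Q ≤ tt ∧
        14 * tt ≤ alp r P + alp r Q then w Q else 0) ≤ emM g w P := by
        unfold emM
        refine Finset.sum_le_sum fun R _ => ?_
        have hR := C.nn R
        by_cases c1 : M3 g P R
        · rw [if_pos c1]
          split_ifs <;> linarith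
        · rw [if_neg c1, if_neg (fun h => c1 h.1)]
      linarith
    · push Not at hex
      have h4 : (∑ Q, if M3 g P Q ∧ sl g z r P Q ≤ tt ∧
        14 * tt ≤ alp r P + alp r Q then w Q else 0) ≤
          ∑ Q, if σ < emG g z r w Q then w Q else 0 := by
        refine Finset.sum_le_sum fun R _ => ?_
        have hR := C.nn R
        by_cases hR0 : w R = 0
        · simp [hR0]
        by_cases c1 : M3 g P R ∧ sl g z r P R ≤ tt ∧ 14 * tt ≤ alp r P + alp r R
        · rw [if_pos c1, if_pos (hex R hR0 c1.1 c1.2.1 c1.2.2)]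
        · rw [if_neg c1]
          split_ifs <;> linarith
      have h5 := em_markov D C hσ hκ
      have h6 : (∑ Q, if σ < emG g z r w Q then w Q else 0) ≤ σ := by convert h5
      linarith
  have h2 := Finset.sum_le_sum fun P (_ : P ∈ (Finset.univ : Finset (V × V))) => h1 P
  have h3 : ∑ P, w P * (5 * κ + 2 * emG g z r w P + 3 * σ + 2 * emT r w) =
      (∑ P, w P) * (5 * κ + 3 * σ + 2 * emT r w) + 2 * ∑ P, w P * emG g z r w P := by
    rw [Finset.sum_mul, Finset.mul_sum, ← Finset.sum_add_distrib]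
    refine Finset.sum_congr rfl fun P _ => ?_
    ring
  have hT := em_T_nonneg C
  have h4 : (∑ P, w P) * (5 * κ + 3 * σ + 2 * emT r w) ≤ 1 * (5 * κ + 3 * σ + 2 * emT r w) :=
    mul_le_mul_of_nonneg_right C.le1 (by positivity)
  have h5 : tt * ∑ P, w P * emG g z r w P ≤ tt * σ ^ 2 := (em_sumG D C).trans hκ
  have h6 : ∑ P, w P * emG g z r w P ≤ σ ^ 2 := le_of_mul_le_mul_left h5 em_tt_pos
  have h7 : (∑ P, ∑ Q, if M3 g P Q ∧ sl g z r P Q ≤ tt ∧ 14 * tt ≤ alp r P + alp r Q
      then w P * w Q else 0) ≤ 5 * κ + 2 * σ ^ 2 + 3 * σ + 2 * emT r w := by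
    linarith
  convert h7

/-- **Row ST-6**: patterns with three missing pairs are rare. -/
theorem st_m3 (hT : StT3) : StM3 := by
  intro ε hε
  obtain ⟨κ0, hκ0, h⟩ := hT (ε / 8) (by positivity)
  set σ : ℝ := min 1 (ε / 40) with hσdef
  have hσ : 0 < σ := lt_min one_pos (by positivity)
  have hσ1 : σ ≤ 1 := min_le_left _ _
  have hσ2 : σ ≤ ε / 40 := min_le_right _ _
  refine ⟨min κ0 (min (ε / 40) (tt * σ ^ 2)),
    lt_min hκ0 (lt_min (by positivity) (mul_pos em_tt_pos (by positivity))), ?_⟩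
  intro V _ g z r η w D C
  have hκ : 0 < min κ0 (min (ε / 40) (tt * σ ^ 2)) :=
    lt_min hκ0 (lt_min (by positivity) (mul_pos em_tt_pos (by positivity)))
  have C' : Core g z r η w κ0 := by
    have hle : min κ0 (min (ε / 40) (tt * σ ^ 2)) ≤ κ0 := min_le_left _ _
    exact ⟨C.eta.trans hle, C.nn, C.sym, C.supp, C.le1, by linarith [C.ge1], C.ms,
      C.B1.trans hle, C.B2.trans hle, C.al4⟩
  have h1 := h V g z r η w D C'
  have h2 := em_main D C hσ ((min_le_right _ _).trans (min_le_right _ _)) hκ.le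
  have h3 : min κ0 (min (ε / 40) (tt * σ ^ 2)) ≤ ε / 40 :=
    (min_le_right _ _).trans (min_le_left _ _)
  have h4 : emT r w ≤ ε / 8 := by
    unfold emT
    convert h1
  have h5 : σ ^ 2 ≤ σ := by nlinarith
  linarith

end

end ST
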