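import Pool.Agent.H56.ST.Stm

/-!
# Stability of the fractional Nash-Williams theorem: no mass inside a cluster (row D1)
-/

open Finset

namespace ST

/-- the cost dominates the complement -/
theorem loop_cc {V : Type} [Fintype V] {g z : V → V → ℝ} {r : V → ℝ} {η : ℝ}
    (hD : Dat g z r η) (x y : V) : 1 - g x y ≤ cc g z r x y := by
  unfold cc
  rcases hD.g01 x y with h | h
  · rw [h, if_neg (by norm_num)]
    norm_num
  · rw [if_pos h, h, sub_self]
    exact le_min (hD.pot x y h) zero_le_one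

theorem loop_h0 {V : Type} [Fintype V] {g z : V → V → ℝ} {r : V → ℝ} {η : ℝ}
    (hD : Dat g z r η) (x y : V) : 0 ≤ 1 - g x y := by
  rcases hD.g01 x y with h | h <;> rw [h] <;> norm_num

theorem loop_h1 {V : Type} [Fintype V] {g z : V → V → ℝ} {r : V → ℝ} {η : ℝ}
    (hD : Dat g z r η) (x y : V) : 1 - g x y ≤ 1 := by
  rcases hD.g01 x y with h | h <;> rw [h] <;> norm_num

/-- row D1 -/
theorem st_loop (hL : StBlock) : StLoop := by
  intro V _ g z r η M ε θ Θ m C hD hM hsym hθ hC i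
  have hn := hD.card0
  have hbig := hC.big i
  have hcpos : 0 < ((C i).card : ℝ) := by nlinarith
  have hne : (C i).Nonempty := by
    rw [← Finset.card_pos]
    exact_mod_cast hcpos
  have hcle : ((C i).card : ℝ) ≤ (Fintype.card V : ℝ) := by
    exact_mod_cast Finset.card_le_univ (C i)
  have h1 := hL V M (C i) (C i) Θ (fun x y => 1 - g x y) hn hne hne hsym (hC.near i) (hC.near i)
    (loop_h0 hD) (loop_h1 hD)
  have h2 : ∑ x ∈ C i, ∑ y ∈ C i, M x y * (1 - g x y) ≤ ε * (Fintype.card V : ℝ) := by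
    refine le_trans ?_ hM.cost
    calc ∑ x ∈ C i, ∑ y ∈ C i, M x y * (1 - g x y)
        ≤ ∑ x ∈ C i, ∑ y ∈ C i, M x y * cc g z r x y :=
          Finset.sum_le_sum fun x _ => Finset.sum_le_sum fun y _ =>
            mul_le_mul_of_nonneg_left (loop_cc hD x y) (hM.nn x y)
      _ ≤ ∑ x ∈ C i, ∑ y, M x y * cc g z r x y :=
          Finset.sum_le_sum fun x _ =>
            Finset.sum_le_sum_of_subset_of_nonneg (Finset.subset_univ _) fun y _ _ =>
              mul_nonneg (hM.nn x y) ((loop_h0 hD x y).trans (loop_cc hD x y))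
      _ ≤ ∑ x, ∑ y, M x y * cc g z r x y :=
          Finset.sum_le_sum_of_subset_of_nonneg (Finset.subset_univ _) fun x _ _ =>
            Finset.sum_nonneg fun y _ =>
              mul_nonneg (hM.nn x y) ((loop_h0 hD x y).trans (loop_cc hD x y))
  have h3 : ((C i).card : ℝ) * ((1 / 4 - 3 * θ) * (Fintype.card V : ℝ)) ≤
      ∑ x ∈ C i, ∑ y ∈ C i, (1 - g x y) := by
    rw [← nsmul_eq_mul]
    exact Finset.card_nsmul_le_sum _ _ _ fun x hx => hC.nb i x hx
  have hS0 : 0 ≤ ∑ x ∈ C i, ∑ y ∈ C i, M x y :=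
    Finset.sum_nonneg fun x _ => Finset.sum_nonneg fun y _ => hM.nn x y
  set S : ℝ := ∑ x ∈ C i, ∑ y ∈ C i, M x y with hS
  set n : ℝ := (Fintype.card V : ℝ) with hndef
  set c : ℝ := ((C i).card : ℝ) with hcdef
  set B : ℝ := ∑ x ∈ C i, ∑ y ∈ C i, (1 - g x y) with hB
  have h4 : S / (c * c) * B ≤ (ε + 4 * Θ) * n := by
    have := (abs_le.1 h1).1
    linarith
  have h5 : S / (c * c) * (c * ((1 / 4 - 3 * θ) * n)) ≤ (ε + 4 * Θ) * n :=
    le_trans (mul_le_mul_of_nonneg_left h3 (by positivity)) h4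
  have h6 : S / (c * c) * (c * ((1 / 4 - 3 * θ) * n)) = S / n * ((1 / 4 - 3 * θ) * n / c) * n := by
    field_simp
  rw [h6] at h5
  have h7 : S / n * ((1 / 4 - 3 * θ) * n / c) ≤ ε + 4 * Θ := le_of_mul_le_mul_right h5 hn
  have h8 : 1 / 5 ≤ (1 / 4 - 3 * θ) * n / c := by
    rw [div_le_div_iff₀ (by norm_num) hcpos]
    nlinarith
  have h9 : 0 ≤ S / n := div_nonneg hS0 hn.le
  have h10 : S / n * (1 / 5) ≤ ε + 4 * Θ := (mul_le_mul_of_nonneg_left h8 h9).trans h7
  show S / n ≤ 5 * (ε + 4 * Θ)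
  linarith

end ST
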