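import Pool.Agent.H56.ST.Stm
import Pool.Agent.H56.ST.Loc

/-!
# Stability of the fractional Nash-Williams theorem: pairs with small `α`

Project ST (MP_6a0350_co), row O, note 5050 (4b).
-/

open Finset

namespace ST

namespace Oh

variable {V : Type} [Fintype V] {g z : V → V → ℝ} {r : V → ℝ} {η κ : ℝ} {w : V × V → ℝ}

/-- a pair with large `α` and small total slack -/
theorem exists_star (D : Dat g z r η) (hκ : 0 < κ) (C : Core g z r η w κ) :
    ∃ Q : V × V, w Q ≠ 0 ∧ 1 / 8 ≤ alp r Q ∧
      ∑ P, w P * sl g z r P Q ≤ 16 * κ * alp r Q := by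
  classical
  by_contra hcon
  push Not at hcon
  have h1 : ∀ Q, w Q * (16 * κ * (alp r Q - 1 / 8)) ≤ ∑ P, w P * w Q * sl g z r P Q := by
    intro Q
    by_cases hw : w Q = 0
    · simp [hw]
    · have hwp : 0 < w Q := lt_of_le_of_ne (C.nn Q) (Ne.symm hw)
      have e : ∑ P, w P * w Q * sl g z r P Q = w Q * ∑ P, w P * sl g z r P Q := by
        rw [Finset.mul_sum]
        exact Finset.sum_congr rfl fun P _ => by ring
      rw [e]
      refine mul_le_mul_of_nonneg_left ?_ hwp.le
      by_cases ha : 1 / 8 ≤ alp r Q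
      · have := hcon Q hw ha
        nlinarith
      · push Not at ha
        have h2 : 0 ≤ ∑ P, w P * sl g z r P Q := by
          refine Finset.sum_nonneg fun P _ => ?_
          by_cases hP : w P = 0
          · simp [hP]
          · exact mul_nonneg (C.nn P) (D.sl_nonneg (C.supp P hP) (C.supp Q hw))
        have h3 : 16 * κ * (alp r Q - 1 / 8) ≤ 0 := by nlinarith
        linarith
  have h4 : ∑ Q, w Q * (16 * κ * (alp r Q - 1 / 8)) ≤ κ := by
    refine (Finset.sum_le_sum fun Q _ => h1 Q).trans ?_
    rw [Finset.sum_comm]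
    exact C.B1
  have h5 : ∑ Q, w Q * (16 * κ * (alp r Q - 1 / 8)) =
      16 * κ * (∑ Q, w Q * alp r Q) - 2 * κ * ∑ Q, w Q := by
    rw [Finset.mul_sum, Finset.mul_sum, ← Finset.sum_sub_distrib]
    exact Finset.sum_congr rfl fun Q _ => by ring
  have h6 := C.al4
  have h7 := C.le1
  rw [h5] at h4
  nlinarith

open Classical in
/-- indicator of a large slack against the star -/
noncomputable def bI (g z : V → V → ℝ) (r : V → ℝ) (Q P : V × V) : ℝ :=
  if alp r Q / 100 < sl g z r P Q then 1 else 0

open Classical in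
/-- indicator of a large slack -/
noncomputable def sI (g z : V → V → ℝ) (r : V → ℝ) (P R : V × V) : ℝ :=
  if tt < sl g z r P R then 1 else 0

theorem bI_nonneg (Q P : V × V) : 0 ≤ bI g z r Q P := by
  unfold bI; split_ifs <;> norm_num

theorem sI_nonneg (P R : V × V) : 0 ≤ sI g z r P R := by
  unfold sI; split_ifs <;> norm_num

theorem sum_bI (D : Dat g z r η) (C : Core g z r η w κ) {Q : V × V} (hQ : w Q ≠ 0)
    (ha : 1 / 8 ≤ alp r Q) (hs : ∑ P, w P * sl g z r P Q ≤ 16 * κ * alp r Q) :
    ∑ P, w P * bI g z r Q P ≤ 1600 * κ := by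
  classical
  have ha0 : 0 < alp r Q := by linarith
  have h1 : ∀ P, w P * bI g z r Q P ≤ (100 / alp r Q) * (w P * sl g z r P Q) := by
    intro P
    by_cases hP : w P = 0
    · simp [hP]
    · have hsl := D.sl_nonneg (C.supp P hP) (C.supp Q hQ)
      have hw := C.nn P
      have h2 : bI g z r Q P ≤ (100 / alp r Q) * sl g z r P Q := by
        unfold bI
        split_ifs with h
        · have h3 : (100 / alp r Q) * (alp r Q / 100) = 1 := by field_simp
          have h4 : (100 / alp r Q) * (alp r Q / 100) ≤ (100 / alp r Q) * sl g z r P Q :=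
            mul_le_mul_of_nonneg_left h.le (by positivity)
          linarith
        · positivity
      calc w P * bI g z r Q P ≤ w P * ((100 / alp r Q) * sl g z r P Q) :=
            mul_le_mul_of_nonneg_left h2 hw
        _ = _ := by ring
  calc ∑ P, w P * bI g z r Q P ≤ ∑ P, (100 / alp r Q) * (w P * sl g z r P Q) :=
        Finset.sum_le_sum fun P _ => h1 P
    _ = (100 / alp r Q) * ∑ P, w P * sl g z r P Q := by rw [Finset.mul_sum]
    _ ≤ (100 / alp r Q) * (16 * κ * alp r Q) :=
        mul_le_mul_of_nonneg_left hs (by positivity)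
    _ = 1600 * κ := by
        field_simp
        ring

theorem tt_pos : 0 < tt := by unfold tt; norm_num

theorem sum_sI (D : Dat g z r η) (C : Core g z r η w κ) :
    ∑ P, ∑ R, w P * w R * sI g z r P R ≤ 10000 * κ := by
  classical
  have h1 : ∀ P R, w P * w R * sI g z r P R ≤ 10000 * (w P * w R * sl g z r P R) := by
    intro P R
    by_cases hP : w P = 0
    · simp [hP]
    by_cases hR : w R = 0
    · simp [hR]
    have hsl := D.sl_nonneg (C.supp P hP) (C.supp R hR)
    have hw : 0 ≤ w P * w R := mul_nonneg (C.nn P) (C.nn R)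
    have h2 : sI g z r P R ≤ 10000 * sl g z r P R := by
      unfold sI
      split_ifs with h
      · unfold tt at h
        linarith
      · positivity
    calc w P * w R * sI g z r P R ≤ w P * w R * (10000 * sl g z r P R) :=
          mul_le_mul_of_nonneg_left h2 hw
      _ = _ := by ring
  calc ∑ P, ∑ R, w P * w R * sI g z r P R ≤ ∑ P, ∑ R, 10000 * (w P * w R * sl g z r P R) :=
        Finset.sum_le_sum fun P _ => Finset.sum_le_sum fun R _ => h1 P R
    _ = 10000 * ∑ P, ∑ R, w P * w R * sl g z r P R := by
        rw [Finset.mul_sum]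
        exact Finset.sum_congr rfl fun P _ => by rw [Finset.mul_sum]
    _ ≤ 10000 * κ := mul_le_mul_of_nonneg_left C.B1 (by norm_num)

/-- the pointwise bound for pairs without missing cross pairs -/
theorem point (D : Dat g z r η) (C : Core g z r η w κ) {Q : V × V} (hQ : w Q ≠ 0)
    (ha : 1 / 8 ≤ alp r Q) (P R : V × V) (hP14 : alp r P ≤ 14 * tt) (hm : mm g P R < 1) :
    w P * w R ≤ w P * w R * (bI g z r Q P + sI g z r P R + bI g z r Q R) := by
  classical
  by_cases hP : w P = 0
  · simp [hP]
  by_cases hR : w R = 0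
  · simp [hR]
  have hw : 0 ≤ w P * w R := mul_nonneg (C.nn P) (C.nn R)
  have h1 : 1 ≤ bI g z r Q P + sI g z r P R + bI g z r Q R := by
    have n1 := bI_nonneg (g := g) (z := z) (r := r) Q P
    have n2 := sI_nonneg (g := g) (z := z) (r := r) P R
    have n3 := bI_nonneg (g := g) (z := z) (r := r) Q R
    by_cases c1 : alp r Q / 100 < sl g z r P Q
    · have : bI g z r Q P = 1 := by unfold bI; rw [if_pos c1]
      linarith
    by_cases c2 : tt < sl g z r P R
    · have : sI g z r P R = 1 := by unfold sI; rw [if_pos c2]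
      linarith
    by_cases c3 : alp r Q / 100 < sl g z r R Q
    · have : bI g z r Q R = 1 := by unfold bI; rw [if_pos c3]
      linarith
    push Not at c1 c2 c3
    exfalso
    have gP := C.supp P hP
    have gR := C.supp R hR
    have gQ := C.supp Q hQ
    have ht := tt_pos
    by_cases c4 : alp r R ≤ 15 * tt
    · have := D.four_a gP gQ gR ha c1 c3 c2 (by linarith) c4
      linarith
    · push Not at c4
      have h2 := D.l0 gP gR hm
      rw [abs_le] at h2
      linarith [h2.1, h2.2]
  calc w P * w R = w P * w R * 1 := (mul_one _).symm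
    _ ≤ _ := mul_le_mul_of_nonneg_left h1 hw

theorem sum_fst (C : Core g z r η w κ) (f : V × V → ℝ) (hf : ∀ P, 0 ≤ f P) :
    ∑ P, ∑ R, w P * w R * f P ≤ ∑ P, w P * f P := by
  refine Finset.sum_le_sum fun P _ => ?_
  have e : ∑ R, w P * w R * f P = (w P * f P) * ∑ R, w R := by
    rw [Finset.mul_sum]
    exact Finset.sum_congr rfl fun R _ => by ring
  rw [e]
  calc (w P * f P) * ∑ R, w R ≤ (w P * f P) * 1 :=
        mul_le_mul_of_nonneg_left C.le1 (mul_nonneg (C.nn P) (hf P))
    _ = _ := mul_one _

theorem sum_snd (C : Core g z r η w κ) (f : V × V → ℝ) (hf : ∀ P, 0 ≤ f P) :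
    ∑ P, ∑ R, w P * w R * f R ≤ ∑ P, w P * f P := by
  rw [Finset.sum_comm]
  refine le_trans (le_of_eq ?_) (sum_fst C f hf)
  exact Finset.sum_congr rfl fun P _ => Finset.sum_congr rfl fun R _ => by ring

theorem total (D : Dat g z r η) (hκ : 0 < κ) (C : Core g z r η w κ) :
    ∃ F : V × V → V × V → ℝ, (∀ P R, alp r P ≤ 14 * tt → mm g P R < 1 → w P * w R ≤ F P R) ∧
      (∀ P R, 0 ≤ F P R) ∧ ∑ P, ∑ R, F P R ≤ 13200 * κ := by
  obtain ⟨Q, hQ, ha, hs⟩ := exists_star D hκ C
  refine ⟨fun P R => w P * w R * (bI g z r Q P + sI g z r P R + bI g z r Q R),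
    fun P R h1 h2 => point D C hQ ha P R h1 h2, fun P R => ?_, ?_⟩
  · have n1 := bI_nonneg (g := g) (z := z) (r := r) Q P
    have n2 := sI_nonneg (g := g) (z := z) (r := r) P R
    have n3 := bI_nonneg (g := g) (z := z) (r := r) Q R
    exact mul_nonneg (mul_nonneg (C.nn P) (C.nn R)) (by linarith)
  · have e : ∑ P, ∑ R, w P * w R * (bI g z r Q P + sI g z r P R + bI g z r Q R) =
        ∑ P, ∑ R, w P * w R * bI g z r Q P + ∑ P, ∑ R, w P * w R * sI g z r P R +
        ∑ P, ∑ R, w P * w R * bI g z r Q R := by
      rw [← Finset.sum_add_distrib, ← Finset.sum_add_distrib]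
      refine Finset.sum_congr rfl fun P _ => ?_
      rw [← Finset.sum_add_distrib, ← Finset.sum_add_distrib]
      exact Finset.sum_congr rfl fun R _ => by ring
    rw [e]
    have h1 := sum_bI D C hQ ha hs
    have h2 := sum_sI D C
    have h3 := sum_fst C (bI g z r Q) fun P => bI_nonneg Q P
    have h4 := sum_snd C (bI g z r Q) fun P => bI_nonneg Q P
    linarith

end Oh

open Oh

/-- row O: pairs with small `α` -/
theorem st_o : StO := by
  intro ε hε
  refine ⟨ε / 20000, by positivity, ?_⟩
  intro V _ g z r η w D C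
  have hκ : 0 < ε / 20000 := by positivity
  set κ := ε / 20000 with hκdef
  obtain ⟨F, hF, hF0, hFs⟩ := total D hκ C
  have hεκ : ε = 20000 * κ := by rw [hκdef]; ring
  have hwnn := C.nn
  have hmm0 := fun P R => D.mm_nonneg P R
  refine ⟨?_, ?_⟩
  · -- patterns with at least two missing pairs
    have h1 : ∀ P, (∑ R, w R * mm g P R) ≤ 1 + 4 * κ := by
      intro P
      have e : ∑ R, w R * mm g P R = ∑ R, w R * ms g P.1 R + ∑ R, w R * ms g P.2 R := by
        rw [← Finset.sum_add_distrib]
        exact Finset.sum_congr rfl fun R _ => by rw [mm_eq_ms]; ring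
      rw [e]
      have a1 := C.ms P.1
      have a2 := C.ms P.2
      have a3 := C.eta
      linarith
    have h2 : ∀ P, ∑ R, w R * (mm g P R - 1) ≤ 5 * κ := by
      intro P
      have e : ∑ R, w R * (mm g P R - 1) = ∑ R, w R * mm g P R - ∑ R, w R := by
        rw [← Finset.sum_sub_distrib]
        exact Finset.sum_congr rfl fun R _ => by ring
      rw [e]
      have a1 := h1 P
      have a2 := C.ge1
      linarith
    classical
    have h3 : ∀ P R, (if alp r P ≤ 14 * tt ∧ 2 ≤ mm g P R then w P * w R else 0) ≤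
        (if alp r P ≤ 14 * tt then w P else 0) * (w R * (mm g P R - 1)) + F P R := by
      intro P R
      have hw : 0 ≤ w P * w R := mul_nonneg (hwnn P) (hwnn R)
      have hF0' := hF0 P R
      by_cases ha : alp r P ≤ 14 * tt
      · rw [if_pos ha]
        rcases D.mm_cases P R with h | h | h | h | h
        · rw [if_neg (by rw [h]; norm_num)]
          have := hF P R ha (by rw [h]; norm_num)
          rw [h]
          linarith
        · rw [if_neg (by rw [h]; norm_num), h]
          simpa using hF0'
        · rw [if_pos ⟨ha, by rw [h]⟩, h]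
          nlinarith
        · rw [if_pos ⟨ha, by rw [h]; norm_num⟩, h]
          nlinarith
        · rw [if_pos ⟨ha, by rw [h]; norm_num⟩, h]
          nlinarith
      · rw [if_neg ha, if_neg (fun h => ha h.1)]
        linarith
    have h4 : ∑ P, ∑ R, (if alp r P ≤ 14 * tt ∧ 2 ≤ mm g P R then w P * w R else 0) ≤
        5 * κ + 13200 * κ := by
      calc ∑ P, ∑ R, (if alp r P ≤ 14 * tt ∧ 2 ≤ mm g P R then w P * w R else 0)
          ≤ ∑ P, ∑ R, ((if alp r P ≤ 14 * tt then w P else 0) * (w R * (mm g P R - 1)) +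
              F P R) := Finset.sum_le_sum fun P _ => Finset.sum_le_sum fun R _ => h3 P R
        _ = ∑ P, (if alp r P ≤ 14 * tt then w P else 0) * ∑ R, w R * (mm g P R - 1) +
              ∑ P, ∑ R, F P R := by
            rw [← Finset.sum_add_distrib]
            refine Finset.sum_congr rfl fun P _ => ?_
            rw [Finset.sum_add_distrib, Finset.mul_sum]
        _ ≤ 5 * κ + 13200 * κ := by
            refine add_le_add ?_ hFs
            calc ∑ P, (if alp r P ≤ 14 * tt then w P else 0) * ∑ R, w R * (mm g P R - 1)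
                ≤ ∑ P, w P * (5 * κ) := by
                  refine Finset.sum_le_sum fun P _ => ?_
                  split_ifs
                  · exact mul_le_mul_of_nonneg_left (h2 P) (hwnn P)
                  · rw [zero_mul]
                    exact mul_nonneg (hwnn P) (by linarith)
              _ = (∑ P, w P) * (5 * κ) := by rw [Finset.sum_mul]
              _ ≤ 1 * (5 * κ) := mul_le_mul_of_nonneg_right C.le1 (by linarith)
              _ = 5 * κ := one_mul _
    refine le_trans (le_of_eq ?_) (h4.trans (by rw [hεκ]; linarith))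
    exact Finset.sum_congr rfl fun P _ => Finset.sum_congr rfl fun R _ => by congr
  · refine le_trans (Finset.sum_le_sum fun P _ => Finset.sum_le_sum fun R _ =>
      (?_ : _ ≤ F P R)) (hFs.trans (by rw [hεκ]; linarith))
    split_ifs with h
    · exact hF P R h.1 h.2
    · exact hF0 P R

end ST
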