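import Pool.Agent.H56.ST.Stm

/-!
# Project ST (MP_6a0350_co), row ST-16: the final partition
-/

set_option autoImplicit false

open Finset

namespace ST

namespace PartAux

theorem col4b : ∀ a b c d e f : Bool, (a && b && d) = false → (a && c && e) = false →
    (b && c && f) = false → (d && e && f) = false →
    ∃ f0 f1 f2 f3 : Bool, (a = true → f0 ≠ f1) ∧ (b = true → f0 ≠ f2) ∧ (c = true → f0 ≠ f3) ∧
      (d = true → f1 ≠ f2) ∧ (e = true → f1 ≠ f3) ∧ (f = true → f2 ≠ f3) := by
  intro a b c d e f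
  cases a <;> cases b <;> cases c <;> cases d <;> cases e <;> cases f <;> simp

/-- a triangle free graph on four vertices is bipartite -/
theorem col4 (R : Fin 4 → Fin 4 → Prop) (hs : ∀ i j, R i j → R j i)
    (ht : ∀ i j k, i ≠ j → j ≠ k → i ≠ k → ¬ (R i j ∧ R j k ∧ R i k)) :
    ∃ f : Fin 4 → Bool, ∀ i j, i ≠ j → R i j → f i ≠ f j := by
  classical
  have hd : ∀ i j k : Fin 4, i ≠ j → j ≠ k → i ≠ k →
      (decide (R i j) && decide (R i k) && decide (R j k)) = false := by
    intro i j k h1 h2 h3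
    rw [Bool.eq_false_iff]
    intro h
    simp only [Bool.and_eq_true, decide_eq_true_eq] at h
    exact ht i j k h1 h2 h3 ⟨h.1.1, h.2, h.1.2⟩
  obtain ⟨f0, f1, f2, f3, h01, h02, h03, h12, h13, h23⟩ := col4b (decide (R 0 1))
    (decide (R 0 2)) (decide (R 0 3)) (decide (R 1 2)) (decide (R 1 3)) (decide (R 2 3))
    (hd 0 1 2 (by decide) (by decide) (by decide)) (hd 0 1 3 (by decide) (by decide) (by decide))
    (hd 0 2 3 (by decide) (by decide) (by decide)) (hd 1 2 3 (by decide) (by decide) (by decide))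
  simp only [decide_eq_true_eq] at h01 h02 h03 h12 h13 h23
  have key : ∀ i j : Fin 4, i < j → R i j → (![f0, f1, f2, f3] : Fin 4 → Bool) i ≠
      (![f0, f1, f2, f3] : Fin 4 → Bool) j := by
    intro i j hij hR
    fin_cases i <;> fin_cases j
    · exact absurd hij (by decide)
    · exact h01 hR
    · exact h02 hR
    · exact h03 hR
    · exact absurd hij (by decide)
    · exact absurd hij (by decide)
    · exact h12 hR
    · exact h13 hR
    · exact absurd hij (by decide)
    · exact absurd hij (by decide)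
    · exact absurd hij (by decide)
    · exact h23 hR
    · exact absurd hij (by decide)
    · exact absurd hij (by decide)
    · exact absurd hij (by decide)
    · exact absurd hij (by decide)
  refine ⟨![f0, f1, f2, f3], fun i j hne hR => ?_⟩
  rcases lt_or_gt_of_ne hne with h | h
  · exact key i j h hR
  · exact (key j i h (hs i j hR)).symm

theorem col (m : ℕ) (hm : m ≤ 4) (R : Fin m → Fin m → Prop) (hs : ∀ i j, R i j → R j i)
    (ht : ∀ i j k, i ≠ j → j ≠ k → i ≠ k → ¬ (R i j ∧ R j k ∧ R i k)) :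
    ∃ f : Fin m → Bool, ∀ i j, i ≠ j → R i j → f i ≠ f j := by
  obtain ⟨f, hf⟩ := col4 (fun i j => ∃ (hi : i.val < m) (hj : j.val < m), R ⟨i, hi⟩ ⟨j, hj⟩)
    (fun i j h => by
      obtain ⟨hi, hj, h⟩ := h
      exact ⟨hj, hi, hs _ _ h⟩)
    (fun i j k h1 h2 h3 h => by
      obtain ⟨⟨hi, hj, ha⟩, ⟨_, hk, hb⟩, ⟨_, _, hc⟩⟩ := h
      refine ht ⟨i, hi⟩ ⟨j, hj⟩ ⟨k, hk⟩ ?_ ?_ ?_ ⟨ha, hb, hc⟩
      · intro h
        exact h1 (Fin.ext (Fin.mk.inj_iff.1 h))
      · intro h
        exact h2 (Fin.ext (Fin.mk.inj_iff.1 h))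
      · intro h
        exact h3 (Fin.ext (Fin.mk.inj_iff.1 h)))
  refine ⟨fun i => f (Fin.castLE hm i), fun i j hne hR => hf _ _ ?_ ⟨i.2, j.2, hR⟩⟩
  intro h
  exact hne (Fin.castLE_injective hm h)

end PartAux

open PartAux in
theorem st_part : StPart := by
  classical
  intro V _ g M θ Θ lam m C hn hg01 hgs hM0 hM1 hMs hM4 hθ0 hθ1 hlam hC hii htri
  set n : ℝ := (Fintype.card V : ℝ) with hnd
  have hws : ∀ i j, wij M C i j = wij M C j i := by
    intro i j
    unfold wij
    rw [Finset.sum_comm]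
    congr 1
    exact Finset.sum_congr rfl fun y _ => Finset.sum_congr rfl fun x _ => hMs x y
  obtain ⟨f, hf⟩ := col m hC.m4 (fun i j => lam ≤ wij M C i j)
    (fun i j h => by rw [hws j i]; exact h) htri
  have hw : ∀ i j, f i = f j → wij M C i j < lam := by
    intro i j hij
    by_cases h : i = j
    · rw [h]
      exact hii j
    · by_contra h1
      exact hf i j h (not_lt.1 h1) hij
  -- the colour classes
  set A : Bool → Finset V := fun c => (Finset.univ.filter fun i => f i = c).biUnion C with hA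
  have hsum : ∀ (c : Bool) (F : V → ℝ), ∑ x ∈ A c, F x =
      ∑ i ∈ Finset.univ.filter (fun i => f i = c), ∑ x ∈ C i, F x := by
    intro c F
    exact Finset.sum_biUnion fun i _ j _ hij => hC.disj i j hij
  have hcardF : ∀ c : Bool, ((Finset.univ.filter (fun i => f i = c)).card : ℝ) ≤ 4 := by
    intro c
    have h1 : (Finset.univ.filter (fun i => f i = c)).card ≤ 4 :=
      (Finset.card_le_univ _).trans (by rw [Fintype.card_fin]; exact hC.m4)
    exact_mod_cast h1
  have hAA : ∀ c : Bool, ∑ x ∈ A c, ∑ y ∈ A c, M x y ≤ 16 * lam * n := by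
    intro c
    have h1 : ∑ x ∈ A c, ∑ y ∈ A c, M x y =
        ∑ i ∈ Finset.univ.filter (fun i => f i = c),
          ∑ j ∈ Finset.univ.filter (fun i => f i = c), wij M C i j * n := by
      rw [hsum c]
      refine Finset.sum_congr rfl fun i _ => ?_
      rw [Finset.sum_congr rfl fun x _ => hsum c (fun y => M x y), Finset.sum_comm]
      refine Finset.sum_congr rfl fun j _ => ?_
      unfold wij
      rw [div_mul_cancel₀ _ hn.ne']
    rw [h1]
    have h2 : ∀ i ∈ Finset.univ.filter (fun i => f i = c),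
        ∑ j ∈ Finset.univ.filter (fun i => f i = c), wij M C i j * n ≤ 4 * (lam * n) := by
      intro i hi
      have h3 : ∀ j ∈ Finset.univ.filter (fun i => f i = c), wij M C i j * n ≤ lam * n := by
        intro j hj
        rw [Finset.mem_filter] at hi hj
        exact mul_le_mul_of_nonneg_right (hw i j (hi.2.trans hj.2.symm)).le hn.le
      refine (Finset.sum_le_sum h3).trans ?_
      rw [Finset.sum_const, nsmul_eq_mul]
      exact mul_le_mul_of_nonneg_right (hcardF c) (by positivity)
    refine (Finset.sum_le_sum h2).trans ?_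
    rw [Finset.sum_const, nsmul_eq_mul]
    calc ((Finset.univ.filter (fun i => f i = c)).card : ℝ) * (4 * (lam * n))
        ≤ 4 * (4 * (lam * n)) := mul_le_mul_of_nonneg_right (hcardF c) (by positivity)
      _ = 16 * lam * n := by ring
  have hdis : Disjoint (A true) (A false) := by
    rw [Finset.disjoint_left]
    intro x hx hx'
    rw [hA, Finset.mem_biUnion] at hx hx'
    obtain ⟨i, hi, hxi⟩ := hx
    obtain ⟨j, hj, hxj⟩ := hx'
    rw [Finset.mem_filter] at hi hj
    have hne : i ≠ j := by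
      intro h
      rw [h, hj.2] at hi
      exact Bool.false_ne_true hi.2
    exact Finset.disjoint_left.1 (hC.disj i j hne) hxi hxj
  -- cardinalities
  have hcov : (1 - θ) * n ≤ ((A true).card : ℝ) + ((A false).card : ℝ) := by
    have h1 : ∀ c : Bool, ((A c).card : ℝ) =
        ∑ i ∈ Finset.univ.filter (fun i => f i = c), ((C i).card : ℝ) := by
      intro c
      have h2 := hsum c (fun _ => 1)
      simpa using h2
    rw [h1, h1]
    refine hC.cover.trans (le_of_eq ?_)
    rw [← Finset.sum_filter_add_sum_filter_not Finset.univ (fun i => f i = true)]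
    congr 1
    refine Finset.sum_congr ?_ fun _ _ => rfl
    ext i
    simp
  set R : Finset V := (A true ∪ A false)ᶜ with hR
  have hRc : ((A true).card : ℝ) + ((A false).card : ℝ) + (R.card : ℝ) = n := by
    have h1 : (A true ∪ A false).card + R.card = Fintype.card V := by
      rw [hR]
      exact Finset.card_add_card_compl _
    rw [Finset.card_union_of_disjoint hdis] at h1
    rw [hnd, ← h1]
    push_cast
    ring
  have htot : ∀ F : V → ℝ, ∑ y, F y = ∑ y ∈ A true, F y + ∑ y ∈ A false, F y + ∑ y ∈ R, F y := by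
    intro F
    rw [← Finset.sum_union hdis, hR, Finset.sum_add_sum_compl]
  -- mass into a set
  have hinto : ∀ (S T : Finset V), ∑ x ∈ S, ∑ y ∈ T, M x y ≤ (T.card : ℝ) := by
    intro S T
    rw [Finset.sum_comm]
    have h1 : ∀ y ∈ T, ∑ x ∈ S, M x y ≤ 1 := by
      intro y _
      refine le_trans ?_ (hM1 y)
      rw [Finset.sum_congr rfl fun x _ => hMs x y]
      exact Finset.sum_le_sum_of_subset_of_nonneg (Finset.subset_univ S) fun x _ _ => hM0 y x
    refine (Finset.sum_le_sum h1).trans ?_
    rw [Finset.sum_const, nsmul_eq_mul, mul_one]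
  have hrow : ∀ c : Bool, (1 - θ) * ((A c).card : ℝ) ≤ ∑ x ∈ A c, ∑ y, M x y := by
    intro c
    have h1 : ∀ x ∈ A c, (1 - θ) ≤ ∑ y, M x y := by
      intro x hx
      rw [hA, Finset.mem_biUnion] at hx
      obtain ⟨i, -, hxi⟩ := hx
      exact hC.row i x hxi
    refine le_trans (le_of_eq ?_) (Finset.sum_le_sum h1)
    rw [Finset.sum_const, nsmul_eq_mul, mul_comm]
  have hRθ : (R.card : ℝ) ≤ θ * n := by linarith
  have ht : ((A true).card : ℝ) - ((A false).card : ℝ) ≤ 16 * lam * n + 2 * θ * n := by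
    have h1 := hrow true
    have h2 : ∑ x ∈ A true, ∑ y, M x y = ∑ x ∈ A true, ∑ y ∈ A true, M x y +
        ∑ x ∈ A true, ∑ y ∈ A false, M x y + ∑ x ∈ A true, ∑ y ∈ R, M x y := by
      rw [← Finset.sum_add_distrib, ← Finset.sum_add_distrib]
      exact Finset.sum_congr rfl fun x _ => htot (fun y => M x y)
    have h3 := hAA true
    have h4 := hinto (A true) (A false)
    have h5 := hinto (A true) R
    have h6 : θ * ((A true).card : ℝ) ≤ θ * n := by
      refine mul_le_mul_of_nonneg_left ?_ hθ0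
      have h7 : (0 : ℝ) ≤ ((A false).card : ℝ) := Nat.cast_nonneg _
      have h8 : (0 : ℝ) ≤ (R.card : ℝ) := Nat.cast_nonneg _
      linarith
    linarith
  have hfl : ((A false).card : ℝ) - ((A true).card : ℝ) ≤ 16 * lam * n + 2 * θ * n := by
    have h1 := hrow false
    have h2 : ∑ x ∈ A false, ∑ y, M x y = ∑ x ∈ A false, ∑ y ∈ A true, M x y +
        ∑ x ∈ A false, ∑ y ∈ A false, M x y + ∑ x ∈ A false, ∑ y ∈ R, M x y := by
      rw [← Finset.sum_add_distrib, ← Finset.sum_add_distrib]
      exact Finset.sum_congr rfl fun x _ => htot (fun y => M x y)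
    have h3 := hAA false
    have h4 := hinto (A false) (A true)
    have h5 := hinto (A false) R
    have h6 : θ * ((A false).card : ℝ) ≤ θ * n := by
      refine mul_le_mul_of_nonneg_left ?_ hθ0
      have h7 : (0 : ℝ) ≤ ((A true).card : ℝ) := Nat.cast_nonneg _
      have h8 : (0 : ℝ) ≤ (R.card : ℝ) := Nat.cast_nonneg _
      linarith
    linarith
  have hθn : 0 ≤ θ * n := mul_nonneg hθ0 hn.le
  have hln : 0 ≤ lam * n := mul_nonneg hlam.le hn.le
  have hR0 : (0 : ℝ) ≤ (R.card : ℝ) := Nat.cast_nonneg _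
  refine ⟨A true, ?_, ?_⟩
  · rw [abs_le]
    constructor <;> nlinarith
  · have h1 : ∀ x ∈ A true, ∑ y, (1 - g x y) - ∑ y ∈ A true, (1 - g x y) ≤ 2 * θ * n := by
      intro x hx
      have hx' := hx
      rw [hA, Finset.mem_biUnion] at hx'
      obtain ⟨i, hi, hxi⟩ := hx'
      have h2 := hC.out i x hxi
      have h3 : ∑ y ∈ C i, (1 - g x y) ≤ ∑ y ∈ A true, (1 - g x y) := by
        refine Finset.sum_le_sum_of_subset_of_nonneg (Finset.subset_biUnion_of_mem C hi) ?_
        intro y _ _
        rcases hg01 x y with h | h <;> rw [h] <;> norm_num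
      linarith
    refine (Finset.sum_le_sum h1).trans ?_
    rw [Finset.sum_const, nsmul_eq_mul]
    have h2 : ((A true).card : ℝ) ≤ n := by
      have h7 : (0 : ℝ) ≤ ((A false).card : ℝ) := Nat.cast_nonneg _
      linarith
    calc ((A true).card : ℝ) * (2 * θ * n) ≤ n * (2 * θ * n) :=
          mul_le_mul_of_nonneg_right h2 (by nlinarith)
      _ ≤ 4 * θ * n ^ 2 := by nlinarith
end ST
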