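import Pool.Agent.H56.ST.Stm

/-!
# Row P: the averaged matrix
-/

open Finset
open scoped Classical

namespace ST

section star

variable {V : Type} [Fintype V]

theorem sr_cc_comm {g z : V → V → ℝ} {r : V → ℝ} {η : ℝ} (h : Dat g z r η) (x y : V) :
    cc g z r x y = cc g z r y x := by
  unfold cc
  rw [h.gs x y, h.zs x y, add_right_comm]

theorem sr_tr {g z : V → V → ℝ} {r : V → ℝ} {η δ : ℝ} {M : V → V → ℝ} (h : Dat g z r η)
    (hM : NM g z r M δ) : NM g z r (fun x y => M y x) δ where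
  nn := fun x y => hM.nn y x
  row := fun x => hM.col x
  col := fun y => hM.row y
  mass := by
    rw [Finset.sum_comm]
    exact hM.mass
  cost := by
    rw [Finset.sum_comm]
    refine le_trans (le_of_eq ?_) hM.cost
    refine Finset.sum_congr rfl fun x _ => Finset.sum_congr rfl fun y _ => ?_
    rw [sr_cc_comm h]

theorem sr_mono {g z : V → V → ℝ} {r : V → ℝ} {δ δ' : ℝ} {M : V → V → ℝ}
    (hM : NM g z r M δ) (hd : δ ≤ δ') : NM g z r M δ' where
  nn := hM.nn
  row := hM.row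
  col := hM.col
  mass := by
    refine le_trans ?_ hM.mass
    have hn : (0:ℝ) ≤ (Fintype.card V : ℝ) := Nat.cast_nonneg _
    nlinarith
  cost := by
    refine le_trans hM.cost ?_
    have hn : (0:ℝ) ≤ (Fintype.card V : ℝ) := Nat.cast_nonneg _
    nlinarith

theorem sr_avg {ι : Type} {g z : V → V → ℝ} {r : V → ℝ} {δ : ℝ} (s : Finset ι)
    (hs : 0 < (s.card : ℝ)) (F : ι → V → V → ℝ) (hF : ∀ i ∈ s, NM g z r (F i) δ) :
    NM g z r (fun x y => (∑ i ∈ s, F i x y) / (s.card : ℝ)) δ where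
  nn := fun x y => div_nonneg (Finset.sum_nonneg fun i hi => (hF i hi).nn x y) hs.le
  row := by
    intro x
    rw [← Finset.sum_div, div_le_one hs, Finset.sum_comm]
    calc ∑ i ∈ s, ∑ y, F i x y ≤ ∑ i ∈ s, (1:ℝ) :=
          Finset.sum_le_sum fun i hi => (hF i hi).row x
      _ = (s.card : ℝ) := by simp
  col := by
    intro y
    rw [← Finset.sum_div, div_le_one hs, Finset.sum_comm]
    calc ∑ i ∈ s, ∑ x, F i x y ≤ ∑ i ∈ s, (1:ℝ) :=
          Finset.sum_le_sum fun i hi => (hF i hi).col y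
      _ = (s.card : ℝ) := by simp
  mass := by
    have e : ∑ x, ∑ y, (∑ i ∈ s, F i x y) / (s.card : ℝ)
        = (∑ i ∈ s, ∑ x, ∑ y, F i x y) / (s.card : ℝ) := by
      simp only [Finset.sum_div]
      rw [Finset.sum_comm (s := s)]
      refine Finset.sum_congr rfl fun x _ => ?_
      rw [Finset.sum_comm (s := s)]
    rw [e, le_div_iff₀ hs]
    calc (1 - δ) * (Fintype.card V : ℝ) * (s.card : ℝ)
        = ∑ i ∈ s, (1 - δ) * (Fintype.card V : ℝ) := by
          rw [Finset.sum_const, nsmul_eq_mul]; ring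
      _ ≤ ∑ i ∈ s, ∑ x, ∑ y, F i x y := Finset.sum_le_sum fun i hi => (hF i hi).mass
  cost := by
    have e : ∑ x, ∑ y, (∑ i ∈ s, F i x y) / (s.card : ℝ) * cc g z r x y
        = (∑ i ∈ s, ∑ x, ∑ y, F i x y * cc g z r x y) / (s.card : ℝ) := by
      simp only [Finset.sum_div, Finset.sum_mul]
      rw [Finset.sum_comm (s := s)]
      refine Finset.sum_congr rfl fun x _ => ?_
      rw [Finset.sum_comm (s := s)]
      refine Finset.sum_congr rfl fun y _ => Finset.sum_congr rfl fun i _ => ?_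
      rw [div_mul_eq_mul_div]
    rw [e, div_le_iff₀ hs]
    calc ∑ i ∈ s, ∑ x, ∑ y, F i x y * cc g z r x y
        ≤ ∑ i ∈ s, δ * (Fintype.card V : ℝ) := Finset.sum_le_sum fun i hi => (hF i hi).cost
      _ = δ * (Fintype.card V : ℝ) * (s.card : ℝ) := by
          rw [Finset.sum_const, nsmul_eq_mul]; ring

/-- the normalised complement matrix -/
noncomputable def srH (g : V → V → ℝ) (η : ℝ) : Matrix V V ℝ :=
  fun x y => (1 - g x y) / ((1 / 4 + η) * (Fintype.card V : ℝ))

/-- the matrices `H ^ a * p * H ^ b` -/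
noncomputable def srM (g : V → V → ℝ) (η : ℝ) (p : Matrix V V ℝ) (a b : ℕ) : Matrix V V ℝ :=
  srH g η ^ a * p * srH g η ^ b

theorem sr_ht (g : V → V → ℝ) (η : ℝ) (M : Matrix V V ℝ) : ht g η M = srH g η * M := by
  funext x y
  rw [Matrix.mul_apply]
  unfold ht srH
  rw [Finset.sum_div]
  refine Finset.sum_congr rfl fun c _ => ?_
  rw [div_mul_eq_mul_div]

theorem sr_ht_M (g : V → V → ℝ) (η : ℝ) (p : Matrix V V ℝ) (a b : ℕ) :
    ht g η (srM g η p a b) = srM g η p (a + 1) b := by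
  rw [sr_ht]
  unfold srM
  rw [pow_succ', Matrix.mul_assoc, Matrix.mul_assoc, Matrix.mul_assoc]

theorem sr_H_tr {g : V → V → ℝ} {η : ℝ} (hg : ∀ x y, g x y = g y x) :
    (srH g η).transpose = srH g η := by
  funext x y
  rw [Matrix.transpose_apply]
  unfold srH
  rw [hg y x]

theorem sr_M_tr {g : V → V → ℝ} {η : ℝ} (hg : ∀ x y, g x y = g y x) {p : Matrix V V ℝ}
    (hp : ∀ x y, p x y = p y x) (a b : ℕ) (x y : V) :
    srM g η p a b x y = srM g η p b a y x := by
  have hp' : p.transpose = p := by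
    funext x y
    rw [Matrix.transpose_apply, hp y x]
  have e : (srM g η p b a).transpose = srM g η p a b := by
    unfold srM
    rw [Matrix.transpose_mul, Matrix.transpose_mul, Matrix.transpose_pow, Matrix.transpose_pow,
      sr_H_tr hg, hp', Matrix.mul_assoc]
  rw [← e, Matrix.transpose_apply]

/-- iterating the swap lemma -/
theorem sr_iter (hS : StSwap) (m : ℕ) : ∀ ε : ℝ, 0 < ε → ∃ δ : ℝ, 0 < δ ∧
    ∀ (V : Type) [Fintype V] (g z : V → V → ℝ) (r : V → ℝ) (η : ℝ) (p : Matrix V V ℝ),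
    Dat g z r η → UIP r η → η ≤ δ → NM g z r p 0 → (∀ x y, p x y = p y x) →
    ∀ a b : ℕ, a + b ≤ m → NM g z r (srM g η p a b) ε := by
  induction m with
  | zero =>
    intro ε hε
    refine ⟨1, one_pos, ?_⟩
    intro V _ g z r η p hD hU hη hM hp a b hab
    have ha : a = 0 := by omega
    have hb : b = 0 := by omega
    subst ha; subst hb
    have e : srM g η p 0 0 = p := by
      unfold srM
      rw [pow_zero, Matrix.one_mul, Matrix.mul_one]
    rw [e]
    exact sr_mono hM hε.le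
  | succ m ih =>
    intro ε hε
    obtain ⟨δ₁, h1, H1⟩ := hS ε hε
    obtain ⟨δ₂, h2, H2⟩ := ih δ₁ h1
    refine ⟨min δ₁ δ₂, lt_min h1 h2, ?_⟩
    intro V _ g z r η p hD hU hη hM hp a b hab
    have hη1 : η ≤ δ₁ := le_trans hη (min_le_left _ _)
    have hη2 : η ≤ δ₂ := le_trans hη (min_le_right _ _)
    have key := H2 V g z r η p hD hU hη2 hM hp
    rcases Nat.eq_zero_or_pos a with ha | ha
    · subst ha
      rcases Nat.eq_zero_or_pos b with hb | hb
      · subst hb
        have e : srM g η p 0 0 = p := by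
          unfold srM
          rw [pow_zero, Matrix.one_mul, Matrix.mul_one]
        rw [e]
        exact sr_mono hM hε.le
      · obtain ⟨b', rfl⟩ : ∃ b', b = b' + 1 := ⟨b - 1, by omega⟩
        have h3 := (H1 V g z r η (srM g η p b' 0) hD hU hη1 (key b' 0 (by omega))).1
        rw [sr_ht_M] at h3
        have h4 := sr_tr hD h3
        have e : (fun x y => srM g η p (b' + 1) 0 y x) = srM g η p 0 (b' + 1) := by
          funext x y
          exact (sr_M_tr hD.gs hp 0 (b' + 1) x y).symm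
        rw [e] at h4
        exact h4
    · obtain ⟨a', rfl⟩ : ∃ a', a = a' + 1 := ⟨a - 1, by omega⟩
      have h3 := (H1 V g z r η (srM g η p a' b) hD hU hη1 (key a' b (by omega))).1
      rw [sr_ht_M] at h3
      exact h3

theorem sr_total {g z : V → V → ℝ} {r : V → ℝ} {δ : ℝ} {M : V → V → ℝ}
    (hM : NM g z r M δ) : ∑ x, ∑ y, M x y ≤ (Fintype.card V : ℝ) := by
  calc ∑ x, ∑ y, M x y ≤ ∑ x : V, (1:ℝ) := Finset.sum_le_sum fun x _ => hM.row x
    _ = (Fintype.card V : ℝ) := by simp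

/-- entries of `ht M` -/
theorem sr_entry {g z : V → V → ℝ} {r : V → ℝ} {η δ : ℝ} {M : V → V → ℝ} (h : Dat g z r η)
    (hM : NM g z r M δ) (x y : V) :
    ht g η M x y ≤ 1 / ((1 / 4 + η) * (Fintype.card V : ℝ)) := by
  have hk : 0 < (1 / 4 + η) * (Fintype.card V : ℝ) :=
    mul_pos (by linarith [h.eta0]) h.card0
  unfold ht
  refine div_le_div_of_nonneg_right ?_ hk.le
  calc ∑ c, (1 - g x c) * M c y ≤ ∑ c, M c y := by
        refine Finset.sum_le_sum fun c _ => ?_
        rcases h.g01 x c with h0 | h0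
        · rw [h0]; linarith
        · rw [h0]; linarith [hM.nn c y]
    _ ≤ 1 := hM.col y

/-- the energy bound -/
theorem sr_energy {g : V → V → ℝ} {η : ℝ} {M : V → V → ℝ} {k D : ℝ} (hk : 0 < k)
    (hke : k = (1 / 4 + η) * (Fintype.card V : ℝ))
    (hg01 : ∀ x y, g x y = 0 ∨ g x y = 1) (hgs : ∀ x y, g x y = g y x)
    (hdeg : ∀ x, ∑ y, (1 - g x y) ≤ k)
    (hM0 : ∀ x y, 0 ≤ M x y) (hM1 : ∀ x y, M x y ≤ 1 / k)
    (hD : ∑ x, ∑ y, |ht g η M x y - M x y| ≤ D) :
    ∑ x, ∑ c, ∑ y, (1 - g x c) * (M x y - M c y) ^ 2 ≤ 2 * D := by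
  have e1 : ∑ x, ∑ c, ∑ y, (1 - g x c) * (M x y - M c y) ^ 2
      = ∑ x, ∑ c, ∑ y, (1 - g x c) * M x y ^ 2 + ∑ x, ∑ c, ∑ y, (1 - g x c) * M c y ^ 2
        - 2 * ∑ x, ∑ c, ∑ y, (1 - g x c) * M x y * M c y := by
    rw [Finset.mul_sum, ← Finset.sum_add_distrib, ← Finset.sum_sub_distrib]
    refine Finset.sum_congr rfl fun x _ => ?_
    rw [Finset.mul_sum, ← Finset.sum_add_distrib, ← Finset.sum_sub_distrib]
    refine Finset.sum_congr rfl fun c _ => ?_
    rw [Finset.mul_sum, ← Finset.sum_add_distrib, ← Finset.sum_sub_distrib]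
    refine Finset.sum_congr rfl fun y _ => ?_
    ring
  have e2 : ∑ x, ∑ c, ∑ y, (1 - g x c) * M x y ^ 2 ≤ k * ∑ x, ∑ y, M x y ^ 2 := by
    rw [Finset.mul_sum]
    refine Finset.sum_le_sum fun x _ => ?_
    have : ∑ c, ∑ y, (1 - g x c) * M x y ^ 2 = (∑ c, (1 - g x c)) * ∑ y, M x y ^ 2 := by
      rw [Finset.sum_mul]
      refine Finset.sum_congr rfl fun c _ => ?_
      rw [Finset.mul_sum]
    rw [this]
    exact mul_le_mul_of_nonneg_right (hdeg x) (Finset.sum_nonneg fun y _ => sq_nonneg _)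
  have e3 : ∑ x, ∑ c, ∑ y, (1 - g x c) * M c y ^ 2
      = ∑ x, ∑ c, ∑ y, (1 - g x c) * M x y ^ 2 := by
    rw [Finset.sum_comm]
    refine Finset.sum_congr rfl fun x _ => Finset.sum_congr rfl fun c _ =>
      Finset.sum_congr rfl fun y _ => ?_
    rw [hgs c x]
  have e4 : ∑ x, ∑ c, ∑ y, (1 - g x c) * M x y * M c y
      = k * ∑ x, ∑ y, M x y * ht g η M x y := by
    rw [Finset.mul_sum]
    refine Finset.sum_congr rfl fun x _ => ?_
    rw [Finset.mul_sum, Finset.sum_comm]
    refine Finset.sum_congr rfl fun y _ => ?_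
    have h5 : k * (M x y * ht g η M x y) = M x y * ∑ c, (1 - g x c) * M c y := by
      unfold ht
      rw [← hke]
      field_simp
    rw [h5, Finset.mul_sum]
    refine Finset.sum_congr rfl fun c _ => ?_
    ring
  have e5 : ∑ x, ∑ y, M x y ^ 2 - ∑ x, ∑ y, M x y * ht g η M x y
      ≤ (1 / k) * ∑ x, ∑ y, |ht g η M x y - M x y| := by
    rw [← Finset.sum_sub_distrib, Finset.mul_sum]
    refine Finset.sum_le_sum fun x _ => ?_
    rw [← Finset.sum_sub_distrib, Finset.mul_sum]
    refine Finset.sum_le_sum fun y _ => ?_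
    have h6 : M x y ^ 2 - M x y * ht g η M x y = M x y * (-(ht g η M x y - M x y)) := by ring
    rw [h6]
    calc M x y * (-(ht g η M x y - M x y)) ≤ M x y * |ht g η M x y - M x y| :=
          mul_le_mul_of_nonneg_left (neg_le_abs _) (hM0 x y)
      _ ≤ 1 / k * |ht g η M x y - M x y| :=
          mul_le_mul_of_nonneg_right (hM1 x y) (abs_nonneg _)
  have e6 : k * ((1 / k) * ∑ x, ∑ y, |ht g η M x y - M x y|)
      = ∑ x, ∑ y, |ht g η M x y - M x y| := by
    field_simp
  have e7 := mul_le_mul_of_nonneg_left e5 hk.le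
  rw [e6] at e7
  rw [e1, e3, e4]
  nlinarith [e2, e7, hD]

/-- **row P** -/
theorem st_star (hS : StSwap) : StStar := by
  intro ε hε
  obtain ⟨L, hL⟩ := exists_nat_gt (4 / ε ^ 2)
  have hLpos : (0:ℝ) < (L : ℝ) := lt_trans (by positivity) hL
  have hL0 : 0 < L := by exact_mod_cast hLpos
  obtain ⟨δ₁, h1, H1⟩ := hS ε hε
  obtain ⟨δ₂, h2, H2⟩ := sr_iter hS (2 * L + 1) ε hε
  refine ⟨min (min δ₁ δ₂) (3 / 4), lt_min (lt_min h1 h2) (by norm_num), ?_⟩
  intro V _ g z r η p hD hU hη hp hps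
  have hη1 : η ≤ δ₁ := le_trans hη (le_trans (min_le_left _ _) (min_le_left _ _))
  have hη2 : η ≤ δ₂ := le_trans hη (le_trans (min_le_left _ _) (min_le_right _ _))
  have hη3 : η ≤ 3 / 4 := le_trans hη (min_le_right _ _)
  have hn := hD.card0
  have hη0 := hD.eta0
  have key := H2 V g z r η p hD hU hη2 hp hps
  have hdef := (H1 V g z r η p hD hU hη1 (sr_mono hp h1.le)).2
  obtain ⟨k, hke⟩ : ∃ k : ℝ, k = (1 / 4 + η) * (Fintype.card V : ℝ) := ⟨_, rfl⟩
  have hk : 0 < k := by rw [hke]; positivity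
  have hkn : k ≤ (Fintype.card V : ℝ) := by rw [hke]; nlinarith
  have hk4 : 1 / k ≤ 4 / (Fintype.card V : ℝ) := by
    rw [div_le_div_iff₀ hk hn, hke]; nlinarith
  have hcard : (((Finset.range L ×ˢ Finset.range L).card : ℕ) : ℝ) = (L : ℝ) * (L : ℝ) := by
    rw [Finset.card_product, Finset.card_range, Nat.cast_mul]
  have hs : 0 < (((Finset.range L ×ˢ Finset.range L).card : ℕ) : ℝ) := by
    rw [hcard]; positivity
  have hmem : ∀ q ∈ Finset.range L ×ˢ Finset.range L,
      NM g z r (srM g η p (q.1 + 1) (q.2 + 1)) ε := by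
    intro q hq
    rw [Finset.mem_product, Finset.mem_range, Finset.mem_range] at hq
    exact key _ _ (by omega)
  obtain ⟨M, hMd⟩ : ∃ M : V → V → ℝ, M = fun x y =>
      (∑ q ∈ Finset.range L ×ˢ Finset.range L, srM g η p (q.1 + 1) (q.2 + 1) x y)
        / (((Finset.range L ×ˢ Finset.range L).card : ℕ) : ℝ) := ⟨_, rfl⟩
  have hMNM : NM g z r M ε := by
    rw [hMd]
    exact sr_avg _ hs (fun q => srM g η p (q.1 + 1) (q.2 + 1)) hmem
  have hMs : ∀ x y, M x y = M y x := by
    intro x y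
    rw [hMd]
    show (∑ q ∈ Finset.range L ×ˢ Finset.range L, srM g η p (q.1 + 1) (q.2 + 1) x y) / _
      = (∑ q ∈ Finset.range L ×ˢ Finset.range L, srM g η p (q.1 + 1) (q.2 + 1) y x) / _
    congr 1
    rw [Finset.sum_product, Finset.sum_product, Finset.sum_comm]
    refine Finset.sum_congr rfl fun a _ => Finset.sum_congr rfl fun b _ => ?_
    exact sr_M_tr hD.gs hps _ _ _ _
  have hMk : ∀ x y, M x y ≤ 1 / k := by
    intro x y
    rw [hMd]
    show (∑ q ∈ Finset.range L ×ˢ Finset.range L, srM g η p (q.1 + 1) (q.2 + 1) x y) / _ ≤ _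
    rw [div_le_iff₀ hs]
    calc ∑ q ∈ Finset.range L ×ˢ Finset.range L, srM g η p (q.1 + 1) (q.2 + 1) x y
        ≤ ∑ q ∈ Finset.range L ×ˢ Finset.range L, 1 / k := by
          refine Finset.sum_le_sum fun q hq => ?_
          rw [Finset.mem_product, Finset.mem_range, Finset.mem_range] at hq
          rw [← sr_ht_M, hke]
          exact sr_entry hD (key _ _ (by omega)) x y
      _ = 1 / k * _ := by
          rw [Finset.sum_const, nsmul_eq_mul, mul_comm]
  have hE : ∑ x, ∑ y, |ht g η M x y - M x y| ≤ 2 * (Fintype.card V : ℝ) / (L : ℝ) := by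
    have e1 : ∀ x y, ht g η M x y - M x y = (∑ b ∈ Finset.range L,
        (srM g η p (L + 1) (b + 1) x y - srM g η p 1 (b + 1) x y)) / ((L : ℝ) * (L : ℝ)) := by
      intro x y
      have e2 : ht g η M x y = (∑ q ∈ Finset.range L ×ˢ Finset.range L,
          srM g η p (q.1 + 1 + 1) (q.2 + 1) x y) / ((L : ℝ) * (L : ℝ)) := by
        have e3 : ∀ q : ℕ × ℕ, srM g η p (q.1 + 1 + 1) (q.2 + 1) x y
            = ht g η (srM g η p (q.1 + 1) (q.2 + 1)) x y := by
          intro q
          rw [sr_ht_M]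
        simp only [e3]
        rw [hMd]
        unfold ht
        rw [hcard, ← Finset.sum_div, div_right_comm]
        congr 1
        rw [Finset.sum_comm, Finset.sum_div]
        refine Finset.sum_congr rfl fun c _ => ?_
        rw [mul_div_assoc', Finset.mul_sum]
      have e4 : M x y = (∑ q ∈ Finset.range L ×ˢ Finset.range L,
          srM g η p (q.1 + 1) (q.2 + 1) x y) / ((L : ℝ) * (L : ℝ)) := by
        rw [hMd]
        simp only [hcard]
      rw [e2, e4, ← sub_div, ← Finset.sum_sub_distrib, Finset.sum_product_right]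
      congr 1
      refine Finset.sum_congr rfl fun b _ => ?_
      exact Finset.sum_range_sub (fun a => srM g η p (a + 1) (b + 1) x y) L
    have e5 : ∀ x y, |ht g η M x y - M x y| ≤ (∑ b ∈ Finset.range L,
        (srM g η p (L + 1) (b + 1) x y + srM g η p 1 (b + 1) x y)) / ((L : ℝ) * (L : ℝ)) := by
      intro x y
      rw [e1, abs_div, abs_of_pos (mul_pos hLpos hLpos)]
      refine div_le_div_of_nonneg_right ?_ (mul_pos hLpos hLpos).le
      refine le_trans (Finset.abs_sum_le_sum_abs _ _) (Finset.sum_le_sum fun b hb => ?_)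
      rw [Finset.mem_range] at hb
      have h3 := (key (L + 1) (b + 1) (by omega)).nn x y
      have h4 := (key 1 (b + 1) (by omega)).nn x y
      rw [abs_le]
      constructor <;> linarith
    calc ∑ x, ∑ y, |ht g η M x y - M x y|
        ≤ ∑ x, ∑ y, (∑ b ∈ Finset.range L,
          (srM g η p (L + 1) (b + 1) x y + srM g η p 1 (b + 1) x y)) / ((L : ℝ) * (L : ℝ)) :=
          Finset.sum_le_sum fun x _ => Finset.sum_le_sum fun y _ => e5 x y
      _ = (∑ b ∈ Finset.range L, ∑ x, ∑ y,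
          (srM g η p (L + 1) (b + 1) x y + srM g η p 1 (b + 1) x y)) / ((L : ℝ) * (L : ℝ)) := by
          simp only [Finset.sum_div]
          rw [Finset.sum_comm (s := Finset.range L)]
          refine Finset.sum_congr rfl fun x _ => ?_
          rw [Finset.sum_comm (s := Finset.range L)]
      _ ≤ (∑ b ∈ Finset.range L, 2 * (Fintype.card V : ℝ)) / ((L : ℝ) * (L : ℝ)) := by
          refine div_le_div_of_nonneg_right (Finset.sum_le_sum fun b hb => ?_)
            (mul_pos hLpos hLpos).le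
          rw [Finset.mem_range] at hb
          simp only [Finset.sum_add_distrib]
          have h3 := sr_total (key (L + 1) (b + 1) (by omega))
          have h4 := sr_total (key 1 (b + 1) (by omega))
          linarith
      _ = 2 * (Fintype.card V : ℝ) / (L : ℝ) := by
          rw [Finset.sum_const, Finset.card_range, nsmul_eq_mul]
          field_simp
  have hdegk : ∀ x, ∑ y, (1 - g x y) ≤ k := by
    intro x
    rw [hke]
    exact hD.deg x
  have hEn := sr_energy hk hke hD.g01 hD.gs hdegk hMNM.nn hMk hE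
  refine ⟨M, hMNM, hMs, fun x y => le_trans (hMk x y) hk4, ?_, hdef⟩
  obtain ⟨n, hnn⟩ : ∃ n : ℝ, n = (Fintype.card V : ℝ) := ⟨_, rfl⟩
  rw [← hnn] at hn hkn hEn ⊢
  have hg0 : ∀ x c, 0 ≤ 1 - g x c := by
    intro x c
    rcases hD.g01 x c with h | h <;> rw [h] <;> norm_num
  have hpt : ∀ x c y, (1 - g x c) * |M x y - M c y|
      ≤ (1 - g x c) * (ε / (2 * n)) + n / (2 * ε) * ((1 - g x c) * (M x y - M c y) ^ 2) := by
    intro x c y
    have h3 : |M x y - M c y| ≤ ε / (2 * n) + n / (2 * ε) * (M x y - M c y) ^ 2 := by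
      rw [← sq_abs (M x y - M c y)]
      have h4 : 0 ≤ n / (2 * ε) * (|M x y - M c y| - ε / n) ^ 2 := by positivity
      have h5 : n / (2 * ε) * (|M x y - M c y| - ε / n) ^ 2
          = n / (2 * ε) * |M x y - M c y| ^ 2 - |M x y - M c y| + ε / (2 * n) := by
        field_simp
        ring
      linarith
    have h6 := mul_le_mul_of_nonneg_left h3 (hg0 x c)
    linarith
  have hsum : ∑ x, ∑ c, (1 - g x c) * ∑ y, |M x y - M c y|
      ≤ (∑ x, ∑ c, (1 - g x c)) * (ε / 2)
        + n / (2 * ε) * ∑ x, ∑ c, ∑ y, (1 - g x c) * (M x y - M c y) ^ 2 := by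
    rw [Finset.sum_mul, Finset.mul_sum, ← Finset.sum_add_distrib]
    refine Finset.sum_le_sum fun x _ => ?_
    rw [Finset.sum_mul, Finset.mul_sum, ← Finset.sum_add_distrib]
    refine Finset.sum_le_sum fun c _ => ?_
    rw [Finset.mul_sum, Finset.mul_sum]
    calc ∑ y, (1 - g x c) * |M x y - M c y|
        ≤ ∑ y, ((1 - g x c) * (ε / (2 * n)) + n / (2 * ε) * ((1 - g x c) * (M x y - M c y) ^ 2)) :=
          Finset.sum_le_sum fun y _ => hpt x c y
      _ = (1 - g x c) * (ε / 2) + ∑ y, n / (2 * ε) * ((1 - g x c) * (M x y - M c y) ^ 2) := by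
          rw [Finset.sum_add_distrib, Finset.sum_const, nsmul_eq_mul, Finset.card_univ, ← hnn]
          congr 1
          field_simp
  have hdd : ∑ x, ∑ c, (1 - g x c) ≤ n * n := by
    calc ∑ x, ∑ c, (1 - g x c) ≤ ∑ x : V, n :=
          Finset.sum_le_sum fun x _ => le_trans (hdegk x) hkn
      _ = n * n := by rw [Finset.sum_const, nsmul_eq_mul, Finset.card_univ, ← hnn]
  have hfin : n / (2 * ε) * (2 * (2 * n / (L : ℝ))) ≤ ε / 2 * n ^ 2 := by
    have h7 : 4 < ε ^ 2 * (L : ℝ) := by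
      rw [div_lt_iff₀ (by positivity)] at hL
      linarith
    have h8 : n / (2 * ε) * (2 * (2 * n / (L : ℝ))) = n ^ 2 * (2 / (ε * (L : ℝ))) := by
      field_simp
    rw [h8, mul_comm (ε / 2)]
    refine mul_le_mul_of_nonneg_left ?_ (sq_nonneg n)
    rw [div_le_iff₀ (mul_pos hε hLpos)]
    nlinarith
  have hE2 : n / (2 * ε) * ∑ x, ∑ c, ∑ y, (1 - g x c) * (M x y - M c y) ^ 2
      ≤ n / (2 * ε) * (2 * (2 * n / (L : ℝ))) :=
    mul_le_mul_of_nonneg_left hEn (by positivity)
  have hdd2 : (∑ x, ∑ c, (1 - g x c)) * (ε / 2) ≤ n * n * (ε / 2) :=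
    mul_le_mul_of_nonneg_right hdd (by positivity)
  nlinarith [hsum, hdd2, hE2, hfin]

end star

end ST
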