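import Pool.Agent.H56.ST.Stm
import Pool.Agent.H56.ST.Loc

/-!
# Stability of the fractional Nash-Williams theorem: the swap lemma

Row ST-9 of project ST (MP_6a0350_co, note 5050).
-/

open Finset

namespace ST

noncomputable section

variable {V : Type} [Fintype V] {g z : V → V → ℝ} {r : V → ℝ} {η κ δ : ℝ} {w : V × V → ℝ}
  {M : V → V → ℝ}

lemma sw_h0 (D : Dat g z r η) (x y : V) : 0 ≤ 1 - g x y := by
  rcases D.g01 x y with h | h <;> rw [h] <;> norm_num

lemma sw_h1 (D : Dat g z r η) (x y : V) : 1 - g x y ≤ 1 := by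
  rcases D.g01 x y with h | h <;> rw [h] <;> norm_num

lemma sw_degc (D : Dat g z r η) (c : V) :
    ∑ x, (1 - g x c) ≤ (1 / 4 + η) * (Fintype.card V : ℝ) := by
  refine le_trans (le_of_eq ?_) (D.deg c)
  exact Finset.sum_congr rfl fun x _ => by rw [D.gs x c]

/-- row sums of the weights -/
def swv (w : V × V → ℝ) (x : V) : ℝ := ∑ y, w (x, y)

lemma sw_w_le (D : Dat g z r η) (N : NM g z r M δ) (x y : V) :
    wOf g z r M (x, y) ≤ (M x y + M y x) / (2 * (Fintype.card V : ℝ)) := by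
  have hn := D.card0
  have h1 := N.nn x y
  have h2 := N.nn y x
  unfold wOf
  split_ifs
  · exact le_rfl
  · positivity

lemma sw_v_le (D : Dat g z r η) (N : NM g z r M δ) (x : V) :
    (Fintype.card V : ℝ) * swv (wOf g z r M) x ≤ 1 := by
  have hn := D.card0
  have h1 : swv (wOf g z r M) x ≤ ∑ y, (M x y + M y x) / (2 * (Fintype.card V : ℝ)) :=
    Finset.sum_le_sum fun y _ => sw_w_le D N x y
  rw [← Finset.sum_div, Finset.sum_add_distrib] at h1
  have h2 := N.row x
  have h3 := N.col x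
  have h4 : (∑ y, M x y + ∑ y, M y x) / (2 * (Fintype.card V : ℝ)) ≤
      1 / (Fintype.card V : ℝ) := by
    rw [div_le_div_iff₀ (by positivity) hn]
    nlinarith
  have h5 := mul_le_mul_of_nonneg_left (h1.trans h4) hn.le
  rwa [mul_one_div_cancel hn.ne'] at h5

lemma sw_v_nonneg (C : Core g z r η w κ) (x : V) : 0 ≤ swv w x :=
  Finset.sum_nonneg fun y _ => C.nn (x, y)

lemma sw_sum_v : ∑ x, swv w x = ∑ P, w P := by
  unfold swv
  rw [Fintype.sum_prod_type]

lemma sw_sum1 (f : V → ℝ) : ∑ P, w P * f P.1 = ∑ x, swv w x * f x := by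
  unfold swv
  rw [Fintype.sum_prod_type]
  exact Finset.sum_congr rfl fun x _ => by rw [Finset.sum_mul]

lemma sw_sum2 (f : V → V → ℝ) :
    ∑ P, ∑ Q, w P * w Q * f P.1 Q.1 = ∑ x, ∑ c, f x c * (swv w x * swv w c) := by
  have h1 : ∀ P : V × V, ∑ Q, w P * w Q * f P.1 Q.1 = w P * ∑ c, swv w c * f P.1 c := by
    intro P
    rw [← sw_sum1 (w := w) (f P.1), Finset.mul_sum]
    exact Finset.sum_congr rfl fun Q _ => by ring
  simp only [h1]
  rw [sw_sum1 (w := w) (fun x => ∑ c, swv w c * f x c)]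
  refine Finset.sum_congr rfl fun x _ => ?_
  rw [Finset.mul_sum]
  exact Finset.sum_congr rfl fun c _ => by ring

lemma sw_swap (hs : ∀ x y, w (x, y) = w (y, x)) (F : V × V → ℝ) :
    ∑ Q, w Q * F Q.swap = ∑ Q, w Q * F Q := by
  rw [← Equiv.sum_comp (Equiv.prodComm V V) (fun Q => w Q * F Q)]
  refine Finset.sum_congr rfl fun Q _ => ?_
  rcases Q with ⟨x, y⟩
  simp only [Equiv.prodComm_apply, Prod.swap_prod_mk]
  rw [hs x y]

lemma sw_mm (C : Core g z r η w κ) : ∑ P, ∑ Q, w P * w Q * mm g P Q =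
    4 * ∑ x, ∑ c, (1 - g x c) * (swv w x * swv w c) := by
  have e11 := sw_sum2 (w := w) (fun x c => 1 - g x c)
  have e12 : ∀ P : V × V, ∑ Q, w P * w Q * (1 - g P.1 Q.2) =
      ∑ Q, w P * w Q * (1 - g P.1 Q.1) := by
    intro P
    have h := sw_swap C.sym (fun Q => w P * (1 - g P.1 Q.1))
    calc ∑ Q, w P * w Q * (1 - g P.1 Q.2) = ∑ Q, w Q * (w P * (1 - g P.1 Q.swap.1)) :=
          Finset.sum_congr rfl fun Q _ => by rw [Prod.fst_swap]; ring
      _ = ∑ Q, w Q * (w P * (1 - g P.1 Q.1)) := h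
      _ = _ := Finset.sum_congr rfl fun Q _ => by ring
  have e22 : ∀ P : V × V, ∑ Q, w P * w Q * (1 - g P.2 Q.2) =
      ∑ Q, w P * w Q * (1 - g P.2 Q.1) := by
    intro P
    have h := sw_swap C.sym (fun Q => w P * (1 - g P.2 Q.1))
    calc ∑ Q, w P * w Q * (1 - g P.2 Q.2) = ∑ Q, w Q * (w P * (1 - g P.2 Q.swap.1)) :=
          Finset.sum_congr rfl fun Q _ => by rw [Prod.fst_swap]; ring
      _ = ∑ Q, w Q * (w P * (1 - g P.2 Q.1)) := h
      _ = _ := Finset.sum_congr rfl fun Q _ => by ring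
  have e21 : ∑ P, ∑ Q, w P * w Q * (1 - g P.2 Q.1) =
      ∑ P, ∑ Q, w P * w Q * (1 - g P.1 Q.1) := by
    have h := sw_swap C.sym (fun P => ∑ Q, w Q * (1 - g P.1 Q.1))
    calc ∑ P, ∑ Q, w P * w Q * (1 - g P.2 Q.1) =
          ∑ P, w P * ∑ Q, w Q * (1 - g P.swap.1 Q.1) :=
          Finset.sum_congr rfl fun P _ => by
            rw [Finset.mul_sum]
            exact Finset.sum_congr rfl fun Q _ => by rw [Prod.fst_swap]; ring
      _ = ∑ P, w P * ∑ Q, w Q * (1 - g P.1 Q.1) := h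
      _ = _ := Finset.sum_congr rfl fun P _ => by
            rw [Finset.mul_sum]
            exact Finset.sum_congr rfl fun Q _ => by ring
  have h1 : ∑ P, ∑ Q, w P * w Q * mm g P Q = ∑ P, ((∑ Q, w P * w Q * (1 - g P.1 Q.1)) +
      (∑ Q, w P * w Q * (1 - g P.1 Q.2)) + (∑ Q, w P * w Q * (1 - g P.2 Q.1)) +
      (∑ Q, w P * w Q * (1 - g P.2 Q.2))) := by
    refine Finset.sum_congr rfl fun P _ => ?_
    rw [← Finset.sum_add_distrib, ← Finset.sum_add_distrib, ← Finset.sum_add_distrib]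
    refine Finset.sum_congr rfl fun Q _ => ?_
    unfold mm
    ring
  rw [h1]
  simp only [e12, e22]
  rw [Finset.sum_add_distrib, Finset.sum_add_distrib, Finset.sum_add_distrib, e21, e11]
  ring

/-- degree defects from the second part of row B -/
lemma sw_deg (D : Dat g z r η) (C : Core g z r η w κ)
    (hv : ∀ x, (Fintype.card V : ℝ) * swv w x ≤ 1) {β : ℝ} (hβ0 : 0 ≤ β)
    (hβ : 1 - β ≤ ∑ P, ∑ Q, w P * w Q * mm g P Q) :
    ∑ x, (1 - (∑ y, (1 - g x y)) / ((1 / 4 + η) * (Fintype.card V : ℝ)))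
      ≤ (β + 4 * η) * (Fintype.card V : ℝ) := by
  have hn := D.card0
  have hη := D.eta0
  set n : ℝ := (Fintype.card V : ℝ) with hndef
  rw [sw_mm C] at hβ
  have hvn : ∀ x, swv w x ≤ 1 / n := fun x => by
    rw [le_div_iff₀ hn]
    linarith [hv x]
  have h1 : ∑ x, ∑ c, (1 - g x c) * (swv w x * swv w c) ≤
      ∑ x, ∑ c, (1 - g x c) * (1 / n * (1 / n)) := by
    refine Finset.sum_le_sum fun x _ => Finset.sum_le_sum fun c _ => ?_
    refine mul_le_mul_of_nonneg_left ?_ (sw_h0 D x c)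
    exact mul_le_mul (hvn x) (hvn c) (sw_v_nonneg C c) (by positivity)
  have h2 : ∑ x, ∑ c, (1 - g x c) * (1 / n * (1 / n)) =
      (∑ x, ∑ c, (1 - g x c)) * (1 / n * (1 / n)) := by
    rw [Finset.sum_mul]
    exact Finset.sum_congr rfl fun x _ => by rw [Finset.sum_mul]
  rw [h2] at h1
  set S : ℝ := ∑ x, ∑ c, (1 - g x c) with hS
  have h3 : 1 - β ≤ 4 * (S * (1 / n * (1 / n))) := by linarith
  have h4 : (1 - β) * n ^ 2 ≤ 4 * S := by
    have := mul_le_mul_of_nonneg_right h3 (by positivity : 0 ≤ n ^ 2)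
    have e : 4 * (S * (1 / n * (1 / n))) * n ^ 2 = 4 * S := by
      field_simp
    rwa [e] at this
  rw [Finset.sum_sub_distrib, ← Finset.sum_div, Finset.sum_const, Finset.card_univ,
    nsmul_eq_mul, mul_one, ← hndef, ← hS]
  have hk : 0 < (1 / 4 + η) * n := by positivity
  have h5 : n - S / ((1 / 4 + η) * n) ≤ (β + 4 * η) * n := by
    rw [sub_le_iff_le_add, ← sub_le_iff_le_add', le_div_iff₀ hk]
    have h6 : 0 ≤ β * η * n ^ 2 := by positivity
    have h7 : 0 ≤ η ^ 2 * n ^ 2 := by positivity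
    nlinarith
  exact h5

/-- the mean cost of the swapped pairs -/
lemma sw_cross (D : Dat g z r η) (C : Core g z r η w κ) {β : ℝ}
    (hβ : (∑ P, ∑ Q, open Classical in if Bad g P Q then w P * w Q else 0) ≤ β) :
    ∑ P, w P * ∑ Q, w Q * ((1 - g P.1 Q.1) * cc g z r P.1 Q.2) ≤ 2 * κ + β := by
  classical
  have h1 : ∑ P, w P * ∑ Q, w Q * ((1 - g P.1 Q.1) * cc g z r P.1 Q.2) ≤
      ∑ P, (2 * (∑ Q, w P * w Q * sl g z r P Q) +
        ∑ Q, if Bad g P Q then w P * w Q else 0) := by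
    refine Finset.sum_le_sum fun P _ => ?_
    rw [Finset.mul_sum, Finset.mul_sum, ← Finset.sum_add_distrib]
    refine Finset.sum_le_sum fun Q _ => ?_
    by_cases hP0 : w P = 0
    · simp [hP0]
    by_cases hQ0 : w Q = 0
    · simp [hQ0]
    have hPQ := mul_nonneg (C.nn P) (C.nn Q)
    have gP := C.supp P hP0
    have gQ := C.supp Q hQ0
    have hsl := D.sl_nonneg gP gQ
    have hc1 : cc g z r P.1 Q.2 ≤ 1 := cc_le_one _ _
    have hc0 := D.cc_nonneg P.1 Q.2
    have b0 : 0 ≤ (if Bad g P Q then w P * w Q else 0) := by split_ifs <;> linarith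
    have b1 := mul_nonneg hPQ hsl
    rcases D.g01 P.1 Q.1 with h11 | h11
    · rw [h11]
      by_cases hb : Bad g P Q
      · rw [if_pos hb]
        have := mul_le_mul_of_nonneg_left hc1 hPQ
        nlinarith
      · have h2 := D.swap_cost gP gQ h11 hb
        have := mul_le_mul_of_nonneg_left h2 hPQ
        rw [if_neg hb]
        nlinarith
    · rw [h11]
      have : w P * (w Q * ((1 - 1) * cc g z r P.1 Q.2)) = 0 := by ring
      rw [this]
      linarith
  refine h1.trans ?_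
  rw [Finset.sum_add_distrib, ← Finset.mul_sum]
  have h2 := C.B1
  have h3 : (∑ P, ∑ Q, if Bad g P Q then w P * w Q else 0) ≤ β := by convert hβ
  linarith

/-- the swapped sum over one vertex -/
def swS (g z : V → V → ℝ) (r : V → ℝ) (w : V × V → ℝ) (x : V) : ℝ :=
  ∑ Q, w Q * ((1 - g x Q.1) * cc g z r x Q.2)

lemma sw_S_le (D : Dat g z r η) (C : Core g z r η w κ)
    (hv : ∀ x, (Fintype.card V : ℝ) * swv w x ≤ 1) (x : V) :
    (Fintype.card V : ℝ) * swS g z r w x ≤ (1 / 4 + η) * (Fintype.card V : ℝ) := by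
  have hn := D.card0
  have h1 : swS g z r w x ≤ ∑ Q, w Q * (1 - g x Q.1) := by
    refine Finset.sum_le_sum fun Q _ => mul_le_mul_of_nonneg_left ?_ (C.nn Q)
    have h0 := sw_h0 D x Q.1
    have hc1 : cc g z r x Q.2 ≤ 1 := cc_le_one _ _
    nlinarith
  rw [sw_sum1 (w := w) (fun c => 1 - g x c)] at h1
  have h2 : (Fintype.card V : ℝ) * ∑ c, swv w c * (1 - g x c) ≤ ∑ c, (1 - g x c) := by
    rw [Finset.mul_sum]
    refine Finset.sum_le_sum fun c _ => ?_
    have h3 := mul_le_mul_of_nonneg_right (hv c) (sw_h0 D x c)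
    nlinarith
  have h3 := mul_le_mul_of_nonneg_left h1 hn.le
  exact h3.trans (h2.trans (D.deg x))

lemma sw_S_sum (D : Dat g z r η) (C : Core g z r η w κ)
    (hv : ∀ x, (Fintype.card V : ℝ) * swv w x ≤ 1) {β : ℝ}
    (hβ : (∑ P, ∑ Q, open Classical in if Bad g P Q then w P * w Q else 0) ≤ β) :
    ∑ x, swS g z r w x ≤ (Fintype.card V : ℝ) * (2 * κ + β)
      + κ * ((1 / 4 + η) * (Fintype.card V : ℝ)) := by
  have hn := D.card0
  have h1 := sw_cross D C hβ
  have h2 : ∑ P, w P * ∑ Q, w Q * ((1 - g P.1 Q.1) * cc g z r P.1 Q.2) =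
      ∑ x, swv w x * swS g z r w x := sw_sum1 (w := w) (swS g z r w)
  rw [h2] at h1
  have h3 : ∀ x, swS g z r w x ≤ (Fintype.card V : ℝ) * (swv w x * swS g z r w x) +
      (1 / (Fintype.card V : ℝ) - swv w x) * ((1 / 4 + η) * (Fintype.card V : ℝ)) := by
    intro x
    have h4 := sw_S_le D C hv x
    have h5 := hv x
    have h6 : 0 ≤ 1 - (Fintype.card V : ℝ) * swv w x := by linarith
    have h7 := mul_le_mul_of_nonneg_left h4 h6
    have h8 : (Fintype.card V : ℝ) * swS g z r w x ≤ (Fintype.card V : ℝ) *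
        ((Fintype.card V : ℝ) * (swv w x * swS g z r w x) +
      (1 / (Fintype.card V : ℝ) - swv w x) * ((1 / 4 + η) * (Fintype.card V : ℝ))) := by
      have e : (Fintype.card V : ℝ) * ((Fintype.card V : ℝ) * (swv w x * swS g z r w x) +
        (1 / (Fintype.card V : ℝ) - swv w x) * ((1 / 4 + η) * (Fintype.card V : ℝ))) =
        (Fintype.card V : ℝ) * ((Fintype.card V : ℝ) * (swv w x * swS g z r w x)) +
        (1 - (Fintype.card V : ℝ) * swv w x) * ((1 / 4 + η) * (Fintype.card V : ℝ)) := by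
        field_simp
      rw [e]
      nlinarith
    exact le_of_mul_le_mul_left h8 hn
  have h4 := Finset.sum_le_sum fun x (_ : x ∈ (Finset.univ : Finset V)) => h3 x
  rw [Finset.sum_add_distrib, ← Finset.mul_sum, ← Finset.sum_mul, Finset.sum_sub_distrib,
    sw_sum_v, Finset.sum_const, Finset.card_univ, nsmul_eq_mul, mul_one_div_cancel hn.ne'] at h4
  have hk : 0 < (1 / 4 + η) * (Fintype.card V : ℝ) := by
    have := D.eta0
    positivity
  have h5 : (1 - ∑ P, w P) * ((1 / 4 + η) * (Fintype.card V : ℝ)) ≤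
      κ * ((1 / 4 + η) * (Fintype.card V : ℝ)) :=
    mul_le_mul_of_nonneg_right (by linarith [C.ge1]) hk.le
  have h6 := mul_le_mul_of_nonneg_left h1 hn.le
  linarith

lemma sw_M_le (D : Dat g z r η) (N : NM g z r M δ) (c y : V) :
    M c y ≤ 2 * (Fintype.card V : ℝ) * wOf g z r M (c, y) + M c y * cc g z r c y := by
  have hn := D.card0
  have h1 := N.nn c y
  have h2 := N.nn y c
  have h3 := D.cc_nonneg c y
  have h4 : cc g z r c y ≤ 1 := cc_le_one _ _
  unfold wOf
  split_ifs with h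
  · have e : 2 * (Fintype.card V : ℝ) * ((M c y + M y c) / (2 * (Fintype.card V : ℝ))) =
      M c y + M y c := by field_simp
    simp only at *
    rw [e]
    nlinarith [mul_nonneg h1 h3]
  · have h5 : cc g z r c y = 1 := le_antisymm h4 (not_lt.mp h)
    rw [h5]
    linarith

lemma sw_cost (D : Dat g z r η) (N : NM g z r M δ) (C : Core g z r η (wOf g z r M) κ) {β : ℝ}
    (hβ0 : 0 ≤ β) (hκ0 : 0 ≤ κ)
    (hβ : (∑ P, ∑ Q, open Classical in if Bad g P Q then
      wOf g z r M P * wOf g z r M Q else 0) ≤ β) :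
    ∑ x, ∑ y, ht g η M x y * cc g z r x y ≤
      (8 * (2 * κ + β) + 2 * κ + δ) * (Fintype.card V : ℝ) := by
  have hn := D.card0
  have hη := D.eta0
  have hk : 0 < (1 / 4 + η) * (Fintype.card V : ℝ) := by positivity
  have hv := sw_v_le D N
  have h1 := sw_S_sum D C hv hβ
  set w := wOf g z r M with hw
  set n : ℝ := (Fintype.card V : ℝ) with hndef
  set k : ℝ := (1 / 4 + η) * n with hkdef
  have h2 : ∀ x y, ht g η M x y * cc g z r x y * k =
      ∑ c, (1 - g x c) * M c y * cc g z r x y := by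
    intro x y
    unfold ht
    rw [← hndef, ← hkdef, div_mul_eq_mul_div, div_mul_cancel₀ _ hk.ne', Finset.sum_mul]
  have h3 : ∀ x y c, (1 - g x c) * M c y * cc g z r x y ≤
      2 * n * (w (c, y) * ((1 - g x c) * cc g z r x y)) + (1 - g x c) * (M c y * cc g z r c y) := by
    intro x y c
    have a1 := sw_M_le D N c y
    have a2 := sw_h0 D x c
    have a3 := D.cc_nonneg x y
    have a4 : cc g z r x y ≤ 1 := cc_le_one _ _
    have a5 := mul_le_mul_of_nonneg_left a1 (mul_nonneg a2 a3)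
    have a6 : 0 ≤ (1 - g x c) * (M c y * cc g z r c y) :=
      mul_nonneg a2 (mul_nonneg (N.nn c y) (D.cc_nonneg c y))
    have a7 := mul_le_mul_of_nonneg_left a4 a6
    rw [← hw, ← hndef] at a5
    nlinarith
  have h4 : ∀ x, ∑ y, ∑ c, (1 - g x c) * M c y * cc g z r x y ≤
      2 * n * swS g z r w x + ∑ y, ∑ c, (1 - g x c) * (M c y * cc g z r c y) := by
    intro x
    have b1 : ∑ y, ∑ c, (1 - g x c) * M c y * cc g z r x y ≤
        ∑ y, ∑ c, (2 * n * (w (c, y) * ((1 - g x c) * cc g z r x y)) +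
          (1 - g x c) * (M c y * cc g z r c y)) :=
      Finset.sum_le_sum fun y _ => Finset.sum_le_sum fun c _ => h3 x y c
    refine b1.trans (le_of_eq ?_)
    simp only [Finset.sum_add_distrib]
    congr 1
    unfold swS
    rw [Fintype.sum_prod_type_right, Finset.mul_sum]
    refine Finset.sum_congr rfl fun y _ => ?_
    rw [Finset.mul_sum]
  have h5 : ∑ x, ∑ y, ∑ c, (1 - g x c) * (M c y * cc g z r c y) ≤ δ * n * k := by
    have b1 : ∑ x, ∑ y, ∑ c, (1 - g x c) * (M c y * cc g z r c y) =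
        ∑ c, (∑ x, (1 - g x c)) * ∑ y, M c y * cc g z r c y := by
      calc ∑ x, ∑ y, ∑ c, (1 - g x c) * (M c y * cc g z r c y)
          = ∑ x, ∑ c, ∑ y, (1 - g x c) * (M c y * cc g z r c y) :=
            Finset.sum_congr rfl fun x _ => Finset.sum_comm
        _ = ∑ c, ∑ x, ∑ y, (1 - g x c) * (M c y * cc g z r c y) := Finset.sum_comm
        _ = _ := by
            refine Finset.sum_congr rfl fun c _ => ?_
            rw [Finset.sum_mul]
            exact Finset.sum_congr rfl fun x _ => by rw [Finset.mul_sum]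
    rw [b1]
    have b2 : ∑ c, (∑ x, (1 - g x c)) * ∑ y, M c y * cc g z r c y ≤
        ∑ c, k * ∑ y, M c y * cc g z r c y := by
      refine Finset.sum_le_sum fun c _ => mul_le_mul_of_nonneg_right (sw_degc D c) ?_
      exact Finset.sum_nonneg fun y _ => mul_nonneg (N.nn c y) (D.cc_nonneg c y)
    rw [← Finset.mul_sum] at b2
    have b3 := mul_le_mul_of_nonneg_left N.cost hk.le
    linarith
  have h6 : (∑ x, ∑ y, ht g η M x y * cc g z r x y) * k ≤
      2 * n * (n * (2 * κ + β) + κ * k) + δ * n * k := by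
    have b1 : (∑ x, ∑ y, ht g η M x y * cc g z r x y) * k =
        ∑ x, ∑ y, ∑ c, (1 - g x c) * M c y * cc g z r x y := by
      rw [Finset.sum_mul]
      refine Finset.sum_congr rfl fun x _ => ?_
      rw [Finset.sum_mul]
      exact Finset.sum_congr rfl fun y _ => h2 x y
    rw [b1]
    have b2 := Finset.sum_le_sum fun x (_ : x ∈ (Finset.univ : Finset V)) => h4 x
    rw [Finset.sum_add_distrib, ← Finset.mul_sum] at b2
    have b3 := mul_le_mul_of_nonneg_left h1 (by positivity : 0 ≤ 2 * n)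
    linarith
  have h7 : n ≤ 4 * k := by rw [hkdef]; nlinarith
  have h8 : (∑ x, ∑ y, ht g η M x y * cc g z r x y) * k ≤
      ((8 * (2 * κ + β) + 2 * κ + δ) * n) * k := by
    have b1 : 0 ≤ n * (2 * κ + β) := by positivity
    have b2 := mul_le_mul_of_nonneg_left h7 b1
    nlinarith
  exact le_of_mul_le_mul_right h8 hk

/-- **Row ST-9**: the swap lemma. -/
theorem st_swap (_ : StWt) (hC : StCoreNM) (hB : StBad) : StSwap := by
  intro ε hε
  obtain ⟨κ0, hκ0, hB'⟩ := hB (ε / 40) (by positivity)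
  obtain ⟨δ0, hδ0, hC'⟩ := hC (min κ0 (ε / 80)) (lt_min hκ0 (by positivity))
  refine ⟨min δ0 (ε / 40), lt_min hδ0 (by positivity), ?_⟩
  intro V _ g z r η M D hU hη N
  have hδ1 : min δ0 (ε / 40) ≤ δ0 := min_le_left _ _
  have hδ2 : min δ0 (ε / 40) ≤ ε / 40 := min_le_right _ _
  have hn := D.card0
  have hη0 := D.eta0
  have N0 : NM g z r M δ0 := by
    refine ⟨N.nn, N.row, N.col, le_trans ?_ N.mass, N.cost.trans ?_⟩
    · exact mul_le_mul_of_nonneg_right (by linarith) hn.le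
    · exact mul_le_mul_of_nonneg_right hδ1 hn.le
  have C := hC' V g z r η M D hU (hη.trans hδ1) N0
  have hκ1 : min κ0 (ε / 80) ≤ κ0 := min_le_left _ _
  have hκ2 : min κ0 (ε / 80) ≤ ε / 80 := min_le_right _ _
  have hκ3 : 0 < min κ0 (ε / 80) := lt_min hκ0 (by positivity)
  have C0 : Core g z r η (wOf g z r M) κ0 :=
    ⟨C.eta.trans hκ1, C.nn, C.sym, C.supp, C.le1, by linarith [C.ge1], C.ms,
      C.B1.trans hκ1, C.B2.trans hκ1, C.al4⟩
  obtain ⟨hb1, hb2⟩ := hB' V g z r η _ D C0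
  have hdeg := sw_deg D C (sw_v_le D N) (by positivity : 0 ≤ ε / 40) hb2
  have hcost := sw_cost D N C (by positivity : 0 ≤ ε / 40) hκ3.le hb1
  have hk : 0 < (1 / 4 + η) * (Fintype.card V : ℝ) := by positivity
  have hdeg' : ∑ x, (1 - (∑ y, (1 - g x y)) / ((1 / 4 + η) * (Fintype.card V : ℝ)))
      ≤ (ε / 2) * (Fintype.card V : ℝ) := by
    refine hdeg.trans (mul_le_mul_of_nonneg_right ?_ hn.le)
    linarith
  refine ⟨⟨?_, ?_, ?_, ?_, ?_⟩, ?_⟩
  · intro x y
    unfold ht
    refine div_nonneg (Finset.sum_nonneg fun c _ => mul_nonneg (sw_h0 D x c) (N.nn c y)) hk.le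
  · intro x
    unfold ht
    rw [← Finset.sum_div, div_le_one hk, Finset.sum_comm]
    refine le_trans (Finset.sum_le_sum fun c _ => ?_) (D.deg x)
    rw [← Finset.mul_sum]
    have := mul_le_mul_of_nonneg_left (N.row c) (sw_h0 D x c)
    linarith
  · intro y
    unfold ht
    rw [← Finset.sum_div, Finset.sum_comm, div_le_iff₀ hk]
    have h1 : ∑ c, ∑ x, (1 - g x c) * M c y ≤
        ∑ c, ((1 / 4 + η) * (Fintype.card V : ℝ)) * M c y := by
      refine Finset.sum_le_sum fun c _ => ?_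
      rw [← Finset.sum_mul]
      exact mul_le_mul_of_nonneg_right (sw_degc D c) (N.nn c y)
    rw [← Finset.mul_sum] at h1
    have h2 := mul_le_mul_of_nonneg_left (N.col y) hk.le
    linarith
  · have h1 : ∑ x, ∑ y, ht g η M x y = ∑ c, (∑ x, (1 - g x c)) * (∑ y, M c y) /
        ((1 / 4 + η) * (Fintype.card V : ℝ)) := by
      unfold ht
      calc ∑ x, ∑ y, (∑ c, (1 - g x c) * M c y) / ((1 / 4 + η) * (Fintype.card V : ℝ))
          = ∑ x, ∑ y, ∑ c, (1 - g x c) * M c y / ((1 / 4 + η) * (Fintype.card V : ℝ)) := by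
            refine Finset.sum_congr rfl fun x _ => Finset.sum_congr rfl fun y _ => ?_
            rw [Finset.sum_div]
        _ = ∑ x, ∑ c, ∑ y, (1 - g x c) * M c y / ((1 / 4 + η) * (Fintype.card V : ℝ)) :=
            Finset.sum_congr rfl fun x _ => Finset.sum_comm
        _ = ∑ c, ∑ x, ∑ y, (1 - g x c) * M c y / ((1 / 4 + η) * (Fintype.card V : ℝ)) :=
            Finset.sum_comm
        _ = _ := by
            refine Finset.sum_congr rfl fun c _ => ?_
            rw [Finset.sum_mul, Finset.sum_div]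
            refine Finset.sum_congr rfl fun x _ => ?_
            rw [Finset.mul_sum, Finset.sum_div]
    rw [h1]
    have h2 : ∀ c, (∑ y, M c y) - (1 - (∑ y, (1 - g c y)) /
        ((1 / 4 + η) * (Fintype.card V : ℝ))) ≤ (∑ x, (1 - g x c)) * (∑ y, M c y) /
        ((1 / 4 + η) * (Fintype.card V : ℝ)) := by
      intro c
      have e1 : ∑ x, (1 - g x c) = ∑ y, (1 - g c y) :=
        Finset.sum_congr rfl fun x _ => by rw [D.gs x c]
      rw [e1]
      set d := ∑ y, (1 - g c y) with hd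
      have e2 := D.deg c
      have e3 := N.row c
      have e4 : 0 ≤ ∑ y, M c y := Finset.sum_nonneg fun y _ => N.nn c y
      have e5 : d / ((1 / 4 + η) * (Fintype.card V : ℝ)) ≤ 1 := by
        rw [div_le_one hk]
        exact e2
      have e6 : d * (∑ y, M c y) / ((1 / 4 + η) * (Fintype.card V : ℝ)) =
          (d / ((1 / 4 + η) * (Fintype.card V : ℝ))) * (∑ y, M c y) := by ring
      rw [e6]
      nlinarith
    have h3 := Finset.sum_le_sum fun c (_ : c ∈ (Finset.univ : Finset V)) => h2 c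
    rw [Finset.sum_sub_distrib] at h3
    have h4 := N.mass
    have h5 : (1 - min δ0 (ε / 40)) * (Fintype.card V : ℝ) - (ε / 2) * (Fintype.card V : ℝ) ≥
        (1 - ε) * (Fintype.card V : ℝ) := by
      have : (1 - min δ0 (ε / 40)) - ε / 2 ≥ 1 - ε := by linarith
      nlinarith
    linarith
  · refine hcost.trans (mul_le_mul_of_nonneg_right ?_ hn.le)
    linarith
  · refine hdeg'.trans (mul_le_mul_of_nonneg_right ?_ hn.le)
    linarith

end

end ST
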