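import Pool.Agent.H56.ST.Stm
import Pool.Agent.H56.ST.Loc

/-!
# Stability of the fractional Nash-Williams theorem: pairs of type `(-a,-a)` are rare
-/

open Finset

namespace ST

open Classical in
theorem st_t3 : StT3 := by
  intro ε hε
  have ht : (0 : ℝ) < tt := by unfold tt; norm_num
  refine ⟨tt * ε ^ 2, by positivity, ?_⟩
  intro V _ g z r η w D C
  set f : V × V → ℝ := fun P => if T3 tt r P then w P else 0 with hf
  have hf0 : ∀ P, 0 ≤ f P := by
    intro P
    simp only [hf]
    split_ifs
    · exact C.nn P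
    · exact le_rfl
  have hle : ∀ P Q, tt * (f P * f Q) ≤ w P * w Q * sl g z r P Q := by
    intro P Q
    have hww := mul_nonneg (C.nn P) (C.nn Q)
    by_cases h0 : w P * w Q = 0
    · have h1 : f P * f Q = 0 := by
        rcases mul_eq_zero.1 h0 with h | h
        · have : f P = 0 := by simp only [hf]; split_ifs <;> simp [h]
          rw [this, zero_mul]
        · have : f Q = 0 := by simp only [hf]; split_ifs <;> simp [h]
          rw [this, mul_zero]
      rw [h0, h1]
      simp
    · have hP : g P.1 P.2 = 1 := C.supp P (left_ne_zero_of_mul h0)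
      have hQ : g Q.1 Q.2 = 1 := C.supp Q (right_ne_zero_of_mul h0)
      have hs := D.sl_nonneg hP hQ
      by_cases h1 : T3 tt r P ∧ T3 tt r Q
      · have h2 := D.t3t3 ht hP hQ h1.1 h1.2
        simp only [hf]
        rw [if_pos h1.1, if_pos h1.2]
        nlinarith
      · have h2 : f P * f Q = 0 := by
          by_cases h3 : T3 tt r P
          · have h4 : ¬ T3 tt r Q := fun h => h1 ⟨h3, h⟩
            have : f Q = 0 := by simp only [hf]; rw [if_neg h4]
            rw [this, mul_zero]
          · have : f P = 0 := by simp only [hf]; rw [if_neg h3]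
            rw [this, zero_mul]
        rw [h2, mul_zero]
        exact mul_nonneg hww hs
  have hsq : tt * (∑ P, f P) ^ 2 ≤ tt * ε ^ 2 := by
    calc tt * (∑ P, f P) ^ 2 = ∑ P, ∑ Q, tt * (f P * f Q) := by
          rw [sq, Finset.sum_mul_sum, Finset.mul_sum]
          exact Finset.sum_congr rfl fun P _ => Finset.mul_sum _ _ _
      _ ≤ ∑ P, ∑ Q, w P * w Q * sl g z r P Q :=
          Finset.sum_le_sum fun P _ => Finset.sum_le_sum fun Q _ => hle P Q
      _ ≤ tt * ε ^ 2 := C.B1
  have h1 : (∑ P, f P) ^ 2 ≤ ε ^ 2 := le_of_mul_le_mul_left hsq ht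
  exact (sq_le_sq₀ (Finset.sum_nonneg fun P _ => hf0 P) hε.le).1 h1

end ST
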