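import Pool.Agent.H56.ST.Stm
import Pool.Agent.H56.ST.Loc

/-!
# Stability of the fractional Nash-Williams theorem: no triangle of heavy blocks (row ST-15)
-/

set_option autoImplicit false

open Finset

namespace ST

section Tri

variable {V : Type} [Fintype V]

/-- block mean bound -/
theorem tri_mean (hL : StBlock) {M : V → V → ℝ} {A B : Finset V} {Θ lam c : ℝ}
    {f : V → V → ℝ} (hn : 0 < (Fintype.card V : ℝ)) (hA : A.Nonempty) (hB : B.Nonempty)
    (hs : ∀ x y, M x y = M y x)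
    (h1 : ∀ x ∈ A, ∀ y ∈ A, ∑ c, |M x c - M y c| ≤ 2 * Θ)
    (h2 : ∀ x ∈ B, ∀ y ∈ B, ∑ c, |M x c - M y c| ≤ 2 * Θ)
    (hf0 : ∀ x y, 0 ≤ f x y) (hf1 : ∀ x y, f x y ≤ 1) (hlam : 0 < lam)
    (hW : lam * (Fintype.card V : ℝ) ≤ ∑ x ∈ A, ∑ y ∈ B, M x y)
    (hf : ∑ x ∈ A, ∑ y ∈ B, M x y * f x y ≤ c * (Fintype.card V : ℝ)) :
    ∑ x ∈ A, ∑ y ∈ B, f x y ≤ (c + 4 * Θ) / lam * ((A.card : ℝ) * (B.card : ℝ)) := by
  have h := (abs_le.1 (hL V M A B Θ f hn hA hB hs h1 h2 hf0 hf1)).1
  have ha : 0 < (A.card : ℝ) := by exact_mod_cast hA.card_pos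
  have hb : 0 < (B.card : ℝ) := by exact_mod_cast hB.card_pos
  have hF : 0 ≤ ∑ x ∈ A, ∑ y ∈ B, f x y :=
    Finset.sum_nonneg fun x _ => Finset.sum_nonneg fun y _ => hf0 x y
  generalize ∑ x ∈ A, ∑ y ∈ B, f x y = F at *
  generalize ∑ x ∈ A, ∑ y ∈ B, M x y = W at *
  generalize ∑ x ∈ A, ∑ y ∈ B, M x y * f x y = S at *
  generalize (Fintype.card V : ℝ) = n at *
  have hab : 0 < (A.card : ℝ) * (B.card : ℝ) := mul_pos ha hb
  generalize (A.card : ℝ) * (B.card : ℝ) = ab at *
  have h3 : W / ab * F ≤ (c + 4 * Θ) * n := by nlinarith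
  have h4 : lam * n / ab * F ≤ (c + 4 * Θ) * n :=
    le_trans (mul_le_mul_of_nonneg_right (div_le_div_of_nonneg_right hW hab.le) hF) h3
  have h5 : lam / ab * F ≤ c + 4 * Θ := by
    have h6 : lam * n / ab * F = (lam / ab * F) * n := by ring
    rw [h6] at h4
    exact le_of_mul_le_mul_right h4 hn
  have h7 : F = (lam / ab * F) * (ab / lam) := by
    field_simp
  rw [h7]
  have h8 : (c + 4 * Θ) / lam * ab = (c + 4 * Θ) * (ab / lam) := by ring
  rw [h8]
  exact mul_le_mul_of_nonneg_right h5 (div_nonneg hab.le hlam.le)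

/-- Markov for triples -/
theorem tri_bad {r : V → ℝ} {A B E : Finset V} {s : ℝ} (hB : 0 < (B.card : ℝ))
    (hE : 0 < (E.card : ℝ)) (G : V → V → ℝ) (hG0 : ∀ x y, 0 ≤ G x y)
    (hG : ∀ x y w, G x y + G y w + G x w < 1 / 100 → |r x| ≤ 12 / 100)
    (h1 : ∑ x ∈ A, ∑ y ∈ B, G x y ≤ s * ((A.card : ℝ) * (B.card : ℝ)))
    (h2 : ∑ y ∈ B, ∑ w ∈ E, G y w ≤ s * ((B.card : ℝ) * (E.card : ℝ)))
    (h3 : ∑ x ∈ A, ∑ w ∈ E, G x w ≤ s * ((A.card : ℝ) * (E.card : ℝ))) :
    ((A.filter (fun x => 12 / 100 < |r x|)).card : ℝ) ≤ 300 * s * (A.card : ℝ) := by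
  set X := A.filter (fun x => 12 / 100 < |r x|) with hX
  have hsub : X ⊆ A := Finset.filter_subset _ _
  have e1 : ∑ x ∈ A, ∑ y ∈ B, ∑ w ∈ E, (G x y + G y w + G x w) =
      (E.card : ℝ) * (∑ x ∈ A, ∑ y ∈ B, G x y) + (A.card : ℝ) * (∑ y ∈ B, ∑ w ∈ E, G y w) +
        (B.card : ℝ) * (∑ x ∈ A, ∑ w ∈ E, G x w) := by
    simp only [Finset.sum_add_distrib, Finset.sum_const, nsmul_eq_mul, ← Finset.mul_sum]
  have e2 : ∑ x ∈ X, ∑ y ∈ B, ∑ w ∈ E, ((1 : ℝ) / 100) ≤
      ∑ x ∈ X, ∑ y ∈ B, ∑ w ∈ E, (G x y + G y w + G x w) := by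
    refine Finset.sum_le_sum fun x hx => Finset.sum_le_sum fun y _ =>
      Finset.sum_le_sum fun w _ => ?_
    rw [hX, Finset.mem_filter] at hx
    by_contra hlt
    exact absurd (hG x y w (not_le.1 hlt)) (not_le.2 hx.2)
  have e3 : ∑ x ∈ X, ∑ y ∈ B, ∑ w ∈ E, (G x y + G y w + G x w) ≤
      ∑ x ∈ A, ∑ y ∈ B, ∑ w ∈ E, (G x y + G y w + G x w) :=
    Finset.sum_le_sum_of_subset_of_nonneg hsub fun x _ _ => Finset.sum_nonneg fun y _ =>
      Finset.sum_nonneg fun w _ => by
        have := hG0 x y; have := hG0 y w; have := hG0 x w; linarith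
  have e4 := e2.trans (e3.trans_eq e1)
  simp only [Finset.sum_const, nsmul_eq_mul] at e4
  have k1 : (E.card : ℝ) * (∑ x ∈ A, ∑ y ∈ B, G x y) ≤
      (E.card : ℝ) * (s * ((A.card : ℝ) * (B.card : ℝ))) := mul_le_mul_of_nonneg_left h1 hE.le
  have k2 : (A.card : ℝ) * (∑ y ∈ B, ∑ w ∈ E, G y w) ≤
      (A.card : ℝ) * (s * ((B.card : ℝ) * (E.card : ℝ))) :=
    mul_le_mul_of_nonneg_left h2 (Nat.cast_nonneg _)
  have k3 : (B.card : ℝ) * (∑ x ∈ A, ∑ w ∈ E, G x w) ≤
      (B.card : ℝ) * (s * ((A.card : ℝ) * (E.card : ℝ))) := mul_le_mul_of_nonneg_left h3 hB.le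
  have hbe : 0 < (B.card : ℝ) * (E.card : ℝ) := mul_pos hB hE
  have k4 : (X.card : ℝ) * ((B.card : ℝ) * (E.card : ℝ)) ≤
      (300 * s * (A.card : ℝ)) * ((B.card : ℝ) * (E.card : ℝ)) := by
    have e5 : (X.card : ℝ) * ((B.card : ℝ) * ((E.card : ℝ) * (1 / 100))) * 100 =
        (X.card : ℝ) * ((B.card : ℝ) * (E.card : ℝ)) := by ring
    linarith
  exact le_of_mul_le_mul_right k4 hbe

variable {g z : V → V → ℝ} {r : V → ℝ} {η : ℝ}

/-- the cost and the truncated `β` -/
noncomputable def triG (g z : V → V → ℝ) (r : V → ℝ) (x y : V) : ℝ :=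
  if cc g z r x y < 1 then min (alp r (x, y) - r x - r y) 1 else 0

theorem triG_nonneg (x y : V) : 0 ≤ triG g z r x y := by
  unfold triG
  split_ifs with h
  · have h1 := add_le_al (r x) (r y)
    have h2 : alp r (x, y) = al (r x) (r y) := rfl
    refine le_min ?_ zero_le_one
    rw [h2]
    linarith
  · exact le_refl 0

theorem triG_le_one (x y : V) : triG g z r x y ≤ 1 := by
  unfold triG
  split_ifs with h
  · exact min_le_right _ _
  · exact zero_le_one

theorem Dat.tri_good (D : Dat g z r η) (x y w : V)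
    (h : (cc g z r x y + triG g z r x y) + (cc g z r y w + triG g z r y w) +
      (cc g z r x w + triG g z r x w) < 1 / 100) : |r x| ≤ 12 / 100 := by
  have c1 := D.cc_nonneg x y
  have c2 := D.cc_nonneg y w
  have c3 := D.cc_nonneg x w
  have b1 := triG_nonneg (g := g) (z := z) (r := r) x y
  have b2 := triG_nonneg (g := g) (z := z) (r := r) y w
  have b3 := triG_nonneg (g := g) (z := z) (r := r) x w
  have l1 : cc g z r x y < 1 := by linarith
  have l2 : cc g z r y w < 1 := by linarith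
  have l3 : cc g z r x w < 1 := by linarith
  obtain ⟨a1, d1⟩ := D.of_cc_lt l1
  obtain ⟨a2, d2⟩ := D.of_cc_lt l2
  obtain ⟨a3, d3⟩ := D.of_cc_lt l3
  have ht := D.tri x y w a1 a2 a3
  have key : ∀ u v : V, cc g z r u v < 1 → triG g z r u v < 1 / 100 →
      alp r (u, v) - r u - r v = triG g z r u v := by
    intro u v hc hg
    unfold triG at hg ⊢
    rw [if_pos hc] at hg ⊢
    rcases min_choice (alp r (u, v) - r u - r v) 1 with h1 | h1
    · exact h1.symm
    · rw [h1] at hg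
      norm_num at hg
  have k1 := key x y l1 (by linarith)
  have k2 := key y w l2 (by linarith)
  have k3 := key x w l3 (by linarith)
  have e1 : alp r (x, y) = al (r x) (r y) := rfl
  have e2 : alp r (y, w) = al (r y) (r w) := rfl
  have e3 : alp r (x, w) = al (r x) (r w) := rfl
  have n1 := al_nonneg (r x) (r y)
  have n2 := al_nonneg (r y) (r w)
  have n3 := al_nonneg (r x) (r w)
  have m1 := abs_le1 (r x) (r y)
  rw [e1] at k1
  rw [e2] at k2
  rw [e3] at k3
  linarith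

/-- sums of the potential over small sets -/
theorem tri_tail (h : UIP r η) (S : Finset V) :
    ∑ x ∈ S, |r x| ≤ 60 * (S.card : ℝ) + 480000 * η * (Fintype.card V : ℝ) := by
  have h1 : ∑ x ∈ S, |r x| ≤ ∑ x ∈ S, (60 + (if 60 < |r x| then |r x| else 0)) := by
    refine Finset.sum_le_sum fun x _ => ?_
    split_ifs with hx
    · linarith
    · linarith [not_lt.1 hx]
  have h2 : ∑ x ∈ S, (if 60 < |r x| then |r x| else 0) ≤
      ∑ x, (if 60 < |r x| then |r x| else 0) :=
    Finset.sum_le_sum_of_subset_of_nonneg (Finset.subset_univ _) fun x _ _ => by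
      split_ifs
      · exact abs_nonneg _
      · exact le_refl _
  have h3 : ∑ x, (if 60 < |r x| then |r x| else 0) ≤ 480000 * η * (Fintype.card V : ℝ) := h
  rw [Finset.sum_add_distrib, Finset.sum_const, nsmul_eq_mul] at h1
  linarith

theorem tri_split (h : UIP r η) (S : Finset V) (b : ℝ) (hb : 0 ≤ b) :
    ∑ x ∈ S, |r x| ≤ b * (S.card : ℝ) + 60 * ((S.filter (fun x => b < |r x|)).card : ℝ) +
      480000 * η * (Fintype.card V : ℝ) := by
  have h1 := tri_tail h (S.filter (fun x => b < |r x|))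
  have h2 : ∑ x ∈ S, |r x| ≤ ∑ x ∈ S, (b + (if b < |r x| then |r x| else 0)) := by
    refine Finset.sum_le_sum fun x _ => ?_
    split_ifs with hx
    · linarith
    · linarith [not_lt.1 hx]
  rw [Finset.sum_add_distrib, Finset.sum_const, nsmul_eq_mul, ← Finset.sum_filter] at h2
  linarith

/-- the weight of a pair -/
theorem tri_wOf_le (D : Dat g z r η) {M : V → V → ℝ} (hM : ∀ x y, 0 ≤ M x y)
    (hs : ∀ x y, M x y = M y x) (x y : V) :
    wOf g z r M (x, y) ≤ M x y / (Fintype.card V : ℝ) := by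
  unfold wOf
  have hn := D.card0
  split_ifs with h
  · have : (M (x, y).1 (x, y).2 + M (x, y).2 (x, y).1) / (2 * (Fintype.card V : ℝ)) =
        M x y / (Fintype.card V : ℝ) := by
      simp only
      rw [hs y x]
      field_simp
      ring
    rw [this]
  · exact div_nonneg (hM x y) hn.le

theorem tri_le_wOf (D : Dat g z r η) {M : V → V → ℝ} (hM : ∀ x y, 0 ≤ M x y)
    (hs : ∀ x y, M x y = M y x) (x y : V) :
    (M x y - M x y * cc g z r x y) / (Fintype.card V : ℝ) ≤ wOf g z r M (x, y) := by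
  unfold wOf
  have hn := D.card0
  split_ifs with h
  · have : (M (x, y).1 (x, y).2 + M (x, y).2 (x, y).1) / (2 * (Fintype.card V : ℝ)) =
        M x y / (Fintype.card V : ℝ) := by
      simp only
      rw [hs y x]
      field_simp
      ring
    rw [this]
    refine div_le_div_of_nonneg_right ?_ hn.le
    have := mul_nonneg (hM x y) (D.cc_nonneg x y)
    linarith
  · have h1 : cc g z r x y = 1 := le_antisymm (cc_le_one x y) (not_lt.1 h)
    rw [h1, mul_one, sub_self, zero_div]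

/-- row sums of the weights -/
theorem tri_wrow (D : Dat g z r η) {M : V → V → ℝ} {ξ : ℝ} (N : NM g z r M ξ)
    (hs : ∀ x y, M x y = M y x) (B : Finset V) (u : V) :
    ∑ v ∈ B, wOf g z r M (u, v) ≤ 1 / (Fintype.card V : ℝ) := by
  have hn := D.card0
  calc ∑ v ∈ B, wOf g z r M (u, v) ≤ ∑ v ∈ B, M u v / (Fintype.card V : ℝ) :=
        Finset.sum_le_sum fun v _ => tri_wOf_le D N.nn hs u v
    _ ≤ ∑ v, M u v / (Fintype.card V : ℝ) :=
        Finset.sum_le_sum_of_subset_of_nonneg (Finset.subset_univ _) fun v _ _ =>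
          div_nonneg (N.nn u v) hn.le
    _ = (∑ v, M u v) / (Fintype.card V : ℝ) := (Finset.sum_div _ _ _).symm
    _ ≤ 1 / (Fintype.card V : ℝ) := div_le_div_of_nonneg_right (N.row u) hn.le

theorem tri_wsym {M : V → V → ℝ} (hs : ∀ x y, M x y = M y x) (D : Dat g z r η) (x y : V) :
    wOf g z r M (x, y) = wOf g z r M (y, x) := by
  unfold wOf
  simp only
  rw [D.cc_comm x y, hs x y]

/-- the nonadjacent part -/
theorem tri_nonadj (D : Dat g z r η) {M : V → V → ℝ} {ξ θ : ℝ} (N : NM g z r M ξ)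
    (hs : ∀ x y, M x y = M y x) (A B : Finset V) (x : V)
    (h : ∑ u ∈ A, (1 - g x u) ≤ 2 * θ * (Fintype.card V : ℝ)) :
    ∑ u ∈ A, ∑ v ∈ B, wOf g z r M (u, v) * (1 - g x u) ≤ 2 * θ := by
  have hn := D.card0
  have h1 : ∀ u, 0 ≤ 1 - g x u := by
    intro u
    rcases D.g01 x u with h | h <;> rw [h] <;> norm_num
  calc ∑ u ∈ A, ∑ v ∈ B, wOf g z r M (u, v) * (1 - g x u)
      = ∑ u ∈ A, (∑ v ∈ B, wOf g z r M (u, v)) * (1 - g x u) := by
        refine Finset.sum_congr rfl fun u _ => ?_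
        rw [Finset.sum_mul]
    _ ≤ ∑ u ∈ A, (1 / (Fintype.card V : ℝ)) * (1 - g x u) :=
        Finset.sum_le_sum fun u _ =>
          mul_le_mul_of_nonneg_right (tri_wrow D N hs B u) (h1 u)
    _ = (1 / (Fintype.card V : ℝ)) * ∑ u ∈ A, (1 - g x u) := (Finset.mul_sum _ _ _).symm
    _ ≤ (1 / (Fintype.card V : ℝ)) * (2 * θ * (Fintype.card V : ℝ)) :=
        mul_le_mul_of_nonneg_left h (by positivity)
    _ = 2 * θ := by
        field_simp

/-- few vertices of another cluster are not adjacent -/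
theorem tri_out {M : V → V → ℝ} {θ Θ : ℝ} {m : ℕ} {C : Fin m → Finset V} (D : Dat g z r η)
    (Cl : Clus g M θ Θ m C) {l a : Fin m} (hla : l ≠ a) {x : V} (hx : x ∈ C l) :
    ∑ u ∈ C a, (1 - g x u) ≤ 2 * θ * (Fintype.card V : ℝ) := by
  classical
  refine le_trans ?_ (Cl.out l x hx)
  have h1 : ∀ u, 0 ≤ 1 - g x u := by
    intro u
    rcases D.g01 x u with h | h <;> rw [h] <;> norm_num
  have h2 : ∑ u ∈ C l, (1 - g x u) + ∑ u ∈ C a, (1 - g x u) ≤ ∑ u, (1 - g x u) := by
    rw [← Finset.sum_union (Cl.disj l a hla)]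
    exact Finset.sum_le_sum_of_subset_of_nonneg (Finset.subset_univ _) fun u _ _ => h1 u
  linarith

/-- the final count -/
theorem Dat.tri_final (D : Dat g z r η) {M : V → V → ℝ} {ξ θ σ lam Θ : ℝ} {m : ℕ}
    {C : Fin m → Finset V} (N : NM g z r M ξ) (hs : ∀ x y, M x y = M y x)
    (K : Core g z r η (wOf g z r M) ξ) (Cl : Clus g M θ Θ m C)
    (a b t l : Fin m) (hla : l ≠ a) (hlb : l ≠ b) (hta : t ≠ a) (htb : t ≠ b)
    (hE : (Fintype.card V : ℝ) / 100 ≤ (((C l).filter (fun x => 1 ≤ |r x|)).card : ℝ))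
    (ht : ∀ x ∈ C l, 29 / 100 ≤ ∑ y ∈ C t, M x y)
    (hab : lam ≤ wij M C a b)
    (ha : (((C a).filter (fun x => 12 / 100 < |r x|)).card : ℝ) ≤ σ * (Fintype.card V : ℝ))
    (hb : (((C b).filter (fun x => 12 / 100 < |r x|)).card : ℝ) ≤ σ * (Fintype.card V : ℝ))
    (h0 : 0 ≤ θ) (hξ : ξ ≤ 9 / 10000) (hl : lam / 2 ≤ lam - ξ - 2 * σ) (hlam : 0 < lam) :
    26 / 100 * (2 / 1000 * (lam / 2) - 8 * θ) ≤ ξ := by
  classical
  have hn := D.card0
  set w := wOf g z r M with hw
  set E := (C l).filter (fun x => 1 ≤ |r x|) with hEd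
  set i : V → ℝ := fun u => if 12 / 100 < |r u| then 1 else 0 with hi
  have hi0 : ∀ u, 0 ≤ i u := by
    intro u
    rw [hi]
    simp only
    split_ifs <;> norm_num
  have hw0 : ∀ P, 0 ≤ w P := K.nn
  -- all terms are nonnegative
  have hterm : ∀ P Q, 0 ≤ w P * w Q * sl g z r P Q := by
    intro P Q
    rcases eq_or_ne (w P) 0 with h | h
    · rw [h, zero_mul, zero_mul]
    rcases eq_or_ne (w Q) 0 with h' | h'
    · rw [h', mul_zero, zero_mul]
    exact mul_nonneg (mul_nonneg (hw0 P) (hw0 Q)) (D.sl_nonneg (K.supp P h) (K.supp Q h'))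
  have s1 : ∑ P ∈ E ×ˢ C t, ∑ Q ∈ C a ×ˢ C b, w P * w Q * sl g z r P Q ≤ ξ := by
    refine le_trans ?_ K.B1
    refine le_trans (Finset.sum_le_sum fun P _ =>
      Finset.sum_le_sum_of_subset_of_nonneg (Finset.subset_univ (C a ×ˢ C b))
        fun Q _ _ => hterm P Q) ?_
    exact Finset.sum_le_sum_of_subset_of_nonneg (Finset.subset_univ _) fun P _ _ =>
      Finset.sum_nonneg fun Q _ => hterm P Q
  have s2 : ∀ P ∈ E ×ˢ C t, ∀ Q ∈ C a ×ˢ C b,
      26 / 100 * (w P * w Q * (1 - mm g P Q - i Q.1 - i Q.2)) ≤ w P * w Q * sl g z r P Q := by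
    intro P hP Q hQ
    rcases eq_or_ne (w P) 0 with h | h
    · rw [h, zero_mul, zero_mul, zero_mul, mul_zero]
    rcases eq_or_ne (w Q) 0 with h' | h'
    · rw [h', mul_zero, zero_mul, zero_mul, mul_zero]
    have hww : 0 ≤ w P * w Q := mul_nonneg (hw0 P) (hw0 Q)
    have gP := K.supp P h
    have gQ := K.supp Q h'
    have m0 := D.mm_nonneg P Q
    have i1 := hi0 Q.1
    have i2 := hi0 Q.2
    by_cases hc : 1 ≤ mm g P Q + i Q.1 + i Q.2
    · refine le_trans ?_ (hterm P Q)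
      have : w P * w Q * (1 - mm g P Q - i Q.1 - i Q.2) ≤ 0 :=
        mul_nonpos_of_nonneg_of_nonpos hww (by linarith)
      linarith
    · have hm1 : mm g P Q < 1 := by linarith
      have hr1 : |r Q.1| ≤ 12 / 100 := by
        by_contra hh
        have : i Q.1 = 1 := if_pos (not_le.1 hh)
        linarith
      have hr2 : |r Q.2| ≤ 12 / 100 := by
        by_contra hh
        have : i Q.2 = 1 := if_pos (not_le.1 hh)
        linarith
      have hPE : P.1 ∈ E := (Finset.mem_product.1 hP).1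
      have hP1 : 1 ≤ |r P.1| := (Finset.mem_filter.1 hPE).2
      have hl0 := D.l0 gP gQ hm1
      have ha1 : |r P.1| ≤ 2 * alp r P := abs_le1 _ _
      have ha2 : alp r Q ≤ |r Q.1| + |r Q.2| := al_le _ _
      have ha3 := le_abs_self (alp r P - alp r Q)
      have hsl : 26 / 100 ≤ sl g z r P Q := by linarith
      have h3 : w P * w Q * (1 - mm g P Q - i Q.1 - i Q.2) ≤ w P * w Q * 1 :=
        mul_le_mul_of_nonneg_left (by linarith) hww
      have h4 : w P * w Q * (26 / 100) ≤ w P * w Q * sl g z r P Q :=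
        mul_le_mul_of_nonneg_left hsl hww
      linarith
  have s3 : 26 / 100 * ∑ P ∈ E ×ˢ C t, ∑ Q ∈ C a ×ˢ C b,
      w P * w Q * (1 - mm g P Q - i Q.1 - i Q.2) ≤ ξ := by
    refine le_trans ?_ s1
    rw [Finset.mul_sum]
    refine Finset.sum_le_sum fun P hP => ?_
    rw [Finset.mul_sum]
    exact Finset.sum_le_sum fun Q hQ => s2 P hP Q hQ
  -- the inner sums
  set B1 := ∑ Q ∈ C a ×ˢ C b, w Q with hB1
  set I1 := ∑ Q ∈ C a ×ˢ C b, w Q * i Q.1 with hI1
  set I2 := ∑ Q ∈ C a ×ˢ C b, w Q * i Q.2 with hI2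
  have s4 : ∀ P ∈ E ×ˢ C t, ∑ Q ∈ C a ×ˢ C b, w Q * mm g P Q ≤ 8 * θ := by
    intro P hP
    have hP1 : P.1 ∈ C l := Finset.filter_subset _ _ (Finset.mem_product.1 hP).1
    have hP2 : P.2 ∈ C t := (Finset.mem_product.1 hP).2
    have q1 := tri_nonadj D N hs (C a) (C b) P.1 (tri_out D Cl hla hP1)
    have q2 := tri_nonadj D N hs (C b) (C a) P.1 (tri_out D Cl hlb hP1)
    have q3 := tri_nonadj D N hs (C a) (C b) P.2 (tri_out D Cl hta hP2)
    have q4 := tri_nonadj D N hs (C b) (C a) P.2 (tri_out D Cl htb hP2)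
    rw [Finset.sum_comm] at q2 q4
    have e : ∑ Q ∈ C a ×ˢ C b, w Q * mm g P Q =
        (∑ u ∈ C a, ∑ v ∈ C b, wOf g z r M (u, v) * (1 - g P.1 u)) +
        (∑ u ∈ C a, ∑ v ∈ C b, wOf g z r M (v, u) * (1 - g P.1 v)) +
        (∑ u ∈ C a, ∑ v ∈ C b, wOf g z r M (u, v) * (1 - g P.2 u)) +
        (∑ u ∈ C a, ∑ v ∈ C b, wOf g z r M (v, u) * (1 - g P.2 v)) := by
      rw [Finset.sum_product, ← Finset.sum_add_distrib, ← Finset.sum_add_distrib,
        ← Finset.sum_add_distrib]
      refine Finset.sum_congr rfl fun u _ => ?_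
      rw [← Finset.sum_add_distrib, ← Finset.sum_add_distrib, ← Finset.sum_add_distrib]
      refine Finset.sum_congr rfl fun v _ => ?_
      rw [tri_wsym hs D v u, hw]
      unfold mm
      ring
    rw [e]
    linarith
  have s5 : ∀ P ∈ E ×ˢ C t, w P * (B1 - I1 - I2) - w P * (8 * θ) ≤
      ∑ Q ∈ C a ×ˢ C b, w P * w Q * (1 - mm g P Q - i Q.1 - i Q.2) := by
    intro P hP
    have e : ∑ Q ∈ C a ×ˢ C b, w P * w Q * (1 - mm g P Q - i Q.1 - i Q.2) =
        w P * (B1 - (∑ Q ∈ C a ×ˢ C b, w Q * mm g P Q) - I1 - I2) := by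
      rw [hB1, hI1, hI2, ← Finset.sum_sub_distrib, ← Finset.sum_sub_distrib,
        ← Finset.sum_sub_distrib, Finset.mul_sum]
      refine Finset.sum_congr rfl fun Q _ => ?_
      ring
    rw [e]
    have h1 := mul_le_mul_of_nonneg_left (s4 P hP) (hw0 P)
    have h2 : w P * (B1 - (∑ Q ∈ C a ×ˢ C b, w Q * mm g P Q) - I1 - I2) =
        w P * (B1 - I1 - I2) - w P * ∑ Q ∈ C a ×ˢ C b, w Q * mm g P Q := by ring
    linarith
  set A1 := ∑ P ∈ E ×ˢ C t, w P with hA1
  have s6 : A1 * (B1 - I1 - I2) - A1 * (8 * θ) ≤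
      ∑ P ∈ E ×ˢ C t, ∑ Q ∈ C a ×ˢ C b, w P * w Q * (1 - mm g P Q - i Q.1 - i Q.2) := by
    refine le_trans (le_of_eq ?_) (Finset.sum_le_sum s5)
    rw [Finset.sum_sub_distrib, ← Finset.sum_mul, ← Finset.sum_mul]
  -- bounds
  have hcc : ∀ A B : Finset V, ∑ x ∈ A, ∑ y ∈ B, M x y * cc g z r x y ≤
      ξ * (Fintype.card V : ℝ) := by
    intro A B
    refine le_trans ?_ N.cost
    have h1 : ∀ x y, 0 ≤ M x y * cc g z r x y := fun x y =>
      mul_nonneg (N.nn x y) (D.cc_nonneg x y)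
    refine le_trans (Finset.sum_le_sum fun x _ =>
      Finset.sum_le_sum_of_subset_of_nonneg (Finset.subset_univ B) fun y _ _ => h1 x y) ?_
    exact Finset.sum_le_sum_of_subset_of_nonneg (Finset.subset_univ _) fun x _ _ =>
      Finset.sum_nonneg fun y _ => h1 x y
  have hlow : ∀ (A B : Finset V) (c : ℝ), c * (Fintype.card V : ℝ) ≤ ∑ x ∈ A, ∑ y ∈ B, M x y →
      c - ξ ≤ ∑ P ∈ A ×ˢ B, w P := by
    intro A B c hc
    rw [Finset.sum_product]
    have h1 : ∑ x ∈ A, ∑ y ∈ B, (M x y - M x y * cc g z r x y) / (Fintype.card V : ℝ) ≤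
        ∑ x ∈ A, ∑ y ∈ B, w (x, y) :=
      Finset.sum_le_sum fun x _ => Finset.sum_le_sum fun y _ => tri_le_wOf D N.nn hs x y
    refine le_trans ?_ h1
    have h2 : ∑ x ∈ A, ∑ y ∈ B, (M x y - M x y * cc g z r x y) / (Fintype.card V : ℝ) =
        ((∑ x ∈ A, ∑ y ∈ B, M x y) - ∑ x ∈ A, ∑ y ∈ B, M x y * cc g z r x y) /
          (Fintype.card V : ℝ) := by
      rw [← Finset.sum_sub_distrib, Finset.sum_div]
      refine Finset.sum_congr rfl fun x _ => ?_
      rw [← Finset.sum_sub_distrib, Finset.sum_div]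
    rw [h2, le_div_iff₀ hn]
    have := hcc A B
    linarith
  have hA1l : 2 / 1000 ≤ A1 := by
    have h1 : 29 / 10000 * (Fintype.card V : ℝ) ≤ ∑ x ∈ E, ∑ y ∈ C t, M x y := by
      have h2 : ∑ x ∈ E, ((29 : ℝ) / 100) ≤ ∑ x ∈ E, ∑ y ∈ C t, M x y :=
        Finset.sum_le_sum fun x hx => ht x (Finset.filter_subset _ _ hx)
      rw [Finset.sum_const, nsmul_eq_mul] at h2
      linarith
    have := hlow E (C t) _ h1
    linarith
  have hA1u : A1 ≤ 1 := le_trans (Finset.sum_le_sum_of_subset_of_nonneg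
    (Finset.subset_univ _) fun P _ _ => hw0 P) K.le1
  have hB1l : lam - ξ ≤ B1 := by
    refine hlow (C a) (C b) lam ?_
    have h1 := hab
    unfold wij at h1
    rwa [le_div_iff₀ hn] at h1
  have hI1u : I1 ≤ σ := by
    have h1 : I1 = ∑ u ∈ (C a).filter (fun x => 12 / 100 < |r x|), ∑ v ∈ C b, w (u, v) := by
      rw [hI1, Finset.sum_product, Finset.sum_filter]
      refine Finset.sum_congr rfl fun u _ => ?_
      rw [hi]
      simp only
      split_ifs with h
      · simp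
      · simp
    rw [h1]
    refine le_trans (Finset.sum_le_sum fun u _ => tri_wrow D N hs (C b) u) ?_
    rw [Finset.sum_const, nsmul_eq_mul, mul_one_div, div_le_iff₀ hn]
    exact ha
  have hI2u : I2 ≤ σ := by
    have h1 : I2 = ∑ u ∈ (C b).filter (fun x => 12 / 100 < |r x|), ∑ v ∈ C a, w (u, v) := by
      rw [hI2, Finset.sum_product, Finset.sum_comm, Finset.sum_filter]
      refine Finset.sum_congr rfl fun u _ => ?_
      rw [hi]
      simp only
      split_ifs with h
      · refine Finset.sum_congr rfl fun v _ => ?_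
        rw [mul_one]
        exact tri_wsym hs D v u
      · simp
    rw [h1]
    refine le_trans (Finset.sum_le_sum fun u _ => tri_wrow D N hs (C a) u) ?_
    rw [Finset.sum_const, nsmul_eq_mul, mul_one_div, div_le_iff₀ hn]
    exact hb
  have hBI : lam / 2 ≤ B1 - I1 - I2 := by linarith
  have s7 : 2 / 1000 * (lam / 2) ≤ A1 * (B1 - I1 - I2) :=
    mul_le_mul hA1l hBI (by linarith) (by linarith)
  have s8 : A1 * (8 * θ) ≤ 1 * (8 * θ) := mul_le_mul_of_nonneg_right hA1u (by linarith)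
  linarith

/-- few vertices with a large potential in a triangle of heavy blocks -/
theorem Dat.tri_pair (hL : StBlock) (hB : StBeta) (D : Dat g z r η) {M : V → V → ℝ}
    {ξ θ lam Θ : ℝ} {m : ℕ} {C : Fin m → Finset V} (N : NM g z r M ξ)
    (hs : ∀ x y, M x y = M y x) (K : Core g z r η (wOf g z r M) ξ) (Cl : Clus g M θ Θ m C)
    (hne : ∀ t, (C t).Nonempty) (hlam : 0 < lam) (hlam1 : lam ≤ 1 / 100) (hξ0 : 0 ≤ ξ)
    (hθ : θ ≤ 1 / 1000) (hΘ : Θ ≤ ξ) (hξ : 5 * ξ ≤ lam / 200) (a b : Fin m)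
    (hab : lam ≤ wij M C a b) :
    ∑ x ∈ C a, ∑ y ∈ C b, (cc g z r x y + triG g z r x y) ≤
      29 * ξ / lam ^ 2 * (((C a).card : ℝ) * ((C b).card : ℝ)) := by
  have hn := D.card0
  have h1 : ∀ x y, 0 ≤ M x y * cc g z r x y := fun x y =>
    mul_nonneg (N.nn x y) (D.cc_nonneg x y)
  have hcc : ∑ x ∈ C a, ∑ y ∈ C b, M x y * cc g z r x y ≤ ξ * (Fintype.card V : ℝ) := by
    refine le_trans ?_ N.cost
    refine le_trans (Finset.sum_le_sum fun x _ =>
      Finset.sum_le_sum_of_subset_of_nonneg (Finset.subset_univ (C b)) fun y _ _ => h1 x y) ?_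
    exact Finset.sum_le_sum_of_subset_of_nonneg (Finset.subset_univ _) fun x _ _ =>
      Finset.sum_nonneg fun y _ => h1 x y
  have hW : lam * (Fintype.card V : ℝ) ≤ ∑ x ∈ C a, ∑ y ∈ C b, M x y := by
    have h2 := hab
    unfold wij at h2
    rwa [le_div_iff₀ hn] at h2
  have k1 := tri_mean hL hn (hne a) (hne b) hs (Cl.near a) (Cl.near b)
    (fun x y => D.cc_nonneg x y) (fun x y => cc_le_one x y) hlam hW hcc
  have hbe := hB V g z r η M ξ ξ θ Θ lam m C D N hs hθ Cl hlam (by linarith) K.B1 a b hab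
  have hgg : ∑ x ∈ C a, ∑ y ∈ C b, M x y * triG g z r x y ≤
      20 * ξ / lam * (Fintype.card V : ℝ) := by
    have h3 : ∑ x ∈ C a, ∑ y ∈ C b, M x y * triG g z r x y ≤
        (∑ x ∈ C a, ∑ y ∈ C b, wOf g z r M (x, y) * (alp r (x, y) - r x - r y)) *
          (Fintype.card V : ℝ) := by
      rw [Finset.sum_mul]
      refine Finset.sum_le_sum fun x _ => ?_
      rw [Finset.sum_mul]
      refine Finset.sum_le_sum fun y _ => ?_
      unfold wOf triG
      split_ifs with h
      · have e : (M (x, y).1 (x, y).2 + M (x, y).2 (x, y).1) / (2 * (Fintype.card V : ℝ)) *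
            (alp r (x, y) - r x - r y) * (Fintype.card V : ℝ) =
            M x y * (alp r (x, y) - r x - r y) := by
          simp only
          rw [hs y x]
          field_simp
          ring
        rw [e]
        exact mul_le_mul_of_nonneg_left (min_le_left _ _) (N.nn x y)
      · simp
    refine le_trans h3 (mul_le_mul_of_nonneg_right ?_ hn.le)
    exact hbe
  have k2 := tri_mean hL hn (hne a) (hne b) hs (Cl.near a) (Cl.near b)
    (fun x y => triG_nonneg (g := g) (z := z) (r := r) x y)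
    (fun x y => triG_le_one (g := g) (z := z) (r := r) x y) hlam hW hgg
  have e : ∑ x ∈ C a, ∑ y ∈ C b, (cc g z r x y + triG g z r x y) =
      (∑ x ∈ C a, ∑ y ∈ C b, cc g z r x y) + ∑ x ∈ C a, ∑ y ∈ C b, triG g z r x y := by
    rw [← Finset.sum_add_distrib]
    exact Finset.sum_congr rfl fun x _ => Finset.sum_add_distrib
  rw [e]
  have hab0 : 0 ≤ ((C a).card : ℝ) * ((C b).card : ℝ) :=
    mul_nonneg (Nat.cast_nonneg _) (Nat.cast_nonneg _)
  have k3 : (ξ + 4 * Θ) / lam + (20 * ξ / lam + 4 * Θ) / lam ≤ 29 * ξ / lam ^ 2 := by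
    have h4 : 29 * ξ / lam ^ 2 = (29 * ξ / lam) / lam := by
      field_simp
    rw [h4, ← add_div]
    refine div_le_div_of_nonneg_right ?_ hlam.le
    have h5 : ξ * 1 ≤ ξ / lam := by
      rw [mul_one, le_div_iff₀ hlam]
      nlinarith
    have h6 : 29 * ξ / lam = 29 * (ξ / lam) := by ring
    have h7 : 20 * ξ / lam = 20 * (ξ / lam) := by ring
    rw [h6, h7]
    linarith
  calc _ ≤ (ξ + 4 * Θ) / lam * (((C a).card : ℝ) * ((C b).card : ℝ)) +
        (20 * ξ / lam + 4 * Θ) / lam * (((C a).card : ℝ) * ((C b).card : ℝ)) := add_le_add k1 k2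
    _ = ((ξ + 4 * Θ) / lam + (20 * ξ / lam + 4 * Θ) / lam) *
        (((C a).card : ℝ) * ((C b).card : ℝ)) := by ring
    _ ≤ _ := mul_le_mul_of_nonneg_right k3 hab0

theorem tri_wij_symm {M : V → V → ℝ} (hs : ∀ x y, M x y = M y x) {m : ℕ}
    (C : Fin m → Finset V) (a b : Fin m) : wij M C a b = wij M C b a := by
  unfold wij
  rw [Finset.sum_comm]
  simp only [hs]

end Tri

theorem st_tri (hL : StBlock) (hB : StBeta) : StTri := by
  intro lam hlam hlam1
  refine ⟨lam ^ 3 / 1000000, by positivity, ?_⟩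
  intro V _ g z r η M θ Θ m C D U hη N hs hM4 K h0 hθ hΘ Cl i j k hij hjk hik hw
  obtain ⟨w1, w2, w3⟩ := hw
  classical
  have hn := D.card0
  have hlam2 : lam ^ 2 ≤ 1 / 10000 := by nlinarith
  have hξl : lam ^ 3 / 1000000 ≤ lam / 10000000000 := by
    have : lam ^ 3 = lam * lam ^ 2 := by ring
    rw [this]
    nlinarith
  have hσ : 300 * (29 * (lam ^ 3 / 1000000) / lam ^ 2) = 87 / 10000 * lam := by
    field_simp
    ring
  have hξ0 : 0 ≤ lam ^ 3 / 1000000 := by positivity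
  generalize lam ^ 3 / 1000000 = ξ at *
  have hξ1 : ξ ≤ 1 / 1000000000000 := by linarith
  have hcard : ∀ t, 24 / 100 * (Fintype.card V : ℝ) ≤ ((C t).card : ℝ) := by
    intro t
    refine le_trans ?_ (Cl.big t)
    refine mul_le_mul_of_nonneg_right ?_ hn.le
    linarith
  have hpos : ∀ t, 0 < ((C t).card : ℝ) := fun t => lt_of_lt_of_le (by positivity) (hcard t)
  have hne : ∀ t, (C t).Nonempty := fun t => by
    rw [← Finset.card_pos]
    exact_mod_cast hpos t
  have hpair : ∀ a b, lam ≤ wij M C a b → ∑ x ∈ C a, ∑ y ∈ C b,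
      (cc g z r x y + triG g z r x y) ≤
      29 * ξ / lam ^ 2 * (((C a).card : ℝ) * ((C b).card : ℝ)) := fun a b hab =>
    D.tri_pair hL hB N hs K Cl hne hlam hlam1 hξ0 (by linarith) hΘ (by linarith) a b hab
  have w1' : lam ≤ wij M C j i := by rwa [tri_wij_symm hs]
  have w2' : lam ≤ wij M C k j := by rwa [tri_wij_symm hs]
  have w3' : lam ≤ wij M C k i := by rwa [tri_wij_symm hs]
  have hle : ∀ t, ((C t).card : ℝ) ≤ (Fintype.card V : ℝ) := fun t => by
    exact_mod_cast Finset.card_le_univ (C t)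
  have hbad : ∀ a b c, lam ≤ wij M C a b → lam ≤ wij M C b c → lam ≤ wij M C a c →
      (((C a).filter (fun x => 12 / 100 < |r x|)).card : ℝ) ≤
        (87 / 10000 * lam) * (Fintype.card V : ℝ) := by
    intro a b c h1 h2 h3
    have h4 := tri_bad (r := r) (A := C a) (B := C b) (E := C c) (hpos b) (hpos c)
      (fun x y => cc g z r x y + triG g z r x y)
      (fun x y => add_nonneg (D.cc_nonneg x y) (triG_nonneg x y))
      (fun x y w hh => D.tri_good x y w hh) (hpair a b h1) (hpair b c h2) (hpair a c h3)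
    rw [hσ] at h4
    exact h4.trans (mul_le_mul_of_nonneg_left (hle a) (by positivity))
  have bi := hbad i j k w1 w2 w3
  have bj := hbad j i k w1' w3 w2
  have bk := hbad k i j w3' w1 w2'
  have hσn : (87 / 10000 * lam) * (Fintype.card V : ℝ) ≤
      87 / 1000000 * (Fintype.card V : ℝ) := mul_le_mul_of_nonneg_right (by linarith) hn.le
  have hUn : 480000 * η * (Fintype.card V : ℝ) ≤ 1 / 1000000 * (Fintype.card V : ℝ) :=
    mul_le_mul_of_nonneg_right (by linarith) hn.le
  have hθn : θ * (Fintype.card V : ℝ) ≤ 1 / 1000000000000 * (Fintype.card V : ℝ) :=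
    mul_le_mul_of_nonneg_right (by linarith) hn.le
  have Si := tri_split U (C i) (12 / 100) (by norm_num)
  have Sj := tri_split U (C j) (12 / 100) (by norm_num)
  have Sk := tri_split U (C k) (12 / 100) (by norm_num)
  -- the union of the clusters
  have hdisj : ((Finset.univ : Finset (Fin m)) : Set (Fin m)).PairwiseDisjoint C := by
    intro a _ b _ hab
    exact Cl.disj a b hab
  set X0 := (Finset.univ : Finset (Fin m)).biUnion C with hX0
  have hX0c : (X0.card : ℝ) = ∑ t, ((C t).card : ℝ) := by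
    rw [hX0, Finset.card_biUnion fun a _ b _ hab => Cl.disj a b hab]
    push_cast
    rfl
  have hX0n : (X0.card : ℝ) ≤ (Fintype.card V : ℝ) := by
    exact_mod_cast Finset.card_le_univ X0
  have hXc : ((X0ᶜ).card : ℝ) ≤ θ * (Fintype.card V : ℝ) := by
    have h1 : (X0.card : ℝ) + ((X0ᶜ).card : ℝ) = (Fintype.card V : ℝ) := by
      exact_mod_cast Finset.card_add_card_compl X0
    have h2 := Cl.cover
    rw [← hX0c] at h2
    linarith
  have hdec : ∀ f : V → ℝ, ∑ x, f x = (∑ t, ∑ x ∈ C t, f x) + ∑ x ∈ X0ᶜ, f x := by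
    intro f
    rw [← Finset.sum_add_sum_compl X0 f, hX0, Finset.sum_biUnion hdisj]
  have hr := hdec (fun x => |r x|)
  rw [D.nrm] at hr
  have hrc := tri_tail U (X0ᶜ)
  by_cases hl : ∃ l, l ≠ i ∧ l ≠ j ∧ l ≠ k
  · obtain ⟨l, li, lj, lk⟩ := hl
    have hall : ∀ t : Fin m, t = i ∨ t = j ∨ t = k ∨ t = l := by
      intro t
      have hm := Cl.m4
      have e1 : (i : ℕ) ≠ j := fun h => hij (Fin.ext h)
      have e2 : (j : ℕ) ≠ k := fun h => hjk (Fin.ext h)
      have e3 : (i : ℕ) ≠ k := fun h => hik (Fin.ext h)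
      have e4 : (l : ℕ) ≠ i := fun h => li (Fin.ext h)
      have e5 : (l : ℕ) ≠ j := fun h => lj (Fin.ext h)
      have e6 : (l : ℕ) ≠ k := fun h => lk (Fin.ext h)
      have b1 := i.isLt
      have b2 := j.isLt
      have b3 := k.isLt
      have b4 := l.isLt
      have b5 := t.isLt
      have : (t : ℕ) = i ∨ (t : ℕ) = j ∨ (t : ℕ) = k ∨ (t : ℕ) = l := by omega
      rcases this with h | h | h | h
      · exact Or.inl (Fin.ext h)
      · exact Or.inr (Or.inl (Fin.ext h))
      · exact Or.inr (Or.inr (Or.inl (Fin.ext h)))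
      · exact Or.inr (Or.inr (Or.inr (Fin.ext h)))
    have hu : (Finset.univ : Finset (Fin m)) = {i, j, k, l} := by
      ext t
      simp only [Finset.mem_univ, Finset.mem_insert, Finset.mem_singleton, true_iff]
      exact hall t
    have hsum : ∀ F : Fin m → ℝ, ∑ t, F t = F i + F j + F k + F l := by
      intro F
      rw [hu, Finset.sum_insert (by
        simp only [Finset.mem_insert, Finset.mem_singleton, not_or]
        exact ⟨hij, hik, li.symm⟩), Finset.sum_insert (by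
        simp only [Finset.mem_insert, Finset.mem_singleton, not_or]
        exact ⟨hjk, lj.symm⟩), Finset.sum_insert (by
        simp only [Finset.mem_singleton]
        exact lk.symm), Finset.sum_singleton]
      ring
    rw [hsum] at hr hX0c
    have Bi := Cl.big i
    have Bj := Cl.big j
    have Bk := Cl.big k
    have hCl : ((C l).card : ℝ) ≤ 26 / 100 * (Fintype.card V : ℝ) := by linarith
    have Sl := tri_split U (C l) 1 (by norm_num)
    have hE4 : (((C l).filter (fun x => 1 < |r x|)).card : ℝ) ≤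
        (((C l).filter (fun x => 1 ≤ |r x|)).card : ℝ) := by
      exact_mod_cast Finset.card_le_card (Finset.monotone_filter_right _
        (fun x _ hx => le_of_lt hx))
    have hE : (Fintype.card V : ℝ) / 100 ≤
        (((C l).filter (fun x => 1 ≤ |r x|)).card : ℝ) := by linarith
    -- the block (l, l)
    have hcc1 : ∀ x y, 0 ≤ M x y * cc g z r x y := fun x y =>
      mul_nonneg (N.nn x y) (D.cc_nonneg x y)
    have hcc : ∑ x ∈ C l, ∑ y ∈ C l, M x y * cc g z r x y ≤ ξ * (Fintype.card V : ℝ) := by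
      refine le_trans ?_ N.cost
      refine le_trans (Finset.sum_le_sum fun x _ =>
        Finset.sum_le_sum_of_subset_of_nonneg (Finset.subset_univ (C l))
          fun y _ _ => hcc1 x y) ?_
      exact Finset.sum_le_sum_of_subset_of_nonneg (Finset.subset_univ _) fun x _ _ =>
        Finset.sum_nonneg fun y _ => hcc1 x y
    have hWll : ∑ x ∈ C l, ∑ y ∈ C l, M x y ≤ 21 * ξ * ((C l).card : ℝ) := by
      have h1 := (abs_le.1 (hL V M (C l) (C l) Θ (fun x y => cc g z r x y) hn (hne l) (hne l)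
        hs (Cl.near l) (Cl.near l) (fun x y => D.cc_nonneg x y) (fun x y => cc_le_one x y))).1
      have h2 : ((C l).card : ℝ) * (24 / 100 * (Fintype.card V : ℝ)) ≤
          ∑ x ∈ C l, ∑ y ∈ C l, cc g z r x y := by
        have h3 : ∑ x ∈ C l, (24 / 100 * (Fintype.card V : ℝ)) ≤
            ∑ x ∈ C l, ∑ y ∈ C l, cc g z r x y := by
          refine Finset.sum_le_sum fun x hx => ?_
          have h4 := Cl.nb l x hx
          have h5 : ∑ y ∈ C l, (1 - g x y) ≤ ∑ y ∈ C l, cc g z r x y :=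
            Finset.sum_le_sum fun y _ => D.one_sub_le_cc x y
          have h6 : 24 / 100 * (Fintype.card V : ℝ) ≤ (1 / 4 - 3 * θ) * (Fintype.card V : ℝ) :=
            mul_le_mul_of_nonneg_right (by linarith) hn.le
          linarith
        rwa [Finset.sum_const, nsmul_eq_mul] at h3
      have hW0 : 0 ≤ ∑ x ∈ C l, ∑ y ∈ C l, M x y :=
        Finset.sum_nonneg fun x _ => Finset.sum_nonneg fun y _ => N.nn x y
      have hcl := hpos l
      generalize ∑ x ∈ C l, ∑ y ∈ C l, cc g z r x y = F at *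
      generalize ∑ x ∈ C l, ∑ y ∈ C l, M x y = W at *
      generalize ∑ x ∈ C l, ∑ y ∈ C l, M x y * cc g z r x y = S at *
      generalize ((C l).card : ℝ) = c at *
      generalize (Fintype.card V : ℝ) = n at *
      have h7 : W / (c * c) * (c * (24 / 100 * n)) ≤ W / (c * c) * F :=
        mul_le_mul_of_nonneg_left h2 (div_nonneg hW0 (mul_pos hcl hcl).le)
      have h8 : W / (c * c) * (c * (24 / 100 * n)) = (W / c * (24 / 100)) * n := by
        field_simp
      have hΘn : Θ * n ≤ ξ * n := mul_le_mul_of_nonneg_right hΘ hn.le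
      have h9 : (W / c * (24 / 100)) * n ≤ (5 * ξ) * n := by
        rw [← h8]
        linarith
      have h10 := le_of_mul_le_mul_right h9 hn
      have h11 : W / c ≤ 21 * ξ := by linarith
      rwa [div_le_iff₀ hcl] at h11
    -- rows
    have hrows : (1 - 5 * θ) * ((C l).card : ℝ) ≤
        (∑ x ∈ C l, ∑ y ∈ C i, M x y) + (∑ x ∈ C l, ∑ y ∈ C j, M x y) +
        (∑ x ∈ C l, ∑ y ∈ C k, M x y) + ∑ x ∈ C l, ∑ y ∈ C l, M x y := by
      rw [← Finset.sum_add_distrib, ← Finset.sum_add_distrib, ← Finset.sum_add_distrib]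
      have h1 : ∑ x ∈ C l, (1 - 5 * θ) ≤ ∑ x ∈ C l, (∑ y ∈ C i, M x y + ∑ y ∈ C j, M x y +
          ∑ y ∈ C k, M x y + ∑ y ∈ C l, M x y) := by
        refine Finset.sum_le_sum fun x hx => ?_
        have h2 := Cl.row l x hx
        rw [hdec (fun y => M x y), hsum] at h2
        have h3 : ∑ y ∈ X0ᶜ, M x y ≤ 4 * θ := by
          have h4 : ∑ y ∈ X0ᶜ, M x y ≤ ∑ y ∈ X0ᶜ, 4 / (Fintype.card V : ℝ) :=
            Finset.sum_le_sum fun y _ => hM4 x y
          rw [Finset.sum_const, nsmul_eq_mul] at h4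
          refine h4.trans ?_
          have h5 : ((X0ᶜ).card : ℝ) * (4 / (Fintype.card V : ℝ)) ≤
              (θ * (Fintype.card V : ℝ)) * (4 / (Fintype.card V : ℝ)) :=
            mul_le_mul_of_nonneg_right hXc (by positivity)
          refine h5.trans (le_of_eq ?_)
          field_simp
        linarith
      rw [Finset.sum_const, nsmul_eq_mul] at h1
      linarith
    have hcl := hpos l
    have hθl : θ * ((C l).card : ℝ) ≤ 1 / 1000 * ((C l).card : ℝ) :=
      mul_le_mul_of_nonneg_right (by linarith) hcl.le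
    have hξc : ξ * ((C l).card : ℝ) ≤ 1 / 1000 * ((C l).card : ℝ) :=
      mul_le_mul_of_nonneg_right (by linarith) hcl.le
    have hbig : 9 / 10 * ((C l).card : ℝ) ≤
        (∑ x ∈ C l, ∑ y ∈ C i, M x y) + (∑ x ∈ C l, ∑ y ∈ C j, M x y) +
        (∑ x ∈ C l, ∑ y ∈ C k, M x y) := by linarith
    have hrow : ∀ t, 3 / 10 * ((C l).card : ℝ) ≤ ∑ x ∈ C l, ∑ y ∈ C t, M x y →
        ∀ x ∈ C l, 29 / 100 ≤ ∑ y ∈ C t, M x y := by
      intro t ht x hx
      have h1 : ∀ x' ∈ C l, ∑ y ∈ C t, M x' y ≤ ∑ y ∈ C t, M x y + 2 * Θ := by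
        intro x' hx'
        have h2 := Cl.near l x' hx' x hx
        have h3 : ∑ y ∈ C t, (M x' y - M x y) ≤ ∑ y, |M x' y - M x y| :=
          (Finset.sum_le_sum fun y _ => le_abs_self _).trans
            (Finset.sum_le_sum_of_subset_of_nonneg (Finset.subset_univ _)
              fun y _ _ => abs_nonneg _)
        rw [Finset.sum_sub_distrib] at h3
        linarith
      have h4 := Finset.sum_le_sum h1
      rw [Finset.sum_const, nsmul_eq_mul] at h4
      have h5 := ht.trans h4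
      rw [mul_comm] at h5
      have h6 := le_of_mul_le_mul_left h5 hcl
      linarith
    have hσl : lam / 2 ≤ lam - ξ - 2 * (87 / 10000 * lam) := by linarith
    have hfin : ∀ a b t, l ≠ a → l ≠ b → t ≠ a → t ≠ b → lam ≤ wij M C a b →
        (((C a).filter (fun x => 12 / 100 < |r x|)).card : ℝ) ≤
          (87 / 10000 * lam) * (Fintype.card V : ℝ) →
        (((C b).filter (fun x => 12 / 100 < |r x|)).card : ℝ) ≤
          (87 / 10000 * lam) * (Fintype.card V : ℝ) →
        3 / 10 * ((C l).card : ℝ) ≤ ∑ x ∈ C l, ∑ y ∈ C t, M x y → False := by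
      intro a b t h1 h2 h3 h4 hab ha hb ht
      have h5 := D.tri_final N hs K Cl a b t l h1 h2 h3 h4 hE (hrow t ht) hab ha hb h0
        (by linarith) hσl hlam
      linarith
    rcases le_or_gt (3 / 10 * ((C l).card : ℝ)) (∑ x ∈ C l, ∑ y ∈ C i, M x y) with h1 | h1
    · exact hfin j k i lj lk hij hik w2 bj bk h1
    rcases le_or_gt (3 / 10 * ((C l).card : ℝ)) (∑ x ∈ C l, ∑ y ∈ C j, M x y) with h2 | h2
    · exact hfin i k j li lk hij.symm hjk w3 bi bk h2
    · exact hfin i j k li lj hik.symm hjk.symm w1 bi bj (by linarith)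
  · push Not at hl
    have hall : ∀ t : Fin m, t = i ∨ t = j ∨ t = k := by
      intro t
      by_cases h1 : t = i
      · exact Or.inl h1
      by_cases h2 : t = j
      · exact Or.inr (Or.inl h2)
      exact Or.inr (Or.inr (hl t h1 h2))
    have hu : (Finset.univ : Finset (Fin m)) = {i, j, k} := by
      ext t
      simp only [Finset.mem_univ, Finset.mem_insert, Finset.mem_singleton, true_iff]
      exact hall t
    have hsum : ∀ F : Fin m → ℝ, ∑ t, F t = F i + F j + F k := by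
      intro F
      rw [hu, Finset.sum_insert (by
        simp only [Finset.mem_insert, Finset.mem_singleton, not_or]
        exact ⟨hij, hik⟩), Finset.sum_insert (by
        simp only [Finset.mem_singleton]
        exact hjk), Finset.sum_singleton]
      ring
    rw [hsum] at hr hX0c
    linarith

end ST
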