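import Pool.Agent.H56.ST.Stm
import Pool.Agent.H56.ST.Loc

/-!
# Stability of the fractional Nash-Williams theorem: uniform integrability of the potentials

Row ST-3 of project ST (MP_6a0350_co, note 5050).
-/

open Finset

namespace ST

variable {V : Type} [Fintype V] {g z : V → V → ℝ} {r : V → ℝ} {η : ℝ} {w : V × V → ℝ}

private theorem ui_ms (D : Dat g z r η) (x : V) (R : V × V) :
    ms g x R = 0 ∨ ms g x R = 1 ∨ ms g x R = 2 := by
  unfold ms
  rcases D.g01 x R.1 with h1 | h1 <;> rcases D.g01 x R.2 with h2 | h2 <;> rw [h1, h2] <;> norm_num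

private theorem ui_one (D : Dat g z r η) {P Q : V × V} (hP : g P.1 P.2 = 1)
    (hQ : g Q.1 Q.2 = 1) (hm : mm g P Q = 1) (h1 : ms g P.1 Q = 1) :
    |r P.1| ≤ 2 * alp r Q + sl g z r P Q := by
  unfold ms at h1
  rcases D.g01 P.1 Q.1 with h2 | h2
  · have h3 := D.l1 hP hQ hm h2
    have h4 := abs_le1 (r Q.1) (r Q.2)
    have h5 := abs_sub_abs_le_abs_sub (r P.1) (r Q.1)
    unfold alp
    linarith
  · have h2' : g P.1 Q.2 = 0 := by
      rcases D.g01 P.1 Q.2 with h3 | h3
      · exact h3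
      · rw [h2, h3] at h1
        norm_num at h1
    have hm' : mm g P Q.swap = 1 := by
      rw [← hm]
      unfold mm
      simp only [Prod.fst_swap, Prod.snd_swap]
      ring
    have hQ' : g Q.swap.1 Q.swap.2 = 1 := by
      simp only [Prod.fst_swap, Prod.snd_swap]
      rw [D.gs]
      exact hQ
    have h3 := D.l1 hP hQ' hm' h2'
    rw [D.sl_swap2, Prod.fst_swap] at h3
    have h4 := abs_le2 (r Q.1) (r Q.2)
    have h5 := abs_sub_abs_le_abs_sub (r P.1) (r Q.2)
    unfold alp
    linarith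

private theorem ui_point (D : Dat g z r η) {P Q : V × V} (hP : g P.1 P.2 = 1)
    (hQ : g Q.1 Q.2 = 1) (h1 : alp r P ≤ 2 * |r P.1|) :
    alp r P * ((ms g P.1 Q - 2 * mm g P Q + 2) / 4) ≤ alp r Q + sl g z r P Q := by
  have ha : 0 ≤ alp r P := al_nonneg _ _
  have hb : 0 ≤ alp r Q := al_nonneg _ _
  have hs := D.sl_nonneg hP hQ
  have hmm := mm_eq_ms (g := g) P Q
  rcases D.mm_cases P Q with h | h | h | h | h
  · have h2 := D.l0 hP hQ (by rw [h]; norm_num)
    have h3 := (abs_le.1 h2).2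
    have h4 : ms g P.1 Q = 0 := by
      rcases ui_ms D P.1 Q with h5 | h5 | h5 <;> rcases ui_ms D P.2 Q with h6 | h6 | h6 <;>
        rw [h5, h6, h] at hmm <;> first | exact h5 | (exfalso; norm_num at hmm)
    rw [h4, h]
    nlinarith
  · rcases ui_ms D P.1 Q with h5 | h5 | h5
    · rw [h5, h]
      nlinarith
    · have h6 := ui_one D hP hQ h h5
      rw [h5, h]
      nlinarith
    · exfalso
      rcases ui_ms D P.2 Q with h6 | h6 | h6 <;> rw [h5, h6, h] at hmm <;> norm_num at hmm
  · rcases ui_ms D P.1 Q with h5 | h5 | h5 <;> rw [h5, h] <;> nlinarith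
  · rcases ui_ms D P.1 Q with h5 | h5 | h5 <;> rw [h5, h] <;> nlinarith
  · rcases ui_ms D P.1 Q with h5 | h5 | h5 <;> rw [h5, h] <;> nlinarith

private theorem ui_reg (D : Dat g z r η) (W : Wt g w (fun _ => 1)) (hη : 8 * η ≤ 9 / 1000)
    (h1 : ∑ P, w P = 1) (h2 : ∀ x, ∑ R, w R * ms g x R ≤ 1 / 2 + 2 * η)
    (h3 : ∑ P, w P * alp r P ≤ 2) {P : V × V} (hP : g P.1 P.2 = 1)
    (hp : alp r P ≤ 2 * |r P.1|) (hD0 : 0 ≤ DD g η w P)
    (hF : ∑ Q, w Q * sl g z r P Q ≤ 1 / 10000 * alp r P) (hD : DD g η w P ≤ 1 / 10000) :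
    alp r P ≤ 30 := by
  have ha : 0 ≤ alp r P := al_nonneg _ _
  have hsum : ∑ Q, w Q * (alp r P * ((ms g P.1 Q - 2 * mm g P Q + 2) / 4)) ≤
      ∑ Q, w Q * (alp r Q + sl g z r P Q) := by
    refine Finset.sum_le_sum fun Q _ => ?_
    by_cases hQ : w Q = 0
    · rw [hQ, zero_mul, zero_mul]
    · exact mul_le_mul_of_nonneg_left (ui_point D hP (W.supp Q hQ) hp) (W.nn Q)
  have hl : ∑ Q, w Q * (alp r P * ((ms g P.1 Q - 2 * mm g P Q + 2) / 4)) =
      alp r P / 4 * (∑ Q, w Q * ms g P.1 Q - 2 * ∑ Q, w Q * mm g P Q + 2 * ∑ Q, w Q) := by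
    rw [Finset.mul_sum, Finset.mul_sum, ← Finset.sum_sub_distrib, ← Finset.sum_add_distrib,
      Finset.mul_sum]
    refine Finset.sum_congr rfl fun Q _ => ?_
    ring
  have hr : ∑ Q, w Q * (alp r Q + sl g z r P Q) =
      ∑ Q, w Q * alp r Q + ∑ Q, w Q * sl g z r P Q := by
    rw [← Finset.sum_add_distrib]
    exact Finset.sum_congr rfl fun Q _ => by ring
  have hmm : ∑ Q, w Q * mm g P Q = ∑ Q, w Q * ms g P.1 Q + ∑ Q, w Q * ms g P.2 Q := by
    rw [← Finset.sum_add_distrib]
    refine Finset.sum_congr rfl fun Q _ => ?_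
    rw [mm_eq_ms]
    ring
  have hDD : DD g η w P = 1 + 4 * η - ∑ Q, w Q * mm g P Q := rfl
  rw [hl, hr, h1] at hsum
  have h4 := h2 P.1
  have h5 := h2 P.2
  have hms : 1 / 2 + 2 * η - 1 / 10000 ≤ ∑ Q, w Q * ms g P.1 Q := by linarith
  have hmm2 : ∑ Q, w Q * mm g P Q ≤ 1 + 4 * η := by linarith
  have hlow : 1 / 2 - 6 * η - 1 / 10000 ≤
      ∑ Q, w Q * ms g P.1 Q - 2 * ∑ Q, w Q * mm g P Q + 2 * 1 := by linarith
  have h6 : alp r P / 4 * (1 / 2 - 6 * η - 1 / 10000) ≤ 2 + 1 / 10000 * alp r P := by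
    have h7 := mul_le_mul_of_nonneg_left hlow (by positivity : 0 ≤ alp r P / 4)
    linarith
  nlinarith

theorem st_ui (hA : StAvg) (hW : StWt) : StUI := by
  intro V _ g z r η w D W hee hη
  obtain ⟨h1, -, h2, h3, h4, -⟩ := hW V g z r η w (fun _ => 1) D W
  have hA1 := hA V g z r η w (fun _ => 1) D W
  have hn := D.card0
  have h1' : ∑ P, w P = 1 := by
    rw [h1, Finset.sum_const, Finset.card_univ, nsmul_eq_mul, mul_one, div_self hn.ne']
  have hee0 : ∑ P, w P * ee z r P = 0 := by
    refine Finset.sum_eq_zero fun P _ => ?_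
    by_cases hP : w P = 0
    · rw [hP, zero_mul]
    · rw [hee P hP, mul_zero]
  rw [hee0] at hA1
  simp only [sub_self, zero_mul, Finset.sum_const_zero, zero_div, add_zero, mul_zero] at hA1
  have hF0 : ∀ P, w P ≠ 0 → 0 ≤ ∑ Q, w Q * sl g z r P Q := by
    intro P hP
    refine Finset.sum_nonneg fun Q _ => ?_
    by_cases hQ : w Q = 0
    · rw [hQ, zero_mul]
    · exact mul_nonneg (W.nn Q) (D.sl_nonneg (W.supp P hP) (W.supp Q hQ))
  -- a pair with large `α` is not regular
  have hreg : ∀ P, w P ≠ 0 → 30 < alp r P →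
      alp r P ≤ 10000 * (∑ Q, w Q * sl g z r P Q + alp r P * DD g η w P) := by
    intro P hP ha
    have hF := hF0 P hP
    have hD := h3 P
    by_contra hc
    push Not at hc
    have ha0 : 0 < alp r P := by linarith
    have hc1 : ∑ Q, w Q * sl g z r P Q ≤ 1 / 10000 * alp r P := by
      have := mul_nonneg ha0.le hD
      linarith
    have hc2 : DD g η w P ≤ 1 / 10000 := by
      by_contra h5
      push Not at h5
      nlinarith
    have hmax := al_le_max (r P.1) (r P.2)
    rcases le_total |r P.2| |r P.1| with h6 | h6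
    · rw [max_eq_left h6] at hmax
      have := ui_reg D W hη h1' h2 h4 (W.supp P hP) hmax hD hc1 hc2
      linarith
    · rw [max_eq_right h6] at hmax
      have hsw : DD g η w P.swap = DD g η w P := by
        unfold DD
        congr 1
        refine Finset.sum_congr rfl fun Q _ => ?_
        unfold mm
        simp only [Prod.fst_swap, Prod.snd_swap]
        ring
      have hP' : g P.swap.1 P.swap.2 = 1 := by
        simp only [Prod.fst_swap, Prod.snd_swap]
        rw [D.gs]
        exact W.supp P hP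
      have hp' : alp r P.swap ≤ 2 * |r P.swap.1| := by
        rw [alp_swap, Prod.fst_swap]
        exact hmax
      have hF' : ∑ Q, w Q * sl g z r P.swap Q ≤ 1 / 10000 * alp r P.swap := by
        rw [alp_swap, Finset.sum_congr rfl fun Q _ => by rw [D.sl_swap1]]
        exact hc1
      have := ui_reg D W hη h1' h2 h4 hP' hp' (by rw [hsw]; exact hD) hF' (by rw [hsw]; exact hc2)
      rw [alp_swap] at this
      linarith
  -- the mass of large `α`
  have hmass : ∑ P, (if 30 < alp r P then w P * alp r P else 0) ≤ 200000 * η := by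
    have h5 : ∑ P, (if 30 < alp r P then w P * alp r P else 0) ≤
        ∑ P, 10000 * (w P * (∑ Q, w Q * sl g z r P Q) + w P * alp r P * DD g η w P) := by
      refine Finset.sum_le_sum fun P _ => ?_
      by_cases hP : w P = 0
      · rw [hP]
        simp
      · have hF := hF0 P hP
        have hD := h3 P
        have ha : 0 ≤ alp r P := al_nonneg _ _
        have hw := W.nn P
        split_ifs with h6
        · have h7 := mul_le_mul_of_nonneg_left (hreg P hP h6) hw
          calc _ ≤ _ := h7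
            _ = _ := by ring
        · positivity
    refine h5.trans ?_
    rw [← Finset.mul_sum, Finset.sum_add_distrib]
    have h6 : ∑ P, w P * (∑ Q, w Q * sl g z r P Q) = ∑ P, ∑ Q, w P * w Q * sl g z r P Q := by
      refine Finset.sum_congr rfl fun P _ => ?_
      rw [Finset.mul_sum]
      exact Finset.sum_congr rfl fun Q _ => by ring
    rw [h6]
    have h7 : 0 ≤ ∑ P, w P * alp r P * DD g η w P := by
      refine Finset.sum_nonneg fun P _ => ?_
      exact mul_nonneg (mul_nonneg (W.nn P) (al_nonneg _ _)) (h3 P)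
    linarith
  unfold UIP
  have hx : ∀ x, (if 60 < |r x| then |r x| else 0) =
      (Fintype.card V : ℝ) * ∑ y, w (x, y) * (if 60 < |r x| then |r x| else 0) := by
    intro x
    rw [← Finset.sum_mul, W.mar x]
    field_simp
  rw [Finset.sum_congr rfl fun x _ => hx x, ← Finset.mul_sum, ← Fintype.sum_prod_type'
    (f := fun x y => w (x, y) * (if 60 < |r x| then |r x| else 0))]
  have hle : ∑ P : V × V, w (P.1, P.2) * (if 60 < |r P.1| then |r P.1| else 0) ≤
      ∑ P, 2 * (if 30 < alp r P then w P * alp r P else 0) := by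
    refine Finset.sum_le_sum fun P _ => ?_
    have hw := W.nn P
    have h5 : |r P.1| ≤ 2 * alp r P := abs_le1 (r P.1) (r P.2)
    have ha : 0 ≤ alp r P := al_nonneg _ _
    by_cases h6 : 60 < |r P.1|
    · rw [if_pos h6, if_pos (by linarith : 30 < alp r P)]
      have := mul_le_mul_of_nonneg_left h5 hw
      calc _ ≤ _ := this
        _ = _ := by ring
    · rw [if_neg h6, mul_zero]
      split_ifs
      · positivity
      · norm_num
  rw [← Finset.mul_sum] at hle
  have h8 := D.eta0
  have h9 : (Fintype.card V : ℝ) * ∑ P : V × V, w (P.1, P.2) * (if 60 < |r P.1| then |r P.1| else 0)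
      ≤ (Fintype.card V : ℝ) * (2 * (200000 * η)) :=
    mul_le_mul_of_nonneg_left (by linarith) hn.le
  refine h9.trans ?_
  nlinarith [mul_nonneg hn.le h8]

end ST
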