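import Pool.Agent.H56.ST.Stm

/-!
# Project ST (MP_6a0350_co), row ST-2: elementary facts on weights
-/

set_option autoImplicit false

open Finset

namespace ST

namespace WtF

theorem al_nonneg (p q : ℝ) : 0 ≤ al p q := by
  unfold al
  have h1 := le_max_left (p + q) (max (-p) (-q))
  have h2 := le_max_right (p + q) (max (-p) (-q))
  have h3 := le_max_left (-p) (-q)
  have h4 := le_max_right (-p) (-q)
  linarith

theorem abs_le_al (p q : ℝ) : |p| ≤ 2 * al p q := by
  unfold al
  have h1 := le_max_left (p + q) (max (-p) (-q))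
  have h2 := le_max_right (p + q) (max (-p) (-q))
  have h3 := le_max_left (-p) (-q)
  have h4 := le_max_right (-p) (-q)
  rw [abs_le]
  constructor
  · linarith
  · linarith

theorem al_le_abs (p q : ℝ) : al p q ≤ |p| + |q| := by
  unfold al
  have h1 := le_abs_self p
  have h2 := le_abs_self q
  have h3 := neg_abs_le p
  have h4 := neg_abs_le q
  have h5 := abs_nonneg p
  have h6 := abs_nonneg q
  refine max_le (by linarith) (max_le (by linarith) (by linarith))

variable {V : Type} [Fintype V] {g : V → V → ℝ} {w : V × V → ℝ} {u : V → ℝ}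

/-- the first marginal -/
theorem mar1 (hw : Wt g w u) (f : V → ℝ) :
    ∑ P : V × V, w P * f P.1 = (∑ x, u x * f x) / (Fintype.card V : ℝ) := by
  rw [Fintype.sum_prod_type, Finset.sum_div]
  refine Finset.sum_congr rfl fun x _ => ?_
  show ∑ y, w (x, y) * f x = _
  rw [← Finset.sum_mul, hw.mar]
  ring

/-- the second marginal -/
theorem mar2 (hw : Wt g w u) (f : V → ℝ) :
    ∑ P : V × V, w P * f P.2 = (∑ x, u x * f x) / (Fintype.card V : ℝ) := by
  rw [Fintype.sum_prod_type_right, Finset.sum_div]
  refine Finset.sum_congr rfl fun x _ => ?_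
  show ∑ y, w (y, x) * f x = _
  rw [← Finset.sum_mul, Finset.sum_congr rfl fun y _ => hw.sym y x, hw.mar]
  ring

end WtF

open WtF in
theorem st_wt : StWt := by
  intro V _ g z r η w u hD hw
  have hn := hD.card0
  have hg : ∀ x y, 0 ≤ 1 - g x y := by
    intro x y
    rcases hD.g01 x y with h | h <;> rw [h] <;> norm_num
  have e2 : ∀ x, ∑ R, w R * ms g x R =
      (2 / (Fintype.card V : ℝ)) * ∑ c, u c * (1 - g x c) := by
    intro x
    have h1 := mar1 hw (fun c => 1 - g x c)
    have h2 := mar2 hw (fun c => 1 - g x c)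
    have h3 : ∑ R, w R * ms g x R =
        ∑ R : V × V, w R * (1 - g x R.1) + ∑ R : V × V, w R * (1 - g x R.2) := by
      rw [← Finset.sum_add_distrib]
      refine Finset.sum_congr rfl fun R _ => ?_
      unfold ms
      ring
    rw [h3, h1, h2]
    ring
  have e3 : ∀ x, ∑ R, w R * ms g x R ≤ 1 / 2 + 2 * η := by
    intro x
    rw [e2]
    have h1 : ∑ c, u c * (1 - g x c) ≤ (1 / 4 + η) * (Fintype.card V : ℝ) := by
      refine le_trans (Finset.sum_le_sum fun c _ => ?_) (hD.deg x)
      calc u c * (1 - g x c) ≤ 1 * (1 - g x c) :=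
            mul_le_mul_of_nonneg_right (hw.u1 c) (hg x c)
        _ = _ := one_mul _
    calc (2 / (Fintype.card V : ℝ)) * ∑ c, u c * (1 - g x c)
        ≤ (2 / (Fintype.card V : ℝ)) * ((1 / 4 + η) * (Fintype.card V : ℝ)) :=
          mul_le_mul_of_nonneg_left h1 (by positivity)
      _ = 1 / 2 + 2 * η := by
          field_simp
          ring
  refine ⟨?_, e2, e3, ?_, ?_, ?_⟩
  · have h1 := mar1 hw (fun _ => 1)
    simpa using h1
  · intro P
    unfold DD
    have h1 : ∑ Q, w Q * mm g P Q =
        ∑ Q, w Q * ms g P.1 Q + ∑ Q, w Q * ms g P.2 Q := by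
      rw [← Finset.sum_add_distrib]
      refine Finset.sum_congr rfl fun Q _ => ?_
      unfold mm ms
      ring
    rw [h1]
    have h2 := e3 P.1
    have h3 := e3 P.2
    linarith
  · have h1 : ∑ P, w P * alp r P ≤
        ∑ P : V × V, w P * |r P.1| + ∑ P : V × V, w P * |r P.2| := by
      rw [← Finset.sum_add_distrib]
      refine Finset.sum_le_sum fun P _ => ?_
      rw [← mul_add]
      exact mul_le_mul_of_nonneg_left (al_le_abs _ _) (hw.nn P)
    rw [mar1 hw (fun x => |r x|), mar2 hw (fun x => |r x|)] at h1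
    have h2 : (∑ x, u x * |r x|) / (Fintype.card V : ℝ) ≤ 1 := by
      rw [div_le_one hn, ← hD.nrm]
      refine Finset.sum_le_sum fun x _ => ?_
      calc u x * |r x| ≤ 1 * |r x| := mul_le_mul_of_nonneg_right (hw.u1 x) (abs_nonneg _)
        _ = _ := one_mul _
    linarith
  · rw [← mar1 hw (fun x => |r x|), Finset.mul_sum]
    refine Finset.sum_le_sum fun P _ => ?_
    calc w P * |r P.1| ≤ w P * (2 * alp r P) :=
          mul_le_mul_of_nonneg_left (abs_le_al _ _) (hw.nn P)
      _ = 2 * (w P * alp r P) := by ring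

end ST
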