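import Pool.Agent.H56.ST.MainOf
import Pool.Agent.H56.ST.Avg
import Pool.Agent.H56.ST.WtF
import Pool.Agent.H56.ST.UI
import Pool.Agent.H56.ST.CoreNM
import Pool.Agent.H56.ST.Tee
import Pool.Agent.H56.ST.Em
import Pool.Agent.H56.ST.Oh
import Pool.Agent.H56.ST.BadF
import Pool.Agent.H56.ST.Swap
import Pool.Agent.H56.ST.Star
import Pool.Agent.H56.ST.Clus
import Pool.Agent.H56.ST.Block
import Pool.Agent.H56.ST.Loop
import Pool.Agent.H56.ST.Beta
import Pool.Agent.H56.ST.Tri
import Pool.Agent.H56.ST.Part
import Pool.Agent.H56.ST.Dual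

/-!
# Stability of the fractional Nash-Williams theorem: the theorem
-/

namespace ST

theorem st_bad' : StBad := st_bad st_t3 (st_m3 st_t3) st_o

theorem st_corenm' : StCoreNM := st_corenm st_avg st_wt

theorem st_star' : StStar := st_star (st_swap st_wt st_corenm' st_bad')

theorem st_main : StMain :=
  st_main_of (st_ui st_avg st_wt) st_corenm' st_star' st_clus (st_loop st_block)
    (st_tri st_block (st_beta st_block)) st_part st_dual

end ST
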