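import Pool.Agent.H56.ST.Stm
import Pool.Agent.H56.ST.Loc

/-!
# Stability of the fractional Nash-Williams theorem: assembly
-/

open Finset

namespace ST

variable {V : Type} [Fintype V] {g z : V → V → ℝ} {r : V → ℝ} {η : ℝ}

theorem NM.mono {M : V → V → ℝ} {δ ε : ℝ} (h : NM g z r M δ) (hn : 0 ≤ (Fintype.card V : ℝ))
    (hδ : δ ≤ ε) : NM g z r M ε where
  nn := h.nn
  row := h.row
  col := h.col
  mass := le_trans (mul_le_mul_of_nonneg_right (by linarith) hn) h.mass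
  cost := le_trans h.cost (mul_le_mul_of_nonneg_right hδ hn)

theorem st_main_of (hUI : StUI) (hC : StCoreNM) (hS : StStar) (hK : StClus) (hL : StLoop)
    (hT : StTri) (hP : StPart) (hD : StDual) : StMain := by
  intro ρ hρ
  obtain ⟨lam, hlam⟩ : ∃ lam : ℝ, lam = min (ρ / 100) (1 / 100) := ⟨_, rfl⟩
  have lam0 : 0 < lam := by rw [hlam]; exact lt_min (by linarith) (by norm_num)
  have lam1 : lam ≤ ρ / 100 := by rw [hlam]; exact min_le_left _ _
  have lam2 : lam ≤ 1 / 100 := by rw [hlam]; exact min_le_right _ _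
  obtain ⟨ξ, ξ0, HT⟩ := hT lam lam0 lam2
  obtain ⟨θ, hθ⟩ : ∃ θ : ℝ, θ = min (min (1 / 100) (ξ / 100000)) (min (lam / 10000000) (ρ / 100)) :=
    ⟨_, rfl⟩
  have θ0 : 0 < θ := by
    rw [hθ]
    exact lt_min (lt_min (by norm_num) (by linarith)) (lt_min (by linarith) (by linarith))
  have θ1 : θ ≤ 1 / 100 := by rw [hθ]; exact le_trans (min_le_left _ _) (min_le_left _ _)
  have θ2 : θ ≤ ξ / 100000 := by rw [hθ]; exact le_trans (min_le_left _ _) (min_le_right _ _)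
  have θ3 : θ ≤ lam / 10000000 := by rw [hθ]; exact le_trans (min_le_right _ _) (min_le_left _ _)
  have θ4 : θ ≤ ρ / 100 := by rw [hθ]; exact le_trans (min_le_right _ _) (min_le_right _ _)
  obtain ⟨ε1, ε10, HK⟩ := hK θ θ0 θ1
  obtain ⟨δ1, δ10, HC⟩ := hC ξ ξ0
  obtain ⟨ε, hε⟩ : ∃ ε : ℝ, ε = min (min ε1 ξ) (min (lam / 100) δ1) := ⟨_, rfl⟩
  have ε0 : 0 < ε := by
    rw [hε]
    exact lt_min (lt_min ε10 ξ0) (lt_min (by linarith) δ10)
  have εa : ε ≤ ε1 := by rw [hε]; exact le_trans (min_le_left _ _) (min_le_left _ _)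
  have εb : ε ≤ ξ := by rw [hε]; exact le_trans (min_le_left _ _) (min_le_right _ _)
  have εc : ε ≤ lam / 100 := by rw [hε]; exact le_trans (min_le_right _ _) (min_le_left _ _)
  have εd : ε ≤ δ1 := by rw [hε]; exact le_trans (min_le_right _ _) (min_le_right _ _)
  obtain ⟨δ2, δ20, HS⟩ := hS ε ε0
  obtain ⟨η, hη⟩ : ∃ η : ℝ, η = min (min δ2 (9 / 8000)) ε := ⟨_, rfl⟩
  have η0 : 0 < η := by
    rw [hη]
    exact lt_min (lt_min δ20 (by norm_num)) ε0
  have η1 : η ≤ δ2 := by rw [hη]; exact le_trans (min_le_left _ _) (min_le_left _ _)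
  have η2 : η ≤ 9 / 8000 := by rw [hη]; exact le_trans (min_le_left _ _) (min_le_right _ _)
  have η3 : η ≤ ε := by rw [hη]; exact min_le_right _ _
  refine ⟨η, η0, ?_⟩
  intro n G _ hdeg hno
  obtain ⟨z, r, p, D, Np, ps, Wp, ep⟩ := hD n G η η0.le (by linarith) hdeg hno
  have U : UIP r η := hUI _ _ _ _ _ _ D Wp ep (by linarith)
  obtain ⟨M, NMM, Ms, M4, Men, Mdeg⟩ := HS _ _ _ _ _ _ D U η1 Np ps
  have hcard : (Fintype.card (Fin n) : ℝ) = (n : ℝ) := by rw [Fintype.card_fin]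
  have n0 : (0 : ℝ) < (Fintype.card (Fin n) : ℝ) := D.card0
  have NMδ : NM (fun x y => if G.Adj x y then (1 : ℝ) else 0) z r M δ1 := NMM.mono n0.le εd
  have NMξ : NM (fun x y => if G.Adj x y then (1 : ℝ) else 0) z r M ξ := NMM.mono n0.le εb
  have CM := HC _ _ _ _ _ _ D U (η3.trans εd) NMδ
  obtain ⟨m, C, K⟩ := HK _ _ η M n0 η0.le (η3.trans εa) D.g01 D.gs D.deg NMM.nn NMM.row
    (NMM.mono n0.le εa).mass
    (le_trans Men (mul_le_mul_of_nonneg_right εa (by positivity)))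
    (le_trans Mdeg (mul_le_mul_of_nonneg_right εa n0.le))
  have hloop : ∀ i, wij M C i i < lam := by
    intro i
    have h := hL _ _ _ _ _ _ _ _ _ _ _ D NMM Ms θ1 K i
    linarith
  have htri : ∀ i j k, i ≠ j → j ≠ k → i ≠ k →
      ¬ (lam ≤ wij M C i j ∧ lam ≤ wij M C j k ∧ lam ≤ wij M C i k) :=
    HT _ _ _ _ _ _ _ _ _ _ D U (η3.trans εb) NMξ Ms M4 CM θ0.le (by linarith) (by linarith) K
  obtain ⟨A, hA1, hA2⟩ := hP _ _ M θ (100000 * θ) lam m C n0 D.g01 D.gs NMM.nn NMM.row Ms M4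
    θ0.le θ1 lam0 K hloop htri
  rw [hcard] at hA1 hA2
  have nn0 : (0 : ℝ) ≤ (n : ℝ) := Nat.cast_nonneg n
  refine ⟨A, ?_, ?_⟩
  · refine le_trans hA1 (mul_le_mul_of_nonneg_right ?_ nn0)
    linarith
  · have e1 : (((A ×ˢ Aᶜ).filter (fun e : Fin n × Fin n => ¬ G.Adj e.1 e.2)).card : ℝ)
        = ∑ x ∈ A, (∑ y, (1 - (if G.Adj x y then (1 : ℝ) else 0))
          - ∑ y ∈ A, (1 - (if G.Adj x y then (1 : ℝ) else 0))) := by
      rw [Finset.card_filter]
      push_cast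
      rw [Finset.sum_product]
      refine Finset.sum_congr rfl fun x _ => ?_
      have e2 : ∑ y, (1 - (if G.Adj x y then (1 : ℝ) else 0))
          - ∑ y ∈ A, (1 - (if G.Adj x y then (1 : ℝ) else 0))
          = ∑ y ∈ Aᶜ, (1 - (if G.Adj x y then (1 : ℝ) else 0)) := by
        rw [← Finset.sum_add_sum_compl A]; ring
      rw [e2]
      refine Finset.sum_congr rfl fun y _ => ?_
      by_cases h : G.Adj x y <;> simp [h]
    rw [e1]
    refine le_trans hA2 (mul_le_mul_of_nonneg_right ?_ (by positivity))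
    linarith

end ST
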