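import Pool.Agent.H56.ST.Stm

/-!
# Robust stability of the fractional Nash-Williams theorem: statements
-/

open Finset

namespace ST

variable {V : Type} [Fintype V]

open Classical in
/-- number of non-adjacent pairs between `A` and its complement -/
noncomputable def crs (g : V → V → ℝ) (A : Finset V) : ℝ := ∑ x ∈ A, ∑ y ∈ Aᶜ, (1 - g x y)

open Classical in
/-- near-extremal: half of the vertices, few non-adjacent pairs across, and almost all vertices
have at least `(1/4 - ρ) n` non-neighbours -/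
def Ext (ρ : ℝ) (g : V → V → ℝ) : Prop :=
  ∃ A : Finset V, |(A.card : ℝ) - (Fintype.card V : ℝ) / 2| ≤ ρ * (Fintype.card V : ℝ) ∧
    crs g A ≤ ρ * (Fintype.card V : ℝ) ^ 2 ∧
    ((univ.filter (fun x => ∑ y, (1 - g x y) < (1 / 4 - ρ) * (Fintype.card V : ℝ))).card : ℝ)
      ≤ ρ * (Fintype.card V : ℝ)

/-- a fractional triangle decomposition with load `f` on the edges; `D x y c` is the weight of the
triangle `x y c`, a symmetric function -/
def HasDec (g f : V → V → ℝ) : Prop :=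
  ∃ D : V → V → V → ℝ, (∀ x y c, 0 ≤ D x y c) ∧ (∀ x y c, D x y c = D y x c) ∧
    (∀ x y c, D x y c = D x c y) ∧
    (∀ x y c, D x y c ≠ 0 → g x y = 1 ∧ g y c = 1 ∧ g x c = 1) ∧
    ∀ x y, ∑ c, D x y c = g x y * f x y

/-- row DR: the dual data of a graph without fractional triangle decomposition with load `f` -/
def StDualR : Prop := ∀ (V : Type) [Fintype V] (g f : V → V → ℝ) (η : ℝ),
    0 < (Fintype.card V : ℝ) → 0 ≤ η → η ≤ 1 / 8 → (∀ x y, g x y = 0 ∨ g x y = 1) →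
    (∀ x y, g x y = g y x) → (∀ x y, f x y = f y x) → (∀ x y, |f x y - 1| ≤ η / 8) →
    (∀ x, ∑ y, (1 - g x y) ≤ (1 / 4 + η) * (Fintype.card V : ℝ)) → ¬ HasDec g f →
    ∃ (z : V → V → ℝ) (r : V → ℝ) (p : V → V → ℝ),
      Dat g z r η ∧ NM g z r p 0 ∧ (∀ x y, p x y = p y x) ∧
      Wt g (fun P => p P.1 P.2 / (Fintype.card V : ℝ)) (fun _ => 1) ∧
      ∀ P : V × V, p P.1 P.2 / (Fintype.card V : ℝ) ≠ 0 → ee z r P = 0

/-- **Robust stability of the fractional Nash-Williams theorem.** -/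
def StRob : Prop := ∀ ρ : ℝ, 0 < ρ → ∃ η : ℝ, 0 < η ∧
  ∀ (V : Type) [Fintype V] (g f : V → V → ℝ), 0 < (Fintype.card V : ℝ) →
    (∀ x y, g x y = 0 ∨ g x y = 1) → (∀ x y, g x y = g y x) → (∀ x y, f x y = f y x) →
    (∀ x y, |f x y - 1| ≤ η) →
    (∀ x, ∑ y, (1 - g x y) ≤ (1 / 4 + η) * (Fintype.card V : ℝ)) →
    HasDec g f ∨ Ext ρ g

end ST
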