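import Pool.Agent.H56.ST.Defs

/-!
# Stability of the fractional Nash-Williams theorem: statements of the rows
-/

open Finset

namespace ST

/-- row A (averages), for weights `w` with row sums `u` -/
def StAvg : Prop := ∀ (V : Type) [Fintype V] (g z : V → V → ℝ) (r : V → ℝ) (η : ℝ)
    (w : V × V → ℝ) (u : V → ℝ), Dat g z r η → Wt g w u →
  (∑ P, ∑ Q, w P * w Q * sl g z r P Q) + 2 * ∑ P, w P * alp r P * DD g η w P ≤
    8 * ((∑ x, (1 - u x) * |r x|) / (Fintype.card V : ℝ)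
      + (∑ x, (1 - u x)) / (Fintype.card V : ℝ))
    + 4 * (4 * η + (∑ x, (1 - u x)) / (Fintype.card V : ℝ)) + 4 * ∑ P, w P * ee z r P
    + 4 * η

/-- row A2: elementary facts on weights -/
def StWt : Prop := ∀ (V : Type) [Fintype V] (g z : V → V → ℝ) (r : V → ℝ) (η : ℝ)
    (w : V × V → ℝ) (u : V → ℝ), Dat g z r η → Wt g w u →
  (∑ P, w P = (∑ x, u x) / (Fintype.card V : ℝ)) ∧
  (∀ x, ∑ R, w R * ms g x R = (2 / (Fintype.card V : ℝ)) * ∑ c, u c * (1 - g x c)) ∧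
  (∀ x, ∑ R, w R * ms g x R ≤ 1 / 2 + 2 * η) ∧
  (∀ P, 0 ≤ DD g η w P) ∧
  (∑ P, w P * alp r P ≤ 2) ∧
  ((∑ x, u x * |r x|) / (Fintype.card V : ℝ) ≤ 2 * ∑ P, w P * alp r P)

/-- row U: uniform integrability of the potentials -/
def StUI : Prop := ∀ (V : Type) [Fintype V] (g z : V → V → ℝ) (r : V → ℝ) (η : ℝ)
    (w : V × V → ℝ), Dat g z r η → Wt g w (fun _ => 1) → (∀ P, w P ≠ 0 → ee z r P = 0) →
  8 * η ≤ 9 / 1000 → UIP r η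

/-- row C: a near-optimal matrix gives core weights -/
def StCoreNM : Prop := ∀ ε : ℝ, 0 < ε → ∃ δ : ℝ, 0 < δ ∧
  ∀ (V : Type) [Fintype V] (g z : V → V → ℝ) (r : V → ℝ) (η : ℝ) (M : V → V → ℝ),
    Dat g z r η → UIP r η → η ≤ δ → NM g z r M δ → Core g z r η (wOf g z r M) ε

/-- row T: pairs of type `(-a,-a)` are rare -/
def StT3 : Prop := ∀ ε : ℝ, 0 < ε → ∃ κ : ℝ, 0 < κ ∧
  ∀ (V : Type) [Fintype V] (g z : V → V → ℝ) (r : V → ℝ) (η : ℝ) (w : V × V → ℝ),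
    Dat g z r η → Core g z r η w κ → 
    (∑ P, open Classical in if T3 tt r P then w P else 0) ≤ ε

/-- row M: patterns with three missing pairs are rare -/
def StM3 : Prop := ∀ ε : ℝ, 0 < ε → ∃ κ : ℝ, 0 < κ ∧
  ∀ (V : Type) [Fintype V] (g z : V → V → ℝ) (r : V → ℝ) (η : ℝ) (w : V × V → ℝ),
    Dat g z r η → Core g z r η w κ →
    (∑ P, ∑ Q, open Classical in if M3 g P Q ∧ sl g z r P Q ≤ tt ∧ 14 * tt ≤ alp r P + alp r Q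
      then w P * w Q else 0) ≤ ε

/-- row O: pairs with small `α` -/
def StO : Prop := ∀ ε : ℝ, 0 < ε → ∃ κ : ℝ, 0 < κ ∧
  ∀ (V : Type) [Fintype V] (g z : V → V → ℝ) (r : V → ℝ) (η : ℝ) (w : V × V → ℝ),
    Dat g z r η → Core g z r η w κ →
    (∑ P, ∑ Q, open Classical in if alp r P ≤ 14 * tt ∧ 2 ≤ mm g P Q
      then w P * w Q else 0) ≤ ε ∧
    (∑ P, ∑ Q, open Classical in if alp r P ≤ 14 * tt ∧ mm g P Q < 1
      then w P * w Q else 0) ≤ ε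

/-- row B: bad patterns are rare and almost every pair has one missing cross pair on average -/
def StBad : Prop := ∀ ε : ℝ, 0 < ε → ∃ κ : ℝ, 0 < κ ∧
  ∀ (V : Type) [Fintype V] (g z : V → V → ℝ) (r : V → ℝ) (η : ℝ) (w : V × V → ℝ),
    Dat g z r η → Core g z r η w κ →
    (∑ P, ∑ Q, open Classical in if Bad g P Q then w P * w Q else 0) ≤ ε ∧
    1 - ε ≤ ∑ P, ∑ Q, w P * w Q * mm g P Q

/-- row S: the swap lemma -/
def StSwap : Prop := ∀ ε : ℝ, 0 < ε → ∃ δ : ℝ, 0 < δ ∧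
  ∀ (V : Type) [Fintype V] (g z : V → V → ℝ) (r : V → ℝ) (η : ℝ) (M : V → V → ℝ),
    Dat g z r η → UIP r η → η ≤ δ → NM g z r M δ →
    NM g z r (ht g η M) ε ∧
    ∑ x, (1 - (∑ y, (1 - g x y)) / ((1 / 4 + η) * (Fintype.card V : ℝ)))
      ≤ ε * (Fintype.card V : ℝ)

/-- row P: the averaged matrix -/
def StStar : Prop := ∀ ε : ℝ, 0 < ε → ∃ δ : ℝ, 0 < δ ∧
  ∀ (V : Type) [Fintype V] (g z : V → V → ℝ) (r : V → ℝ) (η : ℝ) (p : V → V → ℝ),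
    Dat g z r η → UIP r η → η ≤ δ → NM g z r p 0 → (∀ x y, p x y = p y x) →
    ∃ M : V → V → ℝ, NM g z r M ε ∧ (∀ x y, M x y = M y x) ∧
      (∀ x y, M x y ≤ 4 / (Fintype.card V : ℝ)) ∧
      (∑ x, ∑ c, (1 - g x c) * ∑ y, |M x y - M c y| ≤ ε * (Fintype.card V : ℝ) ^ 2) ∧
      ∑ x, (1 - (∑ y, (1 - g x y)) / ((1 / 4 + η) * (Fintype.card V : ℝ)))
        ≤ ε * (Fintype.card V : ℝ)

/-- row K: clusters of rows -/
def StClus : Prop := ∀ θ : ℝ, 0 < θ → θ ≤ 1 / 100 → ∃ ε : ℝ, 0 < ε ∧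
  ∀ (V : Type) [Fintype V] (g : V → V → ℝ) (η : ℝ) (M : V → V → ℝ),
    0 < (Fintype.card V : ℝ) → 0 ≤ η → η ≤ ε → (∀ x y, g x y = 0 ∨ g x y = 1) →
    (∀ x y, g x y = g y x) →
    (∀ x, ∑ y, (1 - g x y) ≤ (1 / 4 + η) * (Fintype.card V : ℝ)) →
    (∀ x y, 0 ≤ M x y) → (∀ x, ∑ y, M x y ≤ 1) →
    ((1 - ε) * (Fintype.card V : ℝ) ≤ ∑ x, ∑ y, M x y) →
    (∑ x, ∑ c, (1 - g x c) * ∑ y, |M x y - M c y| ≤ ε * (Fintype.card V : ℝ) ^ 2) →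
    (∑ x, (1 - (∑ y, (1 - g x y)) / ((1 / 4 + η) * (Fintype.card V : ℝ)))
        ≤ ε * (Fintype.card V : ℝ)) →
    ∃ (m : ℕ) (C : Fin m → Finset V), Clus g M θ (100000 * θ) m C

/-- row L: a matrix with nearly constant rows on clusters is nearly constant on blocks -/
def StBlock : Prop := ∀ (V : Type) [Fintype V] (M : V → V → ℝ) (A B : Finset V) (Θ : ℝ)
    (f : V → V → ℝ), 0 < (Fintype.card V : ℝ) → A.Nonempty → B.Nonempty →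
    (∀ x y, M x y = M y x) →
    (∀ x ∈ A, ∀ y ∈ A, ∑ c, |M x c - M y c| ≤ 2 * Θ) →
    (∀ x ∈ B, ∀ y ∈ B, ∑ c, |M x c - M y c| ≤ 2 * Θ) →
    (∀ x y, 0 ≤ f x y) → (∀ x y, f x y ≤ 1) →
    |(∑ x ∈ A, ∑ y ∈ B, M x y * f x y) -
      (∑ x ∈ A, ∑ y ∈ B, M x y) / ((A.card : ℝ) * (B.card : ℝ)) * ∑ x ∈ A, ∑ y ∈ B, f x y|
      ≤ 4 * Θ * (Fintype.card V : ℝ)

/-- row D1: no mass inside a cluster -/
def StLoop : Prop := ∀ (V : Type) [Fintype V] (g z : V → V → ℝ) (r : V → ℝ) (η : ℝ)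
    (M : V → V → ℝ) (ε θ Θ : ℝ) (m : ℕ) (C : Fin m → Finset V), Dat g z r η →
    NM g z r M ε → (∀ x y, M x y = M y x) → θ ≤ 1 / 100 → Clus g M θ Θ m C →
    ∀ i, wij M C i i ≤ 5 * (ε + 4 * Θ)

/-- row D2: `β` is small on heavy blocks -/
def StBeta : Prop := ∀ (V : Type) [Fintype V] (g z : V → V → ℝ) (r : V → ℝ) (η : ℝ)
    (M : V → V → ℝ) (ε κ θ Θ lam : ℝ) (m : ℕ) (C : Fin m → Finset V), Dat g z r η →
    NM g z r M ε → (∀ x y, M x y = M y x) → θ ≤ 1 / 1000 → Clus g M θ Θ m C → 0 < lam →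
    4 * Θ + ε ≤ lam / 200 →
    (∑ P, ∑ Q, wOf g z r M P * wOf g z r M Q * sl g z r P Q) ≤ κ →
    ∀ i j, lam ≤ wij M C i j →
      ∑ x ∈ C i, ∑ y ∈ C j, wOf g z r M (x, y) * (alp r (x, y) - r x - r y) ≤ 20 * κ / lam

/-- row D3: no triangle of heavy blocks -/
def StTri : Prop := ∀ lam : ℝ, 0 < lam → lam ≤ 1 / 100 → ∃ ξ : ℝ, 0 < ξ ∧
  ∀ (V : Type) [Fintype V] (g z : V → V → ℝ) (r : V → ℝ) (η : ℝ)
    (M : V → V → ℝ) (θ Θ : ℝ) (m : ℕ) (C : Fin m → Finset V), Dat g z r η → UIP r η → η ≤ ξ →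
    NM g z r M ξ → (∀ x y, M x y = M y x) → (∀ x y, M x y ≤ 4 / (Fintype.card V : ℝ)) →
    Core g z r η (wOf g z r M) ξ → 0 ≤ θ → θ ≤ ξ → Θ ≤ ξ → Clus g M θ Θ m C →
    ∀ i j k, i ≠ j → j ≠ k → i ≠ k →
      ¬ (lam ≤ wij M C i j ∧ lam ≤ wij M C j k ∧ lam ≤ wij M C i k)

/-- row E: the partition from a loopless triangle free graph of blocks -/
def StPart : Prop := ∀ (V : Type) [Fintype V] (g : V → V → ℝ)
    (M : V → V → ℝ) (θ Θ lam : ℝ) (m : ℕ) (C : Fin m → Finset V), 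
    0 < (Fintype.card V : ℝ) → (∀ x y, g x y = 0 ∨ g x y = 1) → (∀ x y, g x y = g y x) →
    (∀ x y, 0 ≤ M x y) → (∀ x, ∑ y, M x y ≤ 1) →
    (∀ x y, M x y = M y x) → (∀ x y, M x y ≤ 4 / (Fintype.card V : ℝ)) →
    0 ≤ θ → θ ≤ 1 / 100 → 0 < lam → Clus g M θ Θ m C →
    (∀ i, wij M C i i < lam) →
    (∀ i j k, i ≠ j → j ≠ k → i ≠ k →
      ¬ (lam ≤ wij M C i j ∧ lam ≤ wij M C j k ∧ lam ≤ wij M C i k)) →
    ∃ A : Finset V, |(A.card : ℝ) - (Fintype.card V : ℝ) / 2|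
        ≤ (8 * lam + 4 * θ) * (Fintype.card V : ℝ) ∧
      ∑ x ∈ A, (∑ y, (1 - g x y) - ∑ y ∈ A, (1 - g x y)) ≤ 4 * θ * (Fintype.card V : ℝ) ^ 2

/-- row F: the dual data of a graph without fractional triangle decomposition -/
def StDual : Prop := ∀ (n : ℕ) (G : SimpleGraph (Fin n)) [DecidableRel G.Adj] (η : ℝ),
    0 ≤ η → η ≤ 1 / 8 → (∀ v, (3 / 4 - η) * (n : ℝ) ≤ (G.degree v : ℝ)) →
    (¬ ∃ w : Finset (Fin n) → ℚ, (∀ t, 0 ≤ w t) ∧ (∀ t, w t ≠ 0 → G.IsNClique 3 t) ∧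
      ∀ u v, G.Adj u v →
        ∑ t ∈ Finset.univ.filter (fun t : Finset (Fin n) => u ∈ t ∧ v ∈ t), w t = 1) →
    ∃ (z : Fin n → Fin n → ℝ) (r : Fin n → ℝ) (p : Fin n → Fin n → ℝ),
      Dat (fun x y => if G.Adj x y then 1 else 0) z r η ∧
      NM (fun x y => if G.Adj x y then 1 else 0) z r p 0 ∧ (∀ x y, p x y = p y x) ∧
      Wt (fun x y => if G.Adj x y then 1 else 0) (fun P => p P.1 P.2 / (n : ℝ)) (fun _ => 1) ∧
      ∀ P : Fin n × Fin n, p P.1 P.2 / (n : ℝ) ≠ 0 → ee z r P = 0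

/-- **Stability of the fractional Nash-Williams theorem.** -/
def StMain : Prop := ∀ ρ : ℝ, 0 < ρ → ∃ η : ℝ, 0 < η ∧
  ∀ (n : ℕ) (G : SimpleGraph (Fin n)) [DecidableRel G.Adj],
    (∀ v, (3 / 4 - η) * (n : ℝ) ≤ (G.degree v : ℝ)) →
    (¬ ∃ w : Finset (Fin n) → ℚ, (∀ t, 0 ≤ w t) ∧ (∀ t, w t ≠ 0 → G.IsNClique 3 t) ∧
      ∀ u v, G.Adj u v →
        ∑ t ∈ Finset.univ.filter (fun t : Finset (Fin n) => u ∈ t ∧ v ∈ t), w t = 1) →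
    ∃ A : Finset (Fin n), |(A.card : ℝ) - (n : ℝ) / 2| ≤ ρ * (n : ℝ) ∧
      (((A ×ˢ Aᶜ).filter (fun e : Fin n × Fin n => ¬ G.Adj e.1 e.2)).card : ℝ)
        ≤ ρ * (n : ℝ) ^ 2

end ST
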